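import Pool.Agent.Q172.PS.N7

/-!
# The periodogram and the power spectra of the limit processes (helper172)
-/

set_option autoImplicit false

namespace Pool.Agent.Q172.PS

open Finset MeasureTheory Filter Topology Complex
open Pool.Agent.Q278.GF Pool.Agent.Q278.MC Pool.Agent.Q278.KM
open _root_.Q172.ZetaLim (IsLim seen map_shift shift)
open _root_.Q172.Mem (memLp_P)
open scoped ContDiff BoundedContinuousFunction ComplexConjugate

/-- the centred gaps -/
noncomputable def XX (n : ℕ) : ℝ := dl n - 1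

lemma PG.integrable {F : (ℤ → ℝ) → ℝ} (hF : PG F) {P : ProbabilityMeasure (ℤ → ℝ)}
    (hP : IsLim (seen dl) P) : Integrable F (P : Measure (ℤ → ℝ)) := by
  obtain ⟨C, hC, hb⟩ := hF.bounded
  have h1 := (_root_.Q172.ZetaLim.fatou hP hF.cont.abs (fun q => abs_nonneg _) (a := C) fun η hη =>
      Eventually.of_forall fun N => (hb N).trans
        (by nlinarith [(Nat.cast_nonneg N : (0 : ℝ) ≤ N)])).1
  refine h1.mono' hF.cont.aestronglyMeasurable (Eventually.of_forall fun q => ?_)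
  rw [Real.norm_eq_abs]

lemma spec_integrable {P : Measure (ℤ → ℝ)} {σ : Measure ℝ} (hσ : Spec P σ) {h : ℝ → ℝ}
    (hh : Continuous h) : Integrable h σ := by
  have := hσ.1
  obtain ⟨C, hC⟩ := (isCompact_Icc (a := (0 : ℝ)) (b := Real.pi)).exists_bound_of_continuousOn
    hh.continuousOn
  refine Integrable.of_bound hh.aestronglyMeasurable C ?_
  filter_upwards [ae_Icc hσ] with x hx using hC x hx

lemma XX_four : ∃ C : ℝ, 0 < C ∧ ∀ N : ℕ, ∑ n ∈ Icc 1 N, XX n ^ 4 ≤ C * N := by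
  obtain ⟨C, hC, h⟩ := dl_mom 3
  refine ⟨8 * C + 8, by positivity, fun N => ?_⟩
  have h1 : ∀ n ∈ Icc 1 N, XX n ^ 4 ≤ 8 * |dl n| ^ 4 + 8 := by
    intro n _
    unfold XX
    have h2 : |dl n| ^ 4 = dl n ^ 4 := by
      rw [show (4 : ℕ) = 2 * 2 by norm_num, pow_mul, sq_abs, ← pow_mul]
    rw [h2]
    nlinarith [sq_nonneg (dl n + 1), sq_nonneg (dl n - 1), sq_nonneg (dl n ^ 2 - 1),
      sq_nonneg (dl n ^ 2 + 2 * dl n + 1), mul_nonneg (sq_nonneg (dl n + 1)) (sq_nonneg (dl n - 1)),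
      sq_nonneg (dl n ^ 2 + dl n + 1), mul_nonneg (sq_nonneg (dl n + 1)) (sq_nonneg (dl n + 1))]
  refine (Finset.sum_le_sum h1).trans ?_
  rw [Finset.sum_add_distrib, ← Finset.mul_sum, Finset.sum_const, Nat.card_Icc, nsmul_eq_mul]
  have h3 := h N
  norm_num at h3 ⊢
  linarith

lemma XX_two : ∃ C : ℝ, 0 < C ∧ ∀ N : ℕ, ∑ n ∈ Icc 1 N, XX n ^ 2 ≤ C * N := by
  obtain ⟨C, hC, h⟩ := dl_mom 1
  refine ⟨2 * C + 2, by positivity, fun N => ?_⟩
  have h1 : ∀ n ∈ Icc 1 N, XX n ^ 2 ≤ 2 * |dl n| ^ 2 + 2 := by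
    intro n _
    unfold XX
    rw [sq_abs]
    nlinarith [sq_nonneg (dl n + 1)]
  refine (Finset.sum_le_sum h1).trans ?_
  rw [Finset.sum_add_distrib, ← Finset.mul_sum, Finset.sum_const, Nat.card_Icc, nsmul_eq_mul]
  have h3 := h N
  norm_num at h3 ⊢
  linarith

/-- the boundary terms are negligible -/
lemma edge_small (k : ℕ) {ε : ℝ} (hε : 0 < ε) : ∀ᶠ N : ℕ in atTop,
    |(∑ n ∈ Icc 1 (N - k), XX n * XX (n + k)) / (N : ℝ) -
      (∑ n ∈ Icc 1 N, XX n * XX (n + k)) / (N : ℝ)| ≤ ε := by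
  obtain ⟨C, hC, h4⟩ := XX_four
  set η : ℝ := ε / (2 * ((k : ℝ) + 1)) with hη
  have hη0 : 0 < η := by positivity
  have hlim : ∀ᶠ N : ℕ in atTop, (k : ℝ) * (C / (2 * η)) ≤ ε / 2 * N := by
    have : Tendsto (fun N : ℕ => ε / 2 * (N : ℝ)) atTop atTop :=
      Tendsto.const_mul_atTop (by positivity) tendsto_natCast_atTop_atTop
    exact this.eventually_ge_atTop _
  filter_upwards [hlim, eventually_ge_atTop (max k 1)] with N h1 h2
  have hNk : k ≤ N := (le_max_left _ _).trans h2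
  have hN1 : 1 ≤ N := (le_max_right _ _).trans h2
  have hN0 : (0 : ℝ) < N := by exact_mod_cast hN1
  have hsq : ∀ m, 1 ≤ m → m ≤ 2 * N → XX m ^ 2 ≤ η * N + C / (2 * η) := by
    intro m hm1 hm2
    have h5 : XX m ^ 4 ≤ C * ((2 * N : ℕ) : ℝ) :=
      (Finset.single_le_sum (f := fun m => XX m ^ 4) (fun i _ => by positivity)
        (Finset.mem_Icc.2 ⟨hm1, hm2⟩)).trans (h4 (2 * N))
    have h6 : XX m ^ 2 ≤ η * N + XX m ^ 4 / (4 * (η * N)) := by
      have hp : 0 < η * N := by positivity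
      rw [← sub_nonneg]
      have e : η * N + XX m ^ 4 / (4 * (η * N)) - XX m ^ 2 = (2 * (η * N) - XX m ^ 2) ^ 2 / (4 * (η * N)) := by
        field_simp
        ring
      rw [e]
      positivity
    refine h6.trans (add_le_add le_rfl ?_)
    rw [div_le_div_iff₀ (by positivity) (by positivity)]
    push_cast at h5
    have := mul_le_mul_of_nonneg_right h5 (by positivity : 0 ≤ 2 * η)
    linarith
  have e1 : ∑ n ∈ Icc 1 N, XX n * XX (n + k) = ∑ n ∈ Icc 1 (N - k), XX n * XX (n + k) +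
      ∑ n ∈ Ioc (N - k) N, XX n * XX (n + k) := by
    rw [← Finset.sum_union]
    · congr 1
      ext x
      simp only [Finset.mem_union, Finset.mem_Ioc, Finset.mem_Icc]
      omega
    · rw [Finset.disjoint_left]
      intro x hx hx2
      rw [Finset.mem_Icc] at hx
      rw [Finset.mem_Ioc] at hx2
      omega
  have h7 : |∑ n ∈ Ioc (N - k) N, XX n * XX (n + k)| ≤ k * (η * N + C / (2 * η)) := by
    refine (Finset.abs_sum_le_sum_abs _ _).trans ?_
    have h8 : ∀ n ∈ Ioc (N - k) N, |XX n * XX (n + k)| ≤ η * N + C / (2 * η) := by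
      intro n hn
      rw [Finset.mem_Ioc] at hn
      have a1 := hsq n (by omega) (by omega)
      have a2 := hsq (n + k) (by omega) (by omega)
      rw [abs_mul]
      nlinarith [sq_nonneg (|XX n| - |XX (n + k)|), sq_abs (XX n), sq_abs (XX (n + k))]
    refine (Finset.sum_le_sum h8).trans ?_
    rw [Finset.sum_const, Nat.card_Ioc, nsmul_eq_mul, Nat.sub_sub_self hNk]
  rw [← sub_div, e1, sub_add_cancel_left, abs_div, abs_neg, abs_of_pos hN0, div_le_iff₀ hN0]
  refine h7.trans ?_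
  have h9 : (k : ℝ) * (η * N) ≤ ε / 2 * N := by
    rw [hη]
    have : (k : ℝ) * (ε / (2 * ((k : ℝ) + 1)) * N) = (k : ℝ) / ((k : ℝ) + 1) * (ε / 2 * N) := by
      field_simp
    rw [this]
    refine mul_le_of_le_one_left (by positivity) ?_
    rw [div_le_one (by positivity)]
    linarith
  linarith

lemma pg_ii {h : ℝ → ℝ} (hh : Continuous h) (N : ℕ) (a b : ℝ) :
    IntervalIntegrable (fun x => pg XX N x * h x) volume a b :=
  ((pg_cont N).mul hh).intervalIntegrable _ _

/-- test functions for which the periodogram is seen by the limit processes -/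
structure Gd (h : ℝ → ℝ) : Prop where
  cont : Continuous h
  ex : ∃ F : (ℤ → ℝ) → ℝ, PG F ∧ (∀ P : ProbabilityMeasure (ℤ → ℝ), IsLim (seen dl) P →
    ∀ σ : Measure ℝ, Spec (P : Measure (ℤ → ℝ)) σ →
      ∫ q, F q ∂(P : Measure (ℤ → ℝ)) = ∫ x, h x ∂σ) ∧ ∀ ε : ℝ, 0 < ε → ∀ᶠ N : ℕ in atTop,
        |(∫ x in (0 : ℝ)..Real.pi, pg XX N x * h x) / (Real.pi * N) -
          (∑ n ∈ Icc 1 N, F (seen dl n)) / (N : ℝ)| ≤ ε

lemma Gd_cos (k : ℕ) : Gd fun x => Real.cos ((k : ℝ) * x) := by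
  refine ⟨by fun_prop, fun q => (q 0 - 1) * (q k - 1),
    ((PG.coord 0).sub (PG.const 1)).mul ((PG.coord k).sub (PG.const 1)), fun P _ σ hσ => hσ.2.2 k,
    fun ε hε => ?_⟩
  filter_upwards [edge_small k hε] with N hN
  have hpi := Real.pi_pos
  rw [pg_int, mul_div_mul_left _ _ hpi.ne']
  have e : ∑ n ∈ Icc 1 N, (seen dl n 0 - 1) * (seen dl n (k : ℤ) - 1) =
      ∑ n ∈ Icc 1 N, XX n * XX (n + k) := by
    refine Finset.sum_congr rfl fun n hn => ?_
    rw [Finset.mem_Icc] at hn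
    unfold XX seen
    rw [if_pos (by omega), if_pos (by omega)]
    congr 3
  rw [e]
  exact hN

lemma Gd_add {g h : ℝ → ℝ} (hg : Gd g) (hh : Gd h) : Gd (g + h) := by
  obtain ⟨c1, F, a1, a2, a3⟩ := hg
  obtain ⟨c2, G, b1, b2, b3⟩ := hh
  refine ⟨c1.add c2, fun q => F q + G q, a1.add b1, fun P hP σ hσ => ?_, fun ε hε => ?_⟩
  · rw [integral_add (a1.integrable hP) (b1.integrable hP), a2 P hP σ hσ, b2 P hP σ hσ,
      ← integral_add (spec_integrable hσ c1) (spec_integrable hσ c2)]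
    rfl
  · filter_upwards [a3 (ε / 2) (by positivity), b3 (ε / 2) (by positivity)] with N k1 k2
    have e : ∫ x in (0 : ℝ)..Real.pi, pg XX N x * (g + h) x =
        (∫ x in (0 : ℝ)..Real.pi, pg XX N x * g x) + ∫ x in (0 : ℝ)..Real.pi, pg XX N x * h x := by
      rw [← intervalIntegral.integral_add (pg_ii c1 N _ _) (pg_ii c2 N _ _)]
      refine intervalIntegral.integral_congr fun x _ => ?_
      simp only [Pi.add_apply]
      ring
    rw [e, Finset.sum_add_distrib, add_div, add_div]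
    have := abs_add_le ((∫ x in (0 : ℝ)..Real.pi, pg XX N x * g x) / (Real.pi * N) -
      (∑ n ∈ Icc 1 N, F (seen dl n)) / (N : ℝ)) ((∫ x in (0 : ℝ)..Real.pi, pg XX N x * h x) / (Real.pi * N) -
      (∑ n ∈ Icc 1 N, G (seen dl n)) / (N : ℝ))
    have e2 : ∀ a b c d : ℝ, a + b - (c + d) = (a - c) + (b - d) := fun a b c d => by ring
    rw [e2]
    linarith

lemma Gd_smul (a : ℝ) {g : ℝ → ℝ} (hg : Gd g) : Gd (a • g) := by
  obtain ⟨c1, F, a1, a2, a3⟩ := hg
  refine ⟨c1.const_smul a, fun q => a * F q, (PG.const a).mul a1, fun P hP σ hσ => ?_, fun ε hε => ?_⟩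
  · rw [integral_const_mul, a2 P hP σ hσ, ← integral_const_mul]
    rfl
  · filter_upwards [a3 (ε / (|a| + 1)) (by positivity)] with N k1
    have e : ∫ x in (0 : ℝ)..Real.pi, pg XX N x * (a • g) x =
        a * ∫ x in (0 : ℝ)..Real.pi, pg XX N x * g x := by
      rw [← intervalIntegral.integral_const_mul]
      refine intervalIntegral.integral_congr fun x _ => ?_
      simp only [Pi.smul_apply, smul_eq_mul]
      ring
    rw [e, ← Finset.mul_sum, mul_div_assoc, mul_div_assoc, ← mul_sub, abs_mul]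
    rw [le_div_iff₀ (by positivity)] at k1
    have := abs_nonneg ((∫ x in (0 : ℝ)..Real.pi, pg XX N x * g x) / (Real.pi * N) -
      (∑ n ∈ Icc 1 N, F (seen dl n)) / (N : ℝ))
    nlinarith [abs_nonneg a]

lemma Gd_zero : Gd (0 : ℝ → ℝ) := by
  have := Gd_smul 0 (Gd_cos 0)
  rwa [zero_smul] at this

lemma Gd_CP {h : ℝ → ℝ} (hh : h ∈ CP) : Gd h := by
  unfold CP at hh
  induction hh using Submodule.span_induction with
  | mem g hg =>
    obtain ⟨k, rfl⟩ := hg
    exact Gd_cos k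
  | zero => exact Gd_zero
  | add f g _ _ h1 h2 => exact Gd_add h1 h2
  | smul a f _ h1 => exact Gd_smul a h1

/-- cosine polynomials are uniformly dense -/
lemma approx {h : ℝ → ℝ} (hh : Continuous h) {η : ℝ} (hη : 0 < η) : ∃ p : ℝ → ℝ, Gd p ∧
    ∀ x ∈ Set.Icc 0 Real.pi, |p x - h x| ≤ η := by
  obtain ⟨p, hp⟩ := exists_polynomial_near_of_continuousOn (-1) 1 (fun y => h (Real.arccos y))
    (hh.comp Real.continuous_arccos).continuousOn η hη
  refine ⟨fun x => p.eval (Real.cos x), Gd_CP (poly_CP p), fun x hx => ?_⟩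
  have h1 := hp (Real.cos x) ⟨Real.neg_one_le_cos x, Real.cos_le_one x⟩
  simp only [Real.arccos_cos hx.1 hx.2] at h1
  exact h1.le

lemma pg_mass (N : ℕ) : ∫ x in (0 : ℝ)..Real.pi, pg XX N x = Real.pi * ∑ n ∈ Icc 1 N, XX n ^ 2 := by
  have h1 := pg_int (X := XX) N 0
  simp only [Nat.cast_zero, zero_mul, Real.cos_zero, mul_one, Nat.sub_zero, add_zero] at h1
  rw [h1]
  congr 1
  exact Finset.sum_congr rfl fun n _ => (pow_two _).symm

/-- **continuous test functions** -/
theorem pg_le {h : ℝ → ℝ} (hh : Continuous h) {a ε : ℝ} (hε : 0 < ε)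
    (hP : ∀ P : ProbabilityMeasure (ℤ → ℝ), IsLim (seen dl) P → ∀ σ : Measure ℝ,
      Spec (P : Measure (ℤ → ℝ)) σ → ∫ x, h x ∂σ ≤ a) :
    ∀ᶠ N : ℕ in atTop, (∫ x in (0 : ℝ)..Real.pi, pg XX N x * h x) / (Real.pi * N) ≤ a + ε := by
  obtain ⟨C1, hC1, hx2⟩ := XX_two
  obtain ⟨C2, hC2, hm⟩ := mass_le
  have hpi := Real.pi_pos
  set C := C1 + C2 * Real.pi ^ 2 with hC
  have hC0 : 0 < C := by positivity
  set η := ε / (4 * C) with hη
  have hη0 : 0 < η := by positivity
  have hηC : η * C = ε / 4 := by rw [hη]; field_simp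
  obtain ⟨p, hp, hpa⟩ := approx hh hη0
  obtain ⟨c1, F, a1, a2, a3⟩ := hp
  have h1 : ∀ P : ProbabilityMeasure (ℤ → ℝ), IsLim (seen dl) P →
      ∫ q, F q ∂(P : Measure (ℤ → ℝ)) ≤ a + ε / 4 := by
    intro P hPl
    obtain ⟨σ, hσ⟩ := exists_spec (map_shift hPl) (memLp_P hPl)
    have hfin := hσ.1
    have h2 := hP P hPl σ hσ
    rw [a2 P hPl σ hσ]
    have h3 : ∫ x, p x ∂σ ≤ ∫ x, (h x + η) ∂σ := by
      refine integral_mono_ae (spec_integrable hσ c1) ((spec_integrable hσ hh).add (integrable_const _)) ?_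
      filter_upwards [ae_Icc hσ] with x hx
      have := (abs_le.1 (hpa x hx)).2
      linarith
    rw [integral_add (spec_integrable hσ hh) (integrable_const _), integral_const, smul_eq_mul] at h3
    have h4 : σ.real Set.univ ≤ C := by
      have h5 : σ.real Set.univ = σ.real (Set.Icc 0 Real.pi) := by
        rw [measureReal_def, measureReal_def]
        congr 1
        rw [← measure_add_measure_compl (μ := σ) (measurableSet_Icc (a := (0 : ℝ)) (b := Real.pi)),
          hσ.2.1, add_zero]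
      rw [h5]
      have := hm P hPl σ hσ Real.pi hpi.le
      linarith
    have h6 : σ.real Set.univ * η ≤ ε / 4 := by
      rw [← hηC, mul_comm η]
      exact mul_le_mul_of_nonneg_right h4 hη0.le
    linarith
  have h2 := a1.le (by positivity : 0 < ε / 4) h1
  filter_upwards [h2, a3 (ε / 4) (by positivity), eventually_ge_atTop 1] with N k1 k2 k3
  have hN0 : (0 : ℝ) < N := by exact_mod_cast k3
  have h4 : ∫ x in (0 : ℝ)..Real.pi, pg XX N x * h x ≤
      ∫ x in (0 : ℝ)..Real.pi, (pg XX N x * p x + pg XX N x * η) := by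
    refine intervalIntegral.integral_mono_on hpi.le (pg_ii hh N _ _)
      ((pg_ii c1 N _ _).add (pg_ii continuous_const N _ _)) ?_
    intro x hx
    have := (abs_le.1 (hpa x hx)).1
    nlinarith [pg_nonneg (X := XX) N x]
  rw [intervalIntegral.integral_add (pg_ii c1 N _ _) (pg_ii continuous_const N _ _),
    intervalIntegral.integral_mul_const, pg_mass] at h4
  have h5 : (∫ x in (0 : ℝ)..Real.pi, pg XX N x * h x) / (Real.pi * N) ≤
      (∫ x in (0 : ℝ)..Real.pi, pg XX N x * p x) / (Real.pi * N) + ε / 4 := by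
    rw [div_add' _ _ _ (by positivity)]
    refine div_le_div_of_nonneg_right (h4.trans (add_le_add le_rfl ?_)) (by positivity)
    have h6 := hx2 N
    have h7 : C1 ≤ C := by
      rw [hC]
      have : 0 ≤ C2 * Real.pi ^ 2 := by positivity
      linarith
    calc Real.pi * (∑ n ∈ Icc 1 N, XX n ^ 2) * η ≤ Real.pi * (C * N) * η := by
          refine mul_le_mul_of_nonneg_right (mul_le_mul_of_nonneg_left ?_ hpi.le) hη0.le
          exact h6.trans (mul_le_mul_of_nonneg_right h7 hN0.le)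
      _ = (η * C) * (Real.pi * N) := by ring
      _ = ε / 4 * (Real.pi * N) := by rw [hηC]
  have h8 := (abs_le.1 k2).2
  linarith

end Pool.Agent.Q172.PS
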