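import Pool.Agent.Q278.KM.H
import Pool.Agent.Q278.GF.M

/-!
# Moments of the linear statistics at fixed large scales (helper172)
-/

set_option autoImplicit false

namespace Pool.Agent.Q172.PS

open Finset MeasureTheory Filter Topology
open Pool.Agent.Q278.GF Pool.Agent.Q278.MC Pool.Agent.Q278.KM

variable {φ φ' : ℝ → ℝ} {B0 B2 R : ℝ}

lemma add_pow_two_mul (a b : ℝ) (m : ℕ) :
    |a + b| ^ (2 * (m + 1)) ≤ 2 ^ (2 * (m + 1)) * (|a| ^ (2 * (m + 1)) + |b| ^ (2 * (m + 1))) := by
  have h1 : |a + b| ≤ 2 * max |a| |b| := by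
    refine (abs_add_le a b).trans ?_
    have := le_max_left |a| |b|
    have := le_max_right |a| |b|
    linarith
  have h2 : (max |a| |b|) ^ (2 * (m + 1)) ≤ |a| ^ (2 * (m + 1)) + |b| ^ (2 * (m + 1)) := by
    rcases max_choice |a| |b| with h | h <;> rw [h]
    · have : 0 ≤ |b| ^ (2 * (m + 1)) := by positivity
      linarith
    · have : 0 ≤ |a| ^ (2 * (m + 1)) := by positivity
      linarith
  calc |a + b| ^ (2 * (m + 1)) ≤ (2 * max |a| |b|) ^ (2 * (m + 1)) :=
        pow_le_pow_left₀ (abs_nonneg _) h1 _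
    _ = 2 ^ (2 * (m + 1)) * (max |a| |b|) ^ (2 * (m + 1)) := mul_pow _ _ _
    _ ≤ _ := mul_le_mul_of_nonneg_left h2 (by positivity)

/-- moments at a fixed large scale -/
theorem sh_mom (h : Tst φ φ' B0 B2 R) (hf : CC (fc φ)) (m : ℕ) : ∃ C L0 : ℝ, 0 < C ∧ 1 ≤ L0 ∧ ∀ L : ℝ,
    L0 ≤ L → ∀ᶠ T : ℝ in atTop, av T (fun t => |Sh φ L T t| ^ (2 * (m + 1))) ≤ C := by
  by_contra hcon
  push Not at hcon
  have hch : ∀ n : ℕ, ∃ L T : ℝ, (n : ℝ) + 1 ≤ L ∧ Real.exp (((n : ℝ) + 1) * L) ≤ T ∧
      (n : ℝ) + 1 < av T (fun t => |Sh φ L T t| ^ (2 * (m + 1))) := by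
    intro n
    obtain ⟨L, hL, h1⟩ := hcon ((n : ℝ) + 1) ((n : ℝ) + 1) (by positivity)
      (by linarith [(Nat.cast_nonneg n : (0 : ℝ) ≤ n)])
    have h2 := h1.and_eventually (eventually_ge_atTop (Real.exp (((n : ℝ) + 1) * L)))
    obtain ⟨T, h3, h4⟩ := h2.exists
    exact ⟨L, T, hL, h4, h3⟩
  choose L T hL hT hbad using hch
  have hn0 : ∀ n : ℕ, (0 : ℝ) ≤ n := fun n => Nat.cast_nonneg n
  have hL1 : ∀ n, 1 ≤ L n := fun n => by linarith [hL n, hn0 n]
  have hlog : ∀ n : ℕ, ((n : ℝ) + 1) * L n ≤ Real.log (T n) := by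
    intro n
    rw [Real.le_log_iff_exp_le ((Real.exp_pos _).trans_le (hT n))]
    exact hT n
  have hTpos : ∀ n, 0 < T n := fun n => (Real.exp_pos _).trans_le (hT n)
  have hLtop : Tendsto L atTop atTop := by
    refine tendsto_atTop_mono (fun n => hL n) ?_
    exact tendsto_atTop_add_const_right _ _ tendsto_natCast_atTop_atTop
  have hlogtop : Tendsto (fun n => Real.log (T n)) atTop atTop := by
    refine tendsto_atTop_mono (fun n => ?_) hLtop
    have := hlog n
    nlinarith [hL1 n, hn0 n]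
  have hTtop : Tendsto T atTop atTop := by
    have : Tendsto (fun n => Real.exp (Real.log (T n))) atTop atTop := Real.tendsto_exp_atTop.comp hlogtop
    exact this.congr fun n => Real.exp_log (hTpos n)
  have hratio : Tendsto (fun n => L n / Real.log (T n)) atTop (𝓝 0) := by
    have h1 : Tendsto (fun n : ℕ => 1 / ((n : ℝ) + 1)) atTop (𝓝 0) := tendsto_one_div_add_atTop_nhds_zero_nat
    refine squeeze_zero (fun n => ?_) (fun n => ?_) h1
    · exact div_nonneg (by linarith [hL1 n]) (by nlinarith [hlog n, hL1 n, hn0 n])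
    · have h2 : 0 < Real.log (T n) := by nlinarith [hlog n, hL1 n, hn0 n]
      rw [div_le_div_iff₀ h2 (by linarith [hn0 n])]
      linarith [hlog n]
  -- the modified sequences
  set T' : ℕ → ℝ := fun n => T n / 2 with hT'
  set L' : ℕ → ℝ := fun n => L n * (Real.log (T n / 2) / Real.log (T n)) with hL'
  have hT'top : Tendsto T' atTop atTop := half_lim.comp hTtop
  have hlh := log_half.comp hTtop
  have hL'top : Tendsto L' atTop atTop := hLtop.atTop_mul_pos (by norm_num : (0 : ℝ) < 1) hlh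
  have hlogT' : Tendsto (fun n => Real.log (T' n)) atTop atTop := Real.tendsto_log_atTop.comp hT'top
  have hratio' : Tendsto (fun n => L' n / Real.log (T' n)) atTop (𝓝 0) := by
    refine hratio.congr' ?_
    filter_upwards [hlogT'.eventually_gt_atTop 0, hlogtop.eventually_gt_atTop 0] with n h1 h2
    rw [hL', hT'] at *
    simp only at h1 ⊢
    field_simp
  obtain ⟨C, hC, hmom⟩ := st_mom hf m hT'top hL'top hratio'
  have h1 : Tendsto (fun n => (L' n - L n) * ∫ x, φ x) atTop (𝓝 0) := by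
    have h1 : Tendsto (fun n => L' n - L n) atTop (𝓝 0) := by
      have h2 := hratio.const_mul (-Real.log 2)
      rw [mul_zero] at h2
      refine h2.congr' ?_
      filter_upwards [hlogtop.eventually_gt_atTop 0] with n h3
      rw [hL']
      simp only
      rw [Real.log_div (hTpos n).ne' (by norm_num)]
      field_simp
      ring
    have h4 := (h1.mul_const (∫ x, φ x))
    rwa [zero_mul] at h4
  have h1' := (Metric.tendsto_nhds.1 h1) 1 one_pos
  have hscT : Tendsto (fun n => sc (T n) / L n) atTop atTop := by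
    have e : (fun n => sc (T n) / L n) = fun n => (1 / (2 * Real.pi)) * (Real.log (T n) / L n) := by
      funext n; unfold sc; ring
    rw [e]
    refine Tendsto.const_mul_atTop (by positivity) ?_
    refine tendsto_atTop_mono (fun n => ?_) tendsto_natCast_atTop_atTop
    rw [le_div_iff₀ (by linarith [hL1 n])]
    nlinarith [hlog n, hL1 n, hn0 n]
  have hbig : ∀ᶠ n : ℕ in atTop, 2 ^ (2 * (m + 1)) * (C + 1) ≤ (n : ℝ) + 1 := by
    have := tendsto_natCast_atTop_atTop (R := ℝ) |>.eventually_ge_atTop (2 ^ (2 * (m + 1)) * (C + 1))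
    filter_upwards [this] with n hn
    linarith
  obtain ⟨n, ⟨⟨g1, g2⟩, g3⟩, ⟨g4, g5⟩, g6⟩ := ((hmom.and h1').and hbig).and
    (((hscT.eventually_ge_atTop 1).and (hTtop.eventually_gt_atTop (max 2 (2 * R)))).and
      ((hlogT'.eventually_gt_atTop 0).and (hlogtop.eventually_gt_atTop 0))) |>.exists
  refine absurd (hbad n) (not_lt.2 ?_)
  have hLn : 0 < L n := by linarith [hL1 n]
  have hTn := hTpos n
  have hT2 : 2 < T n := (le_max_left _ _).trans_lt g5
  have hTR : 2 * R < T n := (le_max_right _ _).trans_lt g5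
  have ha : aP (L' n) (T' n) = sc (T n) / L n := by
    unfold aP sc
    obtain ⟨g6, g7⟩ := g6
    rw [hL', hT'] at *
    simp only at g6 ⊢
    have := Real.pi_pos
    field_simp
  have e2 : 2 * T' n = T n := by rw [hT']; ring
  have e1 : 1 / T' n = 2 / T n := by
    rw [hT']; simp only; field_simp
  rw [e1, e2] at g1
  set c := (L' n - L n) * ∫ x, φ x with hc
  have hSh : ∀ t, Sh φ (L n) (T n) t = st φ (L' n) (T' n) t + c := by
    intro t
    unfold Sh st
    rw [ha, hc]
    ring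
  have hc1 : |c| ≤ 1 := by
    rw [dist_zero_right, Real.norm_eq_abs] at g2
    exact g2.le
  have hcont : ContinuousOn (Sh φ (L n) (T n)) (Set.Icc (T n / 2) (T n)) := by
    have := Sh_cont (c := 0) (L := L n) h g4 hTR
    rwa [add_zero] at this
  have hle : T n / 2 ≤ T n := by linarith
  have hcs : ContinuousOn (st φ (L' n) (T' n)) (Set.Icc (T n / 2) (T n)) := by
    have e3 : st φ (L' n) (T' n) = fun t => Sh φ (L n) (T n) t - c := by
      funext t; rw [hSh]; ring
    rw [e3]
    exact hcont.sub continuousOn_const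
  have i1 : IntervalIntegrable (fun t => |Sh φ (L n) (T n) t| ^ (2 * (m + 1))) volume (T n / 2) (T n) := by
    apply ContinuousOn.intervalIntegrable
    rw [Set.uIcc_of_le hle]
    exact hcont.abs.pow _
  have i2 : IntervalIntegrable (fun t => |st φ (L' n) (T' n) t| ^ (2 * (m + 1))) volume (T n / 2) (T n) := by
    apply ContinuousOn.intervalIntegrable
    rw [Set.uIcc_of_le hle]
    exact hcs.abs.pow _
  have key : ∫ t in (T n / 2)..(T n), |Sh φ (L n) (T n) t| ^ (2 * (m + 1)) ≤
      ∫ t in (T n / 2)..(T n), (2 ^ (2 * (m + 1)) * |st φ (L' n) (T' n) t| ^ (2 * (m + 1)) +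
        2 ^ (2 * (m + 1))) := by
    refine intervalIntegral.integral_mono_on hle i1 ((i2.const_mul _).add intervalIntegrable_const) ?_
    intro t _
    rw [hSh]
    refine (add_pow_two_mul _ _ m).trans ?_
    have : |c| ^ (2 * (m + 1)) ≤ 1 := pow_le_one₀ (abs_nonneg _) hc1
    have h2 : (0 : ℝ) < 2 ^ (2 * (m + 1)) := by positivity
    nlinarith
  have hT'2 : T' n = T n / 2 := rfl
  unfold av
  rw [intervalIntegral.integral_add (i2.const_mul _) intervalIntegrable_const,
    intervalIntegral.integral_const_mul, intervalIntegral.integral_const, smul_eq_mul] at key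
  rw [hT'2] at g1
  have h2 : (0 : ℝ) < 2 ^ (2 * (m + 1)) := by positivity
  calc 2 / T n * ∫ t in (T n / 2)..(T n), |Sh φ (L n) (T n) t| ^ (2 * (m + 1)) ≤
      2 / T n * (2 ^ (2 * (m + 1)) * (∫ t in (T n / 2)..(T n), |st φ (L' n) (T n / 2) t| ^ (2 * (m + 1))) +
        (T n - T n / 2) * 2 ^ (2 * (m + 1))) := mul_le_mul_of_nonneg_left key (by positivity)
    _ = 2 ^ (2 * (m + 1)) * ((2 / T n * ∫ t in (T n / 2)..(T n), |st φ (L' n) (T n / 2) t| ^ (2 * (m + 1))) + 1) := by
      field_simp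
      ring
    _ ≤ 2 ^ (2 * (m + 1)) * (C + 1) := mul_le_mul_of_nonneg_left (by linarith) h2.le
    _ ≤ _ := g3

/-- a translate -/
theorem sh_mom_tr (h : Tst φ φ' B0 B2 R) (hf : CC (fc φ)) (m : ℕ) : ∃ C L0 : ℝ, 0 < C ∧ 1 ≤ L0 ∧
    ∀ L : ℝ, L0 ≤ L → ∀ c : ℝ, 0 ≤ c → ∀ᶠ T : ℝ in atTop,
      av T (fun t => |Sh φ L T (t + c / sc T)| ^ (2 * (m + 1))) ≤ C ∧
      ContinuousOn (fun t => Sh φ L T (t + c / sc T)) (Set.Icc (T / 2) T) := by
  obtain ⟨C, L0, hC, hL0, h1⟩ := sh_mom h hf m
  obtain ⟨C2, R2, hC2, hR2, h2⟩ := st_triv hf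
  refine ⟨C + 1, L0, by positivity, hL0, fun L hL c hc => ?_⟩
  have hLpos : 0 < L := by linarith
  have hscT : Tendsto (fun T => sc T / L) atTop atTop := sc_top.atTop_div_const hLpos
  have hlim : Tendsto (fun T : ℝ => (4 * Real.pi * c * C2 ^ (2 * (m + 1))) *
      (Real.log T ^ (2 * (m + 1)) / T)) atTop (𝓝 0) := Pool.Agent.Q276.NV.logpow_lim _ _
  filter_upwards [h1 L hL, hscT.eventually_ge_atTop 1, hscT.eventually_ge_atTop (R2 + 1),
    sc_top.eventually_ge_atTop 1, eventually_gt_atTop (2 * R), eventually_ge_atTop 10,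
    Real.tendsto_log_atTop.eventually_ge_atTop L, eventually_ge_atTop c,
    Real.tendsto_log_atTop.eventually_ge_atTop (1 : ℝ),
    hlim.eventually_le_const (u := 1) (by norm_num)] with T g1 g2 g3 g4 g5 g6 g7 g8 g9 g10
  have hT0 : 0 < T := by linarith
  have hs0 : 0 < sc T := by linarith
  have hcs : c / sc T ≤ T := (div_le_self hc g4).trans g8
  have hcs0 : 0 ≤ c / sc T := div_nonneg hc hs0.le
  have hcont := Sh_cont (c := c / sc T) (L := L) h g2 g5
  have hmap : ContinuousOn (fun t => Sh φ L T (t + c / sc T)) (Set.Icc (T / 2) T) := by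
    refine hcont.comp (by fun_prop) fun t ht => ?_
    rw [Set.mem_Icc] at ht ⊢
    constructor <;> linarith [ht.1, ht.2]
  refine ⟨?_, hmap⟩
  have hi : ∀ a b, T / 2 ≤ a → a ≤ b → b ≤ T + c / sc T →
      IntervalIntegrable (fun t => |Sh φ L T t| ^ (2 * (m + 1))) volume a b := by
    intro a b ha hab hb
    apply ContinuousOn.intervalIntegrable
    rw [Set.uIcc_of_le hab]
    exact ((hcont.mono (Set.Icc_subset_Icc ha hb)).abs).pow _
  have e1 : ∫ t in (T / 2)..T, |Sh φ L T (t + c / sc T)| ^ (2 * (m + 1)) =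
      ∫ t in (T / 2 + c / sc T)..(T + c / sc T), |Sh φ L T t| ^ (2 * (m + 1)) :=
    intervalIntegral.integral_comp_add_right (fun t => |Sh φ L T t| ^ (2 * (m + 1))) _
  have e2 := intervalIntegral.integral_add_adjacent_intervals
    (hi (T / 2) T le_rfl (by linarith) (by linarith)) (hi T (T + c / sc T) (by linarith) (by linarith) le_rfl)
  have e3 : ∫ t in (T / 2 + c / sc T)..(T + c / sc T), |Sh φ L T t| ^ (2 * (m + 1)) ≤
      ∫ t in (T / 2)..(T + c / sc T), |Sh φ L T t| ^ (2 * (m + 1)) := by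
    refine intervalIntegral.integral_mono_interval (by linarith) (by linarith) le_rfl
      (Eventually.of_forall fun t => by positivity) (hi _ _ le_rfl (by linarith) le_rfl)
  have e4 : ∫ t in T..(T + c / sc T), |Sh φ L T t| ^ (2 * (m + 1)) ≤
      (c / sc T) * (C2 * Real.log T) ^ (2 * (m + 1)) := by
    have h5 : ∫ t in T..(T + c / sc T), |Sh φ L T t| ^ (2 * (m + 1)) ≤
        ∫ _t in T..(T + c / sc T), (C2 * Real.log T) ^ (2 * (m + 1)) := by
      refine intervalIntegral.integral_mono_on (by linarith) (hi _ _ (by linarith) (by linarith) le_rfl)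
        intervalIntegrable_const fun t ht => ?_
      have haP : aP L T = sc T / L := by
        unfold aP sc
        rw [div_div]
      have h6 : Sh φ L T t = st φ L T t := by
        unfold Sh st
        rw [haP]
      rw [h6]
      refine pow_le_pow_left₀ (abs_nonneg _) ?_ _
      exact h2 L T t g6 hLpos.le g7 (by rw [haP]; exact g3) ht.1 (by linarith [ht.2])
    rw [intervalIntegral.integral_const, smul_eq_mul] at h5
    refine h5.trans (le_of_eq ?_)
    ring
  have hsc : sc T * (2 * Real.pi) = Real.log T := by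
    unfold sc
    have := Real.pi_pos
    field_simp
  have e5 : 2 / T * ((c / sc T) * (C2 * Real.log T) ^ (2 * (m + 1))) ≤ 1 := by
    refine le_trans ?_ g10
    have h7 : c / sc T ≤ c := div_le_self hc g4
    have h8 : 0 ≤ (C2 * Real.log T) ^ (2 * (m + 1)) := by positivity
    have hpi := Real.pi_gt_three
    calc 2 / T * ((c / sc T) * (C2 * Real.log T) ^ (2 * (m + 1))) ≤
        2 / T * (c * (C2 * Real.log T) ^ (2 * (m + 1))) := by gcongr
      _ = 2 * (c * C2 ^ (2 * (m + 1)) * (Real.log T ^ (2 * (m + 1)) / T)) := by rw [mul_pow]; ring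
      _ ≤ (4 * Real.pi) * (c * C2 ^ (2 * (m + 1)) * (Real.log T ^ (2 * (m + 1)) / T)) := by
        refine mul_le_mul_of_nonneg_right (by linarith) (by positivity)
      _ = _ := by ring
  unfold av at g1 ⊢
  rw [e1]
  calc 2 / T * ∫ t in (T / 2 + c / sc T)..(T + c / sc T), |Sh φ L T t| ^ (2 * (m + 1)) ≤
      2 / T * ∫ t in (T / 2)..(T + c / sc T), |Sh φ L T t| ^ (2 * (m + 1)) :=
        mul_le_mul_of_nonneg_left e3 (by positivity)
    _ = 2 / T * (∫ t in (T / 2)..T, |Sh φ L T t| ^ (2 * (m + 1))) +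
        2 / T * ∫ t in T..(T + c / sc T), |Sh φ L T t| ^ (2 * (m + 1)) := by rw [← e2]; ring
    _ ≤ C + 2 / T * ((c / sc T) * (C2 * Real.log T) ^ (2 * (m + 1))) :=
        add_le_add g1 (mul_le_mul_of_nonneg_left e4 (by positivity))
    _ ≤ C + 1 := by linarith

end Pool.Agent.Q172.PS
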