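import Pool.Agent.Q172.PS.A

/-!
# The discrepancy as a sum over dyadic scales (helper172)
-/

set_option autoImplicit false

namespace Pool.Agent.Q172.PS

open Finset MeasureTheory Filter Topology
open Pool.Agent.Q278.GF Pool.Agent.Q278.MC Pool.Agent.Q278.KM
open scoped ContDiff

/-- a smooth step -/
noncomputable def tau (e u : ℝ) : ℝ := Real.smoothTransition (u + e)

/-- the difference of two scales -/
noncomputable def bb (e u : ℝ) : ℝ := tau e u - tau e (u / 2)

/-- the reflection -/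
noncomputable def bt (e u : ℝ) : ℝ := bb e (-u)

/-- the top scale -/
noncomputable def hh (e u : ℝ) : ℝ := tau e u + tau e (1 - u) - 1

/-- the smooth window -/
noncomputable def Fw (e m0 x u : ℝ) : ℝ := tau e (u / m0) + tau e ((x - u) / m0) - 1

variable {e : ℝ}

lemma tau_cd : ContDiff ℝ ∞ (tau e) := by
  unfold tau
  exact Real.smoothTransition.contDiff.comp (contDiff_id.add contDiff_const)

lemma tau_one {u : ℝ} (h : 1 ≤ u + e) : tau e u = 1 := Real.smoothTransition.one_of_one_le h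

lemma tau_zero {u : ℝ} (h : u + e ≤ 0) : tau e u = 0 := Real.smoothTransition.zero_of_nonpos h

lemma tau_nonneg (u : ℝ) : 0 ≤ tau e u := Real.smoothTransition.nonneg _

lemma tau_le (u : ℝ) : tau e u ≤ 1 := Real.smoothTransition.le_one _

lemma bb_cd : ContDiff ℝ ∞ (bb e) := by
  unfold bb
  exact tau_cd.sub (tau_cd.comp (contDiff_id.div_const 2))

lemma hh_cd : ContDiff ℝ ∞ (hh e) := by
  unfold hh
  exact (tau_cd.add (tau_cd.comp (contDiff_const.sub contDiff_id))).sub contDiff_const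

lemma bt_cd : ContDiff ℝ ∞ (bt e) := by
  unfold bt
  exact bb_cd.comp contDiff_neg

lemma bb_supp (h0 : 0 ≤ e) (h1 : e ≤ 1) {u : ℝ} (hu : 2 ≤ |u|) : bb e u = 0 := by
  unfold bb
  rcases le_abs.1 hu with h | h
  · rw [tau_one (by linarith), tau_one (by linarith), sub_self]
  · rw [tau_zero (by linarith), tau_zero (by linarith), sub_self]

lemma bt_supp (h0 : 0 ≤ e) (h1 : e ≤ 1) {u : ℝ} (hu : 2 ≤ |u|) : bt e u = 0 := by
  unfold bt
  exact bb_supp h0 h1 (by rwa [abs_neg])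

lemma hh_supp (h0 : 0 ≤ e) (h1 : e ≤ 1) {u : ℝ} (hu : 2 ≤ |u|) : hh e u = 0 := by
  unfold hh
  rcases le_abs.1 hu with h | h
  · rw [tau_one (by linarith), tau_zero (by linarith)]; norm_num
  · rw [tau_zero (by linarith), tau_one (by linarith)]; norm_num

lemma cs_of {f : ℝ → ℝ} (h : ∀ u, 2 ≤ |u| → f u = 0) : HasCompactSupport f := by
  refine HasCompactSupport.intro (isCompact_closedBall (0 : ℝ) 2) fun x hx => h x ?_
  rw [Metric.mem_closedBall, dist_zero_right, Real.norm_eq_abs, not_le] at hx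
  exact hx.le

/-- the decomposition -/
lemma Fw_tele {m0 : ℝ} (hm0 : 0 < m0) (x u : ℝ) (J : ℕ) (hx : x = m0 * 2 ^ J) :
    Fw e m0 x u = ∑ j ∈ range J, (bb e (u / (m0 * 2 ^ j)) + bt e ((u - x) / (m0 * 2 ^ j))) +
      hh e (u / (m0 * 2 ^ J)) := by
  have key : ∀ v : ℝ, ∀ K : ℕ, tau e (v / m0) =
      ∑ j ∈ range K, bb e (v / (m0 * 2 ^ j)) + tau e (v / (m0 * 2 ^ K)) := by
    intro v K
    induction K with
    | zero => simp
    | succ K ih =>
      rw [Finset.sum_range_succ, ih]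
      unfold bb
      have : v / (m0 * 2 ^ K) / 2 = v / (m0 * 2 ^ (K + 1)) := by
        rw [div_div, pow_succ]; ring_nf
      rw [this]
      ring
  have h1 := key u J
  have h2 := key (x - u) J
  have h3 : (x - u) / (m0 * 2 ^ J) = 1 - u / (m0 * 2 ^ J) := by
    rw [hx]
    field_simp
  rw [h3] at h2
  have h4 : ∀ j ∈ range J, bt e ((u - x) / (m0 * 2 ^ j)) = bb e ((x - u) / (m0 * 2 ^ j)) := by
    intro j _
    unfold bt
    congr 1
    ring
  unfold Fw hh
  rw [Finset.sum_add_distrib, Finset.sum_congr rfl h4, h1, h2]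
  ring

/-- the sum of the statistics -/
noncomputable def Ss (e m0 x : ℝ) (J : ℕ) (T t : ℝ) : ℝ :=
  ∑ j ∈ range J, (Sh (bb e) (m0 * 2 ^ j) T t + Sh (bt e) (m0 * 2 ^ j) T (t + x / sc T)) +
    Sh (hh e) (m0 * 2 ^ J) T t

lemma int_cs {f : ℝ → ℝ} (hc : ContDiff ℝ ∞ f) (h : ∀ u, 2 ≤ |u| → f u = 0) : Integrable f :=
  hc.continuous.integrable_of_hasCompactSupport (cs_of h)

lemma Fw_int (h0 : 0 ≤ e) (h1 : e ≤ 1) {m0 : ℝ} (hm0 : 0 < m0) {x : ℝ} {J : ℕ} (hx : x = m0 * 2 ^ J) :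
    Integrable (Fw e m0 x) ∧ ∫ u, Fw e m0 x u = ∑ j ∈ range J, ((m0 * 2 ^ j) * (∫ u, bb e u) +
      (m0 * 2 ^ j) * (∫ u, bt e u)) + (m0 * 2 ^ J) * ∫ u, hh e u := by
  have ib := int_cs (bb_cd (e := e)) fun u => bb_supp h0 h1
  have it := int_cs (bt_cd (e := e)) fun u => bt_supp h0 h1
  have ih := int_cs (hh_cd (e := e)) fun u => hh_supp h0 h1
  have hm : ∀ j : ℕ, 0 < m0 * 2 ^ j := fun j => by positivity
  have i1 : ∀ j : ℕ, Integrable fun u => bb e (u / (m0 * 2 ^ j)) := fun j => ib.comp_div (hm j).ne'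
  have i2 : ∀ j : ℕ, Integrable fun u => bt e ((u - x) / (m0 * 2 ^ j)) := fun j =>
    (it.comp_div (hm j).ne').comp_sub_right x
  have i3 : Integrable fun u => hh e (u / (m0 * 2 ^ J)) := ih.comp_div (hm J).ne'
  have e1 : Fw e m0 x = fun u => ∑ j ∈ range J, (bb e (u / (m0 * 2 ^ j)) +
      bt e ((u - x) / (m0 * 2 ^ j))) + hh e (u / (m0 * 2 ^ J)) := funext fun u => Fw_tele hm0 x u J hx
  have i5 : ∀ j : ℕ, Integrable fun u => bb e (u / (m0 * 2 ^ j)) + bt e ((u - x) / (m0 * 2 ^ j)) :=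
    fun j => (i1 j).add (i2 j)
  have i4 : Integrable fun u => ∑ j ∈ range J, (bb e (u / (m0 * 2 ^ j)) +
      bt e ((u - x) / (m0 * 2 ^ j))) := integrable_finsetSum _ fun j _ => i5 j
  rw [e1]
  refine ⟨i4.add i3, ?_⟩
  rw [integral_add i4 i3, integral_finsetSum _ fun j _ => i5 j]
  congr 1
  · refine Finset.sum_congr rfl fun j _ => ?_
    rw [integral_add (i1 j) (i2 j)]
    congr 1
    · rw [Measure.integral_comp_div, abs_of_pos (hm j), smul_eq_mul]
    · rw [integral_sub_right_eq_self (fun u => bt e (u / (m0 * 2 ^ j))) x,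
        Measure.integral_comp_div, abs_of_pos (hm j), smul_eq_mul]
  · rw [Measure.integral_comp_div, abs_of_pos (hm J), smul_eq_mul]

lemma Fw_sum (h0 : 0 ≤ e) (h1 : e ≤ 1) {m0 : ℝ} (hm0 : 0 < m0) {x : ℝ} {J : ℕ} (hx : x = m0 * 2 ^ J)
    {T t : ℝ} (hT : 10 ≤ T) (ha : m0 * 2 ^ J ≤ sc T) (ht : t ∈ Set.Icc (T / 2) (T + 1)) :
    ∑ n ∈ Ioc 0 (SG.NZ (2 * T)), Fw e m0 x (sc T * (SG.ord n - t)) =
      Ss e m0 x J T t + ∫ u, Fw e m0 x u := by
  have hm : ∀ j : ℕ, 0 < m0 * 2 ^ j := fun j => by positivity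
  have hs0 : 0 < sc T := (hm J).trans_le ha
  have hmJ : ∀ j ∈ range J, m0 * 2 ^ j ≤ sc T := by
    intro j hj
    rw [Finset.mem_range] at hj
    refine le_trans ?_ ha
    exact mul_le_mul_of_nonneg_left (pow_le_pow_right₀ (by norm_num) hj.le) hm0.le
  have hxs : x / sc T ≤ 1 := by rw [div_le_one hs0, hx]; exact ha
  have hx0 : 0 ≤ x / sc T := div_nonneg (by rw [hx]; exact (hm J).le) hs0.le
  have ha' : ∀ j ∈ range J, 1 ≤ sc T / (m0 * 2 ^ j) := fun j hj => by
    rw [one_le_div (hm j)]; exact hmJ j hj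
  have e1 : ∀ j ∈ range J, SZ (bb e) (sc T / (m0 * 2 ^ j)) t =
      ∑ n ∈ Ioc 0 (SG.NZ (2 * T)), bb e (sc T / (m0 * 2 ^ j) * (SG.ord n - t)) := fun j hj =>
    SZ_ord (R := 2) (fun u => bb_supp h0 h1) (by norm_num) (ha' j hj) (by linarith [ht.1])
      (by linarith [ht.2])
  have e2 : ∀ j ∈ range J, SZ (bt e) (sc T / (m0 * 2 ^ j)) (t + x / sc T) =
      ∑ n ∈ Ioc 0 (SG.NZ (2 * T)), bt e (sc T / (m0 * 2 ^ j) * (SG.ord n - (t + x / sc T))) := fun j hj =>
    SZ_ord (R := 2) (fun u => bt_supp h0 h1) (by norm_num) (ha' j hj) (by linarith [ht.1])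
      (by linarith [ht.2])
  have e3 : SZ (hh e) (sc T / (m0 * 2 ^ J)) t =
      ∑ n ∈ Ioc 0 (SG.NZ (2 * T)), hh e (sc T / (m0 * 2 ^ J) * (SG.ord n - t)) :=
    SZ_ord (R := 2) (fun u => hh_supp h0 h1) (by norm_num) (by rwa [one_le_div (hm J)])
      (by linarith [ht.1]) (by linarith [ht.2])
  rw [(Fw_int h0 h1 hm0 hx).2]
  unfold Ss Sh
  rw [e3]
  have e4 : ∑ j ∈ range J, ((SZ (bb e) (sc T / (m0 * 2 ^ j)) t - m0 * 2 ^ j * ∫ x, bb e x) +
      (SZ (bt e) (sc T / (m0 * 2 ^ j)) (t + x / sc T) - m0 * 2 ^ j * ∫ x, bt e x)) =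
      ∑ n ∈ Ioc 0 (SG.NZ (2 * T)), (∑ j ∈ range J, (bb e (sc T / (m0 * 2 ^ j) * (SG.ord n - t)) +
        bt e (sc T / (m0 * 2 ^ j) * (SG.ord n - (t + x / sc T))))) -
      ∑ j ∈ range J, ((m0 * 2 ^ j) * (∫ u, bb e u) + (m0 * 2 ^ j) * (∫ u, bt e u)) := by
    rw [Finset.sum_comm, ← Finset.sum_sub_distrib]
    refine Finset.sum_congr rfl fun j hj => ?_
    rw [e1 j hj, e2 j hj, Finset.sum_add_distrib]
    ring
  rw [e4]
  have e5 : ∀ n ∈ Ioc 0 (SG.NZ (2 * T)), Fw e m0 x (sc T * (SG.ord n - t)) =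
      (∑ j ∈ range J, (bb e (sc T / (m0 * 2 ^ j) * (SG.ord n - t)) +
        bt e (sc T / (m0 * 2 ^ j) * (SG.ord n - (t + x / sc T))))) +
      hh e (sc T / (m0 * 2 ^ J) * (SG.ord n - t)) := by
    intro n _
    rw [Fw_tele hm0 x _ J hx]
    congr 1
    · refine Finset.sum_congr rfl fun j _ => ?_
      have hj := (hm j).ne'
      congr 1
      · congr 1; field_simp
      · congr 1; field_simp; ring
    · have hj := (hm J).ne'
      congr 1; field_simp
  rw [Finset.sum_congr rfl e5, Finset.sum_add_distrib]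
  ring

/-- the count as a sum over the ordinates -/
lemma count_sum {s t B : ℝ} (hst : s ≤ t) (htB : t ≤ B) :
    (SG.NZ t : ℝ) - SG.NZ s = ∑ n ∈ Ioc 0 (SG.NZ B), if s < SG.ord n ∧ SG.ord n ≤ t then (1 : ℝ) else 0 := by
  have h1 : SG.NZ s ≤ SG.NZ t := SG.NZ_mono hst
  have h2 : SG.NZ t ≤ SG.NZ B := SG.NZ_mono htB
  rw [← Finset.sum_filter, Finset.sum_const, nsmul_eq_mul, mul_one]
  have e1 : (Ioc 0 (SG.NZ B)).filter (fun n => s < SG.ord n ∧ SG.ord n ≤ t) =
      Ioc (SG.NZ s) (SG.NZ t) := by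
    ext n
    rw [Finset.mem_filter, Finset.mem_Ioc, Finset.mem_Ioc]
    constructor
    · rintro ⟨⟨a1, a2⟩, a3, a4⟩
      rw [cnt_NZ n (by omega)] at a4
      refine ⟨?_, a4⟩
      by_contra hc
      push Not at hc
      exact absurd ((cnt_NZ n (by omega) s).2 hc) (not_le.2 a3)
    · rintro ⟨a1, a2⟩
      refine ⟨⟨by omega, by omega⟩, ?_, (cnt_NZ n (by omega) t).2 a2⟩
      by_contra hc
      push Not at hc
      have := (cnt_NZ n (by omega) s).1 hc
      omega
  rw [e1, Nat.card_Ioc, Nat.cast_sub h1]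

lemma Fw_up {m0 x u : ℝ} (hm0 : 0 < m0) (h1 : 0 < u) (h2 : u ≤ x) : Fw 1 m0 x u = 1 := by
  unfold Fw
  rw [tau_one (by have := div_pos h1 hm0; linarith), tau_one (by
    have := div_nonneg (sub_nonneg.2 h2) hm0.le; linarith)]
  norm_num

lemma Fw_nn {m0 x u : ℝ} (hm0 : 0 < m0) (hx : 0 ≤ x) : 0 ≤ Fw 1 m0 x u := by
  unfold Fw
  rcases le_total 0 u with h | h
  · rw [tau_one (u := u / m0) (by have := div_nonneg h hm0.le; linarith)]
    have := tau_nonneg (e := 1) ((x - u) / m0)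
    linarith
  · rw [tau_one (u := (x - u) / m0) (by
      have := div_nonneg (by linarith : 0 ≤ x - u) hm0.le; linarith)]
    have := tau_nonneg (e := 1) (u / m0)
    linarith

lemma Fw_low {m0 x u : ℝ} (hm0 : 0 < m0) (h : u ≤ 0 ∨ x < u) : Fw 0 m0 x u ≤ 0 := by
  unfold Fw
  rcases h with h | h
  · rw [tau_zero (u := u / m0) (by have := div_nonpos_of_nonpos_of_nonneg h hm0.le; linarith)]
    have := tau_le (e := 0) ((x - u) / m0)
    linarith
  · rw [tau_zero (u := (x - u) / m0) (by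
      have := div_nonpos_of_nonpos_of_nonneg (by linarith : x - u ≤ 0) hm0.le; linarith)]
    have := tau_le (e := 0) (u / m0)
    linarith

lemma Fw_le (m0 x u : ℝ) : Fw e m0 x u ≤ 1 := by
  unfold Fw
  have := tau_le (e := e) (u / m0)
  have := tau_le (e := e) ((x - u) / m0)
  linarith

lemma Fw_int_up {m0 : ℝ} (hm0 : 0 < m0) {x : ℝ} {J : ℕ} (hx : x = m0 * 2 ^ J) :
    ∫ u, Fw 1 m0 x u ≤ x + 2 * m0 := by
  have hx0 : 0 < x := by rw [hx]; positivity
  obtain ⟨hi, -⟩ := Fw_int (e := 1) (by norm_num) le_rfl hm0 hx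
  calc ∫ u, Fw 1 m0 x u ≤ ∫ u, (Set.Ioc (-m0) (x + m0)).indicator (fun _ => (1 : ℝ)) u := by
        refine integral_mono hi ?_ fun u => ?_
        · exact (integrable_indicator_iff measurableSet_Ioc).2 (by simp)
        · by_cases hu : u ∈ Set.Ioc (-m0) (x + m0)
          · rw [Set.indicator_of_mem hu]; exact Fw_le _ _ _
          · rw [Set.indicator_of_notMem hu]
            rw [Set.mem_Ioc, not_and_or, not_lt, not_le] at hu
            unfold Fw
            rcases hu with h | h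
            · rw [tau_zero (u := u / m0) (by
                have : u / m0 ≤ -1 := by rw [div_le_iff₀ hm0]; linarith
                linarith)]
              have := tau_le (e := 1) ((x - u) / m0)
              linarith
            · rw [tau_zero (u := (x - u) / m0) (by
                have : (x - u) / m0 ≤ -1 := by rw [div_le_iff₀ hm0]; linarith
                linarith)]
              have := tau_le (e := 1) (u / m0)
              linarith
    _ = x + 2 * m0 := by
        rw [integral_indicator measurableSet_Ioc, setIntegral_const, smul_eq_mul, mul_one,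
          Real.volume_real_Ioc_of_le (by linarith)]
        ring

lemma Fw_int_low {m0 : ℝ} (hm0 : 0 < m0) {x : ℝ} {J : ℕ} (hJ : 1 ≤ J) (hx : x = m0 * 2 ^ J) :
    x - 2 * m0 ≤ ∫ u, Fw 0 m0 x u := by
  have hx0 : 2 * m0 ≤ x := by
    rw [hx]
    have : (2 : ℝ) ^ 1 ≤ 2 ^ J := pow_le_pow_right₀ (by norm_num) hJ
    nlinarith
  obtain ⟨hi, -⟩ := Fw_int (e := 0) le_rfl (by norm_num) hm0 hx
  calc x - 2 * m0 = ∫ u, (Set.Ioc m0 (x - m0)).indicator (fun _ => (1 : ℝ)) u := by
        rw [integral_indicator measurableSet_Ioc, setIntegral_const, smul_eq_mul, mul_one,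
          Real.volume_real_Ioc_of_le (by linarith)]
        ring
    _ ≤ _ := by
        refine integral_mono ?_ hi fun u => ?_
        · exact (integrable_indicator_iff measurableSet_Ioc).2 (by simp)
        · by_cases hu : u ∈ Set.Ioc m0 (x - m0)
          · rw [Set.indicator_of_mem hu]
            unfold Fw
            rw [tau_one (u := u / m0) (by
                have : 1 ≤ u / m0 := by rw [le_div_iff₀ hm0]; linarith [hu.1]
                linarith), tau_one (u := (x - u) / m0) (by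
                have : 1 ≤ (x - u) / m0 := by rw [le_div_iff₀ hm0]; linarith [hu.2]
                linarith)]
            norm_num
          · rw [Set.indicator_of_notMem hu]
            unfold Fw
            rw [Set.mem_Ioc, not_and_or, not_lt, not_le] at hu
            rcases hu with h | h
            · rw [tau_one (u := (x - u) / m0) (by
                have : 1 ≤ (x - u) / m0 := by rw [le_div_iff₀ hm0]; linarith
                linarith)]
              have := tau_nonneg (e := 0) (u / m0)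
              linarith
            · rw [tau_one (u := u / m0) (by
                have : 1 ≤ u / m0 := by rw [le_div_iff₀ hm0]; linarith
                linarith)]
              have := tau_nonneg (e := 0) ((x - u) / m0)
              linarith

/-- **the discrepancy is bounded by the statistics at the dyadic scales** -/
theorem D_le {m0 : ℝ} (hm0 : 0 < m0) {x : ℝ} {J : ℕ} (hJ : 1 ≤ J) (hx : x = m0 * 2 ^ J)
    {T t : ℝ} (hT : 10 ≤ T) (ha : m0 * 2 ^ J ≤ sc T) (ht : t ∈ Set.Icc (T / 2) (T + 1)) :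
    |D SG.NZ (sc T) t x| ≤ 2 * m0 + |Ss 1 m0 x J T t| + |Ss 0 m0 x J T t| := by
  have hx0 : 0 < x := by rw [hx]; positivity
  have hs0 : 0 < sc T := (by positivity : 0 < m0 * 2 ^ J).trans_le ha
  have hxs : x / sc T ≤ 1 := by rw [div_le_one hs0, hx]; exact ha
  have hx1 : 0 ≤ x / sc T := div_nonneg hx0.le hs0.le
  have hc := count_sum (s := t) (t := t + x / sc T) (B := 2 * T) (by linarith) (by linarith [ht.2])
  have hD : D SG.NZ (sc T) t x = (∑ n ∈ Ioc 0 (SG.NZ (2 * T)),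
      if t < SG.ord n ∧ SG.ord n ≤ t + x / sc T then (1 : ℝ) else 0) - x := by
    unfold D
    rw [hc]
  have hu : ∀ n, (t < SG.ord n ∧ SG.ord n ≤ t + x / sc T) ↔
      (0 < sc T * (SG.ord n - t) ∧ sc T * (SG.ord n - t) ≤ x) := by
    intro n
    constructor
    · rintro ⟨h1, h2⟩
      refine ⟨mul_pos hs0 (by linarith), ?_⟩
      have h3 : SG.ord n - t ≤ x / sc T := by linarith
      rw [le_div_iff₀ hs0] at h3
      linarith
    · rintro ⟨h1, h2⟩
      have h3 := (mul_pos_iff_of_pos_left hs0).1 h1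
      have h4 : SG.ord n - t ≤ x / sc T := by rw [le_div_iff₀ hs0]; linarith
      exact ⟨by linarith, by linarith⟩
  have hup : D SG.NZ (sc T) t x ≤ Ss 1 m0 x J T t + 2 * m0 := by
    have h1 := Fw_sum (e := 1) (by norm_num) le_rfl hm0 hx hT ha ht
    have h2 := Fw_int_up hm0 hx
    have h3 : ∑ n ∈ Ioc 0 (SG.NZ (2 * T)), (if t < SG.ord n ∧ SG.ord n ≤ t + x / sc T then (1 : ℝ) else 0)
        ≤ ∑ n ∈ Ioc 0 (SG.NZ (2 * T)), Fw 1 m0 x (sc T * (SG.ord n - t)) := by
      refine Finset.sum_le_sum fun n _ => ?_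
      split_ifs with h
      · obtain ⟨h4, h5⟩ := (hu n).1 h
        exact (Fw_up hm0 h4 h5).ge
      · exact Fw_nn hm0 hx0.le
    rw [hD]
    linarith
  have hlow : Ss 0 m0 x J T t - 2 * m0 ≤ D SG.NZ (sc T) t x := by
    have h1 := Fw_sum (e := 0) le_rfl (by norm_num) hm0 hx hT ha ht
    have h2 := Fw_int_low hm0 hJ hx
    have h3 : ∑ n ∈ Ioc 0 (SG.NZ (2 * T)), Fw 0 m0 x (sc T * (SG.ord n - t)) ≤
        ∑ n ∈ Ioc 0 (SG.NZ (2 * T)), (if t < SG.ord n ∧ SG.ord n ≤ t + x / sc T then (1 : ℝ) else 0) := by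
      refine Finset.sum_le_sum fun n _ => ?_
      split_ifs with h
      · exact Fw_le _ _ _
      · refine Fw_low hm0 ?_
        rw [hu, not_and_or, not_lt, not_le] at h
        exact h
    rw [hD]
    linarith
  have h1 := le_abs_self (Ss 1 m0 x J T t)
  have h2 := neg_abs_le (Ss 0 m0 x J T t)
  have h3 := abs_nonneg (Ss 1 m0 x J T t)
  have h4 := abs_nonneg (Ss 0 m0 x J T t)
  rw [abs_le]
  constructor <;> linarith

end Pool.Agent.Q172.PS
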