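import Pool.Agent.Q172.PS.B

/-!
# All moments of the discrepancy at fixed lengths (helper172)
-/

set_option autoImplicit false

namespace Pool.Agent.Q172.PS

open Finset MeasureTheory Filter Topology
open Pool.Agent.Q278.GF Pool.Agent.Q278.MC Pool.Agent.Q278.KM
open scoped ContDiff

/-- Lebesgue measure on the block -/
noncomputable def mu (T : ℝ) : Measure ℝ := volume.restrict (Set.Ioc (T / 2) T)

instance (T : ℝ) : IsFiniteMeasure (mu T) := by
  unfold mu; infer_instance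

lemma av_eq {T : ℝ} (hT : 0 ≤ T) (f : ℝ → ℝ) : av T f = (2 / T) * ∫ t, f t ∂(mu T) := by
  unfold av mu
  rw [intervalIntegral.integral_of_le (by linarith)]

lemma mu_univ {T : ℝ} (hT : 0 ≤ T) : (mu T).real Set.univ = T / 2 := by
  unfold mu
  rw [measureReal_restrict_apply MeasurableSet.univ, Set.univ_inter,
    Real.volume_real_Ioc_of_le (by linarith)]
  ring

/-- `g` has norm at most `A` in `L^p` of the block -/
structure Nm (T : ℝ) (p : ℕ) (g : ℝ → ℝ) (A : ℝ) : Prop where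
  pos : 0 < A
  meas : AEStronglyMeasurable g (mu T)
  int : Integrable (fun t => |g t| ^ p) (mu T)
  le : (2 / T) * ∫ t, |g t| ^ p ∂(mu T) ≤ A ^ p

lemma conv_two {a b A B : ℝ} (ha : 0 ≤ a) (hb : 0 ≤ b) (hA : 0 < A) (hB : 0 < B) (p : ℕ) :
    (a + b) ^ p ≤ (A + B) ^ p * (A / (A + B) * (a / A) ^ p + B / (A + B) * (b / B) ^ p) := by
  have hAB : 0 < A + B := by positivity
  have hx : a / A ∈ Set.Ici (0 : ℝ) := Set.mem_Ici.2 (by positivity)
  have hy : b / B ∈ Set.Ici (0 : ℝ) := Set.mem_Ici.2 (by positivity)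
  have q1 : 0 ≤ A / (A + B) := by positivity
  have q2 : 0 ≤ B / (A + B) := by positivity
  have q3 : A / (A + B) + B / (A + B) = 1 := by field_simp
  have h1 := (convexOn_pow (𝕜 := ℝ) p).2 hx hy q1 q2 q3
  simp only [smul_eq_mul] at h1
  have e : A / (A + B) * (a / A) + B / (A + B) * (b / B) = (a + b) / (A + B) := by field_simp
  rw [e, div_pow, div_le_iff₀ (by positivity)] at h1
  linarith

namespace Nm

variable {T A B : ℝ} {p : ℕ} {g h : ℝ → ℝ}

lemma mono_fun (H : Nm T p g A) {f : ℝ → ℝ} (hf : AEStronglyMeasurable f (mu T))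
    (hT : 0 < T) (hle : ∀ᵐ t ∂(mu T), |f t| ≤ |g t|) : Nm T p f A := by
  have i : Integrable (fun t => |f t| ^ p) (mu T) := by
    refine H.int.mono' (hf.norm.pow p) ?_
    filter_upwards [hle] with t ht
    rw [Real.norm_of_nonneg (by positivity)]
    exact pow_le_pow_left₀ (abs_nonneg _) ht p
  refine ⟨H.pos, hf, i, le_trans ?_ H.le⟩
  refine mul_le_mul_of_nonneg_left ?_ (by positivity)
  refine integral_mono_ae i H.int ?_
  filter_upwards [hle] with t ht
  exact pow_le_pow_left₀ (abs_nonneg _) ht p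

lemma mono (H : Nm T p g A) (hAB : A ≤ B) : Nm T p g B :=
  ⟨H.pos.trans_le hAB, H.meas, H.int, H.le.trans (pow_le_pow_left₀ H.pos.le hAB p)⟩

lemma of_le2 (hT : 0 < T) (H : Nm T p g A) (K : Nm T p h B) {f : ℝ → ℝ}
    (hf : AEStronglyMeasurable f (mu T)) (hle : ∀ᵐ t ∂(mu T), |f t| ≤ |g t| + |h t|) :
    Nm T p f (A + B) := by
  have hA := H.pos
  have hB := K.pos
  have hAB : 0 < A + B := by positivity
  set F : ℝ → ℝ := fun t => (A + B) ^ p * (A / (A + B) * (|g t| / A) ^ p + B / (A + B) * (|h t| / B) ^ p)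
    with hF
  have eF : F = fun t => ((A + B) ^ p * (A / (A + B)) / A ^ p) * |g t| ^ p +
      ((A + B) ^ p * (B / (A + B)) / B ^ p) * |h t| ^ p := by
    funext t
    rw [hF]
    simp only [div_pow]
    ring
  have iF : Integrable F (mu T) := by
    rw [eF]
    exact (H.int.const_mul _).add (K.int.const_mul _)
  have hle2 : ∀ᵐ t ∂(mu T), |f t| ^ p ≤ F t := by
    filter_upwards [hle] with t ht
    exact (pow_le_pow_left₀ (abs_nonneg _) ht p).trans
      (conv_two (abs_nonneg _) (abs_nonneg _) hA hB p)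
  have i : Integrable (fun t => |f t| ^ p) (mu T) := by
    refine iF.mono' (hf.norm.pow p) ?_
    filter_upwards [hle2] with t ht
    rwa [Real.norm_of_nonneg (by positivity)]
  refine ⟨hAB, hf, i, ?_⟩
  have h1 : ∫ t, |f t| ^ p ∂(mu T) ≤ ∫ t, F t ∂(mu T) := integral_mono_ae i iF hle2
  have h2 : ∫ t, F t ∂(mu T) = ((A + B) ^ p * (A / (A + B)) / A ^ p) * (∫ t, |g t| ^ p ∂(mu T)) +
      ((A + B) ^ p * (B / (A + B)) / B ^ p) * ∫ t, |h t| ^ p ∂(mu T) := by
    rw [eF, integral_add (H.int.const_mul _) (K.int.const_mul _), integral_const_mul,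
      integral_const_mul]
  calc (2 / T) * ∫ t, |f t| ^ p ∂(mu T) ≤ (2 / T) * ∫ t, F t ∂(mu T) :=
        mul_le_mul_of_nonneg_left h1 (by positivity)
    _ = ((A + B) ^ p * (A / (A + B)) / A ^ p) * ((2 / T) * ∫ t, |g t| ^ p ∂(mu T)) +
      ((A + B) ^ p * (B / (A + B)) / B ^ p) * ((2 / T) * ∫ t, |h t| ^ p ∂(mu T)) := by rw [h2]; ring
    _ ≤ ((A + B) ^ p * (A / (A + B)) / A ^ p) * A ^ p +
      ((A + B) ^ p * (B / (A + B)) / B ^ p) * B ^ p :=
        add_le_add (mul_le_mul_of_nonneg_left H.le (by positivity))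
          (mul_le_mul_of_nonneg_left K.le (by positivity))
    _ = (A + B) ^ p := by field_simp

lemma add (hT : 0 < T) (H : Nm T p g A) (K : Nm T p h B) : Nm T p (fun t => g t + h t) (A + B) :=
  of_le2 hT H K (H.meas.add K.meas) (Eventually.of_forall fun t => abs_add_le _ _)

lemma const (hT : 0 < T) {c : ℝ} (hA : 0 < A) (hc : |c| ≤ A) : Nm T p (fun _ => c) A := by
  refine ⟨hA, aestronglyMeasurable_const, integrable_const _, ?_⟩
  rw [integral_const, smul_eq_mul, mu_univ hT.le]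
  have : 2 / T * (T / 2 * |c| ^ p) = |c| ^ p := by field_simp
  rw [this]
  exact pow_le_pow_left₀ (abs_nonneg _) hc p

lemma sum (hT : 0 < T) {g : ℕ → ℝ → ℝ} (hB : 0 < B) (J : ℕ) (H : ∀ j ∈ range J, Nm T p (g j) A) :
    Nm T p (fun t => ∑ j ∈ range J, g j t) (J * A + B) := by
  induction J with
  | zero =>
    simp only [Finset.range_zero, Finset.sum_empty, Nat.cast_zero, zero_mul, zero_add]
    exact const hT hB (by rw [abs_zero]; exact hB.le)
  | succ J ih =>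
    have h1 := ih fun j hj => H j (by rw [Finset.mem_range] at hj ⊢; omega)
    have h2 := add hT h1 (H J (Finset.mem_range.2 (by omega)))
    simp only [Finset.sum_range_succ]
    refine h2.mono (le_of_eq ?_)
    push_cast
    ring

lemma neg (H : Nm T p g A) : Nm T p (fun t => -g t) A := by
  refine ⟨H.pos, H.meas.neg, ?_, ?_⟩
  · simp only [abs_neg]; exact H.int
  · simp only [abs_neg]; exact H.le

lemma sub (hT : 0 < T) (H : Nm T p g A) (K : Nm T p h B) : Nm T p (fun t => g t - h t) (A + B) := by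
  simpa only [sub_eq_add_neg] using add hT H K.neg

end Nm

lemma Nm_of_cont {T : ℝ} (hT : 0 < T) {g : ℝ → ℝ} {C : ℝ} {p : ℕ} (hp : 1 ≤ p)
    (hc : ContinuousOn g (Set.Icc (T / 2) T)) (h : av T (fun t => |g t| ^ p) ≤ C) :
    Nm T p g (|C| + 1) := by
  refine ⟨by positivity, ?_, ?_, ?_⟩
  · exact (hc.mono Set.Ioc_subset_Icc_self).aestronglyMeasurable measurableSet_Ioc
  · exact ((hc.abs.pow p).integrableOn_Icc).mono_set Set.Ioc_subset_Icc_self
  · rw [← av_eq hT.le]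
    refine h.trans ((le_abs_self C).trans ?_)
    calc |C| ≤ |C| + 1 := by linarith
      _ = (|C| + 1) ^ 1 := (pow_one _).symm
      _ ≤ (|C| + 1) ^ p := pow_le_pow_right₀ (by linarith [abs_nonneg C]) hp

/-- the statistics of one function -/
lemma sh_Nm {f : ℝ → ℝ} (hf1 : ContDiff ℝ ∞ f) (hf2 : HasCompactSupport f) (m : ℕ) :
    ∃ A L0 : ℝ, 0 < A ∧ 1 ≤ L0 ∧ ∀ L : ℝ, L0 ≤ L → ∀ c : ℝ, 0 ≤ c → ∀ᶠ T : ℝ in atTop,
      Nm T (2 * (m + 1)) (fun t => Sh f L T (t + c / sc T)) A := by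
  obtain ⟨f', B0, B2, R, h⟩ := tst_of hf1 hf2
  obtain ⟨C, L0, hC, hL0, h1⟩ := sh_mom_tr h (cc_of hf1 hf2) m
  refine ⟨|C| + 1, L0, by positivity, hL0, fun L hL c hc => ?_⟩
  filter_upwards [h1 L hL c hc, eventually_gt_atTop 0] with T hT hT0
  exact Nm_of_cont hT0 (by omega) hT.2 hT.1

/-- the sums of the statistics -/
lemma Ss_Nm {e : ℝ} (h0 : 0 ≤ e) (h1 : e ≤ 1) (m : ℕ) : ∃ A M0 : ℝ, 0 < A ∧ 1 ≤ M0 ∧ ∀ m0 : ℝ,
    M0 ≤ m0 → ∀ (J : ℕ) (x : ℝ), 0 ≤ x → ∀ c : ℝ, 0 ≤ c → ∀ᶠ T : ℝ in atTop,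
      Nm T (2 * (m + 1)) (fun t => Ss e m0 x J T (t + c / sc T)) (A * (1 + J)) := by
  obtain ⟨A1, L1, hA1, hL1, g1⟩ := sh_Nm (bb_cd (e := e)) (cs_of fun u => bb_supp h0 h1) m
  obtain ⟨A2, L2, hA2, hL2, g2⟩ := sh_Nm (bt_cd (e := e)) (cs_of fun u => bt_supp h0 h1) m
  obtain ⟨A3, L3, hA3, hL3, g3⟩ := sh_Nm (hh_cd (e := e)) (cs_of fun u => hh_supp h0 h1) m
  refine ⟨A1 + A2 + A3 + 1, max L1 (max L2 L3), by positivity, hL1.trans (le_max_left _ _),
    fun m0 hm0 J x hx c hc => ?_⟩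
  have hm1 : L1 ≤ m0 := (le_max_left _ _).trans hm0
  have hm2 : L2 ≤ m0 := ((le_max_left _ _).trans (le_max_right _ _)).trans hm0
  have hm3 : L3 ≤ m0 := ((le_max_right _ _).trans (le_max_right _ _)).trans hm0
  have hm00 : 0 < m0 := by linarith
  have hge : ∀ j : ℕ, m0 ≤ m0 * 2 ^ j := fun j =>
    le_mul_of_one_le_right hm00.le (one_le_pow₀ (by norm_num))
  have ev1 : ∀ᶠ T : ℝ in atTop, ∀ j ∈ range J,
      Nm T (2 * (m + 1)) (fun t => Sh (bb e) (m0 * 2 ^ j) T (t + c / sc T)) A1 := by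
    rw [Filter.eventually_all_finset]
    intro j _
    exact g1 _ (hm1.trans (hge j)) c hc
  have ev2 : ∀ᶠ T : ℝ in atTop, ∀ j ∈ range J,
      Nm T (2 * (m + 1)) (fun t => Sh (bt e) (m0 * 2 ^ j) T (t + (c + x) / sc T)) A2 := by
    rw [Filter.eventually_all_finset]
    intro j _
    exact g2 _ (hm2.trans (hge j)) (c + x) (by positivity)
  filter_upwards [ev1, ev2, g3 (m0 * 2 ^ J) (hm3.trans (hge J)) c hc, eventually_gt_atTop 0]
    with T k1 k2 k3 hT
  have k4 : ∀ j ∈ range J, Nm T (2 * (m + 1)) (fun t => Sh (bb e) (m0 * 2 ^ j) T (t + c / sc T) +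
      Sh (bt e) (m0 * 2 ^ j) T (t + c / sc T + x / sc T)) (A1 + A2) := by
    intro j hj
    have h2 := k2 j hj
    have e1 : (fun t => Sh (bt e) (m0 * 2 ^ j) T (t + (c + x) / sc T)) =
        fun t => Sh (bt e) (m0 * 2 ^ j) T (t + c / sc T + x / sc T) := by
      funext t
      rw [add_div, add_assoc]
    rw [e1] at h2
    exact (k1 j hj).add hT h2
  have k5 := (Nm.sum hT one_pos J k4).add hT k3
  refine k5.mono ?_
  have hJ : (0 : ℝ) ≤ J := Nat.cast_nonneg J
  nlinarith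

/-- the dyadic lengths -/
lemma D_dyadic (m : ℕ) : ∃ (A : ℝ) (m0 : ℕ), 0 < A ∧ 1 ≤ m0 ∧ ∀ J : ℕ, 1 ≤ J → ∀ c : ℝ, 0 ≤ c →
    ∀ᶠ T : ℝ in atTop, Nm T (2 * (m + 1)) (fun t => D SG.NZ (sc T) (t + c / sc T) ((m0 * 2 ^ J : ℕ) : ℝ))
      (A * (1 + J)) := by
  obtain ⟨A1, M1, hA1, hM1, g1⟩ := Ss_Nm (e := 1) (by norm_num) le_rfl m
  obtain ⟨A0, M0, hA0, hM0, g0⟩ := Ss_Nm (e := 0) le_rfl (by norm_num) m
  obtain ⟨m0, hm0⟩ := exists_nat_ge (max M1 M0)
  have hm1 : M1 ≤ m0 := (le_max_left _ _).trans hm0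
  have hm2 : M0 ≤ m0 := (le_max_right _ _).trans hm0
  have hm00 : (0 : ℝ) < m0 := by linarith
  have hm01 : 1 ≤ m0 := by exact_mod_cast hM1.trans hm1
  refine ⟨2 * m0 + A1 + A0, m0, by positivity, hm01, fun J hJ c hc => ?_⟩
  set x : ℝ := ((m0 * 2 ^ J : ℕ) : ℝ) with hx
  have hx' : x = (m0 : ℝ) * 2 ^ J := by rw [hx]; push_cast; ring
  have hx0 : 0 < x := by rw [hx']; positivity
  filter_upwards [g1 m0 hm1 J x hx0.le c hc, g0 m0 hm2 J x hx0.le c hc, eventually_ge_atTop 10,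
    sc_top.eventually_ge_atTop (x + c + 1)] with T k1 k0 hT hs
  have hT0 : 0 < T := by linarith
  have hs0 : 0 < sc T := by linarith
  have hcs : c / sc T ≤ 1 := by rw [div_le_one hs0]; linarith
  have hcs0 : 0 ≤ c / sc T := div_nonneg hc hs0.le
  have kc : Nm T (2 * (m + 1)) (fun _ => 2 * (m0 : ℝ)) (2 * m0) :=
    Nm.const hT0 (by positivity) (le_of_eq (abs_of_pos (by positivity)))
  have hmeas : AEStronglyMeasurable (fun t => D SG.NZ (sc T) (t + c / sc T) x) (mu T) := by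
    have h1 : Measurable fun t => D SG.NZ (sc T) (t + c / sc T) x :=
      (bd_D T (sc T) x).1.comp (measurable_id.add_const _)
    exact h1.aestronglyMeasurable
  have k2 := Nm.of_le2 hT0 k1 k0 (f := fun t => |Ss 1 m0 x J T (t + c / sc T)| +
      |Ss 0 m0 x J T (t + c / sc T)|) (k1.meas.norm.add k0.meas.norm)
      (Eventually.of_forall fun t => by
        rw [abs_of_nonneg (by positivity)])
  have k3 := Nm.of_le2 hT0 kc k2 hmeas (by
    have hmem : ∀ᵐ t ∂(mu T), t ∈ Set.Ioc (T / 2) T := ae_restrict_mem measurableSet_Ioc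
    filter_upwards [hmem] with t ht
    have h1 := D_le hm00 hJ hx' hT (by rw [← hx']; linarith) (t := t + c / sc T)
      ⟨by linarith [ht.1], by linarith [ht.2]⟩
    rw [abs_of_pos (by positivity : 0 < 2 * (m0 : ℝ)), abs_of_nonneg (a := |Ss 1 (m0 : ℝ) x J T (t + c / sc T)| +
      |Ss 0 (m0 : ℝ) x J T (t + c / sc T)|) (by positivity)]
    linarith)
  refine k3.mono ?_
  have hJ' : (0 : ℝ) ≤ J := Nat.cast_nonneg J
  nlinarith

lemma D_split (T t c : ℝ) (x y : ℝ) :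
    D SG.NZ (sc T) (t + c / sc T) (x + y) = D SG.NZ (sc T) (t + c / sc T) x +
      D SG.NZ (sc T) (t + (c + x) / sc T) y := by
  unfold D
  have e1 : t + c / sc T + (x + y) / sc T = t + (c + x) / sc T + y / sc T := by ring
  have e2 : t + c / sc T + x / sc T = t + (c + x) / sc T := by ring
  rw [e1, e2]
  ring

/-- **all moments, all lengths** -/
theorem D_all (m : ℕ) : ∃ A : ℝ, 0 < A ∧ ∀ x : ℕ, ∀ c : ℝ, 0 ≤ c → ∀ᶠ T : ℝ in atTop,
    Nm T (2 * (m + 1)) (fun t => D SG.NZ (sc T) (t + c / sc T) x) (A * (1 + Real.log (max 1 x)) ^ 2) := by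
  obtain ⟨A, m0, hA, hm0, hd⟩ := D_dyadic m
  have hm0' : (1 : ℝ) ≤ m0 := by exact_mod_cast hm0
  have hmeas : ∀ (T c : ℝ) (x : ℝ), AEStronglyMeasurable (fun t => D SG.NZ (sc T) (t + c / sc T) x) (mu T) := by
    intro T c x
    have h1 : Measurable fun t => D SG.NZ (sc T) (t + c / sc T) x :=
      (bd_D T (sc T) x).1.comp (measurable_id.add_const _)
    exact h1.aestronglyMeasurable
  set A' : ℝ := 2 * A + 4 * m0 with hA'
  have key : ∀ J : ℕ, 1 ≤ J → ∀ x : ℕ, x ≤ m0 * 2 ^ J → ∀ c : ℝ, 0 ≤ c → ∀ᶠ T : ℝ in atTop,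
      Nm T (2 * (m + 1)) (fun t => D SG.NZ (sc T) (t + c / sc T) x) (A' * (1 + J) ^ 2) := by
    intro J hJ
    induction J, hJ using Nat.le_induction with
    | base =>
      intro x hx c hc
      filter_upwards [hd 1 le_rfl c hc, eventually_gt_atTop 0, sc_top.eventually_gt_atTop 0] with T k1 hT hs
      have kc : Nm T (2 * (m + 1)) (fun _ => 4 * (m0 : ℝ)) (4 * m0) :=
        Nm.const hT (by positivity) (le_of_eq (abs_of_pos (by positivity)))
      have hxm : (x : ℝ) ≤ ((m0 * 2 ^ 1 : ℕ) : ℝ) := by exact_mod_cast hx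
      have hx0 : (0 : ℝ) ≤ x := Nat.cast_nonneg x
      have e2 : ((m0 * 2 ^ 1 : ℕ) : ℝ) = 2 * m0 := by push_cast; ring
      have k2 := Nm.of_le2 hT kc k1 (hmeas T c x) (Eventually.of_forall fun t => by
        have h1 : (SG.NZ (t + c / sc T) : ℝ) ≤ SG.NZ (t + c / sc T + x / sc T) := by
          exact_mod_cast SG.NZ_mono (by linarith [div_nonneg hx0 hs.le])
        have h2 : (SG.NZ (t + c / sc T + x / sc T) : ℝ) ≤
            SG.NZ (t + c / sc T + ((m0 * 2 ^ 1 : ℕ) : ℝ) / sc T) := by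
          exact_mod_cast SG.NZ_mono (by linarith [div_le_div_of_nonneg_right hxm hs.le])
        rw [abs_of_pos (by positivity : 0 < 4 * (m0 : ℝ))]
        have h3 := neg_abs_le (D SG.NZ (sc T) (t + c / sc T) ((m0 * 2 ^ 1 : ℕ) : ℝ))
        have h4 := le_abs_self (D SG.NZ (sc T) (t + c / sc T) ((m0 * 2 ^ 1 : ℕ) : ℝ))
        rw [abs_le]
        rw [e2] at h2 h3 h4 hxm ⊢
        unfold D at h3 h4 ⊢
        constructor <;> linarith)
      refine k2.mono ?_
      rw [hA']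
      push_cast
      nlinarith
    | succ J hJ ih =>
      intro x hx c hc
      have hJ0 : (0 : ℝ) ≤ J := Nat.cast_nonneg J
      have hA'0 : 0 < A' := by positivity
      rcases le_or_gt x (m0 * 2 ^ J) with h | h
      · filter_upwards [ih x h c hc] with T k
        refine k.mono ?_
        push_cast
        have : (1 + (J : ℝ)) ^ 2 ≤ (1 + (J + 1)) ^ 2 := by nlinarith
        nlinarith
      · obtain ⟨y, rfl⟩ := Nat.exists_eq_add_of_lt h
        have hy : y + 1 ≤ m0 * 2 ^ J := by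
          have : m0 * 2 ^ (J + 1) = m0 * 2 ^ J + m0 * 2 ^ J := by rw [pow_succ]; ring
          omega
        filter_upwards [hd J hJ c hc, ih (y + 1) hy (c + ((m0 * 2 ^ J : ℕ) : ℝ)) (by positivity),
          eventually_gt_atTop 0] with T k1 k2 hT
        have k3 := k1.add hT k2
        have e1 : (fun t => D SG.NZ (sc T) (t + c / sc T) ((m0 * 2 ^ J + y + 1 : ℕ) : ℝ)) =
            fun t => D SG.NZ (sc T) (t + c / sc T) ((m0 * 2 ^ J : ℕ) : ℝ) +
              D SG.NZ (sc T) (t + (c + ((m0 * 2 ^ J : ℕ) : ℝ)) / sc T) ((y + 1 : ℕ) : ℝ) := by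
          funext t
          rw [← D_split]
          congr 1
          push_cast
          ring
        rw [e1]
        refine k3.mono ?_
        push_cast
        have h2 : A * (1 + (J : ℝ)) ≤ A' * (1 + J) := by
          refine mul_le_mul_of_nonneg_right ?_ (by positivity)
          rw [hA']; linarith
        nlinarith
  refine ⟨A' * 16, by positivity, fun x c hc => ?_⟩
  have hmax : (1 : ℝ) ≤ max 1 (x : ℝ) := le_max_left _ _
  set J := Nat.log 2 (max 1 x) + 1 with hJ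
  have hx1 : x ≤ m0 * 2 ^ J := by
    have h1 : max 1 x < 2 ^ (Nat.log 2 (max 1 x) + 1) := Nat.lt_pow_succ_log_self (by norm_num) _
    have h2 : x ≤ max 1 x := le_max_right _ _
    calc x ≤ 1 * 2 ^ J := by rw [one_mul]; exact h2.trans h1.le
      _ ≤ m0 * 2 ^ J := Nat.mul_le_mul_right _ hm0
  filter_upwards [key J (by omega) x hx1 c hc] with T k
  refine k.mono ?_
  have h1 : 2 ^ Nat.log 2 (max 1 x) ≤ max 1 x := Nat.pow_log_le_self 2 (by omega)
  have h2 : (2 : ℝ) ^ Nat.log 2 (max 1 x) ≤ max 1 (x : ℝ) := by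
    have : ((2 ^ Nat.log 2 (max 1 x) : ℕ) : ℝ) ≤ ((max 1 x : ℕ) : ℝ) := by exact_mod_cast h1
    push_cast at this
    exact this
  have h3 : (Nat.log 2 (max 1 x) : ℝ) * Real.log 2 ≤ Real.log (max 1 (x : ℝ)) := by
    rw [← Real.log_pow]
    exact Real.log_le_log (by positivity) h2
  have h4 := Real.log_two_gt_d9
  have h5 : 0 ≤ Real.log (max 1 (x : ℝ)) := Real.log_nonneg hmax
  have h6 : (Nat.log 2 (max 1 x) : ℝ) ≤ 2 * Real.log (max 1 (x : ℝ)) := by
    have : (0 : ℝ) ≤ Nat.log 2 (max 1 x) := Nat.cast_nonneg _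
    nlinarith
  have h7 : (1 + (J : ℝ)) ≤ 4 * (1 + Real.log (max 1 (x : ℝ))) := by
    rw [hJ]; push_cast; linarith
  have h8 : (1 + (J : ℝ)) ^ 2 ≤ (4 * (1 + Real.log (max 1 (x : ℝ)))) ^ 2 :=
    pow_le_pow_left₀ (by positivity) h7 2
  have hA'0 : 0 < A' := by positivity
  nlinarith

end Pool.Agent.Q172.PS
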