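import Pool.Agent.Q172.PS.C
import Pool.Agent.Q172.Mem.G6

/-!
# From heights to indices; tails of the sums of consecutive gaps (helper172)
-/

set_option autoImplicit false

namespace Pool.Agent.Q172.PS

open Finset MeasureTheory Filter Topology
open Pool.Agent.Q278.GF Pool.Agent.Q278.MC Pool.Agent.Q278.KM
open _root_.Q172.ZetaLim (IsLim seen)
open scoped ContDiff

/-- the number of points in the next mean gap -/
noncomputable def Mt (T t : ℝ) : ℝ := (SG.NZ (t + 1 / sc T) : ℝ) - SG.NZ t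

lemma Mt_nonneg {T : ℝ} (hs : 0 < sc T) (t : ℝ) : 0 ≤ Mt T t := by
  unfold Mt
  have : (SG.NZ t : ℝ) ≤ SG.NZ (t + 1 / sc T) := by
    exact_mod_cast SG.NZ_mono (by linarith [one_div_pos.2 hs])
  linarith

/-- the transfer from heights to indices -/
theorem transfer (W : Set ℕ) [DecidablePred (· ∈ W)] (U : ℝ → ℝ → ℝ) {ε : ℝ} (hε : 0 < ε)
    (h1 : ∀ᶠ T : ℝ in atTop, ∀ t ∈ Set.Ioc (T / 2) T,
      (((Ioc (SG.NZ t) (SG.NZ (t + 1 / sc T))).filter (· ∈ W)).card : ℝ) ≤ U T t)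
    (h2 : ∀ᶠ T : ℝ in atTop, Integrable (U T) (mu T) ∧ (2 / T) * ∫ t, U T t ∂(mu T) ≤ ε) :
    ∀ᶠ N : ℕ in atTop, (((Icc 1 N).filter (· ∈ W)).card : ℝ) ≤ 4 * ε * N := by
  set g : ℕ → ℂ := fun n => if n ∈ W then 1 else 0 with hg
  have hg1 : ∀ n, ‖g n‖ ≤ 1 := by
    intro n
    rw [hg]
    simp only
    split_ifs <;> simp
  have hcard : ∀ S : Finset ℕ, ∑ n ∈ S, g n = (((S.filter (· ∈ W)).card : ℝ) : ℂ) := by
    intro S
    rw [hg]
    simp only
    rw [← Finset.sum_filter, Finset.sum_const, nsmul_eq_mul, mul_one]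
    simp
  have hblock : ∀ᶠ T : ℝ in atTop, ‖∑ n ∈ Ioc (SG.NZ (T / 2)) (SG.NZ T), g n -
      ((SG.NZ T : ℝ) - SG.NZ (T / 2) : ℝ) * (0 : ℂ)‖ ≤ (2 * ε) * ((SG.NZ T : ℝ) - SG.NZ (T / 2)) := by
    have hec := edge_count 1
    filter_upwards [h1, h2, eventually_gt_atTop 1, sc_top.eventually_gt_atTop 0,
      hec.eventually_le_const (u := ε / 4) (by positivity),
      block_count.eventually_const_le (u := 3 / 4) (by norm_num)] with T q1 q2 hT hs q3 q4
    have hT0 : 0 < T := by linarith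
    have hY := Yb_pos hT
    obtain ⟨hint, hex⟩ := GS_exch hg1 hT0 (h := 1 / sc T) (by positivity)
    rw [mul_zero, sub_zero]
    rw [Nat.cast_one] at q3
    rw [div_le_iff₀ hY] at q3
    rw [le_div_iff₀ hY] at q4
    have e1 : ‖((1 / (1 / sc T) : ℝ) : ℂ) * (∫ t in (T / 2)..T, GS g (1 / sc T) t)‖ ≤ Yb T * ε := by
      rw [norm_mul, Complex.norm_real, one_div_one_div, Real.norm_of_nonneg hs.le]
      have e2 : ‖∫ t in (T / 2)..T, GS g (1 / sc T) t‖ ≤ ∫ t in (T / 2)..T, ‖GS g (1 / sc T) t‖ :=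
        intervalIntegral.norm_integral_le_integral_norm (by linarith)
      have e3 : ∫ t in (T / 2)..T, ‖GS g (1 / sc T) t‖ ≤ ∫ t, U T t ∂(mu T) := by
        rw [intervalIntegral.integral_of_le (by linarith)]
        unfold mu
        refine integral_mono_ae ?_ q2.1 ?_
        · have := hint.norm
          rwa [intervalIntegrable_iff_integrableOn_Ioc_of_le (by linarith)] at this
        · filter_upwards [ae_restrict_mem measurableSet_Ioc] with t ht
          show ‖GS g (1 / sc T) t‖ ≤ U T t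
          unfold GS
          rw [hcard, Complex.norm_real, Real.norm_of_nonneg (Nat.cast_nonneg _)]
          exact q1 t ht
      have e4 : ∫ t, U T t ∂(mu T) ≤ T / 2 * ε := by
        have := q2.2
        rw [div_mul_eq_mul_div, div_le_iff₀ hT0] at this
        linarith
      calc sc T * ‖∫ t in (T / 2)..T, GS g (1 / sc T) t‖ ≤ sc T * (T / 2 * ε) :=
            mul_le_mul_of_nonneg_left (e2.trans (e3.trans e4)) hs.le
        _ = Yb T * ε := by unfold Yb; ring
    have e5 := norm_sub_norm_le (∑ n ∈ Ioc (SG.NZ (T / 2)) (SG.NZ T), g n)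
      (((1 / (1 / sc T) : ℝ) : ℂ) * (∫ t in (T / 2)..T, GS g (1 / sc T) t))
    rw [norm_sub_rev] at e5
    have hYε : 0 ≤ Yb T * ε := by positivity
    nlinarith
  have h3 := all_N hg1 (G := 0) (by simp) (by positivity : 0 < 2 * ε) hblock
  filter_upwards [h3] with N hN
  rw [mul_zero, sub_zero, hcard, Complex.norm_real, Real.norm_of_nonneg (Nat.cast_nonneg _)] at hN
  have e : Ioc 0 N = Icc 1 N := by
    ext n; rw [Finset.mem_Ioc, Finset.mem_Icc]; omega
  rw [e] at hN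
  linarith

/-- the elementary inequality -/
lemma young {G M s : ℝ} (hs : 0 < s) (hM : 0 ≤ M) (hG : s ≤ |G|) (p : ℕ) :
    M ≤ (|G| ^ (p + 1) + M ^ (p + 1)) / s ^ p := by
  rw [le_div_iff₀ (by positivity)]
  rcases le_total M |G| with h | h
  · have h1 : M * s ^ p ≤ |G| * |G| ^ p :=
      mul_le_mul h (pow_le_pow_left₀ hs.le hG p) (by positivity) (abs_nonneg _)
    rw [← pow_succ'] at h1
    have : 0 ≤ M ^ (p + 1) := by positivity
    linarith
  · have h1 : M * s ^ p ≤ M * M ^ p :=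
      mul_le_mul_of_nonneg_left (pow_le_pow_left₀ hs.le (hG.trans h) p) hM
    rw [← pow_succ'] at h1
    have : 0 ≤ |G| ^ (p + 1) := by positivity
    linarith

/-- norms of the local counts -/
lemma Mt_Nm (m : ℕ) : ∃ A : ℝ, 0 < A ∧ ∀ᶠ T : ℝ in atTop, Nm T (2 * (m + 1)) (Mt T) A := by
  obtain ⟨A, hA, h⟩ := D_all m
  refine ⟨A * 1 + 1, by positivity, ?_⟩
  filter_upwards [h 1 0 le_rfl, eventually_gt_atTop 0] with T h1 hT
  have h2 := h1.add hT (Nm.const hT one_pos (c := 1) (by rw [abs_one]))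
  have e : (fun t => D SG.NZ (sc T) (t + 0 / sc T) ((1 : ℕ) : ℝ) + 1) = Mt T := by
    funext t
    unfold D Mt
    rw [zero_div, add_zero, Nat.cast_one]
    ring
  rw [e] at h2
  refine h2.mono ?_
  rw [Nat.cast_one, max_self, Real.log_one]
  norm_num

/-- the sum of `L` consecutive gaps minus `L` -/
noncomputable def Sd (L n : ℕ) : ℝ := ∑ i ∈ range L, (dl (n + i) - 1)

lemma Sd_tele (T : ℝ) (L n : ℕ) : ∑ i ∈ range L, ((SG.ord (n + i + 1) - SG.ord (n + i)) * sc T - 1) =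
    (SG.ord (n + L) - SG.ord n) * sc T - L := by
  induction L with
  | zero => simp
  | succ L ih =>
    rw [Finset.sum_range_succ, ih]
    push_cast
    rw [show n + (L + 1) = n + L + 1 by ring]
    ring

/-- a large deviation of the sum of the gaps is seen by the discrepancy -/
lemma hit {L s : ℕ} (hL : 1 ≤ L) (hs : 1 ≤ s) {T t : ℝ} (hT : 10 ≤ T) (hsc : (L : ℝ) + s + 1 ≤ sc T)
    (hlog : 3 * ((L : ℝ) + s) ≤ Real.log T) (ht : t ∈ Set.Ioc (T / 2) T) {n : ℕ}
    (hn : n ∈ Ioc (SG.NZ t) (SG.NZ (t + 1 / sc T))) (hW : (s : ℝ) + 1 < |Sd L n|) :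
    (s : ℝ) ≤ |D SG.NZ (sc T) (t + 1 / sc T) ((L + s - 1 : ℕ) : ℝ)| ∨
      (s : ℝ) ≤ |D SG.NZ (sc T) (t + 0 / sc T) ((L - s + 1 : ℕ) : ℝ)| := by
  by_contra hcon
  push Not at hcon
  obtain ⟨hc1, hc2⟩ := hcon
  have hL' : (1 : ℝ) ≤ L := by exact_mod_cast hL
  have hs' : (1 : ℝ) ≤ s := by exact_mod_cast hs
  have hs0 : 0 < sc T := by linarith
  have hlT : 0 < Real.log T := by linarith
  rw [Finset.mem_Ioc] at hn
  have hn1 : 1 ≤ n := by omega
  have ho1 : t < SG.ord n := by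
    by_contra hc
    push Not at hc
    have := (cnt_NZ n hn1 t).1 hc
    omega
  have ho2 : SG.ord n ≤ t + 1 / sc T := (cnt_NZ n hn1 _).2 hn.2
  have hmono : SG.ord n ≤ SG.ord (n + L) := SG.ord_mono hn1 (by omega)
  -- upper
  have hA : (SG.ord (n + L) - SG.ord n) * sc T ≤ L + s := by
    by_contra hc
    push Not at hc
    have h1 : t + 1 / sc T + ((L + s - 1 : ℕ) : ℝ) / sc T < SG.ord (n + L) := by
      have e1 : ((L + s - 1 : ℕ) : ℝ) = L + s - 1 := by
        rw [Nat.cast_sub (by omega)]; push_cast; ring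
      rw [e1]
      have e2 : (L + s : ℝ) / sc T < SG.ord (n + L) - SG.ord n := by
        rw [div_lt_iff₀ hs0]; exact hc
      have e3 : t + 1 / sc T + ((L : ℝ) + s - 1) / sc T = t + (L + s) / sc T := by ring
      rw [e3]
      linarith
    have h2 : SG.NZ (t + 1 / sc T + ((L + s - 1 : ℕ) : ℝ) / sc T) < n + L := by
      by_contra hc2
      push Not at hc2
      exact absurd ((cnt_NZ (n + L) (by omega) _).2 hc2) (not_le.2 h1)
    have h3 : D SG.NZ (sc T) (t + 1 / sc T) ((L + s - 1 : ℕ) : ℝ) ≤ -s := by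
      unfold D
      have h4 : (SG.NZ (t + 1 / sc T + ((L + s - 1 : ℕ) : ℝ) / sc T) : ℝ) + 1 ≤ n + L := by
        exact_mod_cast h2
      have h5 : (n : ℝ) ≤ SG.NZ (t + 1 / sc T) := by exact_mod_cast hn.2
      have e1 : ((L + s - 1 : ℕ) : ℝ) = L + s - 1 := by
        rw [Nat.cast_sub (by omega)]; push_cast; ring
      rw [e1] at h4 ⊢
      linarith
    have := neg_abs_le (D SG.NZ (sc T) (t + 1 / sc T) ((L + s - 1 : ℕ) : ℝ))
    linarith
  -- lower
  have hB : (L : ℝ) - s ≤ (SG.ord (n + L) - SG.ord n) * sc T := by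
    by_contra hc
    push Not at hc
    have hg0 : 0 ≤ (SG.ord (n + L) - SG.ord n) * sc T := mul_nonneg (by linarith) hs0.le
    have hsL : s < L := by
      have : (s : ℝ) < L := by linarith
      exact_mod_cast this
    have e1 : ((L - s + 1 : ℕ) : ℝ) = L - s + 1 := by
      push_cast [Nat.cast_sub hsL.le]; ring
    have h1 : SG.ord (n + L) ≤ t + 0 / sc T + ((L - s + 1 : ℕ) : ℝ) / sc T := by
      rw [e1]
      have e2 : SG.ord (n + L) - SG.ord n < ((L : ℝ) - s) / sc T := by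
        rw [lt_div_iff₀ hs0]; exact hc
      have e3 : t + 0 / sc T + ((L : ℝ) - s + 1) / sc T = t + 1 / sc T + (L - s) / sc T := by ring
      rw [e3]
      linarith
    have h2 := (cnt_NZ (n + L) (by omega) _).1 h1
    have h3 : (s : ℝ) ≤ D SG.NZ (sc T) (t + 0 / sc T) ((L - s + 1 : ℕ) : ℝ) := by
      unfold D
      have h4 : (n : ℝ) + L ≤ (SG.NZ (t + 0 / sc T + ((L - s + 1 : ℕ) : ℝ) / sc T) : ℝ) := by
        exact_mod_cast h2
      have h5 : (SG.NZ (t + 0 / sc T) : ℝ) + 1 ≤ n := by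
        rw [zero_div, add_zero]; exact_mod_cast hn.1
      rw [e1] at h4 ⊢
      linarith
    exact absurd (h3.trans (le_abs_self _)) (not_le.2 hc2)
  -- the normalisation
  have hord : SG.ord (n + L) ≤ 2 * T := by
    have e2 : SG.ord (n + L) - SG.ord n ≤ ((L : ℝ) + s) / sc T := by
      rw [le_div_iff₀ hs0]; exact hA
    have e3 : ((L : ℝ) + s) / sc T ≤ 1 := by rw [div_le_one hs0]; linarith
    have e4 : 1 / sc T ≤ 1 := by rw [div_le_one hs0]; linarith
    linarith [ht.2]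
  have hdiff : |Sd L n - ((SG.ord (n + L) - SG.ord n) * sc T - L)| ≤
      3 / Real.log T * ((SG.ord (n + L) - SG.ord n) * sc T) := by
    have e0 : (SG.ord (n + L) - SG.ord n) * sc T = ∑ i ∈ range L,
        (SG.ord (n + i + 1) - SG.ord (n + i)) * sc T := by
      have := Sd_tele T L n
      rw [Finset.sum_sub_distrib, Finset.sum_const, Finset.card_range, nsmul_eq_mul, mul_one] at this
      linarith
    rw [← Sd_tele T L n]
    unfold Sd
    rw [← Finset.sum_sub_distrib, e0, Finset.mul_sum]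
    refine (Finset.abs_sum_le_sum_abs _ _).trans (Finset.sum_le_sum fun i hi => ?_)
    rw [Finset.mem_range] at hi
    have h1 : SG.ord n ≤ SG.ord (n + i) := SG.ord_mono hn1 (by omega)
    have h2 : SG.ord (n + i) ≤ SG.ord (n + i + 1) := SG.ord_mono (by omega) (by omega)
    have h3 : SG.ord (n + i + 1) ≤ SG.ord (n + L) := SG.ord_mono (by omega) (by omega)
    have h4 := log_near (x := SG.ord (n + i)) (T := T) (by linarith) (by linarith [ht.1])
      (by linarith)
    have hpi := Real.pi_pos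
    have e1 : dl (n + i) - 1 - ((SG.ord (n + i + 1) - SG.ord (n + i)) * sc T - 1) =
        (SG.ord (n + i + 1) - SG.ord (n + i)) * sc T *
          ((Real.log (SG.ord (n + i) / (2 * Real.pi)) - Real.log T) / Real.log T) := by
      unfold dl sc
      field_simp
      ring
    have hg : 0 ≤ (SG.ord (n + i + 1) - SG.ord (n + i)) * sc T := mul_nonneg (by linarith) hs0.le
    rw [e1, abs_mul, abs_of_nonneg hg, abs_div, abs_of_pos hlT, mul_comm (3 / Real.log T)]
    exact mul_le_mul_of_nonneg_left (div_le_div_of_nonneg_right h4 hlT.le) hg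
  have hsmall : 3 / Real.log T * ((SG.ord (n + L) - SG.ord n) * sc T) ≤ 1 := by
    calc 3 / Real.log T * ((SG.ord (n + L) - SG.ord n) * sc T) ≤ 3 / Real.log T * (L + s) :=
          mul_le_mul_of_nonneg_left hA (by positivity)
      _ = 3 * (L + s) / Real.log T := by ring
      _ ≤ 1 := by rw [div_le_one hlT]; exact hlog
  have hz : |(SG.ord (n + L) - SG.ord n) * sc T - L| ≤ s := by
    rw [abs_le]; constructor <;> linarith
  have hfin : |Sd L n| ≤ s + 1 := by
    have e : Sd L n = (Sd L n - ((SG.ord (n + L) - SG.ord n) * sc T - L)) +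
      ((SG.ord (n + L) - SG.ord n) * sc T - L) := by ring
    rw [e]
    refine (abs_add_le _ _).trans ?_
    linarith
  linarith

/-- a general bound for the counting function of hits -/
lemma card_le {W : Set ℕ} [DecidablePred (· ∈ W)] {T t s : ℝ} (hs : 0 < s) (hsc : 0 < sc T) {G H : ℝ}
    (p : ℕ) (h : ∀ n ∈ Ioc (SG.NZ t) (SG.NZ (t + 1 / sc T)), n ∈ W → s ≤ |G| ∨ s ≤ |H|) :
    (((Ioc (SG.NZ t) (SG.NZ (t + 1 / sc T))).filter (· ∈ W)).card : ℝ) ≤
      (|G| ^ (p + 1) + Mt T t ^ (p + 1)) / s ^ p + (|H| ^ (p + 1) + Mt T t ^ (p + 1)) / s ^ p := by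
  have hM := Mt_nonneg hsc t
  have h0 : ∀ X : ℝ, 0 ≤ (|X| ^ (p + 1) + Mt T t ^ (p + 1)) / s ^ p := fun X => by positivity
  rcases Finset.eq_empty_or_nonempty ((Ioc (SG.NZ t) (SG.NZ (t + 1 / sc T))).filter (· ∈ W)) with he | ⟨n, hn⟩
  · rw [he, Finset.card_empty, Nat.cast_zero]
    exact add_nonneg (h0 G) (h0 H)
  · rw [Finset.mem_filter] at hn
    have h1 : (((Ioc (SG.NZ t) (SG.NZ (t + 1 / sc T))).filter (· ∈ W)).card : ℝ) ≤ Mt T t := by
      have h2 : ((Ioc (SG.NZ t) (SG.NZ (t + 1 / sc T))).filter (· ∈ W)).card ≤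
          SG.NZ (t + 1 / sc T) - SG.NZ t := by
        rw [← Nat.card_Ioc]
        exact Finset.card_filter_le _ _
      have h3 : SG.NZ t ≤ SG.NZ (t + 1 / sc T) := SG.NZ_mono (by linarith [one_div_pos.2 hsc])
      unfold Mt
      rw [← Nat.cast_sub h3]
      exact_mod_cast h2
    rcases h n hn.1 hn.2 with h2 | h2
    · have := young hs hM h2 p
      linarith [h0 H]
    · have := young hs hM h2 p
      linarith [h0 G]

/-- **tails of the sums of consecutive gaps** -/
theorem Sd_tail (m : ℕ) : ∃ C : ℝ, 0 < C ∧ ∀ L s : ℕ, 1 ≤ L → 1 ≤ s → ∀ᶠ N : ℕ in atTop,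
    (((Icc 1 N).filter fun n => (s : ℝ) + 1 < |Sd L n|).card : ℝ) ≤
      C * (1 + Real.log (L + s)) ^ (4 * (m + 1)) / (s : ℝ) ^ (2 * m + 1) * N := by
  classical
  obtain ⟨A, hA, hD⟩ := D_all m
  obtain ⟨B, hB, hMt⟩ := Mt_Nm m
  set p := 2 * m + 1 with hp
  have hp1 : p + 1 = 2 * (m + 1) := by omega
  refine ⟨8 * (A ^ (p + 1) + B ^ (p + 1)), by positivity, fun L s hL hs => ?_⟩
  have hL' : (1 : ℝ) ≤ L := by exact_mod_cast hL
  have hs' : (1 : ℝ) ≤ s := by exact_mod_cast hs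
  set Λ : ℝ := 1 + Real.log (L + s) with hΛ
  have hΛ1 : 1 ≤ Λ := by
    have : 0 ≤ Real.log (L + s) := Real.log_nonneg (by linarith)
    rw [hΛ]; linarith
  have hlog : ∀ x : ℕ, x ≤ L + s → (1 + Real.log (max 1 (x : ℝ))) ≤ Λ := by
    intro x hx
    have h1 : max 1 (x : ℝ) ≤ L + s := max_le (by linarith) (by exact_mod_cast hx)
    rw [hΛ]
    linarith [Real.log_le_log (by positivity) h1]
  have hlog0 : ∀ x : ℕ, 0 ≤ (1 + Real.log (max 1 (x : ℝ))) := fun x => by
    have := Real.log_nonneg (le_max_left 1 (x : ℝ))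
    linarith
  set W : Set ℕ := {n | (s : ℝ) + 1 < |Sd L n|} with hW
  set ε : ℝ := 2 * (A ^ (p + 1) + B ^ (p + 1)) * Λ ^ (4 * (m + 1)) / (s : ℝ) ^ p with hε
  have hε0 : 0 < ε := by positivity
  have hs0 : (0 : ℝ) < s := by linarith
  have h := transfer W (fun T t => (|D SG.NZ (sc T) (t + 1 / sc T) ((L + s - 1 : ℕ) : ℝ)| ^ (p + 1) +
      Mt T t ^ (p + 1)) / (s : ℝ) ^ p + (|D SG.NZ (sc T) (t + 0 / sc T) ((L - s + 1 : ℕ) : ℝ)| ^ (p + 1) +
      Mt T t ^ (p + 1)) / (s : ℝ) ^ p) hε0 ?_ ?_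
  · filter_upwards [h] with N hN
    refine le_trans (le_of_eq ?_) (hN.trans (le_of_eq ?_))
    · rfl
    · rw [hε]; ring
  · filter_upwards [eventually_ge_atTop 10, sc_top.eventually_ge_atTop ((L : ℝ) + s + 1),
      Real.tendsto_log_atTop.eventually_ge_atTop (3 * ((L : ℝ) + s))] with T k1 k2 k3 t ht
    exact card_le hs0 (by linarith) p fun n hn hnW => hit hL hs k1 k2 k3 ht hn hnW
  · filter_upwards [hD (L + s - 1) 1 zero_le_one, hD (L - s + 1) 0 le_rfl, hMt, eventually_gt_atTop 0,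
      sc_top.eventually_gt_atTop 0] with T k1 k2 k3 hT hsc
    rw [← hp1] at k1 k2 k3
    have hMabs : ∀ t, Mt T t ^ (p + 1) = |Mt T t| ^ (p + 1) := fun t => by
      rw [abs_of_nonneg (Mt_nonneg hsc t)]
    simp only [hMabs]
    have i1 := k1.int
    have i2 := k2.int
    have i3 := k3.int
    refine ⟨((i1.add i3).div_const _).add ((i2.add i3).div_const _), ?_⟩
    have j1 : Integrable (fun t => (|D SG.NZ (sc T) (t + 1 / sc T) ((L + s - 1 : ℕ) : ℝ)| ^ (p + 1) +
      |Mt T t| ^ (p + 1)) / (s : ℝ) ^ p) (mu T) := (i1.add i3).div_const _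
    have j2 : Integrable (fun t => (|D SG.NZ (sc T) (t + 0 / sc T) ((L - s + 1 : ℕ) : ℝ)| ^ (p + 1) +
      |Mt T t| ^ (p + 1)) / (s : ℝ) ^ p) (mu T) := (i2.add i3).div_const _
    rw [integral_add j1 j2, integral_div, integral_div, integral_add i1 i3, integral_add i2 i3]
    have e : ∀ a b c : ℝ, 2 / T * ((a + c) / (s : ℝ) ^ p + (b + c) / (s : ℝ) ^ p) =
        ((2 / T * a + 2 / T * c) + (2 / T * b + 2 / T * c)) / (s : ℝ) ^ p := fun a b c => by ring
    rw [e, hε]
    refine div_le_div_of_nonneg_right ?_ (by positivity)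
    have b1 := k1.le
    have b2 := k2.le
    have b3 := k3.le
    have c1 : ∀ x : ℕ, x ≤ L + s → (A * (1 + Real.log (max 1 (x : ℝ))) ^ 2) ^ (p + 1) ≤
        A ^ (p + 1) * Λ ^ (4 * (m + 1)) := by
      intro x hx
      rw [mul_pow, ← pow_mul, show 2 * (p + 1) = 4 * (m + 1) by omega]
      exact mul_le_mul_of_nonneg_left (pow_le_pow_left₀ (hlog0 x) (hlog x hx) _) (by positivity)
    have c2 := c1 (L + s - 1) (by omega)
    have c3 := c1 (L - s + 1) (by omega)
    have c4 : B ^ (p + 1) ≤ B ^ (p + 1) * Λ ^ (4 * (m + 1)) :=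
      le_mul_of_one_le_right (by positivity) (one_le_pow₀ hΛ1)
    linarith

/-- tails at the limit processes -/
theorem tail_P {P : ProbabilityMeasure (ℤ → ℝ)} (hP : IsLim (seen dl) P) {X : (ℤ → ℝ) → ℝ}
    (hX : Continuous X) {a ε : ℝ}
    (h : ∀ᶠ N : ℕ in atTop, (((Icc 1 N).filter fun n => a < |X (seen dl n)|).card : ℝ) ≤ ε * N) :
    (P : Measure (ℤ → ℝ)).real {q | a + 1 < |X q|} ≤ ε := by
  have hF : Continuous fun q : ℤ → ℝ => max 0 (min 1 (|X q| - a)) := by fun_prop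
  obtain ⟨h1, h2⟩ := _root_.Q172.ZetaLim.fatou hP hF (fun q => le_max_left _ _) (a := ε) fun η hη => by
    filter_upwards [h] with N hN
    have hN0 : (0 : ℝ) ≤ N := Nat.cast_nonneg N
    calc ∑ n ∈ Icc 1 N, max 0 (min 1 (|X (seen dl n)| - a)) ≤
        ∑ n ∈ Icc 1 N, if a < |X (seen dl n)| then (1 : ℝ) else 0 := by
          refine Finset.sum_le_sum fun n _ => ?_
          split_ifs with hc
          · exact max_le zero_le_one (min_le_left _ _)
          · push Not at hc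
            exact max_le le_rfl ((min_le_right _ _).trans (by linarith))
      _ = (((Icc 1 N).filter fun n => a < |X (seen dl n)|).card : ℝ) := by
          rw [← Finset.sum_filter, Finset.sum_const, nsmul_eq_mul, mul_one]
      _ ≤ ε * N := hN
      _ ≤ (ε + η) * N := by nlinarith
  refine le_trans ?_ h2
  have hm : MeasurableSet {q : ℤ → ℝ | a + 1 < |X q|} :=
    measurableSet_lt measurable_const hX.abs.measurable
  have e : (P : Measure (ℤ → ℝ)).real {q | a + 1 < |X q|} =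
      ∫ q, {q : ℤ → ℝ | a + 1 < |X q|}.indicator (fun _ => (1 : ℝ)) q ∂(P : Measure (ℤ → ℝ)) := by
    rw [integral_indicator hm, setIntegral_const, smul_eq_mul, mul_one]
  rw [e]
  refine integral_mono ((integrable_indicator_iff hm).2 (by simp)) h1 fun q => ?_
  by_cases hq : q ∈ {q : ℤ → ℝ | a + 1 < |X q|}
  · rw [Set.indicator_of_mem hq]
    rw [Set.mem_ofPred_eq] at hq
    exact le_max_of_le_right (le_min le_rfl (by linarith))
  · rw [Set.indicator_of_notMem hq]
    exact le_max_left _ _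

end Pool.Agent.Q172.PS
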