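import Pool.Agent.Q172.PS.D

/-!
# All moments of the sums of consecutive gaps at the limit processes (helper172)
-/

set_option autoImplicit false

namespace Pool.Agent.Q172.PS

open Finset MeasureTheory Filter Topology
open Pool.Agent.Q278.GF Pool.Agent.Q278.MC Pool.Agent.Q278.KM
open _root_.Q172.ZetaLim (IsLim seen)
open scoped ContDiff

lemma sum_inv_sq (H : ℕ) : ∑ s ∈ Icc 1 H, 1 / (s : ℝ) ^ 2 ≤ 2 := by
  have key : ∀ H : ℕ, 1 ≤ H → ∑ s ∈ Icc 1 H, 1 / (s : ℝ) ^ 2 ≤ 2 - 1 / (H : ℝ) := by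
    intro H hH
    induction H, hH using Nat.le_induction with
    | base => norm_num
    | succ H hH ih =>
      rw [Finset.sum_Icc_succ_top (by omega)]
      have hH' : (1 : ℝ) ≤ H := by exact_mod_cast hH
      have h1 : 1 / ((H : ℝ) + 1) ^ 2 ≤ 1 / H - 1 / (H + 1) := by
        rw [div_sub_div _ _ (by positivity) (by positivity), div_le_div_iff₀ (by positivity) (by positivity)]
        nlinarith
      push_cast
      linarith
  rcases Nat.eq_zero_or_pos H with h | h
  · rw [h]; simp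
  · have h1 := key H h
    have : (0 : ℝ) ≤ 1 / (H : ℝ) := by positivity
    linarith

lemma min_pow_le (k H : ℕ) {x : ℝ} (hx : 0 ≤ x) :
    (min x ((H : ℝ) + 3)) ^ k ≤ 3 ^ k + ∑ s ∈ Icc 1 H, ((s : ℝ) + 3) ^ k * (if (s : ℝ) + 2 < x then 1 else 0) := by
  have hnn : ∀ S : Finset ℕ, 0 ≤ ∑ s ∈ S, ((s : ℝ) + 3) ^ k * (if (s : ℝ) + 2 < x then (1 : ℝ) else 0) :=
    fun S => Finset.sum_nonneg fun s _ => mul_nonneg (by positivity) (by split_ifs <;> norm_num)
  have h3 : (0 : ℝ) < 3 ^ k := by positivity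
  rcases le_or_gt x 3 with h | h
  · have h1 : (min x ((H : ℝ) + 3)) ^ k ≤ 3 ^ k :=
      pow_le_pow_left₀ (le_min hx (by positivity)) ((min_le_left _ _).trans h) k
    linarith [hnn (Icc 1 H)]
  · -- the layer
    set s : ℕ := ⌈x⌉₊ - 3 with hs
    have hc : 4 ≤ ⌈x⌉₊ := by
      have : 3 < ⌈x⌉₊ := Nat.lt_ceil.2 (by exact_mod_cast h)
      omega
    have hs1 : 1 ≤ s := by omega
    have e1 : (⌈x⌉₊ : ℝ) = s + 3 := by
      have : ⌈x⌉₊ = s + 3 := by omega
      rw [this]; push_cast; ring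
    have hx1 : x ≤ s + 3 := by rw [← e1]; exact Nat.le_ceil x
    have hx2 : (s : ℝ) + 2 < x := by
      have := Nat.ceil_lt_add_one (a := x) (by linarith)
      rw [e1] at this
      linarith
    rcases le_or_gt s H with hsH | hsH
    · have h1 : (min x ((H : ℝ) + 3)) ^ k ≤ ((s : ℝ) + 3) ^ k :=
        pow_le_pow_left₀ (le_min hx (by positivity)) ((min_le_left _ _).trans hx1) k
      have h2 : ((s : ℝ) + 3) ^ k * (if (s : ℝ) + 2 < x then (1 : ℝ) else 0) ≤
          ∑ s ∈ Icc 1 H, ((s : ℝ) + 3) ^ k * (if (s : ℝ) + 2 < x then (1 : ℝ) else 0) :=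
        Finset.single_le_sum (f := fun s : ℕ => ((s : ℝ) + 3) ^ k * (if (s : ℝ) + 2 < x then (1 : ℝ) else 0))
          (fun i _ => mul_nonneg (by positivity) (by split_ifs <;> norm_num))
          (Finset.mem_Icc.2 ⟨hs1, hsH⟩)
      rw [if_pos hx2, mul_one] at h2
      linarith
    · rcases Nat.eq_zero_or_pos H with h0 | h0
      · rw [h0, Nat.cast_zero, zero_add]
        have h1 : (min x 3) ^ k ≤ 3 ^ k :=
          pow_le_pow_left₀ (le_min hx (by norm_num)) (min_le_right _ _) k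
        simpa using h1
      · have h1 : (min x ((H : ℝ) + 3)) ^ k ≤ ((H : ℝ) + 3) ^ k :=
          pow_le_pow_left₀ (le_min hx (by positivity)) (min_le_right _ _) k
        have h2 : ((H : ℝ) + 3) ^ k * (if (H : ℝ) + 2 < x then (1 : ℝ) else 0) ≤
            ∑ s ∈ Icc 1 H, ((s : ℝ) + 3) ^ k * (if (s : ℝ) + 2 < x then (1 : ℝ) else 0) :=
          Finset.single_le_sum (f := fun s : ℕ => ((s : ℝ) + 3) ^ k * (if (s : ℝ) + 2 < x then (1 : ℝ) else 0))
            (fun i _ => mul_nonneg (by positivity) (by split_ifs <;> norm_num))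
            (Finset.mem_Icc.2 ⟨h0, le_rfl⟩)
        have h4 : (H : ℝ) + 2 < x := by
          have : (H : ℝ) < s := by exact_mod_cast hsH
          linarith
        rw [if_pos h4, mul_one] at h2
        linarith

/-- moments from tails -/
theorem mom_of_tail {P : ProbabilityMeasure (ℤ → ℝ)} {X : (ℤ → ℝ) → ℝ} (hX : Continuous X) (k : ℕ)
    {K : ℝ} (hK : 0 ≤ K) (h : ∀ s : ℕ, 1 ≤ s → (P : Measure (ℤ → ℝ)).real {q | (s : ℝ) + 2 < |X q|} ≤
      K / (s : ℝ) ^ (k + 2)) :
    Integrable (fun q => |X q| ^ k) (P : Measure (ℤ → ℝ)) ∧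
      ∫ q, |X q| ^ k ∂(P : Measure (ℤ → ℝ)) ≤ 3 ^ k + 2 * 4 ^ k * K := by
  refine _root_.Q172.Mem.of_min (by fun_prop) (fun q => by positivity) fun n => ?_
  rcases Nat.eq_zero_or_pos k with hk | hk
  · subst hk
    have : ∫ q, min (|X q| ^ 0) (n : ℝ) ∂(P : Measure (ℤ → ℝ)) ≤ ∫ _q, (1 : ℝ) ∂(P : Measure (ℤ → ℝ)) := by
      refine integral_mono_of_nonneg (Eventually.of_forall fun q => ?_) (integrable_const _)
        (Eventually.of_forall fun q => ?_)
      · exact le_min (by positivity) (Nat.cast_nonneg n)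
      · simp
    rw [integral_const, smul_eq_mul, mul_one] at this
    simp only [probReal_univ] at this
    refine this.trans ?_
    norm_num
    exact hK
  · have hm : ∀ s : ℕ, MeasurableSet {q : ℤ → ℝ | (s : ℝ) + 2 < |X q|} := fun s =>
      measurableSet_lt measurable_const hX.abs.measurable
    have hle : ∀ q, min (|X q| ^ k) (n : ℝ) ≤ 3 ^ k + ∑ s ∈ Icc 1 n, ((s : ℝ) + 3) ^ k *
        {q : ℤ → ℝ | (s : ℝ) + 2 < |X q|}.indicator (fun _ => (1 : ℝ)) q := by
      intro q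
      have h1 := min_pow_le k n (abs_nonneg (X q))
      have h2 : min (|X q| ^ k) (n : ℝ) ≤ (min |X q| ((n : ℝ) + 3)) ^ k := by
        rcases le_total |X q| ((n : ℝ) + 3) with hc | hc
        · rw [min_eq_left hc]
          exact min_le_left _ _
        · rw [min_eq_right hc]
          refine (min_le_right _ _).trans ?_
          calc (n : ℝ) ≤ n + 3 := by linarith
            _ = ((n : ℝ) + 3) ^ 1 := (pow_one _).symm
            _ ≤ ((n : ℝ) + 3) ^ k := pow_le_pow_right₀ (by linarith [(Nat.cast_nonneg n : (0 : ℝ) ≤ n)]) hk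
      refine h2.trans (h1.trans (le_of_eq ?_))
      congr 1
    have hi : ∀ s : ℕ, Integrable (fun q => ((s : ℝ) + 3) ^ k *
        {q : ℤ → ℝ | (s : ℝ) + 2 < |X q|}.indicator (fun _ => (1 : ℝ)) q) (P : Measure (ℤ → ℝ)) := fun s =>
      ((integrable_indicator_iff (hm s)).2 (by simp)).const_mul _
    have hsum : Integrable (fun q => 3 ^ k + ∑ s ∈ Icc 1 n, ((s : ℝ) + 3) ^ k *
        {q : ℤ → ℝ | (s : ℝ) + 2 < |X q|}.indicator (fun _ => (1 : ℝ)) q) (P : Measure (ℤ → ℝ)) :=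
      (integrable_const _).add (integrable_finsetSum _ fun s _ => hi s)
    have h3 : ∫ q, min (|X q| ^ k) (n : ℝ) ∂(P : Measure (ℤ → ℝ)) ≤ ∫ q, (3 ^ k + ∑ s ∈ Icc 1 n,
        ((s : ℝ) + 3) ^ k * {q : ℤ → ℝ | (s : ℝ) + 2 < |X q|}.indicator (fun _ => (1 : ℝ)) q)
          ∂(P : Measure (ℤ → ℝ)) := by
      refine integral_mono_of_nonneg (Eventually.of_forall fun q => ?_) hsum
        (Eventually.of_forall hle)
      exact le_min (by positivity) (Nat.cast_nonneg n)
    refine h3.trans ?_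
    rw [integral_add (integrable_const _) (integrable_finsetSum _ fun s _ => hi s),
      integral_finsetSum _ fun s _ => hi s, integral_const, smul_eq_mul]
    simp only [probReal_univ, one_mul]
    have h4 : ∑ s ∈ Icc 1 n, ∫ q, ((s : ℝ) + 3) ^ k *
        {q : ℤ → ℝ | (s : ℝ) + 2 < |X q|}.indicator (fun _ => (1 : ℝ)) q ∂(P : Measure (ℤ → ℝ)) ≤
        ∑ s ∈ Icc 1 n, (4 ^ k * K) * (1 / (s : ℝ) ^ 2) := by
      refine Finset.sum_le_sum fun s hs => ?_
      rw [Finset.mem_Icc] at hs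
      have hs1 : (1 : ℝ) ≤ s := by exact_mod_cast hs.1
      rw [integral_const_mul, integral_indicator (hm s), setIntegral_const, smul_eq_mul, mul_one]
      calc ((s : ℝ) + 3) ^ k * (P : Measure (ℤ → ℝ)).real {q | (s : ℝ) + 2 < |X q|} ≤
          (4 * (s : ℝ)) ^ k * (K / (s : ℝ) ^ (k + 2)) := by
            refine mul_le_mul (pow_le_pow_left₀ (by positivity) (by linarith) k) (h s hs.1)
              measureReal_nonneg (by positivity)
        _ = (4 ^ k * K) * (1 / (s : ℝ) ^ 2) := by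
            rw [mul_pow, pow_add]
            field_simp
    rw [← Finset.mul_sum] at h4
    have h5 := sum_inv_sq n
    have h6 : 0 ≤ 4 ^ k * K := by positivity
    nlinarith

lemma log_pow_le (M : ℕ) {s : ℝ} (hs : 1 ≤ s) :
    (1 + Real.log (1 + s)) ^ M ≤ 2 * (1 + (M : ℝ)) ^ M * s := by
  rcases Nat.eq_zero_or_pos M with h | h
  · subst h; simp; linarith
  have hM : (0 : ℝ) < M := by exact_mod_cast h
  set x := 1 + s with hx
  have hx1 : 1 ≤ x := by linarith
  set y := x ^ (1 / (M : ℝ)) with hy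
  have hy1 : 1 ≤ y := Real.one_le_rpow hx1 (by positivity)
  have e1 : y ^ M = x := by
    rw [hy, ← Real.rpow_natCast, ← Real.rpow_mul (by linarith), one_div, inv_mul_cancel₀ hM.ne',
      Real.rpow_one]
  have e2 : Real.log x = M * Real.log y := by rw [← e1, Real.log_pow]
  have h1 := Real.log_le_sub_one_of_pos (by linarith : 0 < y)
  have h2 : 1 + Real.log x ≤ (1 + M) * y := by rw [e2]; nlinarith
  have h3 : 0 ≤ Real.log x := Real.log_nonneg hx1
  calc (1 + Real.log x) ^ M ≤ ((1 + M) * y) ^ M := pow_le_pow_left₀ (by linarith) h2 M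
    _ = (1 + (M : ℝ)) ^ M * x := by rw [mul_pow, e1]
    _ ≤ (1 + (M : ℝ)) ^ M * (2 * s) := mul_le_mul_of_nonneg_left (by linarith) (by positivity)
    _ = _ := by ring

lemma log_split {L s : ℝ} (hL : 1 ≤ L) (hs : 1 ≤ s) :
    1 + Real.log (L + s) ≤ (1 + Real.log L) * (1 + Real.log (1 + s)) := by
  have h1 : L + s ≤ L * (1 + s) := by nlinarith
  have h2 := Real.log_le_log (by linarith) h1
  rw [Real.log_mul (by linarith) (by linarith)] at h2
  have h3 := Real.log_nonneg hL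
  have h4 := Real.log_nonneg (by linarith : 1 ≤ 1 + s)
  nlinarith [mul_nonneg h3 h4]

/-- the sum of `L` consecutive gaps of a sequence, centred -/
noncomputable def SL (L : ℕ) (q : ℤ → ℝ) : ℝ := ∑ i ∈ range L, (q (i : ℤ) - 1)

lemma SL_cont (L : ℕ) : Continuous (SL L) := by
  unfold SL
  fun_prop

lemma SL_seen (L : ℕ) {n : ℕ} (hn : 1 ≤ n) : SL L (seen dl n) = Sd L n := by
  unfold SL Sd seen
  refine Finset.sum_congr rfl fun i _ => ?_
  rw [if_pos (by omega)]
  congr 2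

/-- **all moments of the sums of consecutive gaps** -/
theorem SL_mom (k : ℕ) : ∃ (C : ℝ) (A : ℕ), 0 < C ∧ ∀ P : ProbabilityMeasure (ℤ → ℝ),
    IsLim (seen dl) P → ∀ L : ℕ, 1 ≤ L →
      Integrable (fun q => |SL L q| ^ k) (P : Measure (ℤ → ℝ)) ∧
        ∫ q, |SL L q| ^ k ∂(P : Measure (ℤ → ℝ)) ≤ C * (1 + Real.log L) ^ A := by
  obtain ⟨C, hC, h⟩ := Sd_tail (k + 1)
  set M := 4 * (k + 1 + 1) with hM
  set C' : ℝ := C * (2 * (1 + (M : ℝ)) ^ M) with hC'
  have hC'0 : 0 < C' := by positivity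
  refine ⟨3 ^ k + 2 * 4 ^ k * C', M, by positivity, fun P hP L hL => ?_⟩
  have hL' : (1 : ℝ) ≤ L := by exact_mod_cast hL
  have hlL : 0 ≤ Real.log L := Real.log_nonneg hL'
  have h1 : ∀ s : ℕ, 1 ≤ s → (P : Measure (ℤ → ℝ)).real {q | (s : ℝ) + 2 < |SL L q|} ≤
      (C' * (1 + Real.log L) ^ M) / (s : ℝ) ^ (k + 2) := by
    intro s hs
    have hs' : (1 : ℝ) ≤ s := by exact_mod_cast hs
    have h2 := tail_P hP (SL_cont L) (a := (s : ℝ) + 1)
      (ε := C * (1 + Real.log (L + s)) ^ M / (s : ℝ) ^ (2 * (k + 1) + 1)) (by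
        filter_upwards [h L s hL hs] with N hN
        refine le_trans (le_of_eq ?_) hN
        congr 2
        refine Finset.filter_congr fun n hn => ?_
        rw [Finset.mem_Icc] at hn
        rw [SL_seen L hn.1])
    rw [show (s : ℝ) + 1 + 1 = s + 2 by ring] at h2
    refine h2.trans ?_
    have h3 : (1 + Real.log (L + s)) ^ M ≤ (1 + Real.log L) ^ M * (2 * (1 + (M : ℝ)) ^ M * s) := by
      have h4 := log_split hL' hs'
      have h5 : 0 ≤ Real.log ((L : ℝ) + s) := Real.log_nonneg (by linarith)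
      calc (1 + Real.log (L + s)) ^ M ≤ ((1 + Real.log L) * (1 + Real.log (1 + s))) ^ M :=
            pow_le_pow_left₀ (by linarith) h4 M
        _ = (1 + Real.log L) ^ M * (1 + Real.log (1 + s)) ^ M := mul_pow _ _ _
        _ ≤ _ := mul_le_mul_of_nonneg_left (log_pow_le M hs') (by positivity)
    have hs0 : (0 : ℝ) < s := by linarith
    rw [div_le_div_iff₀ (by positivity) (by positivity)]
    have e1 : (s : ℝ) ^ (2 * (k + 1) + 1) = (s : ℝ) ^ (k + 2) * (s : ℝ) ^ k * s := by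
      rw [← pow_add, ← pow_succ]; congr 1; omega
    have h6 : (1 : ℝ) ≤ (s : ℝ) ^ k := one_le_pow₀ hs'
    have hX : 0 ≤ (1 + Real.log L) ^ M := by positivity
    calc C * (1 + Real.log (L + s)) ^ M * (s : ℝ) ^ (k + 2) ≤
        C * ((1 + Real.log L) ^ M * (2 * (1 + (M : ℝ)) ^ M * s)) * (s : ℝ) ^ (k + 2) := by
          gcongr
      _ = (C' * (1 + Real.log L) ^ M) * ((s : ℝ) ^ (k + 2) * s) * 1 := by rw [hC']; ring
      _ ≤ (C' * (1 + Real.log L) ^ M) * ((s : ℝ) ^ (k + 2) * s) * (s : ℝ) ^ k :=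
          mul_le_mul_of_nonneg_left h6 (by positivity)
      _ = _ := by rw [e1]; ring
  obtain ⟨h7, h8⟩ := mom_of_tail (SL_cont L) k (by positivity) h1
  refine ⟨h7, h8.trans ?_⟩
  have h9 : (1 : ℝ) ≤ (1 + Real.log L) ^ M := one_le_pow₀ (by linarith)
  have h10 : (0 : ℝ) < 3 ^ k := by positivity
  calc 3 ^ k + 2 * 4 ^ k * (C' * (1 + Real.log L) ^ M) ≤
      3 ^ k * (1 + Real.log L) ^ M + 2 * 4 ^ k * (C' * (1 + Real.log L) ^ M) := by nlinarith
    _ = _ := by ring

end Pool.Agent.Q172.PS
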