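import Pool.Agent.Q172.PS.E

/-!
# Tails of the smooth sums of the gaps (helper172)
-/

set_option autoImplicit false

namespace Pool.Agent.Q172.PS

open Finset MeasureTheory Filter Topology
open Pool.Agent.Q278.GF Pool.Agent.Q278.MC Pool.Agent.Q278.KM
open _root_.Q172.ZetaLim (IsLim seen)
open scoped ContDiff

variable {φ φ' : ℝ → ℝ} {B0 B2 R L : ℝ}

/-- the number of hits -/
lemma card_le3 {W : Set ℕ} [DecidablePred (· ∈ W)] {T t s w : ℝ} (hs : 0 < s) (hw : 0 < w)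
    (hsc : 0 < sc T) {G0 : ℝ} (I : Finset ℕ) (G H : ℕ → ℝ) (p : ℕ)
    (h : ∀ n ∈ Ioc (SG.NZ t) (SG.NZ (t + 1 / sc T)), n ∈ W → s ≤ |G0| ∨ w ≤ Mt T t ∨
      ∃ i ∈ I, w ≤ |G i| ∨ w ≤ |H i|) :
    (((Ioc (SG.NZ t) (SG.NZ (t + 1 / sc T))).filter (· ∈ W)).card : ℝ) ≤
      (|G0| ^ (p + 1) + |Mt T t| ^ (p + 1)) / s ^ p + (|Mt T t| ^ (p + 1) + |Mt T t| ^ (p + 1)) / w ^ p +
      ∑ i ∈ I, ((|G i| ^ (p + 1) + |Mt T t| ^ (p + 1)) / w ^ p +
        (|H i| ^ (p + 1) + |Mt T t| ^ (p + 1)) / w ^ p) := by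
  have hM := Mt_nonneg hsc t
  rw [abs_of_nonneg hM]
  have h0 : ∀ X : ℝ, 0 ≤ (|X| ^ (p + 1) + Mt T t ^ (p + 1)) / s ^ p := fun X => by positivity
  have h0' : ∀ X : ℝ, 0 ≤ (|X| ^ (p + 1) + Mt T t ^ (p + 1)) / w ^ p := fun X => by positivity
  have h0'' : 0 ≤ (Mt T t ^ (p + 1) + Mt T t ^ (p + 1)) / w ^ p := by positivity
  have h00 : 0 ≤ ∑ i ∈ I, ((|G i| ^ (p + 1) + Mt T t ^ (p + 1)) / w ^ p +
        (|H i| ^ (p + 1) + Mt T t ^ (p + 1)) / w ^ p) :=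
    Finset.sum_nonneg fun i _ => add_nonneg (h0' _) (h0' _)
  rcases Finset.eq_empty_or_nonempty ((Ioc (SG.NZ t) (SG.NZ (t + 1 / sc T))).filter (· ∈ W)) with he | ⟨n, hn⟩
  · rw [he, Finset.card_empty, Nat.cast_zero]
    have := h0 G0
    positivity
  · rw [Finset.mem_filter] at hn
    have h1 : (((Ioc (SG.NZ t) (SG.NZ (t + 1 / sc T))).filter (· ∈ W)).card : ℝ) ≤ Mt T t := by
      have h2 : ((Ioc (SG.NZ t) (SG.NZ (t + 1 / sc T))).filter (· ∈ W)).card ≤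
          SG.NZ (t + 1 / sc T) - SG.NZ t := by
        rw [← Nat.card_Ioc]
        exact Finset.card_filter_le _ _
      have h3 : SG.NZ t ≤ SG.NZ (t + 1 / sc T) := SG.NZ_mono (by linarith [one_div_pos.2 hsc])
      unfold Mt
      rw [← Nat.cast_sub h3]
      exact_mod_cast h2
    rcases h n hn.1 hn.2 with h2 | h2 | ⟨i, hi, h2⟩
    · have := young hs hM h2 p
      linarith
    · have := young hw hM (h2.trans (le_abs_self _)) p
      rw [abs_of_nonneg hM] at this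
      linarith [h0 G0]
    · have h4 : (|G i| ^ (p + 1) + Mt T t ^ (p + 1)) / w ^ p +
        (|H i| ^ (p + 1) + Mt T t ^ (p + 1)) / w ^ p ≤ ∑ i ∈ I, ((|G i| ^ (p + 1) + Mt T t ^ (p + 1)) / w ^ p +
        (|H i| ^ (p + 1) + Mt T t ^ (p + 1)) / w ^ p) :=
        Finset.single_le_sum (f := fun i => (|G i| ^ (p + 1) + Mt T t ^ (p + 1)) / w ^ p +
        (|H i| ^ (p + 1) + Mt T t ^ (p + 1)) / w ^ p) (fun i _ => add_nonneg (h0' _) (h0' _)) hi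
      rcases h2 with h2 | h2
      · have := young hw hM h2 p
        linarith [h0 G0, h0' (H i)]
      · have := young hw hM h2 p
        linarith [h0 G0, h0' (G i)]

/-- the deterministic comparison -/
lemma FF_near (h : Tst φ φ' B0 B2 R) (hL : 1 ≤ L) {T t : ℝ} (hT : 1 < T)
    (hT2 : (6 * K0 R L + 1 : ℝ) / sc T ≤ T) (ha : 1 ≤ sc T / L) (hTR : 2 * R < T)
    (ht : t ∈ Set.Icc (T / 2) T) {w : ℕ} (hw1 : 1 ≤ w) (hwK : w ≤ 2 * K0 R L)
    (hz : ∀ i ∈ Icc 1 (4 * K0 R L + 1), |Z SG.NZ SG.ord (sc T) t i - i| ≤ w)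
    {j : ℕ} (hj : 1 ≤ j) (hjw : j ≤ w) :
    |FF φ R L (SG.NZ t + j)| ≤ |Sh φ L T (t + K0 R L / sc T)| + 64 * B2 * (R + 2) * (w : ℝ) ^ 3 / L +
      3 * er B0 R L T := by
  have hL0 : 0 < L := by linarith
  have hB2 := h.wt.nonneg
  have hw' : (1 : ℝ) ≤ w := by exact_mod_cast hw1
  have hg : Good R L T t := fun i hi => (hz i hi).trans (by exact_mod_cast hwK)
  have h1 := point1 h hL0 hT hT2 ht hg
  have h2 := point2 h hL0 hT hT2 ht hg hj (hjw.trans hwK)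
  rw [PP_eq h hL0 hT ha hTR ht hg] at h1
  have e0 : SZ φ (sc T / L) (t + K0 R L / sc T) - L * ∫ x, φ x = Sh φ L T (t + K0 R L / sc T) := rfl
  rw [e0] at h1
  have hsq : ∀ i ∈ Icc 1 (4 * K0 R L), (Z SG.NZ SG.ord (sc T) t i - i) ^ 2 ≤ (w : ℝ) ^ 2 := by
    intro i hi
    rw [Finset.mem_Icc] at hi
    have := hz i (Finset.mem_Icc.2 ⟨hi.1, by omega⟩)
    rw [← sq_abs]
    exact pow_le_pow_left₀ (abs_nonneg _) this 2
  have hK : (K0 R L : ℝ) ≤ (R + 2) * L := K0_le h.R1 hL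
  have hK0 : (0 : ℝ) ≤ K0 R L := Nat.cast_nonneg _
  have b1 : ∑ i ∈ Icc 1 (4 * K0 R L), (2 * (Z SG.NZ SG.ord (sc T) t i - i) ^ 2 + 3) ≤
      4 * ((R + 2) * L) * (2 * (w : ℝ) ^ 2 + 3) := by
    calc ∑ i ∈ Icc 1 (4 * K0 R L), (2 * (Z SG.NZ SG.ord (sc T) t i - i) ^ 2 + 3) ≤
        ∑ _i ∈ Icc 1 (4 * K0 R L), (2 * (w : ℝ) ^ 2 + 3) := by
          refine Finset.sum_le_sum fun i hi => ?_
          linarith [hsq i hi]
      _ = 4 * (K0 R L : ℝ) * (2 * (w : ℝ) ^ 2 + 3) := by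
          rw [Finset.sum_const, Nat.card_Icc, nsmul_eq_mul]
          push_cast
          ring
      _ ≤ _ := by gcongr
  have b2 : ∑ i ∈ Icc 1 (4 * K0 R L), ((Z SG.NZ SG.ord (sc T) t i - i) ^ 2 + 1) ≤
      4 * ((R + 2) * L) * ((w : ℝ) ^ 2 + 1) := by
    calc ∑ i ∈ Icc 1 (4 * K0 R L), ((Z SG.NZ SG.ord (sc T) t i - i) ^ 2 + 1) ≤
        ∑ _i ∈ Icc 1 (4 * K0 R L), ((w : ℝ) ^ 2 + 1) := by
          refine Finset.sum_le_sum fun i hi => ?_
          linarith [hsq i hi]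
      _ = 4 * (K0 R L : ℝ) * ((w : ℝ) ^ 2 + 1) := by
          rw [Finset.sum_const, Nat.card_Icc, nsmul_eq_mul]
          push_cast
          ring
      _ ≤ _ := by gcongr
  have hR := h.R1
  have hjw' : (j : ℝ) ≤ w := by exact_mod_cast hjw
  have c1 : B2 / L ^ 2 * ∑ i ∈ Icc 1 (4 * K0 R L), (2 * (Z SG.NZ SG.ord (sc T) t i - i) ^ 2 + 3) ≤
      B2 / L ^ 2 * (4 * ((R + 2) * L) * (5 * (w : ℝ) ^ 3)) := by
    refine mul_le_mul_of_nonneg_left (b1.trans ?_) (by positivity)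
    have : 2 * (w : ℝ) ^ 2 + 3 ≤ 5 * (w : ℝ) ^ 3 := by nlinarith [pow_le_pow_right₀ hw' (show 2 ≤ 3 by norm_num), one_le_pow₀ (n := 3) hw']
    gcongr
  have c2 : 4 * (B2 / L ^ 2) * j * ∑ i ∈ Icc 1 (4 * K0 R L), ((Z SG.NZ SG.ord (sc T) t i - i) ^ 2 + 1) ≤
      4 * (B2 / L ^ 2) * w * (4 * ((R + 2) * L) * (2 * (w : ℝ) ^ 2)) := by
    have h3 : 0 ≤ ∑ i ∈ Icc 1 (4 * K0 R L), ((Z SG.NZ SG.ord (sc T) t i - i) ^ 2 + 1) :=
      Finset.sum_nonneg fun i _ => by positivity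
    have h4 : (w : ℝ) ^ 2 + 1 ≤ 2 * (w : ℝ) ^ 2 := by nlinarith
    have h5 : 4 * ((R + 2) * L) * ((w : ℝ) ^ 2 + 1) ≤ 4 * ((R + 2) * L) * (2 * (w : ℝ) ^ 2) := by gcongr
    refine mul_le_mul ?_ (b2.trans h5) h3 (by positivity)
    gcongr
  have e1 : B2 / L ^ 2 * (4 * ((R + 2) * L) * (5 * (w : ℝ) ^ 3)) = 20 * (B2 * (R + 2) * (w : ℝ) ^ 3 / L) := by
    field_simp
    ring
  have e2 : 4 * (B2 / L ^ 2) * w * (4 * ((R + 2) * L) * (2 * (w : ℝ) ^ 2)) =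
      32 * (B2 * (R + 2) * (w : ℝ) ^ 3 / L) := by
    field_simp
    ring
  rw [e1] at c1
  rw [e2] at c2
  have hq : 0 ≤ B2 * (R + 2) * (w : ℝ) ^ 3 / L := by positivity
  have e3 : 64 * B2 * (R + 2) * (w : ℝ) ^ 3 / L = 64 * (B2 * (R + 2) * (w : ℝ) ^ 3 / L) := by ring
  rw [e3]
  have e4 : FF φ R L (SG.NZ t + j) = (FF φ R L (SG.NZ t + j) - FF φ R L (SG.NZ t)) +
      (FF φ R L (SG.NZ t) + Sh φ L T (t + K0 R L / sc T)) - Sh φ L T (t + K0 R L / sc T) := by ring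
  rw [e4]
  have h5 := abs_sub (FF φ R L (SG.NZ t + j) - FF φ R L (SG.NZ t) +
      (FF φ R L (SG.NZ t) + Sh φ L T (t + K0 R L / sc T))) (Sh φ L T (t + K0 R L / sc T))
  have h6 := abs_add_le (FF φ R L (SG.NZ t + j) - FF φ R L (SG.NZ t))
      (FF φ R L (SG.NZ t) + Sh φ L T (t + K0 R L / sc T))
  linarith

/-- the auxiliary length -/
noncomputable def wl (L : ℝ) : ℕ := ⌊L ^ (1 / 4 : ℝ)⌋₊

lemma wl_pow (hL : 1 ≤ L) : 1 ≤ wl L ∧ ((wl L : ℝ)) ^ 4 ≤ L ∧ L ≤ 16 * (wl L : ℝ) ^ 4 := by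
  have hL0 : 0 ≤ L := by linarith
  set y := L ^ (1 / 4 : ℝ) with hy
  have hy1 : 1 ≤ y := Real.one_le_rpow hL (by norm_num)
  have e : y ^ 4 = L := by
    rw [hy, ← Real.rpow_natCast, ← Real.rpow_mul hL0]
    norm_num
  have h1 : 1 ≤ wl L := by
    unfold wl
    exact Nat.le_floor (by exact_mod_cast hy1)
  have h1' : (1 : ℝ) ≤ wl L := by exact_mod_cast h1
  have h2 : (wl L : ℝ) ≤ y := Nat.floor_le (by linarith)
  have h3 : y < wl L + 1 := Nat.lt_floor_add_one y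
  refine ⟨h1, ?_, ?_⟩
  · calc ((wl L : ℝ)) ^ 4 ≤ y ^ 4 := pow_le_pow_left₀ (by positivity) h2 4
      _ = L := e
  · calc L = y ^ 4 := e.symm
      _ ≤ (2 * (wl L : ℝ)) ^ 4 := pow_le_pow_left₀ (by linarith) (by linarith) 4
      _ = _ := by ring

/-- **tails of the smooth sums**, indices -/
theorem FF_tail (h : Tst φ φ' B0 B2 R) (hf : CC (fc φ)) (m : ℕ) : ∃ C L0 : ℝ, 0 < C ∧ 1 ≤ L0 ∧
    ∀ L : ℝ, L0 ≤ L → ∀ s : ℕ, 1 ≤ s → ∀ᶠ N : ℕ in atTop,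
      (((Icc 1 N).filter fun n => (s : ℝ) + 1 < |FF φ R L n|).card : ℝ) ≤
        (C / (s : ℝ) ^ (2 * m + 1) + C * (K0 R L : ℝ) * (1 + Real.log (6 * K0 R L + 1)) ^ (4 * (m + 1)) /
          (wl L : ℝ) ^ (2 * m + 1)) * N := by
  classical
  obtain ⟨A, hA, hD⟩ := D_all m
  obtain ⟨B, hB, hMt⟩ := Mt_Nm m
  obtain ⟨C1, L1, hC1, hL1, hS⟩ := sh_mom_tr h hf m
  set p := 2 * m + 1 with hp
  have hp1 : p + 1 = 2 * (m + 1) := by omega
  have hR := h.R1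
  have hB2 := h.wt.nonneg
  set E : ℝ := |C1| + 1 with hE
  have hE0 : 0 < E := by positivity
  set Q : ℝ := A ^ (p + 1) + B ^ (p + 1) + E ^ (p + 1) with hQ
  have hQ0 : 0 < Q := by positivity
  set X : ℝ := 128 * B2 * (R + 2) + 1 with hX
  have hX1 : 1 ≤ X := by
    rw [hX]
    have : 0 ≤ 128 * B2 * (R + 2) := by positivity
    linarith
  refine ⟨88 * Q, max L1 (16 * (X + 1) ^ 4), by positivity, hL1.trans (le_max_left _ _),
    fun L hL s hs => ?_⟩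
  have hLa : L1 ≤ L := (le_max_left _ _).trans hL
  have hLb : 16 * (X + 1) ^ 4 ≤ L := (le_max_right _ _).trans hL
  have hL1' : 1 ≤ L := hL1.trans hLa
  have hL0 : 0 < L := by linarith
  have hs' : (1 : ℝ) ≤ s := by exact_mod_cast hs
  have hs0 : (0 : ℝ) < s := by linarith
  obtain ⟨hw1, hw2, hw3⟩ := wl_pow hL1'
  set w := wl L with hw
  have hw1' : (1 : ℝ) ≤ w := by exact_mod_cast hw1
  have hw0 : (0 : ℝ) < w := by linarith
  set k0 := K0 R L with hk0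
  have hk1 : 1 ≤ k0 := K0_pos
  have hk1' : (1 : ℝ) ≤ k0 := by exact_mod_cast hk1
  have hwK : w ≤ 2 * k0 := by
    have h1 : (w : ℝ) ≤ (w : ℝ) ^ 4 := le_self_pow₀ hw1' (by norm_num)
    have h2 := K0_ge (R := R) (L := L)
    have h3 : L ≤ R * L := le_mul_of_one_le_left hL0.le hR
    have h4 : (w : ℝ) ≤ k0 := by rw [hk0]; linarith
    have h5 : w ≤ k0 := by exact_mod_cast h4
    omega
  have hXw : X ≤ w := by
    by_contra hc
    push Not at hc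
    have h1 : (w : ℝ) ^ 4 < (X + 1) ^ 4 := by
      refine pow_lt_pow_left₀ (by linarith) hw0.le (by norm_num)
    linarith
  have herr : 64 * B2 * (R + 2) * (w : ℝ) ^ 3 / L ≤ 1 / 2 := by
    rw [div_le_iff₀ hL0]
    have h1 : 128 * B2 * (R + 2) ≤ w := by linarith
    have h2 : 128 * B2 * (R + 2) * (w : ℝ) ^ 3 ≤ w * (w : ℝ) ^ 3 :=
      mul_le_mul_of_nonneg_right h1 (by positivity)
    have h3 : w * (w : ℝ) ^ 3 = (w : ℝ) ^ 4 := by ring
    linarith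
  set Λ : ℝ := 1 + Real.log (6 * k0 + 1) with hΛ
  have hΛ1 : 1 ≤ Λ := by
    have : 0 ≤ Real.log (6 * (k0 : ℝ) + 1) := Real.log_nonneg (by linarith)
    rw [hΛ]; linarith
  have hlog : ∀ x : ℕ, x ≤ 6 * k0 + 1 → (1 + Real.log (max 1 (x : ℝ))) ≤ Λ := by
    intro x hx
    have h1 : max 1 (x : ℝ) ≤ 6 * k0 + 1 := max_le (by linarith) (by exact_mod_cast hx)
    rw [hΛ]
    linarith [Real.log_le_log (by positivity) h1]
  have hlog0 : ∀ x : ℕ, 0 ≤ (1 + Real.log (max 1 (x : ℝ))) := fun x => by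
    have := Real.log_nonneg (le_max_left 1 (x : ℝ))
    linarith
  set I := Icc 1 (4 * k0 + 1) with hI
  set W : Set ℕ := {n | (s : ℝ) + 1 < |FF φ R L n|} with hW
  set ε : ℝ := 2 * Q / (s : ℝ) ^ p + 22 * Q * k0 * Λ ^ (4 * (m + 1)) / (w : ℝ) ^ p with hε
  have hε0 : 0 < ε := by positivity
  have hev : ∀ᶠ T : ℝ in atTop, 10 ≤ T ∧ ((6 * k0 + 1 : ℝ) / sc T ≤ T) ∧ 1 ≤ sc T / L ∧ 2 * R < T ∧
      er B0 R L T ≤ 1 / 6 ∧ 0 < sc T := by
    have h1 : Tendsto (fun T => (6 * k0 + 1 : ℝ) / sc T) atTop (𝓝 0) :=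
      tendsto_const_nhds.div_atTop sc_top
    filter_upwards [eventually_ge_atTop 10, h1.eventually_le_const (u := 1) (by norm_num),
      (sc_top.atTop_div_const hL0).eventually_ge_atTop 1, eventually_gt_atTop (2 * R),
      (er_lim B0 R L).eventually_le_const (u := 1 / 6) (by norm_num),
      sc_top.eventually_gt_atTop 0] with T k1 k2 k3 k4 k5 k6
    exact ⟨k1, by linarith, k3, k4, k5, k6⟩
  have h3 := transfer W (fun T t => (|Sh φ L T (t + k0 / sc T)| ^ (p + 1) + |Mt T t| ^ (p + 1)) / (s : ℝ) ^ p +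
      (|Mt T t| ^ (p + 1) + |Mt T t| ^ (p + 1)) / (w : ℝ) ^ p +
      ∑ i ∈ I, ((|D SG.NZ (sc T) (t + 0 / sc T) ((i + w : ℕ) : ℝ)| ^ (p + 1) + |Mt T t| ^ (p + 1)) / (w : ℝ) ^ p +
        (|D SG.NZ (sc T) (t + 0 / sc T) ((i - w : ℕ) : ℝ)| ^ (p + 1) + |Mt T t| ^ (p + 1)) / (w : ℝ) ^ p))
      hε0 ?_ ?_
  · filter_upwards [h3] with N hN
    refine le_trans (le_of_eq ?_) (hN.trans (le_of_eq_of_le ?_ (mul_le_mul_of_nonneg_right
      (b := 8 * Q / (s : ℝ) ^ p + 88 * Q * k0 * Λ ^ (4 * (m + 1)) / (w : ℝ) ^ p) ?_ (Nat.cast_nonneg N))))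
    · rfl
    · rw [hε]; ring
    · gcongr
      linarith
  · filter_upwards [hev] with T ⟨k1, k2, k3, k4, k5, k6⟩ t ht
    refine card_le3 hs0 hw0 k6 (G0 := Sh φ L T (t + k0 / sc T)) I
      (fun i => D SG.NZ (sc T) (t + 0 / sc T) ((i + w : ℕ) : ℝ))
      (fun i => D SG.NZ (sc T) (t + 0 / sc T) ((i - w : ℕ) : ℝ)) p fun n hn hnW => ?_
    by_contra hcon
    push Not at hcon
    obtain ⟨q1, q2, q3⟩ := hcon
    rw [Finset.mem_Ioc] at hn
    obtain ⟨j, hj⟩ : ∃ j, n = SG.NZ t + j := ⟨n - SG.NZ t, by omega⟩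
    have hj1 : 1 ≤ j := by omega
    have hjw : j ≤ w := by
      have h4 : (n : ℝ) ≤ SG.NZ (t + 1 / sc T) := by exact_mod_cast hn.2
      rw [hj] at h4
      push_cast at h4
      unfold Mt at q2
      have h5 : (j : ℝ) < w := by linarith
      exact_mod_cast h5.le
    have hz : ∀ i ∈ Icc 1 (4 * k0 + 1), |Z SG.NZ SG.ord (sc T) t i - i| ≤ w := by
      intro i hi
      by_contra hc
      push Not at hc
      obtain ⟨r1, r2⟩ := q3 i hi
      rw [Finset.mem_Icc] at hi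
      rw [zero_div, add_zero] at r1 r2
      rcases lt_abs.1 hc with h4 | h4
      · have h5 := Z_gt cnt_NZ k6 hi.1 (s := (w : ℝ)) (t := t) (by linarith)
        rw [← Nat.cast_add] at h5
        have := neg_abs_le (D SG.NZ (sc T) t ((i + w : ℕ) : ℝ))
        linarith
      · have h5 := Z_lt cnt_NZ k6 hi.1 (s := (w : ℝ)) (t := t) (by linarith)
        have h6 := Z_pos (t := t) cnt_NZ k6 hi.1
        have h7 : w < i := by
          have : (w : ℝ) < i := by linarith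
          exact_mod_cast this
        rw [← Nat.cast_sub h7.le] at h5
        have := le_abs_self (D SG.NZ (sc T) t ((i - w : ℕ) : ℝ))
        linarith
    have h6 := FF_near h hL1' (by linarith) k2 k3 k4 ⟨ht.1.le, ht.2⟩ hw1 hwK hz hj1 hjw
    rw [← hj] at h6
    have h7 : (s : ℝ) + 1 < |FF φ R L n| := hnW
    linarith
  · have evD : ∀ᶠ T : ℝ in atTop, ∀ i ∈ I,
        Nm T (2 * (m + 1)) (fun t => D SG.NZ (sc T) (t + 0 / sc T) ((i + w : ℕ) : ℝ))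
          (A * (1 + Real.log (max 1 ((i + w : ℕ) : ℝ))) ^ 2) ∧
        Nm T (2 * (m + 1)) (fun t => D SG.NZ (sc T) (t + 0 / sc T) ((i - w : ℕ) : ℝ))
          (A * (1 + Real.log (max 1 ((i - w : ℕ) : ℝ))) ^ 2) := by
      rw [Filter.eventually_all_finset]
      intro i _
      exact (hD (i + w) 0 le_rfl).and (hD (i - w) 0 le_rfl)
    filter_upwards [evD, hMt, hS L hLa k0 (Nat.cast_nonneg _), eventually_gt_atTop 0] with T k1 k2 k3 hT
    have k4 : Nm T (2 * (m + 1)) (fun t => Sh φ L T (t + k0 / sc T)) E :=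
      Nm_of_cont hT (by omega) k3.2 k3.1
    rw [← hp1] at k1 k2 k4
    have i2 := k2.int
    have i4 := k4.int
    have jS : Integrable (fun t => (|Sh φ L T (t + k0 / sc T)| ^ (p + 1) + |Mt T t| ^ (p + 1)) / (s : ℝ) ^ p)
      (mu T) := (i4.add i2).div_const _
    have jM : Integrable (fun t => (|Mt T t| ^ (p + 1) + |Mt T t| ^ (p + 1)) / (w : ℝ) ^ p) (mu T) :=
      (i2.add i2).div_const _
    have j1 : ∀ i ∈ I, Integrable (fun t =>
        (|D SG.NZ (sc T) (t + 0 / sc T) ((i + w : ℕ) : ℝ)| ^ (p + 1) + |Mt T t| ^ (p + 1)) / (w : ℝ) ^ p)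
        (mu T) := fun i hi => ((k1 i hi).1.int.add i2).div_const _
    have j2 : ∀ i ∈ I, Integrable (fun t =>
        (|D SG.NZ (sc T) (t + 0 / sc T) ((i - w : ℕ) : ℝ)| ^ (p + 1) + |Mt T t| ^ (p + 1)) / (w : ℝ) ^ p)
        (mu T) := fun i hi => ((k1 i hi).2.int.add i2).div_const _
    have j12 : ∀ i ∈ I, Integrable (fun t =>
        (|D SG.NZ (sc T) (t + 0 / sc T) ((i + w : ℕ) : ℝ)| ^ (p + 1) + |Mt T t| ^ (p + 1)) / (w : ℝ) ^ p +
        (|D SG.NZ (sc T) (t + 0 / sc T) ((i - w : ℕ) : ℝ)| ^ (p + 1) + |Mt T t| ^ (p + 1)) / (w : ℝ) ^ p)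
        (mu T) := fun i hi => (j1 i hi).add (j2 i hi)
    have jSM : Integrable (fun t => (|Sh φ L T (t + k0 / sc T)| ^ (p + 1) + |Mt T t| ^ (p + 1)) / (s : ℝ) ^ p +
      (|Mt T t| ^ (p + 1) + |Mt T t| ^ (p + 1)) / (w : ℝ) ^ p) (mu T) := jS.add jM
    refine ⟨jSM.add (integrable_finsetSum _ j12), ?_⟩
    rw [integral_add jSM (integrable_finsetSum _ j12), integral_add jS jM, integral_finsetSum _ j12,
      integral_div, integral_div, integral_add i4 i2, integral_add i2 i2]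
    have hW0 : 0 < (w : ℝ) ^ p := by positivity
    have b2 := k2.le
    have b4 := k4.le
    have c1 : ∀ x : ℕ, x ≤ 6 * k0 + 1 → (A * (1 + Real.log (max 1 (x : ℝ))) ^ 2) ^ (p + 1) ≤
        A ^ (p + 1) * Λ ^ (4 * (m + 1)) := by
      intro x hx
      rw [mul_pow, ← pow_mul, show 2 * (p + 1) = 4 * (m + 1) by omega]
      exact mul_le_mul_of_nonneg_left (pow_le_pow_left₀ (hlog0 x) (hlog x hx) _) (by positivity)
    have c4 : B ^ (p + 1) ≤ B ^ (p + 1) * Λ ^ (4 * (m + 1)) :=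
      le_mul_of_one_le_right (by positivity) (one_le_pow₀ hΛ1)
    have hQA : A ^ (p + 1) ≤ Q := by
      have : 0 < B ^ (p + 1) := by positivity
      have : 0 < E ^ (p + 1) := by positivity
      rw [hQ]; linarith
    have hQB : B ^ (p + 1) ≤ Q := by
      have : 0 < A ^ (p + 1) := by positivity
      have : 0 < E ^ (p + 1) := by positivity
      rw [hQ]; linarith
    have hQE : E ^ (p + 1) ≤ Q := by
      have : 0 < A ^ (p + 1) := by positivity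
      have : 0 < B ^ (p + 1) := by positivity
      rw [hQ]; linarith
    have hΛp : 0 < Λ ^ (4 * (m + 1)) := by positivity
    have hQΛ : Q ≤ Q * Λ ^ (4 * (m + 1)) := le_mul_of_one_le_right hQ0.le (one_le_pow₀ hΛ1)
    have hterm : ∀ i ∈ I, 2 / T * ∫ t, (
        (|D SG.NZ (sc T) (t + 0 / sc T) ((i + w : ℕ) : ℝ)| ^ (p + 1) + |Mt T t| ^ (p + 1)) / (w : ℝ) ^ p +
        (|D SG.NZ (sc T) (t + 0 / sc T) ((i - w : ℕ) : ℝ)| ^ (p + 1) + |Mt T t| ^ (p + 1)) / (w : ℝ) ^ p)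
        ∂(mu T) ≤ 4 * Q * Λ ^ (4 * (m + 1)) / (w : ℝ) ^ p := by
      intro i hi
      rw [integral_add (j1 i hi) (j2 i hi), integral_div, integral_div,
        integral_add (k1 i hi).1.int i2, integral_add (k1 i hi).2.int i2]
      have e : ∀ a b c : ℝ, 2 / T * ((a + c) / (w : ℝ) ^ p + (b + c) / (w : ℝ) ^ p) =
          ((2 / T * a + 2 / T * c) + (2 / T * b + 2 / T * c)) / (w : ℝ) ^ p := fun a b c => by ring
      rw [e]
      refine div_le_div_of_nonneg_right ?_ hW0.le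
      have hi' := Finset.mem_Icc.1 hi
      have d1 := (k1 i hi).1.le.trans (c1 (i + w) (by omega))
      have d2 := (k1 i hi).2.le.trans (c1 (i - w) (by omega))
      have d3 : A ^ (p + 1) * Λ ^ (4 * (m + 1)) ≤ Q * Λ ^ (4 * (m + 1)) :=
        mul_le_mul_of_nonneg_right hQA hΛp.le
      have d4 : B ^ (p + 1) * Λ ^ (4 * (m + 1)) ≤ Q * Λ ^ (4 * (m + 1)) :=
        mul_le_mul_of_nonneg_right hQB hΛp.le
      linarith
    have hsum : 2 / T * ∑ i ∈ I, ∫ t, (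
        (|D SG.NZ (sc T) (t + 0 / sc T) ((i + w : ℕ) : ℝ)| ^ (p + 1) + |Mt T t| ^ (p + 1)) / (w : ℝ) ^ p +
        (|D SG.NZ (sc T) (t + 0 / sc T) ((i - w : ℕ) : ℝ)| ^ (p + 1) + |Mt T t| ^ (p + 1)) / (w : ℝ) ^ p)
        ∂(mu T) ≤ (4 * k0 + 1) * (4 * Q * Λ ^ (4 * (m + 1)) / (w : ℝ) ^ p) := by
      rw [Finset.mul_sum]
      refine (Finset.sum_le_sum hterm).trans (le_of_eq ?_)
      rw [Finset.sum_const, hI, Nat.card_Icc, nsmul_eq_mul]
      push_cast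
      ring
    have e5 : ∀ a b c d : ℝ, 2 / T * ((a + b) / (s : ℝ) ^ p + (b + b) / (w : ℝ) ^ p + c) =
        (2 / T * a + 2 / T * b) / (s : ℝ) ^ p + (2 / T * b + 2 / T * b) / (w : ℝ) ^ p + 2 / T * c :=
      fun a b c d => by ring
    rw [e5 _ _ _ 0, hε]
    have f1 : (2 / T * (∫ t, |Sh φ L T (t + k0 / sc T)| ^ (p + 1) ∂(mu T)) +
        2 / T * (∫ t, |Mt T t| ^ (p + 1) ∂(mu T))) / (s : ℝ) ^ p ≤ 2 * Q / (s : ℝ) ^ p :=
      div_le_div_of_nonneg_right (by linarith) (by positivity)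
    have f2 : (2 / T * (∫ t, |Mt T t| ^ (p + 1) ∂(mu T)) +
        2 / T * (∫ t, |Mt T t| ^ (p + 1) ∂(mu T))) / (w : ℝ) ^ p ≤
        2 * Q * Λ ^ (4 * (m + 1)) / (w : ℝ) ^ p :=
      div_le_div_of_nonneg_right (by linarith) (by positivity)
    have f3 : 2 * Q * Λ ^ (4 * (m + 1)) / (w : ℝ) ^ p +
        (4 * k0 + 1) * (4 * Q * Λ ^ (4 * (m + 1)) / (w : ℝ) ^ p) ≤
        22 * Q * k0 * Λ ^ (4 * (m + 1)) / (w : ℝ) ^ p := by
      have hg : 0 ≤ Q * Λ ^ (4 * (m + 1)) / (w : ℝ) ^ p := by positivity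
      have e6 : 2 * Q * Λ ^ (4 * (m + 1)) / (w : ℝ) ^ p = 2 * (Q * Λ ^ (4 * (m + 1)) / (w : ℝ) ^ p) := by ring
      have e7 : 4 * Q * Λ ^ (4 * (m + 1)) / (w : ℝ) ^ p = 4 * (Q * Λ ^ (4 * (m + 1)) / (w : ℝ) ^ p) := by ring
      have e8 : 22 * Q * k0 * Λ ^ (4 * (m + 1)) / (w : ℝ) ^ p =
        22 * k0 * (Q * Λ ^ (4 * (m + 1)) / (w : ℝ) ^ p) := by ring
      rw [e6, e7, e8]
      nlinarith
    linarith

end Pool.Agent.Q172.PS
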