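import Pool.Agent.Q172.PS.N9

/-!
# Final forms (helper172)
-/

set_option autoImplicit false

namespace Pool.Agent.Q172.PS

open Finset MeasureTheory Filter Topology Complex
open Pool.Agent.Q278.GF Pool.Agent.Q278.MC Pool.Agent.Q278.KM
open _root_.Q172.ZetaLim (IsLim seen)
open scoped ContDiff FourierTransform

/-- **the periodogram near zero, as a function of the frequency** -/
theorem fin_period {ε : ℝ} (hε : 0 < ε) : ∃ F0 : ℝ, 0 < F0 ∧ ∀ F : ℝ, 0 < F → F ≤ F0 →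
    ∀ᶠ N : ℕ in atTop, |(∫ f in (0 : ℝ)..F, ‖∑ n ∈ Icc 1 N, ((dl n - 1 : ℝ) : ℂ) *
      cexp (2 * Real.pi * I * ((n : ℂ) * (f : ℂ)))‖ ^ 2) / (N : ℝ) - F ^ 2 / 2| ≤ ε * F ^ 2 := by
  have hpi := Real.pi_pos
  obtain ⟨x0, hx0, hx1, h⟩ := periodogram (ε := ε / (2 * Real.pi ^ 2)) (by positivity)
  refine ⟨x0 / (2 * Real.pi), by positivity, fun F hF hF0 => ?_⟩
  rw [le_div_iff₀ (by positivity)] at hF0
  filter_upwards [h (2 * Real.pi * F) (by positivity) (by linarith), eventually_ge_atTop 1] with N hN hN1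
  have hN0 : (0 : ℝ) < N := by exact_mod_cast hN1
  have e1 : ∀ f : ℝ, ‖∑ n ∈ Icc 1 N, ((dl n - 1 : ℝ) : ℂ) *
      cexp (2 * Real.pi * I * ((n : ℂ) * (f : ℂ)))‖ ^ 2 = pg XX N (2 * Real.pi * f) := by
    intro f
    unfold pg XX
    congr 2
    refine Finset.sum_congr rfl fun n _ => ?_
    congr 2
    push_cast
    ring
  simp_rw [e1]
  have e2 := intervalIntegral.integral_comp_mul_left (a := 0) (b := F) (pg XX N)
    (by positivity : 2 * Real.pi ≠ 0)
  rw [mul_zero] at e2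
  rw [e2, smul_eq_mul]
  set J := ∫ y in (0 : ℝ)..(2 * Real.pi * F), pg XX N y with hJ
  have e3 : (2 * Real.pi)⁻¹ * J / (N : ℝ) - F ^ 2 / 2 =
      (1 / 2) * (J / (Real.pi * N) - (2 * Real.pi * F) ^ 2 / (4 * Real.pi ^ 2)) := by
    field_simp
    ring
  have e4 : ε / (2 * Real.pi ^ 2) * (2 * Real.pi * F) ^ 2 = 2 * (ε * F ^ 2) := by
    field_simp
  rw [e4] at hN
  rw [e3, abs_mul, abs_of_pos (by norm_num : (0 : ℝ) < 1 / 2)]
  linarith

/-- **the inverse square law** -/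
theorem fin_inverse {φ : ℝ → ℝ} (h1 : ContDiff ℝ ∞ φ) (h2 : HasCompactSupport φ) {a : ℝ} (ha : 0 < a)
    (h0 : ∀ t, t ≤ a → φ t = 0) {ε : ℝ} (hε : 0 < ε) :
    ∃ L0 : ℝ, 1 ≤ L0 ∧ ∀ L : ℝ, L0 ≤ L → ∀ᶠ N : ℕ in atTop,
      |L * (∑ᶠ k : ℕ, φ ((k : ℝ) / L) * ((∑ n ∈ Icc 1 N, (dl n - 1) * (dl (n + k) - 1)) / (N : ℝ))) +
        1 / (2 * Real.pi ^ 2) * ∫ t : ℝ, φ t / t ^ 2| ≤ ε := by
  obtain ⟨L0, hL0, h⟩ := fin_dyson h1 h2 hε
  obtain ⟨φ', B0, B2, R, hT⟩ := tst_of h1 h2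
  refine ⟨L0, hL0, fun L hL => ?_⟩
  have hLp : 0 < L := by linarith
  rw [dyson_val h1 h2 ha fun t ht => h0 t ((le_abs_self t).trans ht.le)] at h
  filter_upwards [h L hL] with N hN
  have hR : R * L ≤ (⌈R * L⌉₊ : ℝ) := Nat.le_ceil _
  set K := ⌈R * L⌉₊ with hK
  have hz : ∀ k : ℤ, k ≤ 0 → φ ((k : ℝ) / L) = 0 := by
    intro k hk
    refine h0 _ (le_trans ?_ ha.le)
    exact div_nonpos_of_nonpos_of_nonneg (by exact_mod_cast hk) hLp.le
  have e1 : ∀ n ∈ Icc 1 N, (seen dl n 0 - 1) * Fn φ L (seen dl n) =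
      ∑ k ∈ Icc 1 K, φ ((k : ℝ) / L) * ((dl n - 1) * (dl (n + k) - 1)) := by
    intro n hn
    rw [Finset.mem_Icc] at hn
    rw [Fn_eq_sum hT.supp hLp hR]
    have e2 : ∑ k ∈ Icc (-(K : ℤ)) K, φ (k / L) * (seen dl n k - 1) =
        ∑ k ∈ Icc 1 K, φ ((k : ℝ) / L) * (dl (n + k) - 1) := by
      symm
      refine Finset.sum_of_injOn (fun k : ℕ => (k : ℤ)) (fun a _ b _ hab => by simpa using hab) ?_ ?_ ?_
      · intro k hk
        simp only [Finset.coe_Icc, Set.mem_Icc] at hk ⊢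
        omega
      · intro k hk hk2
        have : k ≤ 0 := by
          by_contra hc
          apply hk2
          rw [Finset.mem_Icc] at hk
          refine ⟨k.toNat, ?_, ?_⟩
          · simp only [Finset.coe_Icc, Set.mem_Icc]
            omega
          · simp only
            omega
        rw [hz k this, zero_mul]
      · intro k hk
        rw [Finset.mem_Icc] at hk
        have e3 : seen dl n (k : ℤ) = dl (n + k) := by
          unfold seen
          rw [if_pos (by omega)]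
          congr 1
        rw [e3]
        push_cast
        rfl
    have e4 : seen dl n 0 = dl n := by
      unfold seen
      rw [if_pos (by omega)]
      congr 1
    rw [e2, e4, Finset.mul_sum]
    refine Finset.sum_congr rfl fun k _ => ?_
    ring
  have e5 : (∑ n ∈ Icc 1 N, (seen dl n 0 - 1) * Fn φ L (seen dl n)) / (N : ℝ) =
      ∑ᶠ k : ℕ, φ ((k : ℝ) / L) * ((∑ n ∈ Icc 1 N, (dl n - 1) * (dl (n + k) - 1)) / (N : ℝ)) := by
    rw [finsum_eq_sum_of_support_subset (s := Icc 1 K)]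
    · rw [Finset.sum_congr rfl e1, Finset.sum_comm, Finset.sum_div]
      refine Finset.sum_congr rfl fun k _ => ?_
      rw [← Finset.mul_sum, mul_div_assoc]
    · intro k hk
      rw [Function.mem_support] at hk
      rw [Finset.coe_Icc, Set.mem_Icc]
      have h3 : φ ((k : ℝ) / L) ≠ 0 := left_ne_zero_of_mul hk
      constructor
      · by_contra hc
        have : k = 0 := by omega
        subst this
        exact h3 (by have := hz 0 le_rfl; simpa using this)
      · by_contra hc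
        push Not at hc
        refine h3 (hT.supp _ ?_)
        rw [abs_div, abs_of_pos hLp, le_div_iff₀ hLp, abs_of_nonneg (Nat.cast_nonneg _)]
        have : (K : ℝ) ≤ k := by exact_mod_cast hc.le
        linarith
  rw [e5] at hN
  have e6 : ∀ x y : ℝ, x - -(1 / (2 * Real.pi ^ 2)) * y = x + 1 / (2 * Real.pi ^ 2) * y := fun x y => by ring
  rw [e6] at hN
  exact hN

end Pool.Agent.Q172.PS
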