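import Pool.Agent.Q172.PS.F

/-!
# All moments of the smooth sums of the gaps are bounded (helper172)
-/

set_option autoImplicit false

namespace Pool.Agent.Q172.PS

open Finset MeasureTheory Filter Topology
open Pool.Agent.Q278.GF Pool.Agent.Q278.MC Pool.Agent.Q278.KM
open _root_.Q172.ZetaLim (IsLim seen map_shift)
open scoped ContDiff

variable {φ φ' : ℝ → ℝ} {B0 B2 R L : ℝ}

/-- the bound of the tails -/
noncomputable def tb (C R L : ℝ) (m s : ℕ) : ℝ :=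
  C / (s : ℝ) ^ (2 * m + 1) + C * (K0 R L : ℝ) * (1 + Real.log (6 * K0 R L + 1)) ^ (4 * (m + 1)) /
          (wl L : ℝ) ^ (2 * m + 1)

/-- tails under the limit processes -/
theorem Fn_tail (h : Tst φ φ' B0 B2 R) (hf : CC (fc φ)) (m : ℕ) : ∃ C L0 : ℝ, 0 < C ∧ 1 ≤ L0 ∧
    ∀ P : ProbabilityMeasure (ℤ → ℝ), IsLim (seen dl) P → ∀ L : ℝ, L0 ≤ L → ∀ s : ℕ, 1 ≤ s →
      (P : Measure (ℤ → ℝ)).real {q | (s : ℝ) + 2 < |Fn φ L q|} ≤ tb C R L m s := by
  classical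
  obtain ⟨C, L0, hC, hL0, hF⟩ := FF_tail h hf m
  refine ⟨2 * C, L0, by positivity, hL0, fun P hP L hL s hs => ?_⟩
  have hL1 : 1 ≤ L := hL0.trans hL
  have hLp : 0 < L := by linarith
  have hs' : (1 : ℝ) ≤ s := by exact_mod_cast hs
  have hs0 : (0 : ℝ) < s := by linarith
  have hw : (1 : ℝ) ≤ wl L := by exact_mod_cast (wl_pow hL1).1
  have hlog : 0 ≤ Real.log (6 * (K0 R L : ℝ) + 1) :=
    Real.log_nonneg (by linarith [(Nat.cast_nonneg (K0 R L) : (0 : ℝ) ≤ K0 R L)])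
  have h1 := tail_P hP (Fn_cont (φ := φ) h.supp hLp) (a := (s : ℝ) + 1) (ε := tb (2 * C) R L m s) (by
    have h2 : ∀ᶠ N : ℕ in atTop, (K0 R L : ℝ) ≤ C / (s : ℝ) ^ (2 * m + 1) * N := by
      have : Tendsto (fun N : ℕ => C / (s : ℝ) ^ (2 * m + 1) * (N : ℝ)) atTop atTop :=
        Tendsto.const_mul_atTop (by positivity) tendsto_natCast_atTop_atTop
      exact this.eventually_ge_atTop _
    filter_upwards [hF L hL s hs, h2] with N hN hN2
    set k := K0 R L with hk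
    have h3 : (((Icc 1 N).filter fun n => (s : ℝ) + 1 < |Fn φ L (seen dl n)|).card : ℝ) ≤
        k + (((Icc 1 N).filter fun n => (s : ℝ) + 1 < |FF φ R L n|).card : ℝ) := by
      have h4 : (Icc 1 N).filter (fun n => (s : ℝ) + 1 < |Fn φ L (seen dl n)|) ⊆
          Icc 1 k ∪ ((Icc 1 N).filter fun n => (s : ℝ) + 1 < |FF φ R L n|).map (addRightEmbedding k) := by
        intro n hn
        rw [Finset.mem_filter, Finset.mem_Icc] at hn
        rw [Finset.mem_union]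
        rcases le_or_gt n k with hc | hc
        · exact Or.inl (Finset.mem_Icc.2 ⟨hn.1.1, hc⟩)
        · refine Or.inr (Finset.mem_map.2 ⟨n - k, ?_, ?_⟩)
          · rw [Finset.mem_filter, Finset.mem_Icc]
            refine ⟨⟨by omega, by omega⟩, ?_⟩
            have e := Fn_seen h hLp (n - k)
            rw [← hk, Nat.sub_add_cancel hc.le] at e
            rw [← e]
            exact hn.2
          · rw [addRightEmbedding_apply, Nat.sub_add_cancel hc.le]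
      have h5 := (Finset.card_le_card h4).trans (Finset.card_union_le _ _)
      rw [Nat.card_Icc, Finset.card_map, Nat.add_sub_cancel] at h5
      exact_mod_cast h5
    refine h3.trans ?_
    unfold tb
    rw [← hk]
    have h6 : 0 ≤ C * (k : ℝ) * (1 + Real.log (6 * k + 1)) ^ (4 * (m + 1)) /
          (wl L : ℝ) ^ (2 * m + 1) * N := by positivity
    have e : (2 * C / (s : ℝ) ^ (2 * m + 1) + 2 * C * (k : ℝ) *
        (1 + Real.log (6 * k + 1)) ^ (4 * (m + 1)) / (wl L : ℝ) ^ (2 * m + 1)) * (N : ℝ) =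
        C / (s : ℝ) ^ (2 * m + 1) * N + (C / (s : ℝ) ^ (2 * m + 1) +
          C * (k : ℝ) * (1 + Real.log (6 * k + 1)) ^ (4 * (m + 1)) / (wl L : ℝ) ^ (2 * m + 1)) * N +
        C * (k : ℝ) * (1 + Real.log (6 * k + 1)) ^ (4 * (m + 1)) / (wl L : ℝ) ^ (2 * m + 1) * N := by
      ring
    rw [e]
    linarith)
  rw [show (s : ℝ) + 1 + 1 = s + 2 by ring] at h1
  exact h1

/-- the second term of the tails is small -/
lemma tb_small (C R : ℝ) (hR : 1 ≤ R) (hC : 0 < C) (k : ℕ) : ∃ L0 : ℝ, 1 ≤ L0 ∧ ∀ L : ℝ, L0 ≤ L →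
    ∀ s : ℕ, 1 ≤ s → (s : ℝ) ≤ L ^ 2 → tb C R L (4 * k + 12) s ≤ (C + 1) / (s : ℝ) ^ (k + 2) := by
  set m := 4 * k + 12 with hm
  set M := 4 * (m + 1) with hM
  clear_value M
  set G : ℝ := (1 + (M : ℝ)) ^ M with hG
  have hG0 : 0 < G := by positivity
  clear_value G
  obtain ⟨E, hE⟩ : ∃ E : ℝ, E = C * (16 * (R + 2)) ^ 2 * (12 * G) * 16 ^ (2 * (k + 2)) := ⟨_, rfl⟩
  have hE0 : 0 < E := by rw [hE]; positivity
  refine ⟨max 1 (16 * (E + 1) ^ 4), le_max_left _ _, fun L hL s hs hsL => ?_⟩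
  have hL1 : 1 ≤ L := (le_max_left _ _).trans hL
  have hL2 : 16 * (E + 1) ^ 4 ≤ L := (le_max_right _ _).trans hL
  have hLp : 0 < L := by linarith
  have hs' : (1 : ℝ) ≤ s := by exact_mod_cast hs
  have hs0 : (0 : ℝ) < s := by linarith
  obtain ⟨hw1, hw2, hw3⟩ := wl_pow hL1
  set w := wl L with hw
  have hw1' : (1 : ℝ) ≤ w := by exact_mod_cast hw1
  have hw0 : (0 : ℝ) < w := by linarith
  have hEw : E ≤ w := by
    by_contra hc
    push Not at hc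
    have h1 : (w : ℝ) ^ 4 < (E + 1) ^ 4 := pow_lt_pow_left₀ (by linarith) hw0.le (by norm_num)
    linarith
  set k0 := K0 R L with hk0
  have hk1 : (1 : ℝ) ≤ k0 := by exact_mod_cast (K0_pos (R := R) (L := L))
  have hk2 : (k0 : ℝ) ≤ 16 * (R + 2) * (w : ℝ) ^ 4 := by
    have h1 : (k0 : ℝ) ≤ (R + 2) * L := K0_le hR hL1
    have h2 : (R + 2) * L ≤ (R + 2) * (16 * (w : ℝ) ^ 4) := by gcongr
    linarith
  have hlog : (1 + Real.log (6 * (k0 : ℝ) + 1)) ^ M ≤ 12 * G * k0 := by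
    have h1 := log_pow_le M (s := 6 * (k0 : ℝ)) (by linarith)
    rw [← hG, show 1 + 6 * (k0 : ℝ) = 6 * k0 + 1 by ring] at h1
    linarith
  have hlog0 : 0 ≤ (1 + Real.log (6 * (k0 : ℝ) + 1)) ^ M := by
    have : 0 ≤ Real.log (6 * (k0 : ℝ) + 1) := Real.log_nonneg (by linarith)
    positivity
  unfold tb
  rw [← hM, ← hk0, ← hw, add_div]
  refine add_le_add ?_ ?_
  · refine div_le_div_of_nonneg_left hC.le (by positivity) (pow_le_pow_right₀ hs' (by omega))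
  · rw [div_le_div_iff₀ (by positivity) (by positivity), one_mul]
    have h1 : (s : ℝ) ^ (k + 2) ≤ 16 ^ (2 * (k + 2)) * (w : ℝ) ^ (8 * (k + 2)) := by
      calc (s : ℝ) ^ (k + 2) ≤ (L ^ 2) ^ (k + 2) := pow_le_pow_left₀ hs0.le hsL _
        _ ≤ ((16 * (w : ℝ) ^ 4) ^ 2) ^ (k + 2) := by gcongr
        _ = 16 ^ (2 * (k + 2)) * (w : ℝ) ^ (8 * (k + 2)) := by
            rw [← pow_mul, mul_pow, ← pow_mul, show 4 * (2 * (k + 2)) = 8 * (k + 2) by omega]
    calc C * (k0 : ℝ) * (1 + Real.log (6 * (k0 : ℝ) + 1)) ^ M * (s : ℝ) ^ (k + 2) ≤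
        C * (16 * (R + 2) * (w : ℝ) ^ 4) * (12 * G * (16 * (R + 2) * (w : ℝ) ^ 4)) *
          (16 ^ (2 * (k + 2)) * (w : ℝ) ^ (8 * (k + 2))) := by
          have h2 : 12 * G * k0 ≤ 12 * G * (16 * (R + 2) * (w : ℝ) ^ 4) := by
            gcongr
          have h3 := hlog.trans h2
          gcongr
      _ = E * ((w : ℝ) ^ 8 * (w : ℝ) ^ (8 * (k + 2))) := by rw [hE]; ring
      _ ≤ w * ((w : ℝ) ^ 8 * (w : ℝ) ^ (8 * (k + 2))) := by gcongr
      _ = (w : ℝ) ^ (2 * m + 1) := by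
          rw [← pow_add, ← pow_succ', show 8 + 8 * (k + 2) + 1 = 2 * m + 1 by omega]

/-- the crude moments -/
theorem Fn_crude (h : Tst φ φ' B0 B2 R) (j : ℕ) (hj : 1 ≤ j) : ∃ C : ℝ, 0 < C ∧
    ∀ P : ProbabilityMeasure (ℤ → ℝ), IsLim (seen dl) P → ∀ L : ℝ, 1 ≤ L →
      Integrable (fun q => |Fn φ L q| ^ j) (P : Measure (ℤ → ℝ)) ∧
        ∫ q, |Fn φ L q| ^ j ∂(P : Measure (ℤ → ℝ)) ≤ C * L ^ j := by
  obtain ⟨C, A, hC, hS⟩ := SL_mom j
  have hR := h.R1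
  have hB0 : 0 ≤ B0 := (abs_nonneg _).trans (h.b0 0)
  refine ⟨(B0 + 1) ^ j * (2 * R + 5) ^ j * C, by positivity, fun P hP L hL => ?_⟩
  have hLp : 0 < L := by linarith
  have h1 : R * L ≤ (⌈R * L⌉₊ : ℝ) := Nat.le_ceil _
  set K : ℕ := ⌈R * L⌉₊ with hK
  obtain ⟨hi, hb⟩ := hS P hP 1 le_rfl
  have e1 : ∀ q : ℤ → ℝ, SL 1 q = q 0 - 1 := fun q => by
    unfold SL
    rw [Finset.sum_range_one, Nat.cast_zero]
  simp only [e1, Nat.cast_one, Real.log_one, add_zero, one_pow, mul_one] at hi hb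
  have hst := map_shift hP
  have hG : Continuous fun x : ℝ => |x - 1| ^ j := by fun_prop
  have hik : ∀ k : ℤ, Integrable (fun q : ℤ → ℝ => |q k - 1| ^ j) (P : Measure (ℤ → ℝ)) := fun k =>
    _root_.Q172.Mem.integrable_stat hst hG hi k
  have hbk : ∀ k : ℤ, ∫ q, |q k - 1| ^ j ∂(P : Measure (ℤ → ℝ)) ≤ C := fun k => by
    rw [_root_.Q172.Mem.int_stat hst hG k]
    exact hb
  -- the pointwise bound
  have hcard : ((Icc (-(K : ℤ)) K).card : ℝ) = 2 * K + 1 := by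
    rw [Int.card_Icc]
    have : ((K : ℤ) + 1 - -(K : ℤ)).toNat = 2 * K + 1 := by omega
    rw [this]
    push_cast
    ring
  have hpt : ∀ q : ℤ → ℝ, |Fn φ L q| ^ j ≤ B0 ^ j * ((2 * K + 1) ^ (j - 1) *
      ∑ k ∈ Icc (-(K : ℤ)) K, |q k - 1| ^ j) := by
    intro q
    rw [Fn_eq_sum h.supp hLp h1]
    have a1 : |∑ k ∈ Icc (-(K : ℤ)) K, φ (k / L) * (q k - 1)| ≤
        B0 * ∑ k ∈ Icc (-(K : ℤ)) K, |q k - 1| := by
      refine (Finset.abs_sum_le_sum_abs _ _).trans ?_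
      rw [Finset.mul_sum]
      refine Finset.sum_le_sum fun k _ => ?_
      rw [abs_mul]
      exact mul_le_mul_of_nonneg_right (h.b0 _) (abs_nonneg _)
    have a2 := pow_sum_div_card_le_sum_pow (s := Icc (-(K : ℤ)) K) (f := fun k => |q k - 1|)
      (fun _ _ => abs_nonneg _) (j - 1)
    rw [Nat.sub_add_cancel hj, hcard, div_le_iff₀ (by positivity)] at a2
    calc |∑ k ∈ Icc (-(K : ℤ)) K, φ (k / L) * (q k - 1)| ^ j ≤
        (B0 * ∑ k ∈ Icc (-(K : ℤ)) K, |q k - 1|) ^ j := pow_le_pow_left₀ (abs_nonneg _) a1 j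
      _ = B0 ^ j * (∑ k ∈ Icc (-(K : ℤ)) K, |q k - 1|) ^ j := mul_pow _ _ _
      _ ≤ _ := by
          refine mul_le_mul_of_nonneg_left ?_ (by positivity)
          linarith
  have hc := Fn_cont (φ := φ) h.supp hLp
  have hsumi : Integrable (fun q : ℤ → ℝ => B0 ^ j * ((2 * (K : ℝ) + 1) ^ (j - 1) *
      ∑ k ∈ Icc (-(K : ℤ)) K, |q k - 1| ^ j)) (P : Measure (ℤ → ℝ)) :=
    ((integrable_finsetSum _ fun k _ => hik k).const_mul _).const_mul _
  have hint : Integrable (fun q => |Fn φ L q| ^ j) (P : Measure (ℤ → ℝ)) :=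
    hsumi.mono' (by
      have : Continuous fun q => |Fn φ L q| ^ j := by fun_prop
      exact this.aestronglyMeasurable) (Eventually.of_forall fun q => by
        rw [Real.norm_of_nonneg (by positivity)]
        exact hpt q)
  refine ⟨hint, (integral_mono hint hsumi hpt).trans ?_⟩
  rw [integral_const_mul, integral_const_mul, integral_finsetSum _ fun k _ => hik k]
  have h2 : ∑ k ∈ Icc (-(K : ℤ)) K, ∫ q, |q k - 1| ^ j ∂(P : Measure (ℤ → ℝ)) ≤ (2 * K + 1) * C := by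
    refine (Finset.sum_le_sum fun k _ => hbk k).trans (le_of_eq ?_)
    rw [Finset.sum_const, nsmul_eq_mul, hcard]
  have h3 : 2 * (K : ℝ) + 1 ≤ (2 * R + 5) * L := by
    have := Nat.ceil_lt_add_one (a := R * L) (by positivity)
    rw [← hK] at this
    nlinarith
  calc B0 ^ j * ((2 * (K : ℝ) + 1) ^ (j - 1) * ∑ k ∈ Icc (-(K : ℤ)) K,
      ∫ q, |q k - 1| ^ j ∂(P : Measure (ℤ → ℝ))) ≤ B0 ^ j * ((2 * (K : ℝ) + 1) ^ (j - 1) * ((2 * K + 1) * C)) := by
        gcongr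
    _ = B0 ^ j * (2 * (K : ℝ) + 1) ^ j * C := by
        have e2 : (2 * (K : ℝ) + 1) ^ j = (2 * (K : ℝ) + 1) ^ (j - 1) * (2 * (K : ℝ) + 1) := by
          rw [← pow_succ, Nat.sub_add_cancel hj]
        rw [e2]
        ring
    _ ≤ (B0 + 1) ^ j * ((2 * R + 5) * L) ^ j * C := by
        gcongr
        linarith
    _ = _ := by rw [mul_pow]; ring

/-- **all moments of the smooth sums are bounded** -/
theorem Fn_mom (h : Tst φ φ' B0 B2 R) (hf : CC (fc φ)) (k : ℕ) : ∃ C L0 : ℝ, 0 < C ∧ 1 ≤ L0 ∧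
    ∀ P : ProbabilityMeasure (ℤ → ℝ), IsLim (seen dl) P → ∀ L : ℝ, L0 ≤ L →
      Integrable (fun q => |Fn φ L q| ^ k) (P : Measure (ℤ → ℝ)) ∧
        ∫ q, |Fn φ L q| ^ k ∂(P : Measure (ℤ → ℝ)) ≤ C := by
  obtain ⟨C, L1, hC, hL1, hT⟩ := Fn_tail h hf (4 * k + 12)
  obtain ⟨L2, hL2, hsm⟩ := tb_small C R h.R1 hC k
  obtain ⟨C', hC', hcr⟩ := Fn_crude h (2 * (k + 2)) (by omega)
  refine ⟨3 ^ k + 2 * 4 ^ k * (C + 1 + C'), max L1 L2, by positivity, hL1.trans (le_max_left _ _),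
    fun P hP L hL => ?_⟩
  have hLa := (le_max_left _ _).trans hL
  have hLb := (le_max_right _ _).trans hL
  have hL0 : 1 ≤ L := hL1.trans hLa
  have hLp : 0 < L := by linarith
  refine mom_of_tail (Fn_cont (φ := φ) h.supp hLp) k (by positivity) fun s hs => ?_
  have hs' : (1 : ℝ) ≤ s := by exact_mod_cast hs
  have hs0 : (0 : ℝ) < s := by linarith
  rcases le_or_gt (s : ℝ) (L ^ 2) with hc | hc
  · refine ((hT P hP L hLa s hs).trans (hsm L hLb s hs hc)).trans ?_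
    exact div_le_div_of_nonneg_right (by linarith) (by positivity)
  · obtain ⟨hi, hb⟩ := hcr P hP L hL0
    have h1 := mul_meas_ge_le_integral_of_nonneg (μ := (P : Measure (ℤ → ℝ)))
      (f := fun q => |Fn φ L q| ^ (2 * (k + 2))) (Eventually.of_forall fun q => by positivity) hi
      (((s : ℝ) + 2) ^ (2 * (k + 2)))
    have h2 : (P : Measure (ℤ → ℝ)).real {q | (s : ℝ) + 2 < |Fn φ L q|} ≤
        (P : Measure (ℤ → ℝ)).real {q | ((s : ℝ) + 2) ^ (2 * (k + 2)) ≤ |Fn φ L q| ^ (2 * (k + 2))} := by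
      refine measureReal_mono fun q hq => ?_
      have hq' : (s : ℝ) + 2 < |Fn φ L q| := hq
      show ((s : ℝ) + 2) ^ (2 * (k + 2)) ≤ |Fn φ L q| ^ (2 * (k + 2))
      exact pow_le_pow_left₀ (by positivity) hq'.le _
    have h3 : (P : Measure (ℤ → ℝ)).real {q | (s : ℝ) + 2 < |Fn φ L q|} * (s : ℝ) ^ (2 * (k + 2)) ≤
        C' * L ^ (2 * (k + 2)) := by
      calc _ ≤ (P : Measure (ℤ → ℝ)).real {q | ((s : ℝ) + 2) ^ (2 * (k + 2)) ≤ |Fn φ L q| ^ (2 * (k + 2))} *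
          ((s : ℝ) + 2) ^ (2 * (k + 2)) := by
            gcongr
            linarith
        _ ≤ _ := by linarith
    have h4 : L ^ (2 * (k + 2)) ≤ (s : ℝ) ^ (k + 2) := by
      rw [pow_mul]
      exact pow_le_pow_left₀ (by positivity) hc.le _
    rw [le_div_iff₀ (by positivity)]
    have h5 : 0 < (s : ℝ) ^ (k + 2) := by positivity
    have e : (s : ℝ) ^ (2 * (k + 2)) = (s : ℝ) ^ (k + 2) * (s : ℝ) ^ (k + 2) := by
      rw [two_mul, pow_add]
    rw [e, ← mul_assoc] at h3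
    have h6 : (P : Measure (ℤ → ℝ)).real {q | (s : ℝ) + 2 < |Fn φ L q|} * (s : ℝ) ^ (k + 2) * (s : ℝ) ^ (k + 2) ≤
        C' * (s : ℝ) ^ (k + 2) := h3.trans (by gcongr)
    have h7 := le_of_mul_le_mul_right h6 h5
    linarith

end Pool.Agent.Q172.PS
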