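import Pool.Agent.Q172.PS.G
import Pool.Agent.Q278.GF.K

/-!
# Convergence of all joint moments of the smooth sums of the gaps (helper172)
-/

set_option autoImplicit false

namespace Pool.Agent.Q172.PS

open Finset MeasureTheory Filter Topology ProbabilityTheory
open Pool.Agent.Q278.GF Pool.Agent.Q278.MC Pool.Agent.Q278.KM
open _root_.Q172.ZetaLim (IsLim seen map_shift)
open scoped ContDiff BoundedContinuousFunction

variable {k : ℕ} {f : Fin k → ℝ → ℝ}

/-- second moments of functions of polynomial growth -/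
lemma sq_bound (hf : Fam f) {Φ : EuclideanSpace ℝ (Fin k) → ℝ} (hΦ : Continuous Φ) {A : ℝ} {N : ℕ}
    (hb : ∀ x, |Φ x| ≤ A * (1 + ‖x‖) ^ N) : ∃ C L0 : ℝ, 0 ≤ C ∧ 1 ≤ L0 ∧
    ∀ P : ProbabilityMeasure (ℤ → ℝ), IsLim (seen dl) P → ∀ L : ℝ, L0 ≤ L →
      Integrable (fun q => Φ (vec f L q) ^ 2) (P : Measure (ℤ → ℝ)) ∧
        ∫ q, Φ (vec f L q) ^ 2 ∂(P : Measure (ℤ → ℝ)) ≤ C := by
  have hA : 0 ≤ A := by
    have h1 := (abs_nonneg _).trans (hb 0)
    rw [norm_zero, add_zero, one_pow, mul_one] at h1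
    exact h1
  choose φ' B0 B2 R hT using fun j => tst_of (hf j).1 (hf j).2
  choose C L0 hC hL0 hM using fun j => Fn_mom (hT j) (cc_of (hf j).1 (hf j).2) (2 * (N + 1))
  set D : ℝ := A ^ 2 * 4 ^ N with hD
  have hD0 : 0 ≤ D := by positivity
  have hS0 : 0 ≤ ∑ j, C j := Finset.sum_nonneg fun j _ => (hC j).le
  refine ⟨D * (2 + (k : ℝ) ^ N * ∑ j, C j), 1 + ∑ j, L0 j, by positivity, ?_, fun P hP L hL => ?_⟩
  · have : 0 ≤ ∑ j, L0 j := Finset.sum_nonneg fun j _ => by linarith [hL0 j]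
    linarith
  have hLj : ∀ j, L0 j ≤ L := fun j => by
    have := Finset.single_le_sum (f := L0) (fun i _ => by linarith [hL0 i]) (Finset.mem_univ j)
    linarith
  have hLp : 0 < L := by
    have : 0 ≤ ∑ j, L0 j := Finset.sum_nonneg fun j _ => by linarith [hL0 j]
    linarith
  have hi : ∀ j, Integrable (fun q => |Fn (f j) L q| ^ (2 * (N + 1))) (P : Measure (ℤ → ℝ)) :=
    fun j => (hM j P hP L (hLj j)).1
  have hbd : Integrable (fun q => D * (2 + (k : ℝ) ^ N * ∑ j, |Fn (f j) L q| ^ (2 * (N + 1))))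
      (P : Measure (ℤ → ℝ)) :=
    ((integrable_const _).add ((integrable_finsetSum _ fun j _ => hi j).const_mul _)).const_mul _
  have hpt : ∀ q, Φ (vec f L q) ^ 2 ≤ D * (2 + (k : ℝ) ^ N * ∑ j, |Fn (f j) L q| ^ (2 * (N + 1))) := by
    intro q
    refine (growth hA (norm_nonneg _) (hb (vec f L q))).trans ?_
    refine mul_le_mul_of_nonneg_left ?_ hD0
    have := norm_pow_le (vec f L q) N
    simp only [vec] at this ⊢
    linarith
  have hint : Integrable (fun q => Φ (vec f L q) ^ 2) (P : Measure (ℤ → ℝ)) :=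
    hbd.mono' (((hΦ.comp (vec_cont hf hLp)).pow 2).aestronglyMeasurable)
      (Eventually.of_forall fun q => by
        rw [Real.norm_of_nonneg (by positivity)]
        exact hpt q)
  refine ⟨hint, (integral_mono hint hbd hpt).trans ?_⟩
  rw [integral_const_mul, integral_add (integrable_const _)
    ((integrable_finsetSum _ fun j _ => hi j).const_mul _), integral_const, integral_const_mul,
    integral_finsetSum _ fun j _ => hi j]
  simp only [probReal_univ, smul_eq_mul, one_mul]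
  have := Finset.sum_le_sum (s := Finset.univ) fun (j : Fin k) _ => (hM j P hP L (hLj j)).2
  gcongr

/-- **convergence of the means of functions of polynomial growth, uniformly over the limit
processes** -/
theorem P_poly (hf : Fam f) {Φ : EuclideanSpace ℝ (Fin k) → ℝ} (hΦ : Continuous Φ) {A : ℝ} {N : ℕ}
    (hb : ∀ x, |Φ x| ≤ A * (1 + ‖x‖) ^ N) {ε : ℝ} (hε : 0 < ε) : ∃ L0 : ℝ, 1 ≤ L0 ∧
    ∀ P : ProbabilityMeasure (ℤ → ℝ), IsLim (seen dl) P → ∀ L : ℝ, L0 ≤ L →
      Integrable (fun q => Φ (vec f L q)) (P : Measure (ℤ → ℝ)) ∧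
      |∫ q, Φ (vec f L q) ∂(P : Measure (ℤ → ℝ)) - ∫ x, Φ x ∂(multivariateGaussian 0 (cm f))| ≤ ε := by
  have hA : 0 ≤ A := by
    have h1 := (abs_nonneg _).trans (hb 0)
    rw [norm_zero, add_zero, one_pow, mul_one] at h1
    exact h1
  obtain ⟨C, L1, hC, hL1, hsq⟩ := sq_bound hf hΦ hb
  set G : Measure (EuclideanSpace ℝ (Fin k)) := multivariateGaussian 0 (cm f) with hG
  have hGi : Integrable (fun x => Φ x ^ 2) G := by
    have hm : MemLp id ((2 * (N + 1) : ℕ) : ENNReal) (multivariateGaussian 0 (cm f)) :=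
      IsGaussian.memLp_id _ _ (ENNReal.natCast_ne_top _)
    have h1 := hm.integrable_norm_pow' (p := 2 * (N + 1))
    refine ((((integrable_const (2 : ℝ)).add h1).const_mul (A ^ 2 * 4 ^ N))).mono'
      (hΦ.pow 2).aestronglyMeasurable (Eventually.of_forall fun x => ?_)
    rw [Real.norm_of_nonneg (by positivity)]
    exact growth hA (norm_nonneg _) (hb x)
  have sqi : ∀ {Ω : Type} [MeasurableSpace Ω] {μ : Measure Ω} [IsProbabilityMeasure μ] {u : Ω → ℝ},
      AEStronglyMeasurable u μ → Integrable (fun x => u x ^ 2) μ → Integrable u μ := by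
    intro Ω _ μ _ u hu h2
    have hbb : Integrable (fun x => (1 : ℝ) + u x ^ 2) μ := (integrable_const 1).add h2
    refine hbb.mono' hu (Eventually.of_forall fun x => ?_)
    rw [Real.norm_eq_abs]
    nlinarith [sq_nonneg (|u x| - 1), sq_abs (u x), abs_nonneg (u x)]
  have hG1 : Integrable Φ G := sqi hΦ.aestronglyMeasurable hGi
  have hG0 : 0 ≤ ∫ x, Φ x ^ 2 ∂G := integral_nonneg fun x => by positivity
  set D := C + (∫ x, Φ x ^ 2 ∂G) + 1 with hD
  have hD0 : 0 < D := by positivity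
  set R := 2 * D / ε + 1 with hR
  have hR0 : 0 < R := by positivity
  have hDR : D / R < ε / 2 := by
    rw [div_lt_iff₀ hR0, hR]
    field_simp
    nlinarith
  set ψ : EuclideanSpace ℝ (Fin k) →ᵇ ℝ :=
    BoundedContinuousFunction.ofNormedAddCommGroup (fun x => tr R (Φ x))
      ((tr_cont R).comp hΦ) R (fun x => tr_abs hR0.le _) with hψ
  have hψv : ∀ x, ψ x = tr R (Φ x) := fun x => rfl
  obtain ⟨L2, hL2, hw⟩ := lim_weak hf ψ (ε / 2) (by positivity)
  refine ⟨max L1 L2, hL1.trans (le_max_left _ _), fun P hP L hL => ?_⟩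
  have hLa := (le_max_left _ _).trans hL
  have hLb := (le_max_right _ _).trans hL
  have hLp : 0 < L := by linarith
  obtain ⟨i1, b1⟩ := hsq P hP L hLa
  have hc : Continuous fun q => Φ (vec f L q) := hΦ.comp (vec_cont hf hLp)
  have i2 : Integrable (fun q => Φ (vec f L q)) (P : Measure (ℤ → ℝ)) :=
    sqi hc.aestronglyMeasurable i1
  have i3 : Integrable (fun q => ψ (vec f L q)) (P : Measure (ℤ → ℝ)) := by
    refine Integrable.of_bound ((ψ.continuous.comp (vec_cont hf hLp)).aestronglyMeasurable) R ?_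
    exact Eventually.of_forall fun q => tr_abs hR0.le _
  refine ⟨i2, ?_⟩
  have h1 : |∫ q, Φ (vec f L q) ∂(P : Measure (ℤ → ℝ)) - ∫ q, ψ (vec f L q) ∂(P : Measure (ℤ → ℝ))| ≤
      C / R := by
    rw [← integral_sub i2 i3]
    calc _ ≤ ∫ q, |Φ (vec f L q) - ψ (vec f L q)| ∂(P : Measure (ℤ → ℝ)) :=
          abs_integral_le_integral_abs
      _ ≤ ∫ q, Φ (vec f L q) ^ 2 / R ∂(P : Measure (ℤ → ℝ)) :=
          integral_mono ((i2.sub i3).abs) (i1.div_const R) fun q => by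
            simp only [hψv]
            exact tr_sub hR0 _
      _ = (∫ q, Φ (vec f L q) ^ 2 ∂(P : Measure (ℤ → ℝ))) / R := integral_div _ _
      _ ≤ C / R := div_le_div_of_nonneg_right b1 hR0.le
  have h2 : |(∫ x, Φ x ∂G) - ∫ x, ψ x ∂G| ≤ (∫ x, Φ x ^ 2 ∂G) / R := by
    rw [← integral_sub hG1 (ψ.integrable _)]
    calc |∫ x, (Φ x - ψ x) ∂G| ≤ ∫ x, |Φ x - ψ x| ∂G := abs_integral_le_integral_abs
      _ ≤ ∫ x, Φ x ^ 2 / R ∂G :=
          integral_mono ((hG1.sub (ψ.integrable _)).abs) (hGi.div_const R) fun x => by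
            simp only [hψv]
            exact tr_sub hR0 _
      _ = _ := integral_div _ _
  have h3 := hw L hLb P hP
  have h4 : C / R + (∫ x, Φ x ^ 2 ∂G) / R ≤ D / R := by
    rw [← add_div]
    exact div_le_div_of_nonneg_right (by rw [hD]; linarith) hR0.le
  have e : (∫ q, Φ (vec f L q) ∂(P : Measure (ℤ → ℝ))) - ∫ x, Φ x ∂G =
      ((∫ q, Φ (vec f L q) ∂(P : Measure (ℤ → ℝ))) - ∫ q, ψ (vec f L q) ∂(P : Measure (ℤ → ℝ))) +
      ((∫ q, ψ (vec f L q) ∂(P : Measure (ℤ → ℝ))) - ∫ x, ψ x ∂G) -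
      ((∫ x, Φ x ∂G) - ∫ x, ψ x ∂G) := by ring
  rw [e]
  have h5 := abs_sub (((∫ q, Φ (vec f L q) ∂(P : Measure (ℤ → ℝ))) -
    ∫ q, ψ (vec f L q) ∂(P : Measure (ℤ → ℝ))) +
      ((∫ q, ψ (vec f L q) ∂(P : Measure (ℤ → ℝ))) - ∫ x, ψ x ∂G)) ((∫ x, Φ x ∂G) - ∫ x, ψ x ∂G)
  have h6 := abs_add_le ((∫ q, Φ (vec f L q) ∂(P : Measure (ℤ → ℝ))) -
    ∫ q, ψ (vec f L q) ∂(P : Measure (ℤ → ℝ))) ((∫ q, ψ (vec f L q) ∂(P : Measure (ℤ → ℝ))) - ∫ x, ψ x ∂G)
  linarith

/-- the second moments of the Gaussian vector -/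
lemma gauss_cov (hf : Fam f) (i j : Fin k) :
    ∫ x, x.ofLp i * x.ofLp j ∂(multivariateGaussian 0 (cm f)) = cv (f i) (f j) := by
  have hCC : ∀ j, CC (fc (f j)) := fun j => cc_of (hf j).1 (hf j).2
  have h1 := covariance_eval_multivariateGaussian (μ := 0) (cm_pos hCC) i j
  have hm : ∀ i, MemLp (fun x : EuclideanSpace ℝ (Fin k) => x.ofLp i) 2
      (multivariateGaussian 0 (cm f)) := by
    intro i
    have hid : MemLp id 2 (multivariateGaussian 0 (cm f)) := IsGaussian.memLp_two_id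
    exact (EuclideanSpace.proj (𝕜 := ℝ) i).comp_memLp' hid
  have h0 : ∀ i, ∫ x, x.ofLp i ∂(multivariateGaussian 0 (cm f)) = 0 := by
    intro i
    have := (EuclideanSpace.proj (𝕜 := ℝ) i : EuclideanSpace ℝ (Fin k) →L[ℝ] ℝ).integral_comp_comm
      (μ := multivariateGaussian 0 (cm f)) (φ := fun x => x) IsGaussian.integrable_fun_id
    rw [integral_id_multivariateGaussian] at this
    simpa using this
  rw [covariance_eq_sub (hm i) (hm j), h0, h0, mul_zero, sub_zero] at h1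
  simpa [cm] using h1

/-- **covariances of the smooth sums** -/
theorem P_cov {f g : ℝ → ℝ} (hf : ContDiff ℝ ∞ f) (hf' : HasCompactSupport f) (hg : ContDiff ℝ ∞ g)
    (hg' : HasCompactSupport g) {ε : ℝ} (hε : 0 < ε) : ∃ L0 : ℝ, 1 ≤ L0 ∧
    ∀ P : ProbabilityMeasure (ℤ → ℝ), IsLim (seen dl) P → ∀ L : ℝ, L0 ≤ L →
      |∫ q, Fn f L q * Fn g L q ∂(P : Measure (ℤ → ℝ)) - cv f g| ≤ ε := by
  have hF : Fam ![f, g] := by
    intro j
    fin_cases j
    · exact ⟨hf, hf'⟩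
    · exact ⟨hg, hg'⟩
  obtain ⟨L0, hL0, h⟩ := P_poly hF (Φ := fun x => x.ofLp 0 * x.ofLp 1) (by fun_prop) (A := 1) (N := 2)
    (fun x => by
      rw [abs_mul, one_mul, pow_two]
      have h0 := PiLp.norm_apply_le x 0
      have h1 := PiLp.norm_apply_le x 1
      rw [Real.norm_eq_abs] at h0 h1
      exact mul_le_mul (by linarith) (by linarith) (abs_nonneg _) (by positivity)) hε
  refine ⟨L0, hL0, fun P hP L hL => ?_⟩
  obtain ⟨-, h2⟩ := h P hP L hL
  rw [gauss_cov hF 0 1] at h2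
  exact h2

end Pool.Agent.Q172.PS
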