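import Pool.Agent.Q172.PS.H
import Pool.Agent.Q172.Mem.H4
import Pool.Agent.H514R3.Herg

/-!
# The spectral measure of a limit process (helper172)
-/

set_option autoImplicit false

namespace Pool.Agent.Q172.PS

open Finset MeasureTheory Filter Topology Complex
open Pool.Agent.Q278.GF Pool.Agent.Q278.MC Pool.Agent.Q278.KM
open _root_.Q172.ZetaLim (IsLim seen map_shift shift)
open _root_.Q172.Mem (ee UU UU_ee memLp_P lin_norm)
open scoped ContDiff RealInnerProductSpace ComplexConjugate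

variable {P : Measure (ℤ → ℝ)}

/-- the covariance of the gaps `j` and `k` -/
noncomputable def cv2 (P : Measure (ℤ → ℝ)) (j k : ℤ) : ℝ := ∫ q, (q j - 1) * (q k - 1) ∂P

/-- the measure `σ` on `[0, π]` is the power spectrum of the gaps -/
def Spec (P : Measure (ℤ → ℝ)) (σ : Measure ℝ) : Prop :=
  IsFiniteMeasure σ ∧ σ (Set.Icc 0 Real.pi)ᶜ = 0 ∧
    ∀ m : ℕ, cv2 P 0 m = ∫ x, Real.cos (m * x) ∂σ

lemma cov_inner (h : ∀ k : ℤ, MemLp (fun q : ℤ → ℝ => q k - 1) 2 P) (j k : ℤ) :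
    ⟪ee h j, ee h k⟫ = cv2 P j k := by
  rw [L2.inner_def]
  unfold cv2
  refine integral_congr_ae ?_
  filter_upwards [(h j).coeFn_toLp, (h k).coeFn_toLp] with q h1 h2
  show ⟪(ee h j : (ℤ → ℝ) → ℝ) q, (ee h k : (ℤ → ℝ) → ℝ) q⟫ = _
  unfold ee
  rw [h1, h2]
  simp only [RCLike.inner_apply, conj_trivial]
  ring

lemma cov_shift (hs : P.map shift = P) (h : ∀ k : ℤ, MemLp (fun q : ℤ → ℝ => q k - 1) 2 P)
    (j k n : ℤ) : cv2 P (j + n) (k + n) = cv2 P j k := by
  have h1 : ∀ j k : ℤ, cv2 P (j + 1) (k + 1) = cv2 P j k := by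
    intro j k
    rw [← cov_inner h, ← cov_inner h, ← UU_ee hs h, ← UU_ee hs h, LinearIsometry.inner_map_map]
  induction n using Int.induction_on with
  | zero => rw [add_zero, add_zero]
  | succ n ih => rw [← add_assoc, ← add_assoc, h1, ih]
  | pred n ih =>
    have h2 := h1 (j + (-(n : ℤ) - 1)) (k + (-(n : ℤ) - 1))
    rw [← h2, show j + (-(n : ℤ) - 1) + 1 = j + -(n : ℤ) by ring,
      show k + (-(n : ℤ) - 1) + 1 = k + -(n : ℤ) by ring, ih]

lemma cov_comm (j k : ℤ) : cv2 P j k = cv2 P k j := by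
  unfold cv2
  refine integral_congr_ae (Eventually.of_forall fun q => ?_)
  show (q j - 1) * (q k - 1) = (q k - 1) * (q j - 1)
  ring

lemma cov_lag (hs : P.map shift = P) (h : ∀ k : ℤ, MemLp (fun q : ℤ → ℝ => q k - 1) 2 P)
    (j k : ℤ) : cv2 P j k = cv2 P 0 ((j - k).natAbs : ℕ) := by
  rcases le_total j k with hjk | hjk
  · have h1 := cov_shift hs h j k (-j)
    rw [← h1, show j + -j = 0 by ring]
    congr 1
    omega
  · have h1 := cov_shift hs h j k (-k)
    rw [← h1, cov_comm, show k + -k = 0 by ring]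
    congr 1
    omega

/-- the spectral measure exists -/
theorem exists_spec (hs : P.map shift = P) (h : ∀ k : ℤ, MemLp (fun q : ℤ → ℝ => q k - 1) 2 P) :
    ∃ σ : Measure ℝ, Spec P σ := by
  obtain ⟨σ, h1, h2, h3⟩ := Pool.Agent.H514R3.herglotz (fun m => cv2 P 0 m) (by
    intro N a
    have e : ∑ j ∈ range N, ∑ k ∈ range N, a j * a k * cv2 P 0 (Pool.Agent.H514R3.lag j k) =
        ‖∑ j ∈ range N, a j • ee h (j : ℤ)‖ ^ 2 := by
      rw [← real_inner_self_eq_norm_sq, sum_inner]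
      refine Finset.sum_congr rfl fun j _ => ?_
      rw [inner_sum]
      refine Finset.sum_congr rfl fun k _ => ?_
      rw [real_inner_smul_left, real_inner_smul_right, cov_inner, cov_lag hs h (j : ℤ) (k : ℤ)]
      unfold Pool.Agent.H514R3.lag
      ring
    rw [e]
    positivity)
  exact ⟨σ, h1, h2, h3⟩

variable {σ : Measure ℝ}

/-- the spectral representation of quadratic forms -/
theorem spec_sum (hs : P.map shift = P) (h : ∀ k : ℤ, MemLp (fun q : ℤ → ℝ => q k - 1) 2 P)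
    (hσ : Spec P σ) (S : Finset ℤ) (a b : ℤ → ℝ) :
    ∫ q, (∑ k ∈ S, a k * (q k - 1)) * (∑ k ∈ S, b k * (q k - 1)) ∂P =
      ∫ x, ((∑ k ∈ S, (a k : ℂ) * cexp (((k : ℝ) * x : ℝ) * I)) *
        conj (∑ k ∈ S, (b k : ℂ) * cexp (((k : ℝ) * x : ℝ) * I))).re ∂σ := by
  obtain ⟨h1, h2, h3⟩ := hσ
  have e1 : ∀ q : ℤ → ℝ, (∑ k ∈ S, a k * (q k - 1)) * (∑ k ∈ S, b k * (q k - 1)) =
      ∑ j ∈ S, ∑ k ∈ S, (a j * b k) * ((q j - 1) * (q k - 1)) := by
    intro q
    rw [Finset.sum_mul_sum]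
    refine Finset.sum_congr rfl fun j _ => Finset.sum_congr rfl fun k _ => ?_
    ring
  have e2 : ∀ x : ℝ, ((∑ k ∈ S, (a k : ℂ) * cexp (((k : ℝ) * x : ℝ) * I)) *
        conj (∑ k ∈ S, (b k : ℂ) * cexp (((k : ℝ) * x : ℝ) * I))).re =
      ∑ j ∈ S, ∑ k ∈ S, (a j * b k) * Real.cos (((j - k).natAbs : ℕ) * x) := by
    intro x
    rw [map_sum, Finset.sum_mul_sum, Complex.re_sum]
    refine Finset.sum_congr rfl fun j _ => ?_
    rw [Complex.re_sum]
    refine Finset.sum_congr rfl fun k _ => ?_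
    rw [map_mul, Complex.conj_ofReal, ← Complex.exp_conj, map_mul, Complex.conj_ofReal, Complex.conj_I]
    have e3 : (a j : ℂ) * cexp (((j : ℝ) * x : ℝ) * I) * ((b k : ℂ) * cexp (((k : ℝ) * x : ℝ) * -I)) =
        ((a j * b k : ℝ) : ℂ) * cexp ((((j : ℝ) - k) * x : ℝ) * I) := by
      have : cexp ((((j : ℝ) - k) * x : ℝ) * I) =
          cexp (((j : ℝ) * x : ℝ) * I) * cexp (((k : ℝ) * x : ℝ) * -I) := by
        rw [← Complex.exp_add]
        congr 1
        push_cast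
        ring
      rw [this]
      push_cast
      ring
    rw [e3, Complex.re_ofReal_mul, Complex.exp_ofReal_mul_I_re]
    congr 1
    have e4 : (((j - k).natAbs : ℕ) : ℝ) = |(j : ℝ) - k| := by
      rw [Nat.cast_natAbs]
      push_cast
      rfl
    rw [e4]
    rcases le_total 0 ((j : ℝ) - k) with h5 | h5
    · rw [abs_of_nonneg h5]
    · rw [abs_of_nonpos h5, neg_mul, Real.cos_neg]
  simp only [e1, e2]
  have hi : ∀ j k : ℤ, Integrable (fun q : ℤ → ℝ => (a j * b k) * ((q j - 1) * (q k - 1))) P :=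
    fun j k => ((h j).integrable_mul (h k)).const_mul _
  have hi2 : ∀ j k : ℤ, Integrable (fun x : ℝ => (a j * b k) * Real.cos (((j - k).natAbs : ℕ) * x)) σ := by
    intro j k
    refine Integrable.const_mul (Integrable.of_bound (by fun_prop) 1 (Eventually.of_forall fun x => ?_)) _
    exact Real.abs_cos_le_one _
  rw [integral_finsetSum _ fun j _ => integrable_finsetSum _ fun k _ => hi j k,
    integral_finsetSum _ fun j _ => integrable_finsetSum _ fun k _ => hi2 j k]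
  refine Finset.sum_congr rfl fun j _ => ?_
  rw [integral_finsetSum _ fun k _ => hi j k, integral_finsetSum _ fun k _ => hi2 j k]
  refine Finset.sum_congr rfl fun k _ => ?_
  rw [integral_const_mul, integral_const_mul, ← h3, ← cov_lag hs h]
  rfl

/-- the trigonometric sum of a test function -/
noncomputable def TF (f : ℝ → ℝ) (L x : ℝ) : ℂ :=
  ∑ᶠ k : ℤ, (f (k / L) : ℂ) * cexp (((k : ℝ) * x : ℝ) * I)

lemma TF_eq_sum {f : ℝ → ℝ} {R L : ℝ} (hs : ∀ x, R ≤ |x| → f x = 0) (hL : 0 < L) {K : ℕ}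
    (hK : R * L ≤ K) (x : ℝ) :
    TF f L x = ∑ k ∈ Icc (-(K : ℤ)) K, (f (k / L) : ℂ) * cexp (((k : ℝ) * x : ℝ) * I) := by
  unfold TF
  apply finsum_eq_sum_of_support_subset
  intro k hk
  rw [Function.mem_support] at hk
  rw [Finset.coe_Icc, Set.mem_Icc]
  have h1 : f (k / L) ≠ 0 := by
    have := left_ne_zero_of_mul hk
    exact_mod_cast this
  have h2 : |(k : ℝ) / L| < R := by
    by_contra hc
    push Not at hc
    exact h1 (hs _ hc)
  rw [abs_div, abs_of_pos hL, div_lt_iff₀ hL] at h2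
  have h3 : |(k : ℝ)| < K := lt_of_lt_of_le h2 hK
  rw [abs_lt] at h3
  constructor
  · have : (-(K : ℤ) : ℝ) < (k : ℝ) := by push_cast; exact h3.1
    exact_mod_cast this.le
  · have : (k : ℝ) < ((K : ℤ) : ℝ) := by push_cast; exact h3.2
    exact_mod_cast this.le

/-- **the spectral representation of the smooth sums** -/
theorem Fn_TF (hs : P.map shift = P) (h : ∀ k : ℤ, MemLp (fun q : ℤ → ℝ => q k - 1) 2 P)
    (hσ : Spec P σ) {f g : ℝ → ℝ} {R L : ℝ} (hf : ∀ x, R ≤ |x| → f x = 0)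
    (hg : ∀ x, R ≤ |x| → g x = 0) (hL : 0 < L) :
    ∫ q, Fn f L q * Fn g L q ∂P = ∫ x, (TF f L x * conj (TF g L x)).re ∂σ := by
  have h1 : R * L ≤ (⌈R * L⌉₊ : ℝ) := Nat.le_ceil _
  simp only [Fn_eq_sum hf hL h1, Fn_eq_sum hg hL h1, TF_eq_sum hf hL h1, TF_eq_sum hg hL h1]
  exact spec_sum hs h hσ _ _ _

/-- norms of block sums do not depend on the position -/
lemma blk_shift (hs : P.map shift = P) (h : ∀ k : ℤ, MemLp (fun q : ℤ → ℝ => q k - 1) 2 P)
    (j : ℤ) (m : ℕ) : ‖∑ i ∈ range m, ee h (j + i)‖ = ‖∑ i ∈ range m, ee h (i : ℤ)‖ := by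
  have h1 : ∀ j : ℤ, ‖∑ i ∈ range m, ee h (j + 1 + i)‖ = ‖∑ i ∈ range m, ee h (j + i)‖ := by
    intro j
    have e : ∑ i ∈ range m, ee h (j + 1 + i) = UU hs (∑ i ∈ range m, ee h (j + i)) := by
      rw [map_sum]
      refine Finset.sum_congr rfl fun i _ => ?_
      rw [UU_ee]
      congr 1
      ring
    rw [e, LinearIsometry.norm_map]
  induction j using Int.induction_on with
  | zero => simp only [zero_add]
  | succ n ih => rw [h1, ih]
  | pred n ih =>
    have h2 := h1 (-(n : ℤ) - 1)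
    rw [sub_add_cancel] at h2
    rw [← h2, ih]

/-- summation by parts -/
lemma abel_norm {H : Type*} [NormedAddCommGroup H] [NormedSpace ℝ H] (c : ℕ → ℝ) (e : ℕ → H)
    (M : ℕ) {b w : ℝ} (hc : ∀ i < M, |c (i + 1) - c i| ≤ b) (hM : c M = 0)
    (hw : ∀ m ≤ M, ‖∑ i ∈ range m, e i‖ ≤ w) :
    ‖∑ i ∈ range M, c i • e i‖ ≤ M * (b * w) := by
  have key : ∀ N : ℕ, ∑ i ∈ range N, c i • e i = c N • (∑ i ∈ range N, e i) -
      ∑ i ∈ range N, (c (i + 1) - c i) • (∑ j ∈ range (i + 1), e j) := by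
    intro N
    induction N with
    | zero => simp
    | succ N ih =>
      rw [Finset.sum_range_succ, ih, Finset.sum_range_succ (fun i => (c (i + 1) - c i) • _)]
      rw [Finset.sum_range_succ e N, sub_smul]
      simp only [smul_add]
      abel
  rw [key, hM, zero_smul, zero_sub, norm_neg]
  refine (norm_sum_le _ _).trans ?_
  have : ∀ i ∈ range M, ‖(c (i + 1) - c i) • (∑ j ∈ range (i + 1), e j)‖ ≤ b * w := by
    intro i hi
    rw [Finset.mem_range] at hi
    rw [norm_smul, Real.norm_eq_abs]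
    exact mul_le_mul (hc i hi) (hw (i + 1) hi) (norm_nonneg _) ((abs_nonneg _).trans (hc i hi))
  refine (Finset.sum_le_sum this).trans (le_of_eq ?_)
  rw [Finset.sum_const, Finset.card_range, nsmul_eq_mul]

/-- **the mean square of sums with slowly varying weights** -/
theorem Fn_abel : ∃ A : ℝ, 0 < A ∧ ∀ P : ProbabilityMeasure (ℤ → ℝ), IsLim (seen dl) P →
    ∀ (f : ℝ → ℝ) (R L b : ℝ), (∀ x, R ≤ |x| → f x = 0) → 0 ≤ R → 1 ≤ L →
      (∀ k : ℤ, |f ((k + 1 : ℤ) / L) - f (k / L)| ≤ b) →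
      ∫ q, Fn f L q ^ 2 ∂(P : Measure (ℤ → ℝ)) ≤
        (b * (2 * R + 5) * L) ^ 2 * (A * (1 + Real.log ((2 * R + 5) * L)) ^ 2) := by
  obtain ⟨A, hA, hblk⟩ := _root_.Q172.Mem.blk_norm
  refine ⟨A, hA, fun P hP f R L b hs hR hL hb => ?_⟩
  have hLp : 0 < L := by linarith
  have h1 : R * L ≤ (⌈R * L⌉₊ : ℝ) := Nat.le_ceil _
  set K : ℕ := ⌈R * L⌉₊ with hK
  have h := memLp_P hP
  have hst := map_shift hP
  have hb0 : 0 ≤ b := (abs_nonneg _).trans (hb 0)
  have e1 : ∫ q, Fn f L q ^ 2 ∂(P : Measure (ℤ → ℝ)) =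
      ‖∑ k ∈ Icc (-(K : ℤ)) K, f (k / L) • ee h k‖ ^ 2 := by
    rw [lin_norm h (Icc (-(K : ℤ)) K) (fun k => f (k / L)) (fun k => k)]
    refine integral_congr_ae (Eventually.of_forall fun q => ?_)
    show Fn f L q ^ 2 = _
    rw [Fn_eq_sum hs hLp h1]
  set M : ℕ := 2 * K + 1 with hM
  have e2 : ∑ k ∈ Icc (-(K : ℤ)) K, f (k / L) • ee h k =
      ∑ i ∈ range M, f (((-(K : ℤ) + i : ℤ) : ℝ) / L) • ee h (-(K : ℤ) + i) := by
    refine Finset.sum_bij' (fun k _ => (k + K).toNat) (fun i _ => -(K : ℤ) + i) ?_ ?_ ?_ ?_ ?_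
    · intro k hk
      rw [Finset.mem_Icc] at hk
      rw [Finset.mem_range]
      omega
    · intro i hi
      rw [Finset.mem_range] at hi
      rw [Finset.mem_Icc]
      omega
    · intro k hk
      rw [Finset.mem_Icc] at hk
      show -(K : ℤ) + ((k + K).toNat : ℕ) = k
      omega
    · intro i hi
      show ((-(K : ℤ) + i) + K).toNat = i
      omega
    · intro k hk
      rw [Finset.mem_Icc] at hk
      have : -(K : ℤ) + ((k + K).toNat : ℕ) = k := by omega
      show f (k / L) • ee h k = f (((-(K : ℤ) + ((k + K).toNat : ℕ) : ℤ) : ℝ) / L) •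
        ee h (-(K : ℤ) + ((k + K).toNat : ℕ))
      rw [this]
  have hMr : (M : ℝ) ≤ (2 * R + 5) * L := by
    have := Nat.ceil_lt_add_one (a := R * L) (by positivity)
    rw [← hK] at this
    rw [hM]
    push_cast
    nlinarith
  have hM1 : (1 : ℝ) ≤ M := by rw [hM]; push_cast; linarith [(Nat.cast_nonneg K : (0 : ℝ) ≤ K)]
  have hlM : 0 ≤ Real.log M := Real.log_nonneg hM1
  set w : ℝ := √A * (1 + Real.log M) with hw
  have hw0 : 0 ≤ w := by positivity
  have h3 := abel_norm (fun i => f (((-(K : ℤ) + i : ℤ) : ℝ) / L)) (fun i : ℕ => ee h (-(K : ℤ) + i)) M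
    (b := b) (w := w) (fun i hi => by
      have := hb (-(K : ℤ) + i)
      have e : (-(K : ℤ) + ((i + 1 : ℕ) : ℤ)) = -(K : ℤ) + i + 1 := by push_cast; ring
      rw [e]
      exact this) (by
      refine hs _ ?_
      rw [abs_div, abs_of_pos hLp, le_div_iff₀ hLp]
      rw [hM]
      push_cast
      rw [abs_of_nonneg (by linarith [(Nat.cast_nonneg K : (0 : ℝ) ≤ K)])]
      linarith) (fun m hm => by
      rw [blk_shift hst h]
      rcases Nat.eq_zero_or_pos m with h0 | h0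
      · rw [h0]; simpa using hw0
      · have h4 := hblk P hP h m h0
        have hm1 : (1 : ℝ) ≤ m := by exact_mod_cast h0
        have hmM : (m : ℝ) ≤ M := by exact_mod_cast hm
        have h5 : Real.log m ≤ Real.log M := Real.log_le_log (by linarith) hmM
        have h6 : 0 ≤ Real.log (m : ℝ) := Real.log_nonneg hm1
        refine abs_le_of_sq_le_sq' ?_ hw0 |>.2
        rw [hw, mul_pow, Real.sq_sqrt hA.le]
        refine h4.trans ?_
        gcongr)
  rw [e1, e2]
  have h7 : Real.log M ≤ Real.log ((2 * R + 5) * L) := Real.log_le_log (by linarith) hMr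
  calc ‖∑ i ∈ range M, f (((-(K : ℤ) + i : ℤ) : ℝ) / L) • ee h (-(K : ℤ) + i)‖ ^ 2 ≤
      (M * (b * w)) ^ 2 := pow_le_pow_left₀ (norm_nonneg _) h3 2
    _ = (b * M) ^ 2 * (A * (1 + Real.log M) ^ 2) := by
        rw [hw]
        have := Real.sq_sqrt hA.le
        calc _ = (b * M) ^ 2 * (√A ^ 2 * (1 + Real.log M) ^ 2) := by ring
          _ = _ := by rw [this]
    _ ≤ (b * ((2 * R + 5) * L)) ^ 2 * (A * (1 + Real.log ((2 * R + 5) * L)) ^ 2) := by gcongr
    _ = _ := by ring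

end Pool.Agent.Q172.PS
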