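import Pool.Agent.Q172.PS.I

/-!
# The characteristic function of the spectral mass at scale `1/L` (helper172)
-/

set_option autoImplicit false

namespace Pool.Agent.Q172.PS

open Finset MeasureTheory Filter Topology Complex
open Pool.Agent.Q278.GF Pool.Agent.Q278.MC Pool.Agent.Q278.KM
open _root_.Q172.ZetaLim (IsLim seen map_shift shift)
open _root_.Q172.Mem (ee UU UU_ee memLp_P lin_norm)
open scoped ContDiff RealInnerProductSpace ComplexConjugate FourierTransform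

lemma sum_Icc_range {E : Type*} [AddCommMonoid E] (K : ℕ) (F : ℤ → E) :
    ∑ k ∈ Icc (-(K : ℤ)) K, F k = ∑ i ∈ range (2 * K + 1), F (-(K : ℤ) + i) := by
  refine Finset.sum_bij' (fun k _ => (k + K).toNat) (fun i _ => -(K : ℤ) + i) ?_ ?_ ?_ ?_ ?_
  · intro k hk
    rw [Finset.mem_Icc] at hk
    rw [Finset.mem_range]
    omega
  · intro i hi
    rw [Finset.mem_range] at hi
    rw [Finset.mem_Icc]
    omega
  · intro k hk
    rw [Finset.mem_Icc] at hk
    show -(K : ℤ) + ((k + K).toNat : ℕ) = k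
    omega
  · intro i hi
    show ((-(K : ℤ) + i) + K).toNat = i
    omega
  · intro k hk
    rw [Finset.mem_Icc] at hk
    have : -(K : ℤ) + ((k + K).toNat : ℕ) = k := by omega
    show F k = F (-(K : ℤ) + ((k + K).toNat : ℕ))
    rw [this]

/-- Riemann sums of Lipschitz functions -/
lemma riem {F : ℝ → ℂ} {M R L : ℝ} (hF : ∀ s t, ‖F s - F t‖ ≤ M * |s - t|)
    (hs : ∀ t, R ≤ |t| → F t = 0) (hL : 0 < L) {K : ℕ} (hK : R * L ≤ K) :
    ‖(1 / L : ℝ) • ∑ k ∈ Icc (-(K : ℤ)) K, F (k / L) - ∫ t, F t‖ ≤ (2 * K + 1) * (M / L ^ 2) := by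
  have hM : 0 ≤ M := by
    have := (norm_nonneg _).trans (hF 1 0)
    rw [sub_zero, abs_one, mul_one] at this
    exact this
  have hc : Continuous F := by
    refine (LipschitzWith.of_dist_le_mul (K := ⟨M, hM⟩) fun s t => ?_).continuous
    rw [dist_eq_norm, Real.dist_eq]
    exact hF s t
  set a : ℕ → ℝ := fun i => ((-(K : ℤ) + i : ℤ) : ℝ) / L with ha
  have hsupp : Function.support F ⊆ Set.Ioc (a 0) (a (2 * K + 1)) := by
    intro t ht
    rw [Function.mem_support] at ht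
    have h1 : |t| < R := by
      by_contra hcon
      push Not at hcon
      exact ht (hs t hcon)
    have h2 : |t| < K / L := lt_of_lt_of_le h1 (by rw [le_div_iff₀ hL]; exact hK)
    rw [abs_lt] at h2
    rw [ha]
    simp only [Set.mem_Ioc]
    push_cast
    refine ⟨?_, ?_⟩
    · have : (-(K : ℝ) + 0) / L = -((K : ℝ) / L) := by ring
      rw [this]
      exact h2.1
    · refine h2.2.le.trans ?_
      gcongr
      linarith [(Nat.cast_nonneg K : (0 : ℝ) ≤ K)]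
  rw [← intervalIntegral.integral_eq_integral_of_support_subset hsupp,
    ← intervalIntegral.sum_integral_adjacent_intervals (a := a) (n := 2 * K + 1)
      (fun k _ => hc.intervalIntegrable _ _), sum_Icc_range, Finset.smul_sum, ← Finset.sum_sub_distrib]
  refine (norm_sum_le _ _).trans ?_
  have : ∀ i ∈ range (2 * K + 1), ‖(1 / L : ℝ) • F (((-(K : ℤ) + i : ℤ) : ℝ) / L) -
      ∫ t in (a i)..(a (i + 1)), F t‖ ≤ M / L ^ 2 := by
    intro i _
    have h1 : a (i + 1) - a i = 1 / L := by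
      rw [ha]
      simp only
      push_cast
      ring
    have h2 : (1 / L : ℝ) • F (((-(K : ℤ) + i : ℤ) : ℝ) / L) = ∫ _t in (a i)..(a (i + 1)), F (a i) := by
      rw [intervalIntegral.integral_const, h1]
    rw [h2, ← intervalIntegral.integral_sub intervalIntegrable_const (hc.intervalIntegrable _ _)]
    have hle : a i ≤ a (i + 1) := by
      have : 0 < 1 / L := by positivity
      linarith
    have h3 := intervalIntegral.norm_integral_le_of_norm_le_const (a := a i) (b := a (i + 1))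
      (C := M / L) (f := fun t => F (a i) - F t) (fun t ht => by
        rw [Set.uIoc_of_le hle, Set.mem_Ioc] at ht
        refine (hF _ _).trans ?_
        rw [abs_of_nonpos (by linarith)]
        calc M * -(a i - t) ≤ M * (1 / L) := by
              refine mul_le_mul_of_nonneg_left ?_ hM
              linarith
          _ = M / L := by ring)
    refine h3.trans (le_of_eq ?_)
    rw [h1, abs_of_pos (by positivity)]
    field_simp
  refine (Finset.sum_le_sum this).trans (le_of_eq ?_)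
  rw [Finset.sum_const, Finset.card_range, nsmul_eq_mul]
  push_cast
  ring

/-- the transform of a test function -/
noncomputable def HT (g : ℝ → ℝ) (y : ℝ) : ℂ := ∫ t : ℝ, (g t : ℂ) * cexp ((t * y : ℝ) * I)

/-- a Lipschitz test function with bounds -/
structure Lp1 (g : ℝ → ℝ) (B M R : ℝ) : Prop where
  b : ∀ x, |g x| ≤ B
  lip : ∀ s t, |g s - g t| ≤ M * |s - t|
  supp : ∀ x, R ≤ |x| → g x = 0
  R1 : 1 ≤ R

lemma exp_lip (y s t : ℝ) : ‖cexp ((s * y : ℝ) * I) - cexp ((t * y : ℝ) * I)‖ ≤ |y| * |s - t| := by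
  have e : cexp ((s * y : ℝ) * I) - cexp ((t * y : ℝ) * I) =
      cexp ((t * y : ℝ) * I) * (cexp (I * (((s - t) * y : ℝ))) - 1) := by
    rw [mul_sub, mul_one, ← Complex.exp_add]
    congr 2
    push_cast
    ring
  rw [e, norm_mul, Complex.norm_exp_ofReal_mul_I, one_mul]
  refine Real.norm_exp_I_mul_ofReal_sub_one_le.trans ?_
  rw [Real.norm_eq_abs, abs_mul, mul_comm]

lemma Lp1.clip {g : ℝ → ℝ} {B M R : ℝ} (h : Lp1 g B M R) (y s t : ℝ) :
    ‖(g s : ℂ) * cexp ((s * y : ℝ) * I) - (g t : ℂ) * cexp ((t * y : ℝ) * I)‖ ≤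
      (M + B * |y|) * |s - t| := by
  have e : (g s : ℂ) * cexp ((s * y : ℝ) * I) - (g t : ℂ) * cexp ((t * y : ℝ) * I) =
      ((g s - g t : ℝ) : ℂ) * cexp ((s * y : ℝ) * I) +
      (g t : ℂ) * (cexp ((s * y : ℝ) * I) - cexp ((t * y : ℝ) * I)) := by
    push_cast
    ring
  rw [e]
  refine (norm_add_le _ _).trans ?_
  rw [norm_mul, norm_mul, Complex.norm_exp_ofReal_mul_I, mul_one, Complex.norm_real, Complex.norm_real,
    Real.norm_eq_abs, Real.norm_eq_abs]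
  have h1 := h.lip s t
  have h2 : |g t| * ‖cexp ((s * y : ℝ) * I) - cexp ((t * y : ℝ) * I)‖ ≤ B * (|y| * |s - t|) :=
    mul_le_mul (h.b t) (exp_lip y s t) (norm_nonneg _) ((abs_nonneg _).trans (h.b t))
  linarith

/-- the trigonometric sums are close to the transform -/
lemma TF_riem {g : ℝ → ℝ} {B M R : ℝ} (h : Lp1 g B M R) {L : ℝ} (hL : 1 ≤ L) (y : ℝ) :
    ‖(1 / L : ℝ) • TF g L (y / L) - HT g y‖ ≤ (2 * R + 5) * (M + B * |y|) / L := by
  have hLp : 0 < L := by linarith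
  have hR := h.R1
  have h1 : R * L ≤ (⌈R * L⌉₊ : ℝ) := Nat.le_ceil _
  have h2 := riem (F := fun t => (g t : ℂ) * cexp ((t * y : ℝ) * I)) (fun s t => h.clip y s t)
    (R := R) (fun t ht => by simp only [h.supp t ht, Complex.ofReal_zero, zero_mul]) hLp h1
  rw [TF_eq_sum h.supp hLp h1]
  have e : ∑ k ∈ Icc (-(⌈R * L⌉₊ : ℤ)) (⌈R * L⌉₊ : ℤ), (g (k / L) : ℂ) * cexp (((k : ℝ) * (y / L) : ℝ) * I) =
      ∑ k ∈ Icc (-(⌈R * L⌉₊ : ℤ)) (⌈R * L⌉₊ : ℤ), (g (k / L) : ℂ) * cexp (((k : ℝ) / L * y : ℝ) * I) := by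
    refine Finset.sum_congr rfl fun k _ => ?_
    congr 4
    ring
  rw [e]
  refine h2.trans ?_
  have hM : 0 ≤ M := by
    have := (abs_nonneg _).trans (h.lip 1 0)
    rw [sub_zero, abs_one, mul_one] at this
    exact this
  have hB : 0 ≤ B := (abs_nonneg _).trans (h.b 0)
  have h3 : 2 * (⌈R * L⌉₊ : ℝ) + 1 ≤ (2 * R + 5) * L := by
    have := Nat.ceil_lt_add_one (a := R * L) (by positivity)
    nlinarith
  calc (2 * (⌈R * L⌉₊ : ℝ) + 1) * ((M + B * |y|) / L ^ 2) ≤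
      ((2 * R + 5) * L) * ((M + B * |y|) / L ^ 2) := by gcongr
    _ = _ := by field_simp

/-- translation -/
def tra (g : ℝ → ℝ) (s : ℝ) : ℝ → ℝ := fun t => g (t - s)

lemma tra_supp {g : ℝ → ℝ} {R s S : ℝ} (h : ∀ x, R ≤ |x| → g x = 0) (hs : |s| ≤ S) :
    ∀ x, R + S ≤ |x| → tra g s x = 0 := by
  intro x hx
  refine h _ ?_
  have := abs_sub_abs_le_abs_sub x s
  linarith

lemma TF_tra {g : ℝ → ℝ} {L : ℝ} (m : ℤ) (x : ℝ) :
    TF (tra g (m / L)) L x = cexp (((m : ℝ) * x : ℝ) * I) * TF g L x := by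
  unfold TF tra
  rw [mul_finsum, ← finsum_comp_equiv (Equiv.addRight m)]
  refine finsum_congr fun k => ?_
  rw [Equiv.coe_addRight]
  have e1 : (((k + m : ℤ) : ℝ) / L - m / L) = k / L := by
    push_cast
    ring
  rw [e1, ← mul_assoc, mul_comm (cexp _) (g (k / L) : ℂ), mul_assoc, ← Complex.exp_add]
  congr 2
  push_cast
  ring

lemma Fn_sub {f g : ℝ → ℝ} {R L : ℝ} (hf : ∀ x, R ≤ |x| → f x = 0) (hg : ∀ x, R ≤ |x| → g x = 0)
    (hL : 0 < L) (q : ℤ → ℝ) : Fn (fun x => f x - g x) L q = Fn f L q - Fn g L q := by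
  have h1 : R * L ≤ (⌈R * L⌉₊ : ℝ) := Nat.le_ceil _
  rw [Fn_eq_sum hf hL h1, Fn_eq_sum hg hL h1, Fn_eq_sum (fun x hx => by rw [hf x hx, hg x hx, sub_zero]) hL h1,
    ← Finset.sum_sub_distrib]
  refine Finset.sum_congr rfl fun k _ => ?_
  ring

lemma TF_sub {f g : ℝ → ℝ} {R L : ℝ} (hf : ∀ x, R ≤ |x| → f x = 0) (hg : ∀ x, R ≤ |x| → g x = 0)
    (hL : 0 < L) (x : ℝ) : TF (fun x => f x - g x) L x = TF f L x - TF g L x := by
  have h1 : R * L ≤ (⌈R * L⌉₊ : ℝ) := Nat.le_ceil _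
  rw [TF_eq_sum hf hL h1, TF_eq_sum hg hL h1, TF_eq_sum (fun x hx => by rw [hf x hx, hg x hx, sub_zero]) hL h1,
    ← Finset.sum_sub_distrib]
  refine Finset.sum_congr rfl fun k _ => ?_
  push_cast
  ring

lemma Fn_memLp {P : Measure (ℤ → ℝ)} (h : ∀ k : ℤ, MemLp (fun q : ℤ → ℝ => q k - 1) 2 P) {f : ℝ → ℝ}
    {R L : ℝ} (hf : ∀ x, R ≤ |x| → f x = 0) (hL : 0 < L) : MemLp (Fn f L) 2 P := by
  have h1 : R * L ≤ (⌈R * L⌉₊ : ℝ) := Nat.le_ceil _
  have e : Fn f L = fun q => ∑ k ∈ Icc (-(⌈R * L⌉₊ : ℤ)) (⌈R * L⌉₊ : ℤ), f (k / L) * (q k - 1) :=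
    funext fun q => Fn_eq_sum hf hL h1 q
  rw [e]
  exact memLp_finsetSum _ fun k _ => (h k).const_mul _

lemma TF_cont {f : ℝ → ℝ} {R L : ℝ} (hf : ∀ x, R ≤ |x| → f x = 0) (hL : 0 < L) :
    Continuous (TF f L) := by
  have h1 : R * L ≤ (⌈R * L⌉₊ : ℝ) := Nat.le_ceil _
  have e : TF f L = fun x => ∑ k ∈ Icc (-(⌈R * L⌉₊ : ℤ)) (⌈R * L⌉₊ : ℤ),
      (f (k / L) : ℂ) * cexp (((k : ℝ) * x : ℝ) * I) := funext fun x => TF_eq_sum hf hL h1 x
  rw [e]
  fun_prop

lemma TF_bdd {f : ℝ → ℝ} {R L : ℝ} (hf : ∀ x, R ≤ |x| → f x = 0) (hL : 0 < L) :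
    ∃ B : ℝ, 0 ≤ B ∧ ∀ x, ‖TF f L x‖ ≤ B := by
  have h1 : R * L ≤ (⌈R * L⌉₊ : ℝ) := Nat.le_ceil _
  refine ⟨∑ k ∈ Icc (-(⌈R * L⌉₊ : ℤ)) (⌈R * L⌉₊ : ℤ), |f (k / L)|,
    Finset.sum_nonneg fun _ _ => abs_nonneg _, fun x => ?_⟩
  rw [TF_eq_sum hf hL h1]
  refine (norm_sum_le _ _).trans (Finset.sum_le_sum fun k _ => ?_)
  rw [norm_mul, Complex.norm_exp_ofReal_mul_I, mul_one, Complex.norm_real, Real.norm_eq_abs]

variable {φ φ' : ℝ → ℝ} {B0 B2 R : ℝ}

lemma wt_lip (h : Tst φ φ' B0 B2 R) (x y : ℝ) : |φ' x - φ' y| ≤ 2 * B2 * |x - y| := by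
  rcases eq_or_ne x y with rfl | hne
  · simp
  · have h1 := h.wt x y
    have h2 := h.wt y x
    have h3 : |(φ' x - φ' y) * (y - x)| ≤ 2 * B2 * (x - y) ^ 2 := by
      have e : (φ' x - φ' y) * (y - x) = -((φ y - φ x - φ' x * (y - x)) + (φ x - φ y - φ' y * (x - y))) := by
        ring
      rw [e, abs_neg]
      refine (abs_add_le _ _).trans ?_
      have e2 : (y - x) ^ 2 = (x - y) ^ 2 := by ring
      rw [e2] at h1
      linarith
    rw [abs_mul, abs_sub_comm y x, ← sq_abs (x - y), pow_two, ← mul_assoc] at h3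
    exact le_of_mul_le_mul_right h3 (abs_pos.2 (sub_ne_zero.2 hne))

/-- neighbouring translates differ little in mean square -/
theorem diff_small (h : Tst φ φ' B0 B2 R) (S : ℝ) (hS : 0 ≤ S) : ∃ C : ℝ, 0 < C ∧
    ∀ P : ProbabilityMeasure (ℤ → ℝ), IsLim (seen dl) P → ∀ L a b : ℝ, 1 ≤ L → |a| ≤ S → |b| ≤ S →
      |a - b| ≤ 1 / L →
      ∫ q, Fn (fun t => tra φ a t - tra φ b t) L q ^ 2 ∂(P : Measure (ℤ → ℝ)) ≤ C / L := by
  obtain ⟨A, hA, hab⟩ := Fn_abel
  have hR := h.R1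
  have hB2 := h.wt.nonneg
  set c : ℝ := 2 * (R + S) + 5 with hc
  have hc0 : 1 ≤ c := by rw [hc]; linarith
  refine ⟨(4 * (B2 + 1) * c) ^ 2 * (18 * A * c), by positivity, fun P hP L a b hL ha hb hd => ?_⟩
  have hLp : 0 < L := by linarith
  have h1 := hab P hP (fun t => tra φ a t - tra φ b t) (R + S) L (4 * (B2 + 1) / L ^ 2) (fun x hx => by
    show tra φ a x - tra φ b x = 0
    rw [tra_supp h.supp ha x hx, tra_supp h.supp hb x hx, sub_zero]) (by linarith) hL (fun k => by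
    set x : ℝ := k / L - a with hx
    set y : ℝ := k / L - b with hy
    have e1 : ((k + 1 : ℤ) : ℝ) / L = k / L + 1 / L := by push_cast; ring
    show |(φ (((k + 1 : ℤ) : ℝ) / L - a) - φ (((k + 1 : ℤ) : ℝ) / L - b)) -
      (φ (k / L - a) - φ (k / L - b))| ≤ _
    rw [e1, show (k : ℝ) / L + 1 / L - a = x + 1 / L by rw [hx]; ring,
      show (k : ℝ) / L + 1 / L - b = y + 1 / L by rw [hy]; ring, ← hx, ← hy]
    have w1 := h.wt x (x + 1 / L)
    have w2 := h.wt y (y + 1 / L)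
    rw [add_sub_cancel_left] at w1 w2
    have w3 := wt_lip h x y
    have e2 : |x - y| = |a - b| := by
      rw [hx, hy, show (k : ℝ) / L - a - (k / L - b) = -(a - b) by ring, abs_neg]
    rw [e2] at w3
    have e3 : (φ (x + 1 / L) - φ (y + 1 / L)) - (φ x - φ y) =
        (φ (x + 1 / L) - φ x - φ' x * (1 / L)) - (φ (y + 1 / L) - φ y - φ' y * (1 / L)) +
          (φ' x - φ' y) * (1 / L) := by ring
    rw [e3]
    have w4 : |(φ' x - φ' y) * (1 / L)| ≤ 2 * B2 * (1 / L) * (1 / L) := by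
      rw [abs_mul, abs_of_pos (by positivity : 0 < 1 / L)]
      refine mul_le_mul_of_nonneg_right (w3.trans ?_) (by positivity)
      gcongr
    refine (abs_add_le _ _).trans ?_
    have w5 := abs_sub (φ (x + 1 / L) - φ x - φ' x * (1 / L)) (φ (y + 1 / L) - φ y - φ' y * (1 / L))
    have e4 : 4 * (B2 + 1) / L ^ 2 = 4 * (B2 + 1) * (1 / L) ^ 2 := by
      field_simp
    rw [e4]
    have : 0 ≤ (1 / L) ^ 2 := by positivity
    nlinarith)
  refine h1.trans ?_
  rw [← hc]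
  have hcL : 1 ≤ c * L := by nlinarith
  have h2 := log_pow_le 2 hcL
  have h3 : (1 + Real.log (c * L)) ^ 2 ≤ 18 * (c * L) := by
    have h4 : Real.log (c * L) ≤ Real.log (1 + c * L) := Real.log_le_log (by linarith) (by linarith)
    have h5 : 0 ≤ Real.log (c * L) := Real.log_nonneg hcL
    have h6 : (1 + Real.log (c * L)) ^ 2 ≤ (1 + Real.log (1 + c * L)) ^ 2 :=
      pow_le_pow_left₀ (by linarith) (by linarith) 2
    refine (h6.trans h2).trans (le_of_eq ?_)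
    push_cast
    ring
  calc (4 * (B2 + 1) / L ^ 2 * c * L) ^ 2 * (A * (1 + Real.log (c * L)) ^ 2) ≤
      (4 * (B2 + 1) / L ^ 2 * c * L) ^ 2 * (A * (18 * (c * L))) := by gcongr
    _ = _ := by
        field_simp

/-- Cauchy and Schwarz -/
lemma cs {α : Type*} [MeasurableSpace α] {μ : Measure α} {f g : α → ℝ} (hf : MemLp f 2 μ) (hg : MemLp g 2 μ) :
    |∫ x, f x * g x ∂μ| ≤ √(∫ x, f x ^ 2 ∂μ) * √(∫ x, g x ^ 2 ∂μ) := by
  have h1 : Integrable (fun x => f x ^ 2) μ := hf.integrable_sq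
  have h2 : Integrable (fun x => g x ^ 2) μ := hg.integrable_sq
  have h3 : Integrable (fun x => f x * g x) μ := hf.integrable_mul hg
  set a := ∫ x, f x ^ 2 ∂μ with ha
  set b := ∫ x, g x ^ 2 ∂μ with hb
  set c := ∫ x, f x * g x ∂μ with hc
  have ha0 : 0 ≤ a := integral_nonneg fun x => sq_nonneg _
  have hb0 : 0 ≤ b := integral_nonneg fun x => sq_nonneg _
  have key : ∀ t : ℝ, 0 ≤ a * t ^ 2 + 2 * c * t + b := by
    intro t
    have h4 : 0 ≤ ∫ x, (t * f x + g x) ^ 2 ∂μ := integral_nonneg fun x => sq_nonneg _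
    have e : ∫ x, (t * f x + g x) ^ 2 ∂μ = a * t ^ 2 + 2 * c * t + b := by
      have e1 : ∀ x, (t * f x + g x) ^ 2 = t ^ 2 * f x ^ 2 + (2 * t) * (f x * g x) + g x ^ 2 := fun x => by ring
      simp only [e1]
      have j1 : Integrable (fun x => t ^ 2 * f x ^ 2) μ := h1.const_mul _
      have j2 : Integrable (fun x => 2 * t * (f x * g x)) μ := h3.const_mul _
      have j3 : Integrable (fun x => t ^ 2 * f x ^ 2 + 2 * t * (f x * g x)) μ := j1.add j2
      rw [integral_add j3 h2, integral_add j1 j2, integral_const_mul, integral_const_mul]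
      ring
    rw [e] at h4
    exact h4
  have hd := discrim_le_zero (a := a) (b := 2 * c) (c := b) (fun t => by have := key t; nlinarith)
  unfold discrim at hd
  rw [← Real.sqrt_mul ha0]
  refine Real.le_sqrt_of_sq_le ?_
  rw [sq_abs]
  nlinarith

lemma fc_tra (g : ℝ → ℝ) (s ξ : ℝ) :
    𝓕 (fc (tra g s)) ξ = cexp ((-(2 * Real.pi * s * ξ) : ℝ) * I) * 𝓕 (fc g) ξ := by
  rw [Real.fourier_real_eq_integral_exp_smul, Real.fourier_real_eq_integral_exp_smul,
    ← integral_const_mul, ← integral_add_right_eq_self _ s]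
  refine integral_congr_ae (Eventually.of_forall fun t => ?_)
  show cexp ((-2 * Real.pi * (t + s) * ξ : ℝ) * I) • fc (tra g s) (t + s) =
    cexp ((-(2 * Real.pi * s * ξ) : ℝ) * I) * (cexp ((-2 * Real.pi * t * ξ : ℝ) * I) • fc g t)
  have e : fc (tra g s) (t + s) = fc g t := by
    unfold fc tra
    rw [add_sub_cancel_right]
  rw [e, smul_eq_mul, smul_eq_mul, ← mul_assoc, ← Complex.exp_add]
  congr 2
  push_cast
  ring

lemma cv_tra (g : ℝ → ℝ) (s : ℝ) :
    cv (tra g s) g = ∫ ξ : ℝ, |ξ| * (Real.cos (2 * Real.pi * s * ξ) * ‖𝓕 (fc g) ξ‖ ^ 2) := by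
  unfold cv
  refine integral_congr_ae (Eventually.of_forall fun ξ => ?_)
  show |ξ| * (𝓕 (fc (tra g s)) ξ * conj (𝓕 (fc g) ξ)).re = |ξ| * (Real.cos (2 * Real.pi * s * ξ) * ‖𝓕 (fc g) ξ‖ ^ 2)
  rw [fc_tra, mul_assoc, Complex.mul_conj, Complex.normSq_eq_norm_sq, Complex.re_mul_ofReal,
    Complex.exp_ofReal_mul_I_re, Real.cos_neg]

end Pool.Agent.Q172.PS
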