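import Pool.Agent.Q172.PS.J

/-!
# The limit of the characteristic functions (helper172)
-/

set_option autoImplicit false

namespace Pool.Agent.Q172.PS

open Finset MeasureTheory Filter Topology Complex
open Pool.Agent.Q278.GF Pool.Agent.Q278.MC Pool.Agent.Q278.KM
open _root_.Q172.ZetaLim (IsLim seen map_shift shift)
open _root_.Q172.Mem (ee UU UU_ee memLp_P lin_norm)
open scoped ContDiff RealInnerProductSpace ComplexConjugate FourierTransform

/-- weighted cosine transforms of the power spectrum -/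
noncomputable def psi (σ : Measure ℝ) (g : ℝ → ℝ) (L s : ℝ) : ℝ :=
  ∫ x, Real.cos (s * (L * x)) * ‖TF g L x‖ ^ 2 ∂σ

lemma ae_Icc {P : Measure (ℤ → ℝ)} {σ : Measure ℝ} (hσ : Spec P σ) :
    ∀ᵐ x ∂σ, x ∈ Set.Icc 0 Real.pi := by
  rw [ae_iff]
  exact hσ.2.1

lemma jordan {x : ℝ} (hx : x ∈ Set.Icc 0 Real.pi) :
    x ≤ Real.pi / 2 * ‖(1 : ℂ) - cexp ((x : ℝ) * I)‖ := by
  have hpi := Real.pi_pos
  have e : ‖(1 : ℂ) - cexp ((x : ℝ) * I)‖ = 2 * Real.sin (x / 2) := by
    rw [norm_sub_rev, mul_comm, Complex.norm_exp_I_mul_ofReal_sub_one, Real.norm_of_nonneg]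
    have := Real.sin_nonneg_of_nonneg_of_le_pi (x := x / 2) (by linarith [hx.1]) (by linarith [hx.2])
    linarith
  rw [e]
  have h1 := Real.mul_le_sin (x := x / 2) (by linarith [hx.1]) (by linarith [hx.2])
  have h2 : 2 / Real.pi * (x / 2) = x / Real.pi := by ring
  rw [h2, div_le_iff₀ hpi] at h1
  linarith

lemma sq_int {P : Measure (ℤ → ℝ)} {σ : Measure ℝ} (hs : P.map shift = P)
    (h : ∀ k : ℤ, MemLp (fun q : ℤ → ℝ => q k - 1) 2 P) (hσ : Spec P σ) {f : ℝ → ℝ} {R L : ℝ}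
    (hf : ∀ x, R ≤ |x| → f x = 0) (hL : 0 < L) :
    ∫ q, Fn f L q ^ 2 ∂P = ∫ x, ‖TF f L x‖ ^ 2 ∂σ := by
  have h1 := Fn_TF hs h hσ hf hf hL
  have e1 : ∀ q, Fn f L q ^ 2 = Fn f L q * Fn f L q := fun q => pow_two _
  simp only [e1]
  rw [h1]
  refine integral_congr_ae (Eventually.of_forall fun x => ?_)
  show (TF f L x * conj (TF f L x)).re = ‖TF f L x‖ ^ 2
  rw [Complex.mul_conj, Complex.normSq_eq_norm_sq, Complex.ofReal_re]

lemma tra_smooth {g : ℝ → ℝ} (h1 : ContDiff ℝ ∞ g) (h2 : HasCompactSupport g) (s : ℝ) :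
    ContDiff ℝ ∞ (tra g s) ∧ HasCompactSupport (tra g s) := by
  constructor
  · unfold tra
    exact h1.comp (contDiff_id.sub contDiff_const)
  · have : tra g s = g ∘ (Homeomorph.subRight s) := rfl
    rw [this]
    exact h2.comp_homeomorph _

/-- **the characteristic functions converge, uniformly over the limit processes** -/
theorem char_lim {g : ℝ → ℝ} (hg1 : ContDiff ℝ ∞ g) (hg2 : HasCompactSupport g) (s : ℝ) {ε : ℝ}
    (hε : 0 < ε) : ∃ L0 : ℝ, 1 ≤ L0 ∧ ∀ P : ProbabilityMeasure (ℤ → ℝ), IsLim (seen dl) P →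
      ∀ σ : Measure ℝ, Spec (P : Measure (ℤ → ℝ)) σ → ∀ L : ℝ, L0 ≤ L →
        |psi σ g L s - cv (tra g s) g| ≤ ε := by
  obtain ⟨φ', B0, B2, R, hT⟩ := tst_of hg1 hg2
  have hR := hT.R1
  obtain ⟨hs1, hs2⟩ := tra_smooth hg1 hg2 s
  obtain ⟨L1, hL1, hc1⟩ := P_cov hs1 hs2 hg1 hg2 (ε := ε / 3) (by positivity)
  obtain ⟨L2, hL2, hc2⟩ := P_cov hg1 hg2 hg1 hg2 (ε := 1) one_pos
  obtain ⟨C, hC, hdiff⟩ := diff_small hT (|s| + 1) (by positivity)
  set M : ℝ := |cv g g| + 1 with hM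
  have hM0 : 0 < M := by positivity
  have hpi := Real.pi_pos
  have hpi4 := Real.pi_le_four
  set D : ℝ := 3 * √(C * M) / ε with hD
  have hD0 : 0 ≤ D := by positivity
  refine ⟨max (max L1 L2) (4 * D ^ 2 + 1), (hL1.trans (le_max_left _ _)).trans (le_max_left _ _),
    fun P hP σ hσ L hL => ?_⟩
  have hLa : L1 ≤ L := ((le_max_left _ _).trans (le_max_left _ _)).trans hL
  have hLb : L2 ≤ L := ((le_max_right _ _).trans (le_max_left _ _)).trans hL
  have hLc : 4 * D ^ 2 + 1 ≤ L := (le_max_right _ _).trans hL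
  have hL1' : 1 ≤ L := hL1.trans hLa
  have hLp : 0 < L := by linarith
  have hst := map_shift hP
  have h := memLp_P hP
  have := hσ.1
  -- the small quantity
  have hsm : √(C / L) * √M ≤ ε / 6 := by
    rw [← Real.sqrt_mul (by positivity)]
    have e : C / L * M = C * M / L := by ring
    rw [e, Real.sqrt_div (by positivity), div_le_iff₀ (Real.sqrt_pos.2 hLp)]
    have h1 : 2 * D ≤ √L := by
      refine Real.le_sqrt_of_sq_le ?_
      nlinarith
    have h2 : √(C * M) = D * ε / 3 := by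
      rw [hD]
      field_simp
    rw [h2]
    nlinarith
  have hV : ∫ q, Fn g L q ^ 2 ∂(P : Measure (ℤ → ℝ)) ≤ M := by
    have h1 := hc2 P hP L hLb
    have e : ∀ q, Fn g L q ^ 2 = Fn g L q * Fn g L q := fun q => pow_two _
    simp only [e]
    have h2 := (abs_le.1 h1).2
    have h3 := le_abs_self (cv g g)
    linarith
  -- the shift by an integer
  set m : ℤ := ⌊s * L⌋ with hm
  have hm1 : (m : ℝ) ≤ s * L := Int.floor_le _
  have hm2 : s * L < m + 1 := Int.lt_floor_add_one _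
  have hd : |s - m / L| ≤ 1 / L := by
    have e : s - m / L = (s * L - m) / L := by field_simp
    rw [e, abs_div, abs_of_pos hLp, abs_of_nonneg (by linarith)]
    gcongr
    linarith
  have hL11 : 1 / L ≤ 1 := by rw [div_le_one hLp]; exact hL1'
  have hma : |(m : ℝ) / L| ≤ |s| + 1 := by
    have e : (m : ℝ) / L = s - (s - m / L) := by ring
    rw [e]
    refine (abs_sub _ _).trans ?_
    linarith
  have hsupp : ∀ a : ℝ, |a| ≤ |s| + 1 → ∀ x, R + (|s| + 1) ≤ |x| → tra g a x = 0 :=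
    fun a ha => tra_supp hT.supp ha
  have hg0 : ∀ x, R + (|s| + 1) ≤ |x| → g x = 0 := fun x hx =>
    hT.supp x (by linarith [abs_nonneg s])
  -- step 1
  have s1 := hc1 P hP L hLa
  -- step 2
  have s2 : ∫ q, Fn (tra g (m / L)) L q * Fn g L q ∂(P : Measure (ℤ → ℝ)) =
      ∫ x, Real.cos (m * x) * ‖TF g L x‖ ^ 2 ∂σ := by
    rw [Fn_TF hst h hσ (hsupp _ hma) hg0 hLp]
    refine integral_congr_ae (Eventually.of_forall fun x => ?_)
    show (TF (tra g (m / L)) L x * conj (TF g L x)).re = _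
    rw [TF_tra, mul_assoc, Complex.mul_conj, Complex.normSq_eq_norm_sq, Complex.re_mul_ofReal,
      Complex.exp_ofReal_mul_I_re]
  -- step 3
  have s3 : |∫ q, Fn (tra g s) L q * Fn g L q ∂(P : Measure (ℤ → ℝ)) -
      ∫ q, Fn (tra g (m / L)) L q * Fn g L q ∂(P : Measure (ℤ → ℝ))| ≤ ε / 6 := by
    have m1 := Fn_memLp h (hsupp s (by linarith)) hLp
    have m2 := Fn_memLp h (hsupp _ hma) hLp
    have m3 := Fn_memLp h hg0 hLp
    have j1 : Integrable (fun q => Fn (tra g s) L q * Fn g L q) (P : Measure (ℤ → ℝ)) := m1.integrable_mul m3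
    have j2 : Integrable (fun q => Fn (tra g (m / L)) L q * Fn g L q) (P : Measure (ℤ → ℝ)) :=
      m2.integrable_mul m3
    rw [← integral_sub j1 j2]
    have e : ∀ q, (Fn (tra g s) L q * Fn g L q - Fn (tra g (m / L)) L q * Fn g L q) =
        Fn (fun t => tra g s t - tra g (m / L) t) L q * Fn g L q := by
      intro q
      rw [Fn_sub (hsupp s (by linarith)) (hsupp _ hma) hLp]
      ring
    simp only [e]
    have m4 : MemLp (Fn (fun t => tra g s t - tra g (m / L) t) L) 2 (P : Measure (ℤ → ℝ)) :=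
      Fn_memLp h (fun x hx => by
        show tra g s x - tra g (m / L) x = 0
        rw [hsupp s (by linarith) x hx, hsupp _ hma x hx, sub_zero]) hLp
    refine (cs m4 m3).trans (le_trans ?_ hsm)
    gcongr
    exact hdiff P hP L s (m / L) hL1' (by linarith) hma hd
  -- step 4
  have s4 : |psi σ g L s - ∫ x, Real.cos (m * x) * ‖TF g L x‖ ^ 2 ∂σ| ≤ ε / 2 := by
    obtain ⟨Bd, hBd0, hBd⟩ := TF_bdd (f := g) hT.supp hLp
    have hTc := TF_cont (f := g) hT.supp hLp
    have hTm : MemLp (fun x => ‖TF g L x‖) 2 σ :=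
      MemLp.of_bound hTc.norm.aestronglyMeasurable Bd (Eventually.of_forall fun x => by
        rw [norm_norm]; exact hBd x)
    have hEc : Continuous fun x : ℝ => ‖((1 : ℂ) - cexp ((x : ℝ) * I)) * TF g L x‖ := by
      fun_prop
    have hEm : MemLp (fun x : ℝ => ‖((1 : ℂ) - cexp ((x : ℝ) * I)) * TF g L x‖) 2 σ := by
      refine MemLp.of_bound hEc.aestronglyMeasurable (2 * Bd) (Eventually.of_forall fun x => ?_)
      rw [norm_norm, norm_mul]
      have h1 : ‖(1 : ℂ) - cexp ((x : ℝ) * I)‖ ≤ 2 := by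
        refine (norm_sub_le _ _).trans ?_
        rw [norm_one, Complex.norm_exp_ofReal_mul_I]
        norm_num
      exact mul_le_mul h1 (hBd x) (norm_nonneg _) (by norm_num)
    have hi : ∀ w : ℝ → ℝ, Continuous w → (∀ x, |w x| ≤ 1) →
        Integrable (fun x => w x * ‖TF g L x‖ ^ 2) σ := by
      intro w hw hw1
      refine Integrable.of_bound (by fun_prop) (Bd ^ 2) (Eventually.of_forall fun x => ?_)
      rw [norm_mul, Real.norm_eq_abs, Real.norm_of_nonneg (by positivity)]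
      have h1 : ‖TF g L x‖ ^ 2 ≤ Bd ^ 2 := pow_le_pow_left₀ (norm_nonneg _) (hBd x) 2
      have h2 : 0 ≤ ‖TF g L x‖ ^ 2 := by positivity
      nlinarith [hw1 x, abs_nonneg (w x)]
    have i1 := hi (fun x => Real.cos (s * (L * x))) (by fun_prop) fun x => Real.abs_cos_le_one _
    have i2 := hi (fun x => Real.cos (m * x)) (by fun_prop) fun x => Real.abs_cos_le_one _
    unfold psi
    rw [← integral_sub i1 i2]
    have b1 : |∫ x, (Real.cos (s * (L * x)) * ‖TF g L x‖ ^ 2 - Real.cos (m * x) * ‖TF g L x‖ ^ 2) ∂σ| ≤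
        ∫ x, Real.pi / 2 * (‖((1 : ℂ) - cexp ((x : ℝ) * I)) * TF g L x‖ * ‖TF g L x‖) ∂σ := by
      refine abs_integral_le_integral_abs.trans ?_
      refine integral_mono_ae (i1.sub i2).abs ((hEm.integrable_mul hTm).const_mul _) ?_
      filter_upwards [ae_Icc hσ] with x hx
      show |Real.cos (s * (L * x)) * ‖TF g L x‖ ^ 2 - Real.cos (m * x) * ‖TF g L x‖ ^ 2| ≤
        Real.pi / 2 * (‖((1 : ℂ) - cexp ((x : ℝ) * I)) * TF g L x‖ * ‖TF g L x‖)
      rw [← sub_mul, abs_mul, abs_of_nonneg (by positivity : 0 ≤ ‖TF g L x‖ ^ 2), norm_mul]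
      have h1 : |Real.cos (s * (L * x)) - Real.cos (m * x)| ≤ x := by
        have h2 := Real.abs_cos_sub_cos_le (s * (L * x)) (m * x)
        refine h2.trans ?_
        have e : s * (L * x) - m * x = (s * L - m) * x := by ring
        rw [e, abs_mul, abs_of_nonneg (by linarith : 0 ≤ s * L - m), abs_of_nonneg hx.1]
        have : s * L - m ≤ 1 := by linarith
        nlinarith [hx.1]
      have h3 := jordan hx
      have h4 : 0 ≤ ‖TF g L x‖ ^ 2 := by positivity
      calc |Real.cos (s * (L * x)) - Real.cos (m * x)| * ‖TF g L x‖ ^ 2 ≤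
          (Real.pi / 2 * ‖(1 : ℂ) - cexp ((x : ℝ) * I)‖) * ‖TF g L x‖ ^ 2 :=
            mul_le_mul_of_nonneg_right (h1.trans h3) h4
        _ = _ := by ring
    refine b1.trans ?_
    rw [integral_const_mul]
    have b2 := (le_abs_self _).trans (cs hEm hTm)
    have b3 : ∫ x : ℝ, ‖((1 : ℂ) - cexp ((x : ℝ) * I)) * TF g L x‖ ^ 2 ∂σ ≤ C / L := by
      have h0S : |(0 : ℝ)| ≤ |s| + 1 := by rw [abs_zero]; positivity
      have h1S : |1 / L| ≤ |s| + 1 := by
        rw [abs_of_pos (by positivity)]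
        linarith [abs_nonneg s]
      have hd2 := hdiff P hP L 0 (1 / L) hL1' h0S h1S (by
        rw [zero_sub, abs_neg, abs_of_pos (by positivity)])
      rw [sq_int hst h hσ (R := R + (|s| + 1)) (fun x hx => by
        show tra g 0 x - tra g (1 / L) x = 0
        rw [hsupp 0 h0S x hx, hsupp _ h1S x hx, sub_zero]) hLp] at hd2
      refine le_trans (le_of_eq ?_) hd2
      refine integral_congr_ae (Eventually.of_forall fun x => ?_)
      show ‖((1 : ℂ) - cexp ((x : ℝ) * I)) * TF g L x‖ ^ 2 = ‖TF (fun t => tra g 0 t - tra g (1 / L) t) L x‖ ^ 2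
      have e1 := TF_tra (g := g) (L := L) 1 x
      have e0 : tra g 0 = g := by
        funext t
        unfold tra
        rw [sub_zero]
      rw [Int.cast_one, one_mul] at e1
      rw [TF_sub (f := tra g 0) (g := tra g (1 / L)) (hsupp 0 h0S) (hsupp _ h1S) hLp, e1, e0]
      congr 2
      ring
    have b4 : ∫ x : ℝ, ‖TF g L x‖ ^ 2 ∂σ ≤ M := by
      rw [← sq_int hst h hσ hT.supp hLp]
      exact hV
    have b5 : √(∫ x : ℝ, ‖((1 : ℂ) - cexp ((x : ℝ) * I)) * TF g L x‖ ^ 2 ∂σ) * √(∫ x : ℝ, ‖TF g L x‖ ^ 2 ∂σ) ≤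
        ε / 6 := by
      refine le_trans ?_ hsm
      gcongr
    have b6 : (∫ x : ℝ, ‖((1 : ℂ) - cexp ((x : ℝ) * I)) * TF g L x‖ * ‖TF g L x‖ ∂σ) ≤ ε / 6 := b2.trans b5
    nlinarith
  rw [s2] at s3
  have e : psi σ g L s - cv (tra g s) g =
      (psi σ g L s - ∫ x, Real.cos (m * x) * ‖TF g L x‖ ^ 2 ∂σ) -
      (∫ q, Fn (tra g s) L q * Fn g L q ∂(P : Measure (ℤ → ℝ)) -
        ∫ x, Real.cos (m * x) * ‖TF g L x‖ ^ 2 ∂σ) +
      (∫ q, Fn (tra g s) L q * Fn g L q ∂(P : Measure (ℤ → ℝ)) - cv (tra g s) g) := by ring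
  rw [e]
  have t1 := abs_add_le ((psi σ g L s - ∫ x, Real.cos (m * x) * ‖TF g L x‖ ^ 2 ∂σ) -
      (∫ q, Fn (tra g s) L q * Fn g L q ∂(P : Measure (ℤ → ℝ)) -
        ∫ x, Real.cos (m * x) * ‖TF g L x‖ ^ 2 ∂σ))
      (∫ q, Fn (tra g s) L q * Fn g L q ∂(P : Measure (ℤ → ℝ)) - cv (tra g s) g)
  have t2 := abs_sub (psi σ g L s - ∫ x, Real.cos (m * x) * ‖TF g L x‖ ^ 2 ∂σ)
      (∫ q, Fn (tra g s) L q * Fn g L q ∂(P : Measure (ℤ → ℝ)) -
        ∫ x, Real.cos (m * x) * ‖TF g L x‖ ^ 2 ∂σ)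
  linarith

end Pool.Agent.Q172.PS
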