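import Pool.Agent.Q172.PS.N1

/-!
# All moments of the gaps of the actual zeros, dyadic blocks (helper172)
-/

set_option autoImplicit false

namespace Pool.Agent.Q172.PS

open Finset MeasureTheory Filter Topology
open Pool.Agent.Q278.GF Pool.Agent.Q278.MC Pool.Agent.Q278.KM
open scoped ContDiff

variable {φ φ' : ℝ → ℝ} {B0 B2 R : ℝ}

/-- inside a gap the statistic is the negative of its mean -/
lemma Sh_gap (h : Tst φ φ' B0 B2 R) {L T t : ℝ} {n : ℕ} (hn : 1 ≤ n) (hL : 0 < L) (ha : 1 ≤ sc T / L)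
    (ht : R < t) (h1 : SG.ord n + R * L / sc T ≤ t) (h2 : t + R * L / sc T ≤ SG.ord (n + 1)) :
    Sh φ L T t = -(L * ∫ x, φ x) := by
  have hR1 := h.R1
  have hs : 0 < sc T := by
    by_contra hc
    push Not at hc
    have := div_nonpos_of_nonpos_of_nonneg hc hL.le
    linarith
  have hsL : 0 < sc T / L := by linarith
  have e0 : sc T / L * (R * L / sc T) = R := by field_simp
  unfold Sh
  rw [SZ_ord (B := t + R) h.supp (by linarith) ha ht le_rfl, Finset.sum_eq_zero, zero_sub]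
  intro m hm
  rw [Finset.mem_Ioc] at hm
  refine h.supp _ ?_
  rw [abs_mul, abs_of_pos hsL]
  rcases le_or_gt m n with hmn | hmn
  · have h3 : SG.ord m ≤ SG.ord n := SG.ord_mono (by omega) hmn
    have h4 : R * L / sc T ≤ |SG.ord m - t| := by
      rw [abs_sub_comm]
      exact le_trans (by linarith) (le_abs_self _)
    calc R = sc T / L * (R * L / sc T) := e0.symm
      _ ≤ _ := mul_le_mul_of_nonneg_left h4 hsL.le
  · have h3 : SG.ord (n + 1) ≤ SG.ord m := SG.ord_mono (by omega) hmn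
    have h4 : R * L / sc T ≤ |SG.ord m - t| := le_trans (by linarith) (le_abs_self _)
    calc R = sc T / L * (R * L / sc T) := e0.symm
      _ ≤ _ := mul_le_mul_of_nonneg_left h4 hsL.le

/-- the gaps are at most a constant times the logarithm -/
lemma gap_log : ∃ C T0 : ℝ, 0 < C ∧ 10 ≤ T0 ∧ ∀ T : ℝ, T0 ≤ T → ∀ n : ℕ, 1 ≤ n → T / 2 ≤ SG.ord n →
    SG.ord n ≤ T → SG.ord (n + 1) ≤ SG.ord n + C * Real.log T := by
  obtain ⟨C, hC, h⟩ := Pool.Agent.Q276.LR.win_count
  have hpi := Real.pi_gt_three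
  have hpi4 := Real.pi_lt_four
  obtain ⟨T1, hT1⟩ := (tendsto_atTop.mp Real.tendsto_log_atTop (16 * C + 16)).exists_forall_of_atTop
  have hT2 : ∃ T2 : ℝ, ∀ T, T2 ≤ T → (16 * C + 16) * Real.log T ≤ T / 2 := by
    have h1 : Tendsto (fun T : ℝ => (16 * C + 16) * 2 * (Real.log T ^ 1 / T)) atTop (𝓝 0) :=
      Pool.Agent.Q276.NV.logpow_lim _ _
    obtain ⟨T2, h2⟩ := (h1.eventually_le_const (u := 1) (by norm_num)).exists_forall_of_atTop
    refine ⟨max T2 1, fun T hT => ?_⟩
    have h3 := h2 T ((le_max_left _ _).trans hT)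
    have h4 : 0 < T := lt_of_lt_of_le one_pos ((le_max_right _ _).trans hT)
    rw [pow_one, mul_div_assoc', div_le_iff₀ h4] at h3
    linarith
  obtain ⟨T2, hT2⟩ := hT2
  refine ⟨16 * C + 16, max (2 * T1) (max T2 20), by positivity,
    le_trans (by norm_num) ((le_max_right _ _).trans (le_max_right _ _)), fun T hT n hn hn1 hn2 => ?_⟩
  have k1 : 2 * T1 ≤ T := (le_max_left _ _).trans hT
  have k2 : T2 ≤ T := ((le_max_left _ _).trans (le_max_right _ _)).trans hT
  have k3 : 20 ≤ T := ((le_max_right _ _).trans (le_max_right _ _)).trans hT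
  set l := Real.log (T / 2) with hl
  have hl1 : 16 * C + 16 ≤ l := hT1 (T / 2) (by linarith)
  have hlT : l ≤ Real.log T := Real.log_le_log (by linarith) (by linarith)
  set hh := (16 * C + 16) * Real.log T with hhd
  have h1 := h (T / 2) (by linarith) (SG.ord n) hn1 (by linarith) hh (by nlinarith)
    (hT2 T k2)
  have h2 := (abs_le.1 h1).1
  rw [← hl] at h2
  have hl2 : Real.log T ≤ 2 * l := by
    have : Real.log T = l + Real.log 2 := by
      rw [hl, Real.log_div (by linarith) (by norm_num)]; ring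
    have h3 := Real.log_le_sub_one_of_pos (show (0 : ℝ) < 2 by norm_num)
    linarith
  have hhp : 0 < hh := by rw [hhd]; nlinarith
  have h3 : hh * l / 8 ≤ hh * l / (2 * Real.pi) :=
    div_le_div_of_nonneg_left (by nlinarith) (by positivity) (by linarith)
  have h4 : C * (hh + l ^ 2) < hh * l / 8 := by
    have h5 : C * hh ≤ hh * l / 16 - hh := by nlinarith
    have h6 : C * l ^ 2 ≤ hh * l / 16 := by
      have : 16 * C * l ≤ hh := by
        rw [hhd]
        nlinarith
      nlinarith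
    nlinarith
  have h7 : (SG.NZ (SG.ord n) : ℝ) < SG.NZ (SG.ord n + hh) := by linarith
  have h8 : SG.NZ (SG.ord n) < SG.NZ (SG.ord n + hh) := by exact_mod_cast h7
  have h9 : n ≤ SG.NZ (SG.ord n) := SG.le_NZ_ord hn
  exact (SG.ord_le_iff (by omega) _).mpr (by omega)

/-- a test function with positive mean -/
lemma exists_pos : ∃ (φ φ' : ℝ → ℝ) (B0 B2 R : ℝ), Tst φ φ' B0 B2 R ∧ CC (fc φ) ∧ 0 < ∫ x, φ x := by
  let f : ContDiffBump (0 : ℝ) := ⟨1, 2, one_pos, one_lt_two⟩
  have h1 : ContDiff ℝ ∞ (f : ℝ → ℝ) := f.contDiff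
  have h2 : HasCompactSupport (f : ℝ → ℝ) := f.hasCompactSupport
  obtain ⟨φ', B0, B2, R, h3⟩ := tst_of h1 h2
  exact ⟨f, φ', B0, B2, R, h3, cc_of h1 h2, f.integral_pos⟩

end Pool.Agent.Q172.PS
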