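import Pool.Agent.Q172.PS.N2

/-!
# All moments of the gaps of the actual zeros, dyadic blocks, main step (helper172)
-/

set_option autoImplicit false

namespace Pool.Agent.Q172.PS

open Finset MeasureTheory Filter Topology
open Pool.Agent.Q278.GF Pool.Agent.Q278.MC Pool.Agent.Q278.KM
open scoped ContDiff

variable {φ φ' : ℝ → ℝ} {B0 B2 R : ℝ}

/-- the admissible scales -/
noncomputable def scl (A T : ℝ) : Finset ℕ :=
  (range (⌊Real.log T⌋₊ + 1)).filter fun j => A * (A * 2 ^ j) ≤ Real.log T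

/-- the square function over the scales -/
noncomputable def Wf (φ : ℝ → ℝ) (A T : ℝ) (M : ℕ) (t : ℝ) : ℝ :=
  ∑ j ∈ scl A T, (1 / 2 : ℝ) ^ j * |Sh φ (A * 2 ^ j) T t| ^ (2 * (M + 1))

lemma Wf_nonneg (A T : ℝ) (M : ℕ) (t : ℝ) : 0 ≤ Wf φ A T M t :=
  Finset.sum_nonneg fun _ _ => by positivity

lemma scl_ha {A T : ℝ} (hA : 7 ≤ A) {j : ℕ} (hj : j ∈ scl A T) :
    1 ≤ sc T / (A * 2 ^ j) := by
  unfold scl at hj
  rw [Finset.mem_filter] at hj
  have h2 : (0 : ℝ) < A * 2 ^ j := by positivity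
  have hpi := Real.pi_pos
  have hpi2 := Real.pi_lt_d2
  rw [le_div_iff₀ h2, one_mul]
  unfold sc
  rw [le_div_iff₀ (by positivity)]
  nlinarith [hj.2]

lemma Wf_cont (h : Tst φ φ' B0 B2 R) {A T : ℝ} (hA : 7 ≤ A) (M : ℕ) (hTR : 2 * R < T) :
    ContinuousOn (Wf φ A T M) (Set.Icc (T / 2) T) := by
  unfold Wf
  refine continuousOn_finsetSum _ fun j hj => ?_
  have := Sh_cont (c := 0) h (scl_ha hA hj) hTR
  rw [add_zero] at this
  exact continuousOn_const.mul (this.abs.pow _)

lemma Wf_int (h : Tst φ φ' B0 B2 R) {A T : ℝ} (hA : 7 ≤ A) (M : ℕ) (hTR : 2 * R < T)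
    (hm : ∀ L : ℝ, A ≤ L → A * L ≤ Real.log T → av T (fun t => |Sh φ L T t| ^ (2 * (M + 1))) ≤ A) :
    ∫ t in (T / 2)..T, Wf φ A T M t ≤ T * A := by
  have hR1 := h.R1
  have hT : 0 < T := by linarith
  unfold Wf
  have hi : ∀ j ∈ scl A T, IntervalIntegrable (fun t => (1 / 2 : ℝ) ^ j *
      |Sh φ (A * 2 ^ j) T t| ^ (2 * (M + 1))) volume (T / 2) T := by
    intro j hj
    apply ContinuousOn.intervalIntegrable
    rw [Set.uIcc_of_le (by linarith)]
    have := Sh_cont (c := 0) h (scl_ha hA hj) hTR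
    rw [add_zero] at this
    exact continuousOn_const.mul (this.abs.pow _)
  rw [intervalIntegral.integral_finsetSum hi]
  have h1 : ∀ j ∈ scl A T, ∫ t in (T / 2)..T, (1 / 2 : ℝ) ^ j *
      |Sh φ (A * 2 ^ j) T t| ^ (2 * (M + 1)) ≤ (1 / 2 : ℝ) ^ j * (T / 2 * A) := by
    intro j hj
    have hj2 := (Finset.mem_filter.1 hj).2
    have h2j : (1 : ℝ) ≤ 2 ^ j := one_le_pow₀ (by norm_num)
    have h2 := hm (A * 2 ^ j) (by nlinarith) hj2
    unfold av at h2
    rw [div_mul_eq_mul_div, div_le_iff₀ hT] at h2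
    rw [intervalIntegral.integral_const_mul]
    refine mul_le_mul_of_nonneg_left ?_ (by positivity)
    linarith
  refine (Finset.sum_le_sum h1).trans ?_
  rw [← Finset.sum_mul]
  have h3 : ∑ j ∈ scl A T, (1 / 2 : ℝ) ^ j ≤ 2 := by
    refine le_trans (Finset.sum_le_sum_of_subset_of_nonneg (Finset.filter_subset _ _)
      fun _ _ _ => by positivity) ?_
    exact sum_geometric_two_le _
  have h4 : 0 < T / 2 * A := by positivity
  nlinarith

/-- one gap is dominated by the square function -/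
lemma gap_le_int (h : Tst φ φ' B0 B2 R) {A T I : ℝ} (hA : 7 ≤ A) (M : ℕ) (hI : 0 < I)
    (hIe : ∫ x, φ x = I) (hTR : 2 * R < T) {C : ℝ} (hC : 0 < C) {n : ℕ} (hn : 1 ≤ n)
    (h1 : T / 2 ≤ SG.ord n) (h2 : SG.ord (n + 1) ≤ T) (hlA : A * A ≤ Real.log T)
    (hC2 : (SG.ord (n + 1) - SG.ord n) * sc T ≤ C * Real.log T ^ 2)
    (hu : 4 * R * A ≤ (SG.ord (n + 1) - SG.ord n) * sc T) :
    ((SG.ord (n + 1) - SG.ord n) * sc T) ^ (M + 1) * (A * I ^ (2 * M + 2) *
      (min (A / (4 * R)) (1 / (C * A ^ 2)) / 4) ^ M / 2) ≤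
      sc T * ∫ t in (SG.ord n)..(SG.ord (n + 1)), Wf φ A T M t := by
  have hR1 := h.R1
  have hAp : 0 < A := by linarith
  have hlp : 0 < Real.log T := lt_of_lt_of_le (by positivity) hlA
  have hpi := Real.pi_pos
  have hs : 0 < sc T := by unfold sc; positivity
  set g := SG.ord (n + 1) - SG.ord n with hg
  set u := g * sc T with hudef
  have hup : 0 < u := lt_of_lt_of_le (by positivity) hu
  have hgp : 0 < g := by
    by_contra hc
    push Not at hc
    have : u ≤ 0 := mul_nonpos_of_nonpos_of_nonneg hc hs.le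
    linarith
  set v := min (u / (4 * R)) (Real.log T / A) with hv
  have hvA : A ≤ v := by
    refine le_min ?_ ?_
    · rw [le_div_iff₀ (by positivity)]; linarith
    · rw [le_div_iff₀ hAp]; exact hlA
  set κ := min (A / (4 * R)) (1 / (C * A ^ 2)) with hκ
  have hκ0 : 0 < κ := lt_min (by positivity) (by positivity)
  have hvk : κ * u ≤ v ^ 2 := by
    rcases min_choice (u / (4 * R)) (Real.log T / A) with hc | hc
    · rw [hv, hc]
      calc κ * u ≤ A / (4 * R) * u := mul_le_mul_of_nonneg_right (min_le_left _ _) hup.le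
        _ = (4 * R * A) * u / (4 * R) ^ 2 := by field_simp
        _ ≤ u * u / (4 * R) ^ 2 := by gcongr
        _ = (u / (4 * R)) ^ 2 := by ring
    · rw [hv, hc]
      calc κ * u ≤ 1 / (C * A ^ 2) * u := mul_le_mul_of_nonneg_right (min_le_right _ _) hup.le
        _ ≤ 1 / (C * A ^ 2) * (C * Real.log T ^ 2) := mul_le_mul_of_nonneg_left hC2 (by positivity)
        _ = (Real.log T / A) ^ 2 := by field_simp
  obtain ⟨j, hj1, hj2⟩ := exists_nat_pow_near (x := v / A) (y := 2) (by rwa [one_le_div hAp])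
    (by norm_num)
  rw [le_div_iff₀ hAp] at hj1
  rw [div_lt_iff₀ hAp] at hj2
  set x := A * 2 ^ j with hx
  have hx1 : x ≤ v := by rw [hx]; linarith
  have hx2 : v / 2 ≤ x := by
    rw [pow_succ] at hj2
    rw [hx]; linarith
  have h2j : (1 : ℝ) ≤ 2 ^ j := one_le_pow₀ (by norm_num)
  have hxA : A ≤ x := by rw [hx]; nlinarith
  have hxp : 0 < x := by linarith
  have hjm : j ∈ scl A T := by
    unfold scl
    have h3 : A * x ≤ Real.log T := by
      have := hx1.trans (min_le_right _ _)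
      rw [le_div_iff₀ hAp] at this
      linarith
    rw [Finset.mem_filter, Finset.mem_range]
    refine ⟨?_, h3⟩
    have h4 : (j : ℝ) ≤ Real.log T := by
      have h5 : (j : ℝ) ≤ 2 ^ j := by exact_mod_cast (Nat.lt_two_pow_self).le
      have h6 : (2 : ℝ) ^ j ≤ A * x := by
        rw [hx]
        have : (2 : ℝ) ^ j = 1 * (1 * 2 ^ j) := by ring
        rw [this]
        gcongr <;> linarith
      linarith
    exact Nat.lt_succ_of_le (Nat.le_floor h4)
  have ha := scl_ha hA hjm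
  -- the middle half
  have hRx : R * x / sc T ≤ g / 4 := by
    rw [div_le_iff₀ hs]
    have h3 := hx1.trans (min_le_left _ _)
    rw [le_div_iff₀ (by positivity)] at h3
    have : u = g * sc T := rfl
    linarith
  have hpt : ∀ t ∈ Set.Icc (SG.ord n + g / 4) (SG.ord (n + 1) - g / 4),
      A * I ^ (2 * M + 2) * (κ / 4 * u) ^ M ≤ Wf φ A T M t := by
    intro t ht
    have h3 := Sh_gap h (t := t) hn hxp ha (by linarith [ht.1]) (by linarith [ht.1])
      (by linarith [ht.2])
    have h4 : (1 / 2 : ℝ) ^ j * |Sh φ x T t| ^ (2 * (M + 1)) ≤ Wf φ A T M t :=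
      Finset.single_le_sum (f := fun j : ℕ => (1 / 2 : ℝ) ^ j * |Sh φ (A * 2 ^ j) T t| ^ (2 * (M + 1)))
        (fun i _ => by positivity) hjm
    refine le_trans ?_ h4
    rw [h3, hIe, abs_neg, abs_of_pos (by positivity)]
    have e1 : (1 / 2 : ℝ) ^ j = A / x := by
      rw [hx]
      field_simp
      rw [one_div, inv_pow, inv_mul_cancel₀ (by positivity)]
    have h5 : κ / 4 * u ≤ x ^ 2 := by
      have : (v / 2) ^ 2 ≤ x ^ 2 := pow_le_pow_left₀ (by linarith) hx2 2
      nlinarith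
    have h6 : (κ / 4 * u) ^ M ≤ (x ^ 2) ^ M := pow_le_pow_left₀ (by positivity) h5 M
    have h7 : (x ^ 2) ^ M ≤ (x ^ 2) ^ M * x := le_mul_of_one_le_right (by positivity) (by linarith)
    rw [e1]
    calc A * I ^ (2 * M + 2) * (κ / 4 * u) ^ M ≤ A * I ^ (2 * M + 2) * ((x ^ 2) ^ M * x) :=
          mul_le_mul_of_nonneg_left (h6.trans h7) (by positivity)
      _ = A / x * (x * I) ^ (2 * (M + 1)) := by
          rw [mul_pow x I, show 2 * (M + 1) = 2 * M + 2 by ring, pow_add x, pow_mul x]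
          field_simp
  have hc := Wf_cont (φ := φ) h hA M hTR
  have hii : ∀ a b, T / 2 ≤ a → a ≤ b → b ≤ T → IntervalIntegrable (Wf φ A T M) volume a b := by
    intro a b ha' hab hb
    apply ContinuousOn.intervalIntegrable
    rw [Set.uIcc_of_le hab]
    exact hc.mono (Set.Icc_subset_Icc ha' hb)
  have h8 : (g / 2) * (A * I ^ (2 * M + 2) * (κ / 4 * u) ^ M) ≤
      ∫ t in (SG.ord n + g / 4)..(SG.ord (n + 1) - g / 4), Wf φ A T M t := by
    have h9 := intervalIntegral.integral_mono_on (μ := volume) (a := SG.ord n + g / 4)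
      (b := SG.ord (n + 1) - g / 4) (f := fun _ => A * I ^ (2 * M + 2) * (κ / 4 * u) ^ M)
      (g := Wf φ A T M) (by linarith) intervalIntegrable_const
      (hii _ _ (by linarith) (by linarith) (by linarith)) hpt
    rw [intervalIntegral.integral_const, smul_eq_mul] at h9
    refine le_trans (le_of_eq ?_) h9
    rw [hg]; ring
  have h10 : ∫ t in (SG.ord n + g / 4)..(SG.ord (n + 1) - g / 4), Wf φ A T M t ≤
      ∫ t in (SG.ord n)..(SG.ord (n + 1)), Wf φ A T M t :=
    intervalIntegral.integral_mono_interval (by linarith) (by linarith) (by linarith)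
      (Eventually.of_forall fun t => Wf_nonneg A T M t)
      (hii _ _ h1 (by linarith) h2)
  calc u ^ (M + 1) * (A * I ^ (2 * M + 2) * (κ / 4) ^ M / 2) =
      sc T * ((g / 2) * (A * I ^ (2 * M + 2) * (κ / 4 * u) ^ M)) := by
        rw [mul_pow (κ / 4) u, pow_succ u, hudef]; ring
    _ ≤ _ := mul_le_mul_of_nonneg_left (h8.trans h10) hs.le

end Pool.Agent.Q172.PS
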