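import Pool.Agent.Q172.PS.N3

/-!
# All moments of the gaps of the actual zeros (helper172)
-/

set_option autoImplicit false

namespace Pool.Agent.Q172.PS

open Finset MeasureTheory Filter Topology
open Pool.Agent.Q278.GF Pool.Agent.Q278.MC Pool.Agent.Q278.KM
open scoped ContDiff

/-- one dyadic block -/
theorem blk_mom (M : ℕ) : ∃ C : ℝ, 0 < C ∧ ∀ᶠ T : ℝ in atTop,
    ∑ n ∈ Ioc (SG.NZ (T / 2)) (SG.NZ T), ((SG.ord (n + 1) - SG.ord n) * sc T) ^ (M + 1) ≤
      C * (T * sc T) := by
  obtain ⟨φ, φ', B0, B2, R, h, hf, hI⟩ := exists_pos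
  obtain ⟨A0, hA0, hmom⟩ := sh_mom_u h hf M
  obtain ⟨C1, T1, hC1, hT1, hgap⟩ := gap_log
  set A := max A0 7 with hA
  have hA7 : 7 ≤ A := le_max_right _ _
  have hAp : 0 < A := by linarith
  have hR1 := h.R1
  have hR0 : 0 < R := by linarith
  set I := ∫ x, φ x with hIe
  set K := A * I ^ (2 * M + 2) * (min (A / (4 * R)) (1 / (C1 * A ^ 2)) / 4) ^ M / 2 with hK
  have hκ : 0 < min (A / (4 * R)) (1 / (C1 * A ^ 2)) := lt_min (by positivity) (by positivity)
  have hK0 : 0 < K := by positivity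
  refine ⟨2 * (4 * R * A) ^ (M + 1) + A / K + 1, by positivity, ?_⟩
  have hlim : Tendsto (fun T : ℝ => C1 ^ (M + 1) * (Real.log T ^ (2 * (M + 1)) / T)) atTop (𝓝 0) :=
    Pool.Agent.Q276.NV.logpow_lim _ _
  filter_upwards [eventually_ge_atTop T1, eventually_gt_atTop (2 * R), eventually_ge_atTop 20,
    Real.tendsto_log_atTop.eventually_ge_atTop (A * A), sc_top.eventually_ge_atTop 1,
    hlim.eventually_le_const (u := 1) (by norm_num),
    Pool.Agent.Q276.NV.NZ_lim.eventually_le_const (u := 2) (by norm_num)]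
    with T g1 g2 g3 g4 g5 g6 g7
  have hT : 0 < T := by linarith
  have hs : 0 < sc T := by linarith
  have hlp : 0 < Real.log T := lt_of_lt_of_le (by positivity) g4
  have hpi := Real.pi_gt_three
  rw [Xf_eq, div_le_iff₀ (by positivity)] at g7
  rw [mul_div_assoc', div_le_iff₀ hT, one_mul] at g6
  have hscl : sc T ≤ Real.log T := by
    unfold sc
    exact div_le_self hlp.le (by linarith)
  have hmono : SG.NZ (T / 2) ≤ SG.NZ T := SG.NZ_mono (by linarith)
  set a := SG.NZ (T / 2) with ha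
  have hord : ∀ n, a < n → T / 2 ≤ SG.ord n := by
    intro n hn
    by_contra hc
    push Not at hc
    have := (SG.ord_le_iff (by omega) _).1 hc.le
    omega
  have hord2 : ∀ n, 1 ≤ n → n ≤ SG.NZ T → SG.ord n ≤ T := fun n h1 h2 => (SG.ord_le_iff h1 _).2 h2
  have hgu : ∀ n, a < n → n ≤ SG.NZ T → (SG.ord (n + 1) - SG.ord n) * sc T ≤ C1 * Real.log T ^ 2 := by
    intro n h1 h2
    have h3 := hgap T g1 n (by omega) (hord n h1) (hord2 n (by omega) h2)
    have h4 := SG.ord_mono (n := n) (m := n + 1) (by omega) (by omega)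
    calc (SG.ord (n + 1) - SG.ord n) * sc T ≤ (C1 * Real.log T) * Real.log T :=
          mul_le_mul (by linarith) hscl hs.le (by positivity)
      _ = _ := by ring
  have hg0 : ∀ n, 1 ≤ n → 0 ≤ (SG.ord (n + 1) - SG.ord n) * sc T := fun n hn =>
    mul_nonneg (by linarith [SG.ord_mono (n := n) (m := n + 1) hn (by omega)]) hs.le
  rcases Nat.lt_or_ge a (SG.NZ T) with hab | hab
  swap
  · rw [Finset.Ioc_eq_empty_of_le hab, Finset.sum_empty]
    positivity
  obtain ⟨b, hb⟩ : ∃ b, SG.NZ T = b + 1 := ⟨SG.NZ T - 1, by omega⟩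
  rw [hb, Finset.sum_Ioc_succ_top (by omega)]
  have hlast : ((SG.ord (b + 1 + 1) - SG.ord (b + 1)) * sc T) ^ (M + 1) ≤ T := by
    refine le_trans (pow_le_pow_left₀ (hg0 _ (by omega)) (hgu (b + 1) (by omega) (by omega)) _) ?_
    rw [mul_pow, ← pow_mul]
    exact g6
  have hin : ∀ n ∈ Ioc a b, ((SG.ord (n + 1) - SG.ord n) * sc T) ^ (M + 1) ≤
      (4 * R * A) ^ (M + 1) + (sc T / K) * ∫ t in (SG.ord n)..(SG.ord (n + 1)), Wf φ A T M t := by
    intro n hn
    rw [Finset.mem_Ioc] at hn
    have hn1 : 1 ≤ n := by omega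
    have k1 : 0 ≤ ∫ t in (SG.ord n)..(SG.ord (n + 1)), Wf φ A T M t :=
      intervalIntegral.integral_nonneg (SG.ord_mono (n := n) (m := n + 1) hn1 (by omega))
        fun t _ => Wf_nonneg A T M t
    rcases le_or_gt (4 * R * A) ((SG.ord (n + 1) - SG.ord n) * sc T) with hu | hu
    · have k2 := gap_le_int h hA7 M hI hIe.symm g2 hC1 hn1 (hord n hn.1)
        (hord2 (n + 1) (by omega) (by omega)) g4 (hgu n hn.1 (by omega)) hu
      rw [← hK] at k2
      have k3 : ((SG.ord (n + 1) - SG.ord n) * sc T) ^ (M + 1) ≤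
          (sc T / K) * ∫ t in (SG.ord n)..(SG.ord (n + 1)), Wf φ A T M t := by
        rw [div_mul_eq_mul_div, le_div_iff₀ hK0]
        exact k2
      have : 0 ≤ (4 * R * A) ^ (M + 1) := by positivity
      linarith
    · have k2 := pow_le_pow_left₀ (hg0 n hn1) hu.le (M + 1)
      have : 0 ≤ (sc T / K) * ∫ t in (SG.ord n)..(SG.ord (n + 1)), Wf φ A T M t := by positivity
      linarith
  have hcont := Wf_cont (φ := φ) h hA7 M g2
  have hii : ∀ x y, T / 2 ≤ x → x ≤ y → y ≤ T → IntervalIntegrable (Wf φ A T M) volume x y := by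
    intro x y hx hxy hy
    apply ContinuousOn.intervalIntegrable
    rw [Set.uIcc_of_le hxy]
    exact hcont.mono (Set.Icc_subset_Icc hx hy)
  have htel : ∑ n ∈ Ioc a b, ∫ t in (SG.ord n)..(SG.ord (n + 1)), Wf φ A T M t ≤ T * A := by
    have e1 : Ioc a b = Ico (a + 1) (b + 1) := by
      ext n; rw [Finset.mem_Ioc, Finset.mem_Ico]; omega
    rw [e1, intervalIntegral.sum_integral_adjacent_intervals_Ico (by omega)]
    · refine le_trans ?_ (Wf_int (φ := φ) h hA7 M g2 fun L k1 k2 =>
        (hmom L T ((le_max_left _ _).trans k1) hT (le_trans (mul_le_mul_of_nonneg_right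
          (le_max_left _ _) (by linarith)) k2)).trans (le_max_left _ _))
      exact intervalIntegral.integral_mono_interval (hord (a + 1) (by omega))
        (SG.ord_mono (by omega) (by omega)) (hord2 (b + 1) (by omega) (by omega))
        (Eventually.of_forall fun t => Wf_nonneg A T M t) (hii _ _ le_rfl (by linarith) le_rfl)
    · intro k hk
      rw [Set.mem_Ico] at hk
      exact hii _ _ (hord k (by omega)) (SG.ord_mono (by omega) (by omega))
        (hord2 (k + 1) (by omega) (by omega))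
  have hsum := Finset.sum_le_sum hin
  rw [Finset.sum_add_distrib, Finset.sum_const, Nat.card_Ioc, nsmul_eq_mul, ← Finset.mul_sum] at hsum
  have hcard : ((b - a : ℕ) : ℝ) ≤ 2 * (T * sc T) := by
    refine le_trans ?_ g7
    exact_mod_cast (by omega : b - a ≤ SG.NZ T)
  have k4 : 0 ≤ (4 * R * A) ^ (M + 1) := by positivity
  have k5 : T ≤ T * sc T := le_mul_of_one_le_right hT.le g5
  have k6 : (sc T / K) * ∑ n ∈ Ioc a b, ∫ t in (SG.ord n)..(SG.ord (n + 1)), Wf φ A T M t ≤
      A / K * (T * sc T) := by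
    calc _ ≤ (sc T / K) * (T * A) := mul_le_mul_of_nonneg_left htel (by positivity)
      _ = _ := by ring
  have k7 : ((b - a : ℕ) : ℝ) * (4 * R * A) ^ (M + 1) ≤ 2 * (T * sc T) * (4 * R * A) ^ (M + 1) :=
    mul_le_mul_of_nonneg_right hcard k4
  calc _ ≤ 2 * (T * sc T) * (4 * R * A) ^ (M + 1) + A / K * (T * sc T) + T * sc T := by linarith
    _ = _ := by ring

lemma NZ_low8 : ∀ᶠ N : ℕ in atTop, SG.ord N * sc (SG.ord N) ≤ 8 * N := by
  have h1 := (Pool.Agent.Q276.NV.NZ_lim.comp half_lim).eventually_const_le (u := 3 / 4) (by norm_num)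
  have h2 := log_half.eventually_const_le (u := 3 / 4) (by norm_num)
  filter_upwards [SG.ord_tendsto.eventually h1, SG.ord_tendsto.eventually h2,
    SG.ord_tendsto.eventually_ge_atTop 20, eventually_ge_atTop 1] with N k1 k2 k3 k4
  simp only [Function.comp_apply] at k1
  set T := SG.ord N with hT
  have hlp : 0 < Real.log T := Real.log_pos (by linarith)
  have hlp2 : 0 < Real.log (T / 2) := Real.log_pos (by linarith)
  have hpi := Real.pi_pos
  have hs : 0 < sc (T / 2) := by unfold sc; positivity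
  rw [Xf_eq, le_div_iff₀ (by positivity)] at k1
  rw [le_div_iff₀ hlp] at k2
  have k5 : SG.NZ (T / 2) < N := by
    by_contra hc
    push Not at hc
    have := (SG.ord_le_iff k4 _).2 hc
    linarith
  have k6 : (SG.NZ (T / 2) : ℝ) ≤ N := by exact_mod_cast k5.le
  have k7 : 3 / 4 * sc T ≤ sc (T / 2) := by
    unfold sc
    rw [mul_div_assoc']
    exact div_le_div_of_nonneg_right k2 (by positivity)
  have k8 : 3 / 4 * (T / 2 * (3 / 4 * sc T)) ≤ N :=
    le_trans (mul_le_mul_of_nonneg_left (mul_le_mul_of_nonneg_left k7 (by linarith)) (by norm_num))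
      (k1.trans k6)
  linarith

lemma dl_le {T : ℝ} (hT : 20 ≤ T) {n : ℕ} (hn : n ∈ Ioc (SG.NZ (T / 2)) (SG.NZ T)) :
    |dl n| ≤ (SG.ord (n + 1) - SG.ord n) * sc T := by
  rw [Finset.mem_Ioc] at hn
  have h1 : T / 2 ≤ SG.ord n := by
    by_contra hc
    push Not at hc
    have := (SG.ord_le_iff (by omega) _).1 hc.le
    omega
  have h2 : SG.ord n ≤ T := (SG.ord_le_iff (by omega) _).2 hn.2
  have h3 := SG.ord_mono (n := n) (m := n + 1) (by omega) (by omega)
  have hpi := Real.pi_gt_three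
  have hpi2 := Real.pi_lt_d2
  have h4 : 0 ≤ Real.log (SG.ord n / (2 * Real.pi)) := by
    apply Real.log_nonneg
    rw [le_div_iff₀ (by positivity)]
    linarith
  have h5 : Real.log (SG.ord n / (2 * Real.pi)) ≤ Real.log T := by
    have h0 : 0 < SG.ord n := by linarith
    apply Real.log_le_log (by positivity)
    rw [div_le_iff₀ (by positivity)]
    nlinarith
  unfold dl
  rw [abs_of_nonneg (mul_nonneg (div_nonneg (by linarith) (by positivity)) h4)]
  unfold sc
  rw [div_mul_eq_mul_div, mul_div_assoc']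
  exact div_le_div_of_nonneg_right (mul_le_mul_of_nonneg_left h5 (by linarith)) (by positivity)

/-- **all moments of the gaps** -/
theorem dl_mom (M : ℕ) : ∃ C : ℝ, 0 < C ∧ ∀ N : ℕ, ∑ n ∈ Icc 1 N, |dl n| ^ (M + 1) ≤ C * N := by
  obtain ⟨C, hC, hblk⟩ := blk_mom M
  obtain ⟨T1, hT1⟩ := eventually_atTop.1 hblk
  set T0 := max T1 20 with hT0
  have hT020 : 20 ≤ T0 := le_max_right _ _
  set S : ℝ → ℝ := fun T => ∑ n ∈ Ioc 0 (SG.NZ T), |dl n| ^ (M + 1) with hS
  have hSm : ∀ x y : ℝ, x ≤ y → S x ≤ S y := by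
    intro x y hxy
    refine Finset.sum_le_sum_of_subset_of_nonneg ?_ fun _ _ _ => by positivity
    intro n hn
    have := SG.NZ_mono hxy
    rw [Finset.mem_Ioc] at hn ⊢
    omega
  have hsc : ∀ x : ℝ, 20 ≤ x → 0 < sc x := by
    intro x hx
    have := Real.log_pos (by linarith : 1 < x)
    have := Real.pi_pos
    unfold sc
    positivity
  have key : ∀ k : ℕ, ∀ T : ℝ, T0 ≤ T → T < 2 ^ k * T0 → S T ≤ S T0 + 2 * C * (T * sc T) := by
    intro k
    induction k with
    | zero =>
      intro T h1 h2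
      rw [pow_zero, one_mul] at h2
      linarith
    | succ k ih =>
      intro T h1 h2
      have hT20 : 20 ≤ T := hT020.trans h1
      have hsp := hsc T hT20
      have hCT : 0 ≤ C * (T * sc T) := by positivity
      have e1 : S T = S (T / 2) + ∑ n ∈ Ioc (SG.NZ (T / 2)) (SG.NZ T), |dl n| ^ (M + 1) := by
        have hm : SG.NZ (T / 2) ≤ SG.NZ T := SG.NZ_mono (by linarith)
        rw [hS]
        simp only
        rw [← Finset.sum_union]
        · congr 1
          ext x
          simp only [Finset.mem_union, Finset.mem_Ioc]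
          omega
        · rw [Finset.disjoint_left]
          intro x hx hx2
          rw [Finset.mem_Ioc] at hx hx2
          omega
      have h3 : ∑ n ∈ Ioc (SG.NZ (T / 2)) (SG.NZ T), |dl n| ^ (M + 1) ≤ C * (T * sc T) := by
        refine le_trans (Finset.sum_le_sum fun n hn => ?_) (hT1 T ((le_max_left _ _).trans h1))
        exact pow_le_pow_left₀ (abs_nonneg _) (dl_le hT20 hn) _
      rcases lt_or_ge (T / 2) T0 with h4 | h4
      · have := hSm (T / 2) T0 h4.le
        linarith
      · have h5 := ih (T / 2) h4 (by rw [pow_succ] at h2; linarith)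
        have h6 : sc (T / 2) ≤ sc T := by
          unfold sc
          exact div_le_div_of_nonneg_right (Real.log_le_log (by linarith) (by linarith))
            (by positivity)
        have h7 : T / 2 * sc (T / 2) ≤ T / 2 * sc T := mul_le_mul_of_nonneg_left h6 (by linarith)
        nlinarith
  have hall : ∀ T : ℝ, T0 ≤ T → S T ≤ S T0 + 2 * C * (T * sc T) := by
    intro T hT
    obtain ⟨k, hk⟩ := pow_unbounded_of_one_lt (T / T0) (by norm_num : (1 : ℝ) < 2)
    exact key k T hT (by rwa [div_lt_iff₀ (by linarith)] at hk)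
  obtain ⟨N0, hN0⟩ := eventually_atTop.1 (NZ_low8.and (SG.ord_tendsto.eventually_ge_atTop T0))
  have hS0 : ∀ T, 0 ≤ S T := fun T => Finset.sum_nonneg fun _ _ => by positivity
  set K := ∑ n ∈ Icc 1 N0, |dl n| ^ (M + 1) with hK
  have hK0 : 0 ≤ K := Finset.sum_nonneg fun _ _ => by positivity
  refine ⟨16 * C + S T0 + K + 1, by have := hS0 T0; positivity, fun N => ?_⟩
  rcases Nat.eq_zero_or_pos N with h0 | h0
  · subst h0
    simp
  have hN1 : (1 : ℝ) ≤ N := by exact_mod_cast h0
  rcases le_or_gt N N0 with h1 | h1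
  · have h2 : ∑ n ∈ Icc 1 N, |dl n| ^ (M + 1) ≤ K :=
      Finset.sum_le_sum_of_subset_of_nonneg (Finset.Icc_subset_Icc le_rfl h1) fun _ _ _ => by positivity
    have := hS0 T0
    nlinarith
  · obtain ⟨h2, h3⟩ := hN0 N h1.le
    have h4 : ∑ n ∈ Icc 1 N, |dl n| ^ (M + 1) ≤ S (SG.ord N) := by
      refine Finset.sum_le_sum_of_subset_of_nonneg ?_ fun _ _ _ => by positivity
      intro n hn
      have := SG.le_NZ_ord h0
      rw [Finset.mem_Icc] at hn
      rw [Finset.mem_Ioc]
      omega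
    have h5 := hall (SG.ord N) h3
    have h6 : 2 * C * (SG.ord N * sc (SG.ord N)) ≤ 2 * C * (8 * N) :=
      mul_le_mul_of_nonneg_left h2 (by positivity)
    have h7 := hS0 T0
    nlinarith

end Pool.Agent.Q172.PS
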