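import Pool.Agent.Q172.PS.N4

/-!
# Functions of polynomial growth of finitely many gaps: from the limit processes to the actual
gaps (helper172)
-/

set_option autoImplicit false

namespace Pool.Agent.Q172.PS

open Finset MeasureTheory Filter Topology
open Pool.Agent.Q278.GF Pool.Agent.Q278.MC Pool.Agent.Q278.KM
open _root_.Q172.ZetaLim (IsLim seen isLim_iff law tendsto_law_iff)

/-- continuous functions of polynomial growth of finitely many coordinates -/
structure PG (F : (ℤ → ℝ) → ℝ) : Prop where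
  cont : Continuous F
  bd : ∃ (S : Finset ℤ) (A : ℝ) (K : ℕ), 0 ≤ A ∧ ∀ q, |F q| ≤ A * (1 + ∑ i ∈ S, |q i|) ^ K

namespace PG

variable {F G : (ℤ → ℝ) → ℝ}

lemma base_one (S : Finset ℤ) (q : ℤ → ℝ) : 1 ≤ 1 + ∑ i ∈ S, |q i| := by
  have : 0 ≤ ∑ i ∈ S, |q i| := Finset.sum_nonneg fun i _ => abs_nonneg _
  linarith

lemma base_mono {S S' : Finset ℤ} (h : S ⊆ S') (q : ℤ → ℝ) :
    1 + ∑ i ∈ S, |q i| ≤ 1 + ∑ i ∈ S', |q i| := by
  have := Finset.sum_le_sum_of_subset_of_nonneg h fun i _ _ => abs_nonneg (q i)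
  linarith

lemma const (c : ℝ) : PG fun _ => c :=
  ⟨continuous_const, ∅, |c|, 0, abs_nonneg _, fun q => by simp⟩

lemma coord (k : ℤ) : PG fun q => q k :=
  ⟨continuous_apply k, {k}, 1, 1, zero_le_one, fun q => by simp⟩

lemma up (S S' : Finset ℤ) (h : S ⊆ S') {K K' : ℕ} (hK : K ≤ K') (q : ℤ → ℝ) :
    (1 + ∑ i ∈ S, |q i|) ^ K ≤ (1 + ∑ i ∈ S', |q i|) ^ K' :=
  (pow_le_pow_left₀ (by linarith [base_one S q]) (base_mono h q) K).trans
    (pow_le_pow_right₀ (base_one S' q) hK)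

lemma add (hF : PG F) (hG : PG G) : PG fun q => F q + G q := by
  classical
  obtain ⟨c1, S1, A1, K1, p1, b1⟩ := hF
  obtain ⟨c2, S2, A2, K2, p2, b2⟩ := hG
  refine ⟨c1.add c2, S1 ∪ S2, A1 + A2, max K1 K2, by positivity, fun q => ?_⟩
  have h1 := up S1 (S1 ∪ S2) Finset.subset_union_left (le_max_left K1 K2) q
  have h2 := up S2 (S1 ∪ S2) Finset.subset_union_right (le_max_right K1 K2) q
  have h3 := mul_le_mul_of_nonneg_left h1 p1
  have h4 := mul_le_mul_of_nonneg_left h2 p2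
  refine (abs_add_le _ _).trans ?_
  have := b1 q
  have := b2 q
  rw [add_mul]
  linarith

lemma mul (hF : PG F) (hG : PG G) : PG fun q => F q * G q := by
  classical
  obtain ⟨c1, S1, A1, K1, p1, b1⟩ := hF
  obtain ⟨c2, S2, A2, K2, p2, b2⟩ := hG
  refine ⟨c1.mul c2, S1 ∪ S2, A1 * A2, K1 + K2, by positivity, fun q => ?_⟩
  have h1 := up S1 (S1 ∪ S2) Finset.subset_union_left (le_refl K1) q
  have h2 := up S2 (S1 ∪ S2) Finset.subset_union_right (le_refl K2) q
  have h3 := (b1 q).trans (mul_le_mul_of_nonneg_left h1 p1)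
  have h4 := (b2 q).trans (mul_le_mul_of_nonneg_left h2 p2)
  rw [abs_mul]
  refine (mul_le_mul h3 h4 (abs_nonneg _) ((abs_nonneg _).trans h3)).trans (le_of_eq ?_)
  rw [pow_add]; ring

lemma sum {ι : Type*} (s : Finset ι) {F : ι → (ℤ → ℝ) → ℝ} (h : ∀ i ∈ s, PG (F i)) :
    PG fun q => ∑ i ∈ s, F i q := by
  classical
  induction s using Finset.induction_on with
  | empty => simpa using const 0
  | insert a s ha ih =>
    have h1 := (h a (Finset.mem_insert_self _ _)).add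
      (ih fun i hi => h i (Finset.mem_insert_of_mem hi))
    simpa only [Finset.sum_insert ha] using h1

lemma pow (hF : PG F) (n : ℕ) : PG fun q => F q ^ n := by
  induction n with
  | zero => simpa using const 1
  | succ n ih =>
    have := ih.mul hF
    simpa only [pow_succ] using this

lemma of_le (hF : Continuous F) (hG : PG G) (h : ∀ q, |F q| ≤ |G q|) : PG F := by
  obtain ⟨c, S, A, K, p, b⟩ := hG
  exact ⟨hF, S, A, K, p, fun q => (h q).trans (b q)⟩

lemma abs (hF : PG F) : PG fun q => |F q| := of_le hF.cont.abs hF fun q => by rw [abs_abs]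

lemma neg (hF : PG F) : PG fun q => -F q := of_le hF.cont.neg hF fun q => by rw [abs_neg]

lemma sub (hF : PG F) (hG : PG G) : PG fun q => F q - G q := by
  have := hF.add hG.neg
  simpa only [sub_eq_add_neg] using this

end PG

lemma seen_sum (M : ℕ) : ∃ C : ℝ, 0 < C ∧ ∀ (k : ℤ) (N : ℕ),
    ∑ n ∈ Icc 1 N, |seen dl n k| ^ (M + 1) ≤ C * (N + k.natAbs : ℕ) := by
  classical
  obtain ⟨C, hC, h⟩ := dl_mom M
  refine ⟨C, hC, fun k N => ?_⟩
  refine le_trans ?_ (h (N + k.natAbs))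
  have e1 : ∑ n ∈ Icc 1 N, |seen dl n k| ^ (M + 1) =
      ∑ n ∈ (Icc 1 N).filter (fun n : ℕ => 1 ≤ (n : ℤ) + k), |dl ((n : ℤ) + k).toNat| ^ (M + 1) := by
    rw [Finset.sum_filter]
    refine Finset.sum_congr rfl fun n _ => ?_
    unfold seen
    split_ifs with hc
    · rfl
    · rw [abs_zero, zero_pow (by omega)]
  have e2 : ∑ n ∈ (Icc 1 N).filter (fun n : ℕ => 1 ≤ (n : ℤ) + k), |dl ((n : ℤ) + k).toNat| ^ (M + 1) =
      ∑ m ∈ ((Icc 1 N).filter (fun n : ℕ => 1 ≤ (n : ℤ) + k)).image (fun n : ℕ => ((n : ℤ) + k).toNat),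
        |dl m| ^ (M + 1) := by
    rw [Finset.sum_image]
    intro a ha b hb hab
    simp only [Finset.coe_filter, Finset.mem_Icc, Set.mem_ofPred_eq] at ha hb hab
    omega
  rw [e1, e2]
  refine Finset.sum_le_sum_of_subset_of_nonneg ?_ fun _ _ _ => by positivity
  intro m hm
  rw [Finset.mem_image] at hm
  obtain ⟨n, hn, rfl⟩ := hm
  rw [Finset.mem_filter, Finset.mem_Icc] at hn
  rw [Finset.mem_Icc]
  omega

/-- **the means of functions of polynomial growth are bounded** -/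
theorem PG.bounded {F : (ℤ → ℝ) → ℝ} (hF : PG F) : ∃ C : ℝ, 0 < C ∧ ∀ N : ℕ,
    ∑ n ∈ Icc 1 N, |F (seen dl n)| ≤ C * N := by
  obtain ⟨c, S, A, K, p, b⟩ := hF
  obtain ⟨C, hC, h⟩ := seen_sum K
  set D := A * (2 ^ K * (1 + (S.card : ℝ) ^ K * ∑ k ∈ S, C * (1 + k.natAbs : ℕ))) with hD
  refine ⟨D + 1, by positivity, fun N => ?_⟩
  rcases Nat.eq_zero_or_pos N with h0 | h0
  · subst h0; simp
  have hN1 : (1 : ℝ) ≤ N := by exact_mod_cast h0
  have hpt : ∀ q : ℤ → ℝ, |F q| ≤ A * (2 ^ K * (1 + (S.card : ℝ) ^ K * ∑ k ∈ S, |q k| ^ (K + 1))) := by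
    intro q
    refine (b q).trans (mul_le_mul_of_nonneg_left ?_ p)
    have h1 : (1 + ∑ i ∈ S, |q i|) ^ K ≤ (1 + ∑ i ∈ S, |q i|) ^ (K + 1) :=
      pow_le_pow_right₀ (PG.base_one S q) (by omega)
    have hnn : 0 ≤ ∑ i ∈ S, |q i| := Finset.sum_nonneg fun i _ => abs_nonneg _
    have h2 := add_pow_le zero_le_one hnn (K + 1)
    rw [one_pow, Nat.add_sub_cancel] at h2
    refine h1.trans (h2.trans (mul_le_mul_of_nonneg_left ?_ (by positivity)))
    have h3 : (∑ i ∈ S, |q i|) ^ (K + 1) ≤ (S.card : ℝ) ^ K * ∑ k ∈ S, |q k| ^ (K + 1) := by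
      rcases S.eq_empty_or_nonempty with hS | hS
      · subst hS; simp
      · have hc : (0 : ℝ) < S.card := by exact_mod_cast hS.card_pos
        have h4 := pow_sum_div_card_le_sum_pow (s := S) (f := fun i => |q i|) (fun i _ => abs_nonneg _) K
        rw [div_le_iff₀ (by positivity)] at h4
        linarith
    linarith
  have hsum : ∑ n ∈ Icc 1 N, |F (seen dl n)| ≤ ∑ n ∈ Icc 1 N, A * (2 ^ K * (1 + (S.card : ℝ) ^ K *
      ∑ k ∈ S, |seen dl n k| ^ (K + 1))) := Finset.sum_le_sum fun n _ => hpt _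
  refine hsum.trans ?_
  rw [← Finset.mul_sum, ← Finset.mul_sum, Finset.sum_add_distrib, Finset.sum_const, Nat.card_Icc,
    ← Finset.mul_sum, Finset.sum_comm, nsmul_eq_mul, mul_one, Nat.add_sub_cancel]
  have h5 : ∑ k ∈ S, ∑ n ∈ Icc 1 N, |seen dl n k| ^ (K + 1) ≤ (∑ k ∈ S, C * (1 + k.natAbs : ℕ)) * N := by
    rw [Finset.sum_mul]
    refine Finset.sum_le_sum fun k _ => (h k N).trans ?_
    rw [mul_assoc]
    refine mul_le_mul_of_nonneg_left ?_ hC.le
    push_cast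
    have : (0 : ℝ) ≤ (k.natAbs : ℝ) := Nat.cast_nonneg _
    nlinarith
  have h6 : A * (2 ^ K * ((N : ℝ) + (S.card : ℝ) ^ K * ∑ k ∈ S, ∑ n ∈ Icc 1 N, |seen dl n k| ^ (K + 1))) ≤
      A * (2 ^ K * ((N : ℝ) + (S.card : ℝ) ^ K * ((∑ k ∈ S, C * (1 + k.natAbs : ℕ)) * N))) := by
    refine mul_le_mul_of_nonneg_left (mul_le_mul_of_nonneg_left (add_le_add le_rfl
      (mul_le_mul_of_nonneg_left h5 (by positivity))) (by positivity)) p
  refine h6.trans ?_
  have e : A * (2 ^ K * ((N : ℝ) + (S.card : ℝ) ^ K * ((∑ k ∈ S, C * (1 + k.natAbs : ℕ)) * N))) =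
      D * N := by rw [hD]; ring
  rw [e]
  nlinarith

/-- bounded functions, one-sided -/
lemma emp_le {F : (ℤ → ℝ) → ℝ} (hF : Continuous F) {M : ℝ} (hM : ∀ q, |F q| ≤ M) {a ε : ℝ}
    (hε : 0 < ε) (h : ∀ P : ProbabilityMeasure (ℤ → ℝ), IsLim (seen dl) P →
      ∫ q, F q ∂(P : Measure (ℤ → ℝ)) ≤ a) :
    ∀ᶠ N : ℕ in atTop, (∑ n ∈ Icc 1 N, F (seen dl n)) / (N : ℝ) ≤ a + ε := by
  rw [← Filter.map_add_atTop_eq_nat 1, Filter.eventually_map]
  by_contra hcon
  rw [Filter.not_eventually] at hcon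
  obtain ⟨ns, hns, hbad⟩ := Filter.extraction_of_frequently_atTop hcon
  obtain ⟨P, _, ψ, hψ, hlim⟩ := (_root_.Q172.ZetaLim.tight_compact _ dl_tight).tendsto_subseq
    (x := fun j => law (seen dl) (ns j)) fun j => subset_closure ⟨ns j, rfl⟩
  have hPl : IsLim (seen dl) P := by
    rw [isLim_iff]
    refine MapClusterPt.of_comp (hns.tendsto_atTop.comp hψ.tendsto_atTop) ?_
    exact hlim.mapClusterPt
  have h1 := h P hPl
  have h2 := (tendsto_law_iff (seen dl) (fun j => ns (ψ j)) P).1 hlim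
    (BoundedContinuousFunction.ofNormedAddCommGroup F hF M hM)
  simp only [BoundedContinuousFunction.coe_ofNormedAddCommGroup] at h2
  obtain ⟨j, hj⟩ := (Metric.tendsto_nhds.1 h2 ε hε).exists
  rw [Real.dist_eq] at hj
  have h3 := hbad (ψ j)
  unfold Q172.ZetaLim.av at hj
  apply h3
  have h4 := le_abs_self ((∑ n ∈ Icc 1 (ns (ψ j) + 1), F (seen dl n)) / ((ns (ψ j) + 1 : ℕ) : ℝ) -
    ∫ q, F q ∂(P : Measure (ℤ → ℝ)))
  linarith

/-- **from the limit processes to the actual gaps, one-sided** -/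
theorem PG.le {F : (ℤ → ℝ) → ℝ} (hF : PG F) {a ε : ℝ} (hε : 0 < ε)
    (h : ∀ P : ProbabilityMeasure (ℤ → ℝ), IsLim (seen dl) P →
      ∫ q, F q ∂(P : Measure (ℤ → ℝ)) ≤ a) :
    ∀ᶠ N : ℕ in atTop, (∑ n ∈ Icc 1 N, F (seen dl n)) / (N : ℝ) ≤ a + ε := by
  obtain ⟨C, hC, hb⟩ := (hF.pow 2).bounded
  have habs : ∀ q, |F q ^ 2| = F q ^ 2 := fun q => abs_of_nonneg (sq_nonneg _)
  simp only [habs] at hb
  set R := 3 * C / ε with hR
  have hR0 : 0 < R := by positivity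
  have hCR : C / R = ε / 3 := by rw [hR]; field_simp
  have hPm : ∀ P : ProbabilityMeasure (ℤ → ℝ), IsLim (seen dl) P →
      Integrable (fun q => F q ^ 2) (P : Measure (ℤ → ℝ)) ∧ ∫ q, F q ^ 2 ∂(P : Measure (ℤ → ℝ)) ≤ C :=
    fun P hP => _root_.Q172.ZetaLim.fatou hP (hF.cont.pow 2) (fun q => sq_nonneg _) fun η hη =>
      Eventually.of_forall fun N => (hb N).trans (by nlinarith [(Nat.cast_nonneg N : (0 : ℝ) ≤ N)])
  have h1 : ∀ P : ProbabilityMeasure (ℤ → ℝ), IsLim (seen dl) P →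
      ∫ q, tr R (F q) ∂(P : Measure (ℤ → ℝ)) ≤ a + ε / 3 := by
    intro P hP
    obtain ⟨i1, b1⟩ := hPm P hP
    have i2 : Integrable F (P : Measure (ℤ → ℝ)) := by
      have hbb : Integrable (fun q => (1 : ℝ) + F q ^ 2) (P : Measure (ℤ → ℝ)) :=
        (integrable_const 1).add i1
      refine hbb.mono' hF.cont.aestronglyMeasurable (Eventually.of_forall fun x => ?_)
      rw [Real.norm_eq_abs]
      nlinarith [sq_nonneg (|F x| - 1), sq_abs (F x), abs_nonneg (F x)]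
    have i3 : Integrable (fun q => tr R (F q)) (P : Measure (ℤ → ℝ)) :=
      Integrable.of_bound ((tr_cont R).comp hF.cont).aestronglyMeasurable R
        (Eventually.of_forall fun q => tr_abs hR0.le _)
    have h2 : ∫ q, tr R (F q) ∂(P : Measure (ℤ → ℝ)) ≤
        ∫ q, (F q + F q ^ 2 / R) ∂(P : Measure (ℤ → ℝ)) := by
      refine integral_mono i3 (i2.add (i1.div_const R)) fun q => ?_
      have := (abs_le.1 (tr_sub hR0 (F q))).1
      simp only
      linarith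
    rw [integral_add i2 (i1.div_const R), integral_div] at h2
    have h3 := h P hP
    have h4 : (∫ q, F q ^ 2 ∂(P : Measure (ℤ → ℝ))) / R ≤ C / R :=
      div_le_div_of_nonneg_right b1 hR0.le
    linarith
  have h2 := emp_le ((tr_cont R).comp hF.cont) (M := R) (fun q => tr_abs hR0.le _)
    (by positivity : 0 < ε / 3) h1
  filter_upwards [h2, eventually_ge_atTop 1] with N hN hN1
  have hN0 : (0 : ℝ) < N := by exact_mod_cast hN1
  have h3 : ∑ n ∈ Icc 1 N, F (seen dl n) ≤ ∑ n ∈ Icc 1 N, (tr R (F (seen dl n)) + F (seen dl n) ^ 2 / R) := by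
    refine Finset.sum_le_sum fun n _ => ?_
    have := (abs_le.1 (tr_sub hR0 (F (seen dl n)))).2
    linarith
  rw [Finset.sum_add_distrib, ← Finset.sum_div] at h3
  have h4 : (∑ n ∈ Icc 1 N, F (seen dl n) ^ 2) / R ≤ (ε / 3) * N := by
    rw [← hCR, div_mul_eq_mul_div]
    exact div_le_div_of_nonneg_right (hb N) hR0.le
  simp only [Function.comp_apply] at hN
  rw [div_le_iff₀ hN0] at hN ⊢
  linarith

/-- two-sided -/
theorem PG.near {F : (ℤ → ℝ) → ℝ} (hF : PG F) {a ε : ℝ} (hε : 0 < ε)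
    (h : ∀ P : ProbabilityMeasure (ℤ → ℝ), IsLim (seen dl) P →
      |∫ q, F q ∂(P : Measure (ℤ → ℝ)) - a| ≤ ε) :
    ∀ᶠ N : ℕ in atTop, |(∑ n ∈ Icc 1 N, F (seen dl n)) / (N : ℝ) - a| ≤ 2 * ε := by
  have h1 := hF.le (a := a + ε) hε fun P hP => by
    have := (abs_le.1 (h P hP)).2
    linarith
  have h2 := hF.neg.le (a := -a + ε) hε fun P hP => by
    have := (abs_le.1 (h P hP)).1
    rw [integral_neg]
    linarith
  filter_upwards [h1, h2] with N k1 k2
  rw [Finset.sum_neg_distrib, neg_div] at k2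
  rw [abs_le]
  constructor <;> linarith

end Pool.Agent.Q172.PS
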