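import Pool.Agent.Q172.PS.N5

/-!
# The limit theorems for the actual gaps (helper172)
-/

set_option autoImplicit false

namespace Pool.Agent.Q172.PS

open Finset MeasureTheory Filter Topology ProbabilityTheory
open Pool.Agent.Q278.GF Pool.Agent.Q278.MC Pool.Agent.Q278.KM
open _root_.Q172.ZetaLim (IsLim seen)
open scoped ContDiff BoundedContinuousFunction FourierTransform

variable {k : ℕ} {f : Fin k → ℝ → ℝ}

lemma PG_Fn {φ : ℝ → ℝ} {R L : ℝ} (hs : ∀ x, R ≤ |x| → φ x = 0) (hL : 0 < L) : PG (Fn φ L) := by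
  have h1 : R * L ≤ (⌈R * L⌉₊ : ℝ) := Nat.le_ceil _
  have e : Fn φ L = fun q => ∑ k ∈ Icc (-(⌈R * L⌉₊ : ℤ)) (⌈R * L⌉₊ : ℤ), φ (k / L) * (q k - 1) := by
    funext q
    exact Fn_eq_sum hs hL h1 q
  rw [e]
  exact PG.sum _ fun i _ => (PG.const _).mul ((PG.coord i).sub (PG.const 1))

lemma PG_vec (hf : Fam f) {Φ : EuclideanSpace ℝ (Fin k) → ℝ} (hΦ : Continuous Φ) {A : ℝ} {N : ℕ}
    (hb : ∀ x, |Φ x| ≤ A * (1 + ‖x‖) ^ N) {L : ℝ} (hL : 0 < L) : PG fun q => Φ (vec f L q) := by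
  obtain ⟨R, hR1, hR⟩ := hf.radius
  have hA : 0 ≤ A := by
    have h1 := (abs_nonneg _).trans (hb 0)
    rw [norm_zero, add_zero, one_pow, mul_one] at h1
    exact h1
  have h1 : PG fun q => A * (1 + ∑ j, |Fn (f j) L q|) ^ N :=
    (PG.const A).mul (((PG.const 1).add (PG.sum _ fun j _ => (PG_Fn (hR j) hL).abs)).pow N)
  refine PG.of_le (hΦ.comp (vec_cont hf hL)) h1 fun q => ?_
  have h0 : 0 ≤ ∑ j, |Fn (f j) L q| := Finset.sum_nonneg fun j _ => abs_nonneg _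
  rw [abs_of_nonneg (by positivity : 0 ≤ A * (1 + ∑ j, |Fn (f j) L q|) ^ N)]
  refine (hb _).trans (mul_le_mul_of_nonneg_left (pow_le_pow_left₀ (by positivity) ?_ N) hA)
  have h2 : ‖vec f L q‖ ≤ ∑ j, |Fn (f j) L q| := by
    have h3 : ‖vec f L q‖ = √(∑ j, |Fn (f j) L q| ^ 2) := by
      rw [EuclideanSpace.norm_eq]
      rfl
    rw [h3]
    refine Real.sqrt_le_iff.2 ⟨h0, ?_⟩
    exact Finset.sum_sq_le_sq_sum_of_nonneg fun j _ => abs_nonneg _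
  linarith

/-- **joint laws with all moments for the actual gaps** -/
theorem fin_poly (hf : Fam f) {Φ : EuclideanSpace ℝ (Fin k) → ℝ} (hΦ : Continuous Φ) {A : ℝ} {N : ℕ}
    (hb : ∀ x, |Φ x| ≤ A * (1 + ‖x‖) ^ N) {ε : ℝ} (hε : 0 < ε) : ∃ L0 : ℝ, 1 ≤ L0 ∧
    ∀ L : ℝ, L0 ≤ L → ∀ᶠ M : ℕ in atTop, |(∑ n ∈ Icc 1 M, Φ (vec f L (seen dl n))) / (M : ℝ) -
      ∫ x, Φ x ∂(multivariateGaussian 0 (cm f))| ≤ ε := by
  obtain ⟨L0, hL0, h⟩ := P_poly hf hΦ hb (half_pos hε)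
  refine ⟨L0, hL0, fun L hL => ?_⟩
  have h1 := (PG_vec hf hΦ hb (by linarith : 0 < L)).near (half_pos hε) fun P hP => (h P hP L hL).2
  filter_upwards [h1] with M hM
  linarith

/-- **moments of the sums of consecutive gaps** -/
theorem fin_SL (k : ℕ) : ∃ (C : ℝ) (A : ℕ), 0 < C ∧ ∀ L : ℕ, 1 ≤ L → ∀ᶠ N : ℕ in atTop,
    ∑ n ∈ Icc 1 N, |Sd L n| ^ k ≤ C * (1 + Real.log L) ^ A * N := by
  obtain ⟨C, A, hC, h⟩ := SL_mom k
  refine ⟨2 * C, A, by positivity, fun L hL => ?_⟩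
  have hL' : (1 : ℝ) ≤ L := by exact_mod_cast hL
  have hl : 0 ≤ Real.log L := Real.log_nonneg hL'
  have hpg : PG fun q => |SL L q| ^ k := by
    refine PG.pow (PG.abs ?_) k
    exact PG.sum _ fun i _ => (PG.coord (i : ℤ)).sub (PG.const 1)
  have hp : 0 < C * (1 + Real.log L) ^ A := by positivity
  have h1 := hpg.le hp fun P hP => (h P hP L hL).2
  filter_upwards [h1, eventually_ge_atTop 1] with N hN hN1
  have hN0 : (0 : ℝ) < N := by exact_mod_cast hN1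
  rw [div_le_iff₀ hN0] at hN
  have e : ∑ n ∈ Icc 1 N, |Sd L n| ^ k = ∑ n ∈ Icc 1 N, |SL L (seen dl n)| ^ k := by
    refine Finset.sum_congr rfl fun n hn => ?_
    rw [Finset.mem_Icc] at hn
    rw [SL_seen L hn.1]
  rw [e]
  linarith

/-- **the inverse square law for the actual gaps** -/
theorem fin_dyson {φ : ℝ → ℝ} (h1 : ContDiff ℝ ∞ φ) (h2 : HasCompactSupport φ) {ε : ℝ} (hε : 0 < ε) :
    ∃ L0 : ℝ, 1 ≤ L0 ∧ ∀ L : ℝ, L0 ≤ L → ∀ᶠ N : ℕ in atTop,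
      |L * ((∑ n ∈ Icc 1 N, (seen dl n 0 - 1) * Fn φ L (seen dl n)) / (N : ℝ)) -
        ∫ ξ : ℝ, |ξ| * (𝓕 (fc φ) ξ).re| ≤ ε := by
  obtain ⟨L0, hL0, h⟩ := dyson_P h1 h2 (half_pos hε)
  obtain ⟨φ', B0, B2, R, hT⟩ := tst_of h1 h2
  refine ⟨L0, hL0, fun L hL => ?_⟩
  have hLp : 0 < L := by linarith
  have hpg : PG fun q => L * ((q 0 - 1) * Fn φ L q) :=
    (PG.const L).mul (((PG.coord 0).sub (PG.const 1)).mul (PG_Fn hT.supp hLp))
  have h3 := hpg.near (half_pos hε) fun P hP => by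
    rw [integral_const_mul]
    exact h P hP L hL
  filter_upwards [h3] with N hN
  rw [← Finset.mul_sum, mul_div_assoc] at hN
  linarith

end Pool.Agent.Q172.PS
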