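import Pool.Agent.Q172.PS.N6

/-!
# The periodogram of the actual gaps (helper172)
-/

set_option autoImplicit false

namespace Pool.Agent.Q172.PS

open Finset MeasureTheory Filter Topology Complex
open Pool.Agent.Q278.GF Pool.Agent.Q278.MC Pool.Agent.Q278.KM
open _root_.Q172.ZetaLim (IsLim seen map_shift shift)
open _root_.Q172.Mem (memLp_P)
open scoped ContDiff BoundedContinuousFunction ComplexConjugate

/-- the squared modulus of the discrete Fourier transform -/
noncomputable def pg (X : ℕ → ℝ) (N : ℕ) (x : ℝ) : ℝ :=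
  ‖∑ n ∈ Icc 1 N, (X n : ℂ) * cexp (((n : ℝ) * x : ℝ) * I)‖ ^ 2

variable {X : ℕ → ℝ}

lemma pg_nonneg (N : ℕ) (x : ℝ) : 0 ≤ pg X N x := by unfold pg; positivity

lemma pg_cont (N : ℕ) : Continuous (pg X N) := by unfold pg; fun_prop

lemma pg_eq (N : ℕ) (x : ℝ) : pg X N x =
    ∑ m ∈ Icc 1 N, ∑ n ∈ Icc 1 N, X m * X n * Real.cos (((m : ℤ) - (n : ℤ) : ℤ) * x) := by
  unfold pg
  have h1 : ‖∑ n ∈ Icc 1 N, (X n : ℂ) * cexp (((n : ℝ) * x : ℝ) * I)‖ ^ 2 =
      ((∑ n ∈ Icc 1 N, (X n : ℂ) * cexp (((n : ℝ) * x : ℝ) * I)) *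
        conj (∑ n ∈ Icc 1 N, (X n : ℂ) * cexp (((n : ℝ) * x : ℝ) * I))).re := by
    rw [Complex.mul_conj, Complex.ofReal_re, Complex.normSq_eq_norm_sq]
  rw [h1, map_sum, Finset.sum_mul_sum, Complex.re_sum]
  refine Finset.sum_congr rfl fun m _ => ?_
  rw [Complex.re_sum]
  refine Finset.sum_congr rfl fun n _ => ?_
  rw [map_mul, Complex.conj_ofReal, ← Complex.exp_conj, map_mul, Complex.conj_ofReal, Complex.conj_I]
  have e : (X m : ℂ) * cexp (((m : ℝ) * x : ℝ) * I) * ((X n : ℂ) * cexp (((n : ℝ) * x : ℝ) * -I)) =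
      ((X m * X n : ℝ) : ℂ) * cexp (((((m : ℤ) - (n : ℤ) : ℤ) * x : ℝ) : ℂ) * I) := by
    have e2 : cexp (((((m : ℤ) - (n : ℤ) : ℤ) * x : ℝ) : ℂ) * I) =
        cexp (((m : ℝ) * x : ℝ) * I) * cexp (((n : ℝ) * x : ℝ) * -I) := by
      rw [← Complex.exp_add]
      congr 1
      push_cast
      ring
    rw [e2]
    push_cast
    ring
  rw [e, Complex.re_ofReal_mul, Complex.exp_ofReal_mul_I_re]

lemma shift_pairs (N k : ℕ) (F : ℕ → ℕ → ℝ) :
    ∑ m ∈ Icc 1 N, ∑ n ∈ Icc 1 N, F m n * (if ((m : ℤ) - (n : ℤ)) = (k : ℤ) then (1 : ℝ) else 0) =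
      ∑ n ∈ Icc 1 (N - k), F (n + k) n := by
  rw [Finset.sum_comm]
  have h1 : ∀ n ∈ Icc 1 N, (∑ m ∈ Icc 1 N, F m n * (if ((m : ℤ) - (n : ℤ)) = (k : ℤ) then (1 : ℝ) else 0)) =
      if n + k ≤ N then F (n + k) n else 0 := by
    intro n hn
    rw [Finset.mem_Icc] at hn
    by_cases hc : n + k ≤ N
    · rw [if_pos hc, Finset.sum_eq_single_of_mem (n + k) (Finset.mem_Icc.2 ⟨by omega, hc⟩)]
      · rw [if_pos (by push_cast; ring), mul_one]
      · intro m _ hm
        rw [if_neg (by omega), mul_zero]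
    · rw [if_neg hc]
      refine Finset.sum_eq_zero fun m hm => ?_
      rw [Finset.mem_Icc] at hm
      rw [if_neg (by omega), mul_zero]
  rw [Finset.sum_congr rfl h1, ← Finset.sum_filter]
  refine Finset.sum_congr ?_ fun _ _ => rfl
  ext n
  rw [Finset.mem_filter, Finset.mem_Icc, Finset.mem_Icc]
  omega

lemma pg_int (N k : ℕ) : ∫ x in (0 : ℝ)..Real.pi, pg X N x * Real.cos (k * x) =
    Real.pi * ∑ n ∈ Icc 1 (N - k), X n * X (n + k) := by
  have e1 : ∀ x, pg X N x * Real.cos (k * x) = ∑ m ∈ Icc 1 N, ∑ n ∈ Icc 1 N, X m * X n *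
      (Real.cos (((m : ℤ) - (n : ℤ) : ℤ) * x) * Real.cos (k * x)) := by
    intro x
    rw [pg_eq, Finset.sum_mul]
    refine Finset.sum_congr rfl fun m _ => ?_
    rw [Finset.sum_mul]
    refine Finset.sum_congr rfl fun n _ => ?_
    ring
  simp_rw [e1]
  rw [intervalIntegral.integral_finsetSum]
  · have h2 : ∀ m ∈ Icc 1 N, ∫ x in (0 : ℝ)..Real.pi, ∑ n ∈ Icc 1 N, X m * X n *
        (Real.cos (((m : ℤ) - (n : ℤ) : ℤ) * x) * Real.cos (k * x)) =
        ∑ n ∈ Icc 1 N, (Real.pi / 2 * ((X m * X n) * (if ((m : ℤ) - (n : ℤ)) = (k : ℤ) then (1 : ℝ) else 0)) +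
          Real.pi / 2 * ((X m * X n) * (if ((n : ℤ) - (m : ℤ)) = (k : ℤ) then (1 : ℝ) else 0))) := by
      intro m _
      rw [intervalIntegral.integral_finsetSum]
      · refine Finset.sum_congr rfl fun n _ => ?_
        rw [intervalIntegral.integral_const_mul, Pool.Agent.H514R3.int_cos_cos]
        have e3 : ((m : ℤ) - (n : ℤ) = -(k : ℤ)) ↔ ((n : ℤ) - (m : ℤ) = (k : ℤ)) := by omega
        simp only [e3]
        ring
      · intro n _
        exact (by fun_prop : Continuous fun x : ℝ => X m * X n *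
          (Real.cos (((m : ℤ) - (n : ℤ) : ℤ) * x) * Real.cos (k * x))).intervalIntegrable _ _
    rw [Finset.sum_congr rfl h2]
    simp only [Finset.sum_add_distrib, ← Finset.mul_sum]
    rw [shift_pairs N k fun m n => X m * X n]
    have h3 : ∑ m ∈ Icc 1 N, ∑ n ∈ Icc 1 N, (X m * X n) *
        (if ((n : ℤ) - (m : ℤ)) = (k : ℤ) then (1 : ℝ) else 0) = ∑ n ∈ Icc 1 (N - k), X n * X (n + k) := by
      rw [Finset.sum_comm]
      exact shift_pairs N k fun m n => X n * X m
    rw [h3]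
    have h4 : ∑ n ∈ Icc 1 (N - k), X (n + k) * X n = ∑ n ∈ Icc 1 (N - k), X n * X (n + k) :=
      Finset.sum_congr rfl fun n _ => mul_comm _ _
    rw [h4]
    ring
  · intro m _
    exact (by fun_prop : Continuous fun x : ℝ => ∑ n ∈ Icc 1 N, X m * X n *
          (Real.cos (((m : ℤ) - (n : ℤ) : ℤ) * x) * Real.cos (k * x))).intervalIntegrable _ _

/-- the space of the cosine polynomials -/
noncomputable def CP : Submodule ℝ (ℝ → ℝ) :=
  Submodule.span ℝ (Set.range fun (k : ℕ) (x : ℝ) => Real.cos ((k : ℝ) * x))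

lemma cos_mul_CP {h : ℝ → ℝ} (hh : h ∈ CP) : (fun x => Real.cos x * h x) ∈ CP := by
  unfold CP at hh ⊢
  induction hh using Submodule.span_induction with
  | mem g hg =>
    obtain ⟨k, rfl⟩ := hg
    rcases Nat.eq_zero_or_pos k with hk | hk
    · subst hk
      refine Submodule.subset_span ⟨1, ?_⟩
      funext x
      simp
    · obtain ⟨j, rfl⟩ : ∃ j, k = j + 1 := ⟨k - 1, by omega⟩
      have e : (fun x : ℝ => Real.cos x * Real.cos (((j + 1 : ℕ) : ℝ) * x)) =
          (1 / 2 : ℝ) • (fun x : ℝ => Real.cos (((j + 2 : ℕ) : ℝ) * x)) +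
            (1 / 2 : ℝ) • (fun x : ℝ => Real.cos ((j : ℝ) * x)) := by
        funext x
        simp only [Pi.add_apply, Pi.smul_apply, smul_eq_mul]
        have e1 : ((j + 2 : ℕ) : ℝ) * x = ((j + 1 : ℕ) : ℝ) * x + x := by push_cast; ring
        have e2 : (j : ℝ) * x = ((j + 1 : ℕ) : ℝ) * x - x := by push_cast; ring
        rw [e1, e2, Real.cos_add, Real.cos_sub]
        ring
      show (fun x : ℝ => Real.cos x * Real.cos (((j + 1 : ℕ) : ℝ) * x)) ∈ _
      rw [e]
      exact Submodule.add_mem _ (Submodule.smul_mem _ _ (Submodule.subset_span ⟨j + 2, rfl⟩))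
        (Submodule.smul_mem _ _ (Submodule.subset_span ⟨j, rfl⟩))
  | zero =>
    have e : (fun x : ℝ => Real.cos x * (0 : ℝ → ℝ) x) = 0 := by
      funext x; simp
    rw [e]
    exact Submodule.zero_mem _
  | add f g _ _ h1 h2 =>
    have e : (fun x : ℝ => Real.cos x * (f + g) x) = (fun x => Real.cos x * f x) +
        (fun x => Real.cos x * g x) := by
      funext x; simp only [Pi.add_apply]; ring
    rw [e]
    exact Submodule.add_mem _ h1 h2
  | smul a f _ h1 =>
    have e : (fun x : ℝ => Real.cos x * (a • f) x) = a • (fun x => Real.cos x * f x) := by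
      funext x; simp only [Pi.smul_apply, smul_eq_mul]; ring
    rw [e]
    exact Submodule.smul_mem _ _ h1

lemma cos_pow_CP (n : ℕ) : (fun x : ℝ => Real.cos x ^ n) ∈ CP := by
  induction n with
  | zero =>
    refine Submodule.subset_span ⟨0, ?_⟩
    funext x
    simp
  | succ n ih =>
    have := cos_mul_CP ih
    have e : (fun x : ℝ => Real.cos x ^ (n + 1)) = fun x => Real.cos x * Real.cos x ^ n := by
      funext x; ring
    rw [e]
    exact this

lemma poly_CP (p : Polynomial ℝ) : (fun x : ℝ => p.eval (Real.cos x)) ∈ CP := by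
  have e : (fun x : ℝ => p.eval (Real.cos x)) =
      ∑ i ∈ range (p.natDegree + 1), p.coeff i • (fun x : ℝ => Real.cos x ^ i) := by
    funext x
    rw [Polynomial.eval_eq_sum_range, Finset.sum_apply]
    rfl
  rw [e]
  exact Submodule.sum_mem _ fun i _ => Submodule.smul_mem _ _ (cos_pow_CP i)

end Pool.Agent.Q172.PS
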