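import Pool.Agent.Q172.PS.N8

/-!
# The 1/f law for the periodogram of the actual gaps (helper172)
-/

set_option autoImplicit false

namespace Pool.Agent.Q172.PS

open Finset MeasureTheory Filter Topology Complex
open Pool.Agent.Q278.GF Pool.Agent.Q278.MC Pool.Agent.Q278.KM
open _root_.Q172.ZetaLim (IsLim seen map_shift shift)
open _root_.Q172.Mem (memLp_P)
open scoped ContDiff BoundedContinuousFunction ComplexConjugate

/-- **the periodogram near zero** -/
theorem periodogram {ε : ℝ} (hε : 0 < ε) : ∃ x0 : ℝ, 0 < x0 ∧ x0 ≤ 1 ∧ ∀ x : ℝ, 0 < x → x ≤ x0 →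
    ∀ᶠ N : ℕ in atTop,
      |(∫ y in (0 : ℝ)..x, pg XX N y) / (Real.pi * N) - x ^ 2 / (4 * Real.pi ^ 2)| ≤ ε * x ^ 2 := by
  set δ : ℝ := min ε 1 / 10 with hδ
  have hδ0 : 0 < δ := by have := lt_min hε one_pos; positivity
  have hδ1 : δ ≤ 1 / 10 := by
    rw [hδ]
    have := min_le_right ε 1
    linarith
  have hδε : 5 * δ ≤ ε / 2 := by
    rw [hδ]
    have := min_le_left ε 1
    linarith
  obtain ⟨x1, hx1, hlaw⟩ := law_zero hδ0
  have hpi := Real.pi_pos
  have hpi3 := Real.pi_gt_three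
  set c : ℝ := 1 / (4 * Real.pi ^ 2) with hc
  have hc0 : 0 < c := by positivity
  have hc1 : c ≤ 1 := by
    rw [hc, div_le_one (by positivity)]
    nlinarith
  refine ⟨min (x1 / 2) 1, lt_min (by positivity) one_pos, min_le_right _ _, fun x hx hxx => ?_⟩
  have hxa : x ≤ x1 / 2 := hxx.trans (min_le_left _ _)
  have hxb : x ≤ 1 := hxx.trans (min_le_right _ _)
  have hx2 : 0 < x ^ 2 := by positivity
  have hε2 : 0 < ε / 2 * x ^ 2 := by positivity
  have ec : ∀ y : ℝ, y ^ 2 / (4 * Real.pi ^ 2) = c * y ^ 2 := fun y => by rw [hc]; ring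
  have hmI : ∀ b : ℝ, MeasurableSet (Set.Icc (0 : ℝ) b) := fun b => measurableSet_Icc
  -- upper bound
  have hab : x < x * (1 + δ) := by nlinarith
  have hU := pg_le (trap_cont x (x * (1 + δ))) hε2 (a := (c + δ) * (x * (1 + δ)) ^ 2)
    fun P hP σ hσ => by
      have hfin := hσ.1
      have h1 : ∫ y, trap x (x * (1 + δ)) y ∂σ ≤ σ.real (Set.Icc 0 (x * (1 + δ))) := by
        rw [← integral_indicator_one (hmI _)]
        refine integral_mono_ae (spec_integrable hσ (trap_cont _ _))
          ((integrable_indicator_iff (hmI _)).2 (integrable_const (1 : ℝ)).integrableOn) ?_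
        filter_upwards [ae_Icc hσ] with y hy
        by_cases hyb : y ∈ Set.Icc 0 (x * (1 + δ))
        · rw [Set.indicator_of_mem hyb]
          exact trap_le _ _ _
        · rw [Set.indicator_of_notMem hyb]
          rw [Set.mem_Icc, not_and_or, not_le, not_le] at hyb
          rcases hyb with hyb | hyb
          · exact absurd hy.1 (not_le.2 hyb)
          · rw [trap_zero hab (hyb.le.trans (le_abs_self _))]
      have h2 := (abs_le.1 (hlaw P hP σ hσ (x * (1 + δ)) (by positivity) (by nlinarith))).2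
      rw [ec] at h2
      linarith
  -- lower bound
  have hab' : x * (1 - δ) < x := by nlinarith
  have hx1d : 0 < x * (1 - δ) := mul_pos hx (by linarith)
  have hLo := pg_le (h := fun y => -trap (x * (1 - δ)) x y) (trap_cont (x * (1 - δ)) x).neg hε2
    (a := -((c - δ) * (x * (1 - δ)) ^ 2))
    fun P hP σ hσ => by
      have hfin := hσ.1
      have h1 : σ.real (Set.Icc 0 (x * (1 - δ))) ≤ ∫ y, trap (x * (1 - δ)) x y ∂σ := by
        rw [← integral_indicator_one (hmI _)]
        refine integral_mono_ae ((integrable_indicator_iff (hmI _)).2 (integrable_const (1 : ℝ)).integrableOn)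
          (spec_integrable hσ (trap_cont _ _)) ?_
        filter_upwards with y
        by_cases hyb : y ∈ Set.Icc 0 (x * (1 - δ))
        · rw [Set.indicator_of_mem hyb, Pi.one_apply, trap_one hab' (by rw [abs_of_nonneg hyb.1]; exact hyb.2)]
        · rw [Set.indicator_of_notMem hyb]
          exact trap_nonneg _ _ _
      have h2 := (abs_le.1 (hlaw P hP σ hσ (x * (1 - δ)) hx1d (by nlinarith))).1
      rw [ec] at h2
      rw [integral_neg]
      linarith
  filter_upwards [hU, hLo, eventually_ge_atTop 1] with N k1 k2 k3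
  have hN0 : (0 : ℝ) < N := by exact_mod_cast k3
  have hπN : 0 < Real.pi * N := by positivity
  have hii : ∀ a b, IntervalIntegrable (pg XX N) volume a b := fun a b => (pg_cont N).intervalIntegrable _ _
  have hxpi : x ≤ Real.pi := by linarith
  have j1 : ∫ y in (0 : ℝ)..x, pg XX N y ≤ ∫ y in (0 : ℝ)..Real.pi, pg XX N y * trap x (x * (1 + δ)) y := by
    have e1 : ∫ y in (0 : ℝ)..x, pg XX N y = ∫ y in (0 : ℝ)..x, pg XX N y * trap x (x * (1 + δ)) y := by
      refine intervalIntegral.integral_congr fun y hy => ?_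
      rw [Set.uIcc_of_le hx.le] at hy
      rw [trap_one hab (by rw [abs_of_nonneg hy.1]; exact hy.2), mul_one]
    rw [e1]
    exact intervalIntegral.integral_mono_interval le_rfl hx.le hxpi
      (Eventually.of_forall fun y => mul_nonneg (pg_nonneg N y) (trap_nonneg _ _ _))
      (pg_ii (trap_cont _ _) N _ _)
  have j2 : ∫ y in (0 : ℝ)..Real.pi, pg XX N y * trap (x * (1 - δ)) x y ≤ ∫ y in (0 : ℝ)..x, pg XX N y := by
    rw [← intervalIntegral.integral_add_adjacent_intervals (pg_ii (trap_cont (x * (1 - δ)) x) N 0 x)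
      (pg_ii (trap_cont (x * (1 - δ)) x) N x Real.pi)]
    have e1 : ∫ y in x..Real.pi, pg XX N y * trap (x * (1 - δ)) x y = 0 := by
      have : ∫ y in x..Real.pi, pg XX N y * trap (x * (1 - δ)) x y = ∫ _y in x..Real.pi, (0 : ℝ) := by
        refine intervalIntegral.integral_congr fun y hy => ?_
        rw [Set.uIcc_of_le hxpi] at hy
        rw [trap_zero hab' (hy.1.trans (le_abs_self _)), mul_zero]
      rw [this, intervalIntegral.integral_zero]
    rw [e1, add_zero]
    refine intervalIntegral.integral_mono_on hx.le (pg_ii (trap_cont _ _) N _ _) (hii _ _) ?_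
    intro y _
    exact mul_le_of_le_one_right (pg_nonneg N y) (trap_le _ _ _)
  have j3 := div_le_div_of_nonneg_right j1 hπN.le
  have j4 := div_le_div_of_nonneg_right j2 hπN.le
  have e2 : ∫ y in (0 : ℝ)..Real.pi, pg XX N y * -trap (x * (1 - δ)) x y =
      -∫ y in (0 : ℝ)..Real.pi, pg XX N y * trap (x * (1 - δ)) x y := by
    rw [← intervalIntegral.integral_neg]
    refine intervalIntegral.integral_congr fun y _ => ?_
    ring
  rw [e2, neg_div] at k2
  rw [ec]
  have u1 : (c + δ) * (x * (1 + δ)) ^ 2 ≤ (c + 5 * δ) * x ^ 2 := by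
    have : (c + δ) * (1 + δ) ^ 2 ≤ c + 5 * δ := by
      have h1 : (1 + δ) ^ 2 ≤ 1 + 3 * δ := by nlinarith
      have h2 : (c + δ) * (1 + δ) ^ 2 ≤ (c + δ) * (1 + 3 * δ) :=
        mul_le_mul_of_nonneg_left h1 (by positivity)
      nlinarith
    calc (c + δ) * (x * (1 + δ)) ^ 2 = ((c + δ) * (1 + δ) ^ 2) * x ^ 2 := by ring
      _ ≤ _ := mul_le_mul_of_nonneg_right this hx2.le
  have u2 : (c - 5 * δ) * x ^ 2 ≤ (c - δ) * (x * (1 - δ)) ^ 2 := by
    have : c - 5 * δ ≤ (c - δ) * (1 - δ) ^ 2 := by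
      have e : (c - δ) * (1 - δ) ^ 2 - (c - 5 * δ) = δ * (4 - 2 * c + c * δ + 2 * δ - δ ^ 2) := by ring
      have h1 : 0 ≤ 4 - 2 * c + c * δ + 2 * δ - δ ^ 2 := by nlinarith
      have := mul_nonneg hδ0.le h1
      linarith
    calc (c - 5 * δ) * x ^ 2 ≤ ((c - δ) * (1 - δ) ^ 2) * x ^ 2 :=
          mul_le_mul_of_nonneg_right this hx2.le
      _ = _ := by ring
  have u3 : 5 * δ * x ^ 2 ≤ ε / 2 * x ^ 2 := mul_le_mul_of_nonneg_right hδε hx2.le
  rw [abs_le]
  constructor <;> nlinarith

end Pool.Agent.Q172.PS
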