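import Pool.Agent.Q172.PS.K
import Mathlib.MeasureTheory.Measure.LevyConvergence

/-!
# The law of the spectral mass near zero: vague convergence (helper172)
-/

set_option autoImplicit false

namespace Pool.Agent.Q172.PS

open Finset MeasureTheory Filter Topology Complex ProbabilityTheory
open Pool.Agent.Q278.GF Pool.Agent.Q278.MC Pool.Agent.Q278.KM
open _root_.Q172.ZetaLim (IsLim seen map_shift shift)
open _root_.Q172.Mem (ee UU UU_ee memLp_P lin_norm)
open scoped ContDiff RealInnerProductSpace ComplexConjugate FourierTransform BoundedContinuousFunction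

/-- Lévy's theorem for finite measures -/
theorem levy_fin (μ : ℕ → Measure ℝ) [∀ n, IsFiniteMeasure (μ n)] (ν : Measure ℝ) [IsFiniteMeasure ν]
    (hν : ν ≠ 0) (h : ∀ s : ℝ, Tendsto (fun n => charFun (μ n) s) atTop (𝓝 (charFun ν s)))
    (H : ℝ →ᵇ ℝ) : Tendsto (fun n => ∫ x, H x ∂(μ n)) atTop (𝓝 (∫ x, H x ∂ν)) := by
  classical
  have hν0 : NeZero ν := ⟨hν⟩
  set c : ℝ := ν.real Set.univ with hc
  have hc0 : 0 < c := by
    rw [hc, measureReal_def]
    exact ENNReal.toReal_pos (NeZero.ne (ν Set.univ)) (measure_ne_top _ _)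
  have hm : Tendsto (fun n => (μ n).real Set.univ) atTop (𝓝 c) := by
    have h1 := h 0
    simp only [charFun_zero] at h1
    have h2 := (Complex.continuous_re.tendsto _).comp h1
    simpa only [Function.comp_def, Complex.ofReal_re] using h2
  have hev : ∀ᶠ n in atTop, 0 < (μ n).real Set.univ := hm.eventually_const_lt hc0
  have hne : ∀ n, 0 < (μ n).real Set.univ → NeZero (μ n) := by
    intro n hn
    refine ⟨fun h0 => ?_⟩
    rw [h0] at hn
    simp at hn
  -- the normalized measures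
  have hp : ∀ n, ∃ p : ProbabilityMeasure ℝ, 0 < (μ n).real Set.univ →
      (p : Measure ℝ) = ((μ n) Set.univ)⁻¹ • μ n := by
    intro n
    by_cases h0 : 0 < (μ n).real Set.univ
    · have := hne n h0
      exact ⟨⟨((μ n) Set.univ)⁻¹ • μ n, isProbabilityMeasureSMul⟩, fun _ => rfl⟩
    · exact ⟨⟨Measure.dirac 0, Measure.dirac.isProbabilityMeasure⟩, fun h1 => absurd h1 h0⟩
  choose p hp using hp
  set q : ProbabilityMeasure ℝ := ⟨(ν Set.univ)⁻¹ • ν, isProbabilityMeasureSMul⟩ with hq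
  have hqc : (q : Measure ℝ) = (ν Set.univ)⁻¹ • ν := rfl
  have hintp : ∀ {E : Type} [NormedAddCommGroup E] [NormedSpace ℝ E] (n : ℕ) (F : ℝ → E),
      0 < (μ n).real Set.univ →
      ∫ x, F x ∂(p n : Measure ℝ) = ((μ n).real Set.univ)⁻¹ • ∫ x, F x ∂(μ n) := by
    intro E _ _ n F hn
    rw [hp n hn, integral_smul_measure, ENNReal.toReal_inv]
    rfl
  have hintq : ∀ {E : Type} [NormedAddCommGroup E] [NormedSpace ℝ E] (F : ℝ → E),
      ∫ x, F x ∂(q : Measure ℝ) = c⁻¹ • ∫ x, F x ∂ν := by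
    intro E _ _ F
    rw [hqc, integral_smul_measure, ENNReal.toReal_inv]
    rfl
  have hlim : Tendsto p atTop (𝓝 q) := by
    refine ProbabilityMeasure.tendsto_iff_tendsto_charFun.2 fun s => ?_
    have h1 : Tendsto (fun n => (((μ n).real Set.univ)⁻¹ : ℝ) • charFun (μ n) s) atTop
        (𝓝 ((c⁻¹ : ℝ) • charFun ν s)) := (hm.inv₀ hc0.ne').smul (h s)
    have e1 : charFun (q : Measure ℝ) s = (c⁻¹ : ℝ) • charFun ν s := by
      rw [charFun_apply, charFun_apply, hintq]
    rw [e1]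
    refine h1.congr' ?_
    filter_upwards [hev] with n hn
    rw [charFun_apply, charFun_apply, hintp n _ hn]
  have h2 := (ProbabilityMeasure.tendsto_iff_forall_integral_tendsto.1 hlim) H
  rw [hintq] at h2
  have h3 := hm.mul h2
  simp only [smul_eq_mul] at h3
  rw [mul_inv_cancel_left₀ hc0.ne'] at h3
  refine h3.congr' ?_
  filter_upwards [hev] with n hn
  rw [hintp n _ hn, smul_eq_mul, mul_inv_cancel_left₀ hn.ne']

/-- the symmetrized spectral measure at scale `1/L`, weighted with the square of the sum of `g` -/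
noncomputable def mm (σ : Measure ℝ) (g : ℝ → ℝ) (L : ℝ) : Measure ℝ :=
  ((σ + σ.map (fun x => -x)).withDensity (fun x => ENNReal.ofReal (‖TF g L x‖ ^ 2))).map (fun x => L * x)

lemma TF_neg {g : ℝ → ℝ} {R L : ℝ} (hs : ∀ x, R ≤ |x| → g x = 0) (hL : 0 < L) (x : ℝ) :
    TF g L (-x) = conj (TF g L x) := by
  have h1 : R * L ≤ (⌈R * L⌉₊ : ℝ) := Nat.le_ceil _
  rw [TF_eq_sum hs hL h1, TF_eq_sum hs hL h1, map_sum]
  refine Finset.sum_congr rfl fun k _ => ?_
  rw [map_mul, Complex.conj_ofReal, ← Complex.exp_conj, map_mul, Complex.conj_ofReal, Complex.conj_I]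
  congr 2
  push_cast
  ring

section mm

variable {σ : Measure ℝ} [IsFiniteMeasure σ] {g : ℝ → ℝ} {R L : ℝ}

lemma int_mm (hs : ∀ x, R ≤ |x| → g x = 0) (hL : 0 < L) {E : Type} [NormedAddCommGroup E]
    [NormedSpace ℝ E] (H : ℝ → E) (hH : Continuous H) (hb : ∃ C, ∀ x, ‖H x‖ ≤ C) :
    ∫ y, H y ∂(mm σ g L) = ∫ x, (‖TF g L x‖ ^ 2) • (H (L * x) + H (-(L * x))) ∂σ := by
  have hT := TF_cont (f := g) hs hL
  obtain ⟨B, hB0, hB⟩ := TF_bdd (f := g) hs hL
  obtain ⟨C, hC⟩ := hb
  have hC0 : 0 ≤ C := (norm_nonneg _).trans (hC 0)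
  have hml : Measurable fun x : ℝ => L * x := by fun_prop
  unfold mm
  rw [(MeasurableEmbedding.integral_map (f := fun x : ℝ => L * x)
    ((Homeomorph.mulLeft₀ L hL.ne').measurableEmbedding) H),
    integral_withDensity_eq_integral_toReal_smul (by fun_prop) (by simp)]
  have hc : Continuous fun x : ℝ => (‖TF g L x‖ ^ 2) • H (L * x) := by fun_prop
  have hbd : ∀ x, ‖(‖TF g L x‖ ^ 2) • H (L * x)‖ ≤ B ^ 2 * C := by
    intro x
    rw [norm_smul, Real.norm_of_nonneg (by positivity)]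
    exact mul_le_mul (pow_le_pow_left₀ (norm_nonneg _) (hB x) 2) (hC _) (norm_nonneg _) (by positivity)
  have e1 : ∀ x, (ENNReal.ofReal (‖TF g L x‖ ^ 2)).toReal • H (L * x) = (‖TF g L x‖ ^ 2) • H (L * x) := by
    intro x
    rw [ENNReal.toReal_ofReal (by positivity)]
  simp only [e1]
  have i1 : ∀ (τ : Measure ℝ) [IsFiniteMeasure τ], Integrable (fun x : ℝ => (‖TF g L x‖ ^ 2) • H (L * x)) τ :=
    fun τ _ => Integrable.of_bound hc.aestronglyMeasurable _ (Eventually.of_forall hbd)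
  have i2 : Integrable (fun x : ℝ => (‖TF g L x‖ ^ 2) • H (-(L * x))) σ := by
    refine Integrable.of_bound ?_ (B ^ 2 * C) (Eventually.of_forall fun x => ?_)
    · have : Continuous fun x : ℝ => (‖TF g L x‖ ^ 2) • H (-(L * x)) := by fun_prop
      exact this.aestronglyMeasurable
    · rw [norm_smul, Real.norm_of_nonneg (by positivity)]
      exact mul_le_mul (pow_le_pow_left₀ (norm_nonneg _) (hB x) 2) (hC _) (norm_nonneg _) (by positivity)
  rw [integral_add_measure (i1 σ) (i1 _), (MeasurableEmbedding.integral_map (f := fun x : ℝ => -x)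
    ((Homeomorph.neg ℝ).measurableEmbedding) _), ← integral_add (i1 σ)]
  · refine integral_congr_ae (Eventually.of_forall fun x => ?_)
    show (‖TF g L x‖ ^ 2) • H (L * x) + (‖TF g L (-x)‖ ^ 2) • H (L * -x) = _
    rw [TF_neg hs hL, Complex.norm_conj, ← smul_add, mul_neg]
  · refine i2.congr (Eventually.of_forall fun x => ?_)
    show (‖TF g L x‖ ^ 2) • H (-(L * x)) = (‖TF g L (-x)‖ ^ 2) • H (L * -x)
    rw [TF_neg hs hL, Complex.norm_conj, mul_neg]

lemma mm_fin (hs : ∀ x, R ≤ |x| → g x = 0) (hL : 0 < L) : IsFiniteMeasure (mm σ g L) := by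
  obtain ⟨B, hB0, hB⟩ := TF_bdd (f := g) hs hL
  unfold mm
  have : IsFiniteMeasure ((σ + σ.map (fun x => -x)).withDensity
      (fun x => ENNReal.ofReal (‖TF g L x‖ ^ 2))) := by
    refine isFiniteMeasure_withDensity_ofReal ?_
    refine HasFiniteIntegral.of_bounded (C := B ^ 2) (Eventually.of_forall fun x => ?_)
    rw [Real.norm_of_nonneg (by positivity)]
    exact pow_le_pow_left₀ (norm_nonneg _) (hB x) 2
  infer_instance

lemma char_mm (hs : ∀ x, R ≤ |x| → g x = 0) (hL : 0 < L) (s : ℝ) :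
    charFun (mm σ g L) s = ((2 * psi σ g L s : ℝ) : ℂ) := by
  rw [charFun_apply_real, int_mm hs hL (fun x : ℝ => cexp (s * x * I)) (by fun_prop) ⟨1, fun x => by
    have : (s : ℂ) * x * I = ((s * x : ℝ) : ℂ) * I := by push_cast; ring
    rw [this, Complex.norm_exp_ofReal_mul_I]⟩]
  unfold psi
  rw [← integral_const_mul, ← integral_complex_ofReal]
  refine integral_congr_ae (Eventually.of_forall fun x => ?_)
  show (‖TF g L x‖ ^ 2) • (cexp (s * ((L * x : ℝ) : ℂ) * I) + cexp (s * ((-(L * x) : ℝ) : ℂ) * I)) = _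
  have e1 : cexp (s * ((L * x : ℝ) : ℂ) * I) + cexp (s * ((-(L * x) : ℝ) : ℂ) * I) =
      ((2 * Real.cos (s * (L * x)) : ℝ) : ℂ) := by
    push_cast
    rw [Complex.two_cos]
    (congr 2; ring_nf)
  rw [e1, Complex.real_smul, ← Complex.ofReal_mul]
  congr 1
  ring

end mm

end Pool.Agent.Q172.PS
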