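import Pool.Agent.Q172.PS.V

/-!
# The law of the power spectrum at zero (helper172)
-/

set_option autoImplicit false

namespace Pool.Agent.Q172.PS

open Finset MeasureTheory Filter Topology Complex ProbabilityTheory
open Pool.Agent.Q278.GF Pool.Agent.Q278.MC Pool.Agent.Q278.KM
open _root_.Q172.ZetaLim (IsLim seen map_shift shift)
open _root_.Q172.Mem (ee UU UU_ee memLp_P lin_norm)
open scoped ContDiff RealInnerProductSpace ComplexConjugate FourierTransform BoundedContinuousFunction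

lemma four_HT (g : ℝ → ℝ) (ξ : ℝ) : 𝓕 (fc g) ξ = HT g (-(2 * Real.pi * ξ)) := by
  rw [Real.fourier_real_eq_integral_exp_smul]
  unfold HT
  refine integral_congr_ae (Eventually.of_forall fun t => ?_)
  show cexp ((-2 * Real.pi * t * ξ : ℝ) * I) • fc g t = (g t : ℂ) * cexp ((t * -(2 * Real.pi * ξ) : ℝ) * I)
  rw [smul_eq_mul, mul_comm]
  unfold fc
  congr 3
  push_cast
  ring

lemma HT_neg (g : ℝ → ℝ) (y : ℝ) : HT g (-y) = conj (HT g y) := by
  unfold HT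
  rw [← integral_conj]
  refine integral_congr_ae (Eventually.of_forall fun t => ?_)
  show (g t : ℂ) * cexp ((t * -y : ℝ) * I) = conj ((g t : ℂ) * cexp ((t * y : ℝ) * I))
  rw [map_mul, Complex.conj_ofReal, ← Complex.exp_conj, map_mul, Complex.conj_ofReal, Complex.conj_I]
  congr 2
  push_cast
  ring

lemma norm_HT_neg (g : ℝ → ℝ) (y : ℝ) : ‖HT g (-y)‖ = ‖HT g y‖ := by
  rw [HT_neg, Complex.norm_conj]

lemma norm_four (g : ℝ → ℝ) (ξ : ℝ) : ‖𝓕 (fc g) ξ‖ = ‖HT g (2 * Real.pi * ξ)‖ := by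
  rw [four_HT, norm_HT_neg]

lemma norm_four_neg (g : ℝ → ℝ) (ξ : ℝ) : ‖𝓕 (fc g) (-ξ)‖ = ‖𝓕 (fc g) ξ‖ := by
  rw [norm_four, norm_four, mul_neg, norm_HT_neg]

lemma HT_cont {g : ℝ → ℝ} (hg : CC (fc g)) : Continuous (HT g) := by
  have h1 := four_contR hg
  have hpi := Real.pi_pos
  have e : HT g = fun y => 𝓕 (fc g) (-(y / (2 * Real.pi))) := by
    funext y
    rw [four_HT]
    congr 1
    field_simp
  rw [e]
  fun_prop

/-- the limit measure -/
noncomputable def nn (g : ℝ → ℝ) : Measure ℝ :=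
  (volume.withDensity (fun ξ : ℝ => ENNReal.ofReal (2 * |ξ| * ‖𝓕 (fc g) ξ‖ ^ 2))).map
    (fun ξ => 2 * Real.pi * ξ)

lemma dens_int {g : ℝ → ℝ} (hg : CC (fc g)) : Integrable fun ξ : ℝ => 2 * |ξ| * ‖𝓕 (fc g) ξ‖ ^ 2 := by
  have h1 := (cv_int hg hg).const_mul 2
  refine h1.congr (Eventually.of_forall fun ξ => ?_)
  show 2 * (|ξ| * (𝓕 (fc g) ξ * conj (𝓕 (fc g) ξ)).re) = _
  rw [Complex.mul_conj, Complex.ofReal_re, Complex.normSq_eq_norm_sq]
  ring

lemma nn_fin {g : ℝ → ℝ} (hg : CC (fc g)) : IsFiniteMeasure (nn g) := by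
  unfold nn
  have : IsFiniteMeasure (volume.withDensity (fun ξ : ℝ => ENNReal.ofReal (2 * |ξ| * ‖𝓕 (fc g) ξ‖ ^ 2))) :=
    isFiniteMeasure_withDensity_ofReal (dens_int hg).2
  infer_instance

lemma int_nn {g : ℝ → ℝ} (hg : CC (fc g)) {E : Type} [NormedAddCommGroup E] [NormedSpace ℝ E]
    (H : ℝ → E) : ∫ y, H y ∂(nn g) = ∫ ξ : ℝ, (2 * |ξ| * ‖𝓕 (fc g) ξ‖ ^ 2) • H (2 * Real.pi * ξ) := by
  have hpi : (2 * Real.pi : ℝ) ≠ 0 := by positivity
  have h1 := four_contR hg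
  unfold nn
  rw [(MeasurableEmbedding.integral_map (f := fun x : ℝ => 2 * Real.pi * x)
    ((Homeomorph.mulLeft₀ (2 * Real.pi) hpi).measurableEmbedding) H),
    integral_withDensity_eq_integral_toReal_smul (by fun_prop)
      (Eventually.of_forall fun _ => ENNReal.ofReal_lt_top)]
  refine integral_congr_ae (Eventually.of_forall fun ξ => ?_)
  show (ENNReal.ofReal (2 * |ξ| * ‖𝓕 (fc g) ξ‖ ^ 2)).toReal • H (2 * Real.pi * ξ) = _
  rw [ENNReal.toReal_ofReal (by positivity)]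

lemma char_nn {g : ℝ → ℝ} (hg : CC (fc g)) (s : ℝ) :
    charFun (nn g) s = ((2 * cv (tra g s) g : ℝ) : ℂ) := by
  rw [charFun_apply_real, int_nn hg]
  set F : ℝ → ℂ := fun ξ => (2 * |ξ| * ‖𝓕 (fc g) ξ‖ ^ 2) • cexp (s * ((2 * Real.pi * ξ : ℝ) : ℂ) * I) with hF
  have h1 := four_contR hg
  have hFi : Integrable F := by
    refine (dens_int hg).mono' ?_ (Eventually.of_forall fun ξ => ?_)
    · have : Continuous F := by rw [hF]; fun_prop
      exact this.aestronglyMeasurable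
    · rw [hF]
      simp only
      have : (s : ℂ) * ((2 * Real.pi * ξ : ℝ) : ℂ) * I = ((s * (2 * Real.pi * ξ) : ℝ) : ℂ) * I := by
        push_cast; ring
      rw [norm_smul, this, Complex.norm_exp_ofReal_mul_I, mul_one, Real.norm_of_nonneg (by positivity)]
  have h2 : ∫ ξ, F ξ = ∫ ξ, F (-ξ) := (integral_neg_eq_self F volume).symm
  have h3 : (2 : ℂ) * ∫ ξ, F ξ = ∫ ξ, (F ξ + F (-ξ)) := by
    rw [integral_add hFi hFi.comp_neg, ← h2]
    ring
  have h4 : ∀ ξ, F ξ + F (-ξ) = ((4 * (|ξ| * (Real.cos (2 * Real.pi * s * ξ) * ‖𝓕 (fc g) ξ‖ ^ 2)) : ℝ) : ℂ) := by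
    intro ξ
    rw [hF]
    simp only
    rw [abs_neg, norm_four_neg, ← smul_add]
    have e1 : cexp (s * ((2 * Real.pi * ξ : ℝ) : ℂ) * I) + cexp (s * ((2 * Real.pi * -ξ : ℝ) : ℂ) * I) =
        ((2 * Real.cos (2 * Real.pi * s * ξ) : ℝ) : ℂ) := by
      push_cast
      rw [Complex.two_cos]
      congr 2
      · ring
      · ring
    rw [e1, Complex.real_smul, ← Complex.ofReal_mul]
    congr 1
    ring
  have h5 : (2 : ℂ) * ∫ ξ, F ξ = 2 * ((2 * cv (tra g s) g : ℝ) : ℂ) := by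
    rw [h3]
    simp only [h4]
    rw [integral_complex_ofReal, integral_const_mul, cv_tra]
    push_cast
    ring
  exact mul_left_cancel₀ two_ne_zero h5

variable {P : ℕ → ProbabilityMeasure (ℤ → ℝ)} {σ : ℕ → Measure ℝ} {L : ℕ → ℝ}

/-- weak convergence of the weighted spectral mass -/
theorem weak_mm (hP : ∀ n, IsLim (seen dl) (P n)) (hσ : ∀ n, Spec (P n : Measure (ℤ → ℝ)) (σ n))
    (hL1 : ∀ n, 1 ≤ L n) (hL : Tendsto L atTop atTop) {g : ℝ → ℝ} (hg1 : ContDiff ℝ ∞ g)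
    (hg2 : HasCompactSupport g) (hg0 : g ≠ 0) (H : ℝ →ᵇ ℝ) :
    Tendsto (fun n => ∫ x, (‖TF g (L n) x‖ ^ 2) • (H (L n * x) + H (-(L n * x))) ∂(σ n)) atTop
      (𝓝 (∫ ξ : ℝ, (2 * |ξ| * ‖𝓕 (fc g) ξ‖ ^ 2) • H (2 * Real.pi * ξ))) := by
  obtain ⟨φ', B0, B2, R, hT⟩ := tst_of hg1 hg2
  have hCC := cc_of hg1 hg2
  have hLp : ∀ n, 0 < L n := fun n => by linarith [hL1 n]
  have i0 : ∀ n, IsFiniteMeasure (σ n) := fun n => (hσ n).1
  have i1 : ∀ n, IsFiniteMeasure (mm (σ n) g (L n)) := fun n => mm_fin hT.supp (hLp n)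
  have i2 := nn_fin hCC
  have hpos : 0 < cv g g := cv_pos hCC hg0
  have hne : nn g ≠ 0 := by
    intro h0
    have h1 := char_nn hCC 0
    have e0 : tra g 0 = g := by
      funext t
      unfold tra
      rw [sub_zero]
    rw [h0, charFun_zero_measure, e0] at h1
    have h2 : (2 * cv g g : ℝ) = 0 := by exact_mod_cast h1.symm
    linarith
  have h := levy_fin (fun n => mm (σ n) g (L n)) (nn g) hne (fun s => ?_) H
  · rw [int_nn hCC] at h
    refine h.congr fun n => ?_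
    exact int_mm hT.supp (hLp n) _ H.continuous ⟨‖H‖, fun x => H.norm_coe_le_norm x⟩
  · rw [char_nn hCC]
    have e : ∀ n, charFun (mm (σ n) g (L n)) s = ((2 * psi (σ n) g (L n) s : ℝ) : ℂ) :=
      fun n => char_mm hT.supp (hLp n) s
    simp only [e]
    refine (Complex.continuous_ofReal.tendsto _).comp ?_
    refine Tendsto.const_mul 2 ?_
    rw [Metric.tendsto_nhds]
    intro ε hε
    obtain ⟨L0, hL0, h1⟩ := char_lim hg1 hg2 s (ε := ε / 2) (by positivity)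
    filter_upwards [hL.eventually_ge_atTop L0] with n hn
    rw [Real.dist_eq]
    have := h1 (P n) (hP n) (σ n) (hσ n) (L n) hn
    linarith

end Pool.Agent.Q172.PS
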