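import Pool.Agent.Q172.PS.W

/-!
# The power spectrum near zero (helper172)
-/

set_option autoImplicit false

namespace Pool.Agent.Q172.PS

open Finset MeasureTheory Filter Topology Complex ProbabilityTheory
open Pool.Agent.Q278.GF Pool.Agent.Q278.MC Pool.Agent.Q278.KM
open _root_.Q172.ZetaLim (IsLim seen map_shift shift)
open _root_.Q172.Mem (ee UU UU_ee memLp_P lin_norm)
open scoped ContDiff RealInnerProductSpace ComplexConjugate FourierTransform BoundedContinuousFunction

/-- test functions have Lipschitz bounds -/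
lemma lp1_of {g : ℝ → ℝ} (h1 : ContDiff ℝ ∞ g) (h2 : HasCompactSupport g) :
    ∃ B M R : ℝ, Lp1 g B M R := by
  obtain ⟨φ', B0, B2, R, hT⟩ := tst_of h1 h2
  obtain ⟨C, hC⟩ := ContDiff.lipschitzWith_of_hasCompactSupport (n := ∞) h2 h1 (by simp)
  refine ⟨B0, C, R, hT.b0, fun s t => ?_, hT.supp, hT.R1⟩
  have := hC.dist_le_mul s t
  rwa [Real.dist_eq, Real.dist_eq] at this

lemma HT_bdd {g : ℝ → ℝ} (hg : CC (fc g)) : ∃ G : ℝ, 0 ≤ G ∧ ∀ y, ‖HT g y‖ ≤ G := by
  obtain ⟨K, hK, h⟩ := four_bound hg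
  have hpi := Real.pi_pos
  refine ⟨K, hK.le, fun y => ?_⟩
  have h1 := h (y / (2 * Real.pi))
  rw [norm_four, show 2 * Real.pi * (y / (2 * Real.pi)) = y by field_simp] at h1
  refine h1.trans ?_
  have h2 : (1 + (y / (2 * Real.pi)) ^ 2)⁻¹ ≤ 1 :=
    inv_le_one_of_one_le₀ (by nlinarith [sq_nonneg (y / (2 * Real.pi))])
  have h3 : (1 + (y / (2 * Real.pi)) ^ 2)⁻¹ ^ 3 ≤ 1 := pow_le_one₀ (by positivity) h2
  nlinarith

/-- a test function whose transform does not vanish on a given interval -/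
lemma exists_g {B : ℝ} (hB : 0 < B) : ∃ g : ℝ → ℝ, ContDiff ℝ ∞ g ∧ HasCompactSupport g ∧ g ≠ 0 ∧
    ∃ c : ℝ, 0 < c ∧ ∀ y, |y| ≤ B → c ≤ ‖HT g y‖ := by
  let b : ContDiffBump (0 : ℝ) := ⟨1 / (2 * B), 1 / B, by positivity, by
    rw [div_lt_div_iff_of_pos_left one_pos (by positivity) hB]
    linarith⟩
  have hpos : 0 < ∫ t, b t := b.integral_pos
  have hbi : Integrable (fun t => b t) := b.continuous.integrable_of_hasCompactSupport b.hasCompactSupport
  refine ⟨b, b.contDiff, b.hasCompactSupport, ?_, (∫ t, b t) / 2, by positivity, fun y hy => ?_⟩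
  · intro h0
    have : (∫ t, b t) = 0 := by
      have e : ∀ t, b t = 0 := fun t => congrFun h0 t
      simp only [e, integral_zero]
    linarith
  · refine le_trans ?_ (Complex.re_le_norm _)
    unfold HT
    have hc : Continuous fun t : ℝ => (b t : ℂ) * cexp ((t * y : ℝ) * I) := by
      have := b.continuous
      fun_prop
    have hi : Integrable (fun t : ℝ => (b t : ℂ) * cexp ((t * y : ℝ) * I)) := by
      refine hc.integrable_of_hasCompactSupport ?_
      refine HasCompactSupport.mul_right ?_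
      exact b.hasCompactSupport.comp_left (g := fun x : ℝ => (x : ℂ)) Complex.ofReal_zero
    have e1 : (∫ t : ℝ, (b t : ℂ) * cexp ((t * y : ℝ) * I)).re = ∫ t : ℝ, b t * Real.cos (t * y) := by
      have := Complex.reCLM.integral_comp_comm hi
      rw [Complex.reCLM_apply] at this
      rw [← this]
      refine integral_congr_ae (Eventually.of_forall fun t => ?_)
      show ((b t : ℂ) * cexp ((t * y : ℝ) * I)).re = b t * Real.cos (t * y)
      rw [Complex.re_ofReal_mul, Complex.exp_ofReal_mul_I_re]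
    rw [e1, div_eq_inv_mul, ← integral_const_mul]
    have hi2 : Integrable fun t : ℝ => b t * Real.cos (t * y) := by
      refine Continuous.integrable_of_hasCompactSupport ?_ ?_
      · have := b.continuous
        fun_prop
      · exact b.hasCompactSupport.mul_right
    refine integral_mono (hbi.const_mul _) hi2 fun t => ?_
    have hb0 : 0 ≤ b t := b.nonneg
    by_cases ht : |t| < 1 / B
    · have h1 : |t * y| ≤ 1 := by
        rw [abs_mul]
        calc |t| * |y| ≤ (1 / B) * B := mul_le_mul ht.le hy (abs_nonneg _) (by positivity)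
          _ = 1 := by field_simp
      have h2 := Real.one_sub_sq_div_two_le_cos (x := t * y)
      have h3 : (t * y) ^ 2 ≤ 1 := by rw [← sq_abs]; nlinarith [abs_nonneg (t * y)]
      show (2 : ℝ)⁻¹ * b t ≤ b t * Real.cos (t * y)
      nlinarith
    · push Not at ht
      have h1 : b t = 0 := b.zero_of_le_dist (by rw [Real.dist_eq, sub_zero]; exact ht)
      show (2 : ℝ)⁻¹ * b t ≤ b t * Real.cos (t * y)
      rw [h1]
      simp

variable {P : ℕ → ProbabilityMeasure (ℤ → ℝ)} {σ : ℕ → Measure ℝ} {L : ℕ → ℝ}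

/-- **vague convergence of the power spectrum at zero** -/
theorem vague (hP : ∀ n, IsLim (seen dl) (P n)) (hσ : ∀ n, Spec (P n : Measure (ℤ → ℝ)) (σ n))
    (hL1 : ∀ n, 1 ≤ L n) (hL : Tendsto L atTop atTop) {H : ℝ → ℝ} (hH : Continuous H)
    (hH0 : ∀ y, 0 ≤ H y) (hev : ∀ y, H (-y) = H y) {B : ℝ} (hB : 0 < B) (hs : ∀ y, B ≤ |y| → H y = 0) :
    Tendsto (fun n => L n ^ 2 * ∫ x, H (L n * x) ∂(σ n)) atTop
      (𝓝 (∫ ξ : ℝ, |ξ| * H (2 * Real.pi * ξ))) := by
  obtain ⟨g, hg1, hg2, hg0, c, hc, hgc⟩ := exists_g hB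
  have hCC := cc_of hg1 hg2
  obtain ⟨B0, M, R, hT⟩ := lp1_of hg1 hg2
  obtain ⟨G, hG0, hG⟩ := HT_bdd hCC
  have hTc := HT_cont hCC
  have hR := hT.R1
  have hLp : ∀ n, 0 < L n := fun n => by linarith [hL1 n]
  have hpi := Real.pi_pos
  -- a bound for `H`
  have hHs : HasCompactSupport H := HasCompactSupport.of_support_subset_isCompact
    (isCompact_Icc (a := -B) (b := B)) (fun y hy => by
      rw [Set.mem_Icc, ← abs_le]
      by_contra hcon
      push Not at hcon
      exact hy (hs y hcon.le))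
  obtain ⟨A, hA⟩ := hHs.exists_bound_of_continuous hH
  have hA0 : 0 ≤ A := (norm_nonneg _).trans (hA 0)
  -- the test function
  have hden : ∀ y, 0 < max (‖HT g y‖ ^ 2) (c ^ 2) := fun y => lt_max_of_lt_right (by positivity)
  set h : ℝ →ᵇ ℝ := BoundedContinuousFunction.ofNormedAddCommGroup
    (fun y => H y / max (‖HT g y‖ ^ 2) (c ^ 2))
    (hH.div ((hTc.norm.pow 2).max continuous_const) fun y => (hden y).ne') (A / c ^ 2) (fun y => by
      rw [norm_div, Real.norm_of_nonneg (hden y).le]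
      exact div_le_div₀ hA0 (hA y) (by positivity) (le_max_right _ _)) with hh
  have hhv : ∀ y, h y = H y / max (‖HT g y‖ ^ 2) (c ^ 2) := fun y => rfl
  have hhev : ∀ y, h (-y) = h y := fun y => by rw [hhv, hhv, hev, norm_HT_neg]
  have hkey : ∀ y, ‖HT g y‖ ^ 2 * h y = H y := by
    intro y
    by_cases hy : |y| ≤ B
    · have h1 := hgc y hy
      have h2 : c ^ 2 ≤ ‖HT g y‖ ^ 2 := pow_le_pow_left₀ hc.le h1 2
      have h3 : 0 < ‖HT g y‖ ^ 2 := lt_of_lt_of_le (by positivity) h2
      rw [hhv, max_eq_left h2, mul_comm, div_mul_cancel₀ _ h3.ne']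
    · push Not at hy
      rw [hhv, hs y hy.le]
      simp
  have hw := weak_mm hP hσ hL1 hL hg1 hg2 hg0 h
  -- the limit
  have e1 : ∫ ξ : ℝ, (2 * |ξ| * ‖𝓕 (fc g) ξ‖ ^ 2) • h (2 * Real.pi * ξ) =
      2 * ∫ ξ : ℝ, |ξ| * H (2 * Real.pi * ξ) := by
    rw [← integral_const_mul]
    refine integral_congr_ae (Eventually.of_forall fun ξ => ?_)
    show (2 * |ξ| * ‖𝓕 (fc g) ξ‖ ^ 2) • h (2 * Real.pi * ξ) = 2 * (|ξ| * H (2 * Real.pi * ξ))
    rw [← hkey (2 * Real.pi * ξ), norm_four, smul_eq_mul]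
    ring
  rw [e1] at hw
  -- the error
  set T : ℕ → ℝ := fun n => ∫ x, ‖TF g (L n) x‖ ^ 2 * h (L n * x) ∂(σ n) with hTdef
  set S : ℕ → ℝ := fun n => L n ^ 2 * ∫ x, H (L n * x) ∂(σ n) with hSdef
  have hTl : Tendsto T atTop (𝓝 (∫ ξ : ℝ, |ξ| * H (2 * Real.pi * ξ))) := by
    have e2 : ∀ n, ∫ x, (‖TF g (L n) x‖ ^ 2) • (h (L n * x) + h (-(L n * x))) ∂(σ n) = 2 * T n := by
      intro n
      rw [hTdef]
      simp only
      rw [← integral_const_mul]
      refine integral_congr_ae (Eventually.of_forall fun x => ?_)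
      show (‖TF g (L n) x‖ ^ 2) • (h (L n * x) + h (-(L n * x))) = 2 * (‖TF g (L n) x‖ ^ 2 * h (L n * x))
      rw [hhev, smul_eq_mul]
      ring
    simp only [e2] at hw
    have h3 := hw.const_mul (1 / 2)
    refine (h3.congr fun n => ?_).trans (le_of_eq ?_)
    · ring
    · congr 1
      ring
  set κ : ℕ → ℝ := fun n => ((2 * R + 5) * (M + B0 * B) * (2 * G + (2 * R + 5) * (M + B0 * B)) / c ^ 2) / L n
    with hκ
  have hM : 0 ≤ M := by
    have := (abs_nonneg _).trans (hT.lip 1 0)
    rw [sub_zero, abs_one, mul_one] at this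
    exact this
  have hB0 : 0 ≤ B0 := (abs_nonneg _).trans (hT.b 0)
  set W : ℝ := (2 * R + 5) * (M + B0 * B) with hW
  have hW0 : 0 ≤ W := by positivity
  have hκ0 : Tendsto κ atTop (𝓝 0) := tendsto_const_nhds.div_atTop hL
  have herr : ∀ n, |T n - S n| ≤ κ n * S n := by
    intro n
    have hn := hLp n
    have hTFc := TF_cont (f := g) hT.supp hn
    obtain ⟨Bd, hBd0, hBd⟩ := TF_bdd (f := g) hT.supp hn
    have := (hσ n).1
    have i1 : Integrable (fun x => ‖TF g (L n) x‖ ^ 2 * h (L n * x)) (σ n) := by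
      refine Integrable.of_bound (by fun_prop) (Bd ^ 2 * (A / c ^ 2)) (Eventually.of_forall fun x => ?_)
      rw [norm_mul, Real.norm_of_nonneg (by positivity : (0 : ℝ) ≤ ‖TF g (L n) x‖ ^ 2)]
      refine mul_le_mul (pow_le_pow_left₀ (norm_nonneg _) (hBd x) 2) ?_ (norm_nonneg _) (by positivity)
      rw [hhv, norm_div, Real.norm_of_nonneg (hden _).le]
      exact div_le_div₀ hA0 (hA _) (by positivity) (le_max_right _ _)
    have i2 : Integrable (fun x => H (L n * x)) (σ n) :=
      Integrable.of_bound (by fun_prop) A (Eventually.of_forall fun x => hA _)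
    rw [hTdef, hSdef]
    simp only
    rw [← integral_const_mul, ← integral_const_mul, ← integral_sub i1 (i2.const_mul _)]
    refine abs_integral_le_integral_abs.trans ?_
    refine integral_mono (i1.sub (i2.const_mul _)).abs ((i2.const_mul _).const_mul _) fun x => ?_
    show |‖TF g (L n) x‖ ^ 2 * h (L n * x) - L n ^ 2 * H (L n * x)| ≤ κ n * (L n ^ 2 * H (L n * x))
    set y := L n * x with hy
    by_cases hyB : |y| ≤ B
    · -- the main range
      have h1 := TF_riem hT (hL1 n) y
      have ex : y / L n = x := by rw [hy]; field_simp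
      rw [ex] at h1
      set a := ‖(1 / L n : ℝ) • TF g (L n) x‖ with ha
      set b := ‖HT g y‖ with hb
      have ea : ‖TF g (L n) x‖ ^ 2 = L n ^ 2 * a ^ 2 := by
        rw [ha, norm_smul, Real.norm_of_nonneg (by positivity)]
        field_simp
      have h2 : |a - b| ≤ W / L n := by
        refine (abs_norm_sub_norm_le _ _).trans (h1.trans ?_)
        rw [hW]
        gcongr
      have hb0 : 0 ≤ b := norm_nonneg _
      have ha0 : 0 ≤ a := norm_nonneg _
      have hbG : b ≤ G := hG y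
      have h3 : |a ^ 2 - b ^ 2| ≤ W / L n * (2 * G + W) := by
        have e : a ^ 2 - b ^ 2 = (a - b) * (a + b) := by ring
        rw [e, abs_mul, abs_of_nonneg (by linarith : 0 ≤ a + b)]
        have h4 : W / L n ≤ W := div_le_self hW0 (hL1 n)
        have h5 : a ≤ b + W / L n := by linarith [(abs_le.1 h2).2]
        exact mul_le_mul h2 (by linarith) (by linarith) (by positivity)
      have hbc : c ^ 2 ≤ b ^ 2 := pow_le_pow_left₀ hc.le (hgc y hyB) 2
      have hb2 : 0 < b ^ 2 := lt_of_lt_of_le (by positivity) hbc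
      have hhy : h y = H y / b ^ 2 := by rw [hhv, max_eq_left hbc]
      rw [ea, hhy]
      have e3 : L n ^ 2 * a ^ 2 * (H y / b ^ 2) - L n ^ 2 * H y = (L n ^ 2 * H y) * ((a ^ 2 - b ^ 2) / b ^ 2) := by
        rw [sub_div, div_self hb2.ne']
        ring
      have hLH : 0 ≤ L n ^ 2 * H y := mul_nonneg (by positivity) (hH0 y)
      rw [e3, abs_mul, abs_of_nonneg hLH, abs_div, abs_of_pos hb2, mul_comm (κ n)]
      refine mul_le_mul_of_nonneg_left ?_ hLH
      rw [hκ]
      simp only
      calc |a ^ 2 - b ^ 2| / b ^ 2 ≤ (W / L n * (2 * G + W)) / c ^ 2 :=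
            div_le_div₀ (by positivity) h3 (by positivity) hbc
        _ = W * (2 * G + W) / c ^ 2 / L n := by ring
    · push Not at hyB
      have h1 : H y = 0 := hs y hyB.le
      have h2 : h y = 0 := by rw [hhv, h1, zero_div]
      rw [h1, h2]
      simp
  have hS0 : ∀ n, 0 ≤ S n := fun n => mul_nonneg (by positivity) (integral_nonneg fun x => hH0 _)
  -- conclusion
  have hdiff : Tendsto (fun n => T n - S n) atTop (𝓝 0) := by
    rw [tendsto_zero_iff_abs_tendsto_zero]
    have hup : ∀ᶠ n in atTop, |T n - S n| ≤ κ n * (2 * T n) := by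
      have hκ1 : ∀ᶠ n in atTop, κ n ≤ 1 / 2 := hκ0.eventually_le_const (by norm_num)
      filter_upwards [hκ1] with n hn
      have h1 := herr n
      have h2 := hS0 n
      have h3 : S n ≤ 2 * T n := by
        have := (abs_le.1 h1).1
        nlinarith
      have hκn : 0 ≤ κ n := by
        rw [hκ]
        have := hLp n
        positivity
      exact h1.trans (mul_le_mul_of_nonneg_left h3 hκn)
    have hz : Tendsto (fun n => κ n * (2 * T n)) atTop (𝓝 0) := by
      have := hκ0.mul (hTl.const_mul 2)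
      rwa [zero_mul] at this
    exact squeeze_zero' (Eventually.of_forall fun n => abs_nonneg _) hup hz
  have h5 := hTl.sub hdiff
  rw [sub_zero] at h5
  refine h5.congr fun n => ?_
  rw [hSdef]
  ring

end Pool.Agent.Q172.PS
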