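import Pool.Agent.Q172.PS.X

/-!
# The mass of the power spectrum near zero (helper172)
-/

set_option autoImplicit false

namespace Pool.Agent.Q172.PS

open Finset MeasureTheory Filter Topology Complex ProbabilityTheory
open Pool.Agent.Q278.GF Pool.Agent.Q278.MC Pool.Agent.Q278.KM
open _root_.Q172.ZetaLim (IsLim seen map_shift shift)
open _root_.Q172.Mem (ee UU UU_ee memLp_P lin_norm)
open scoped ContDiff RealInnerProductSpace ComplexConjugate FourierTransform BoundedContinuousFunction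

/-- trapezoids -/
noncomputable def trap (a b y : ℝ) : ℝ := max 0 (min 1 ((b - |y|) / (b - a)))

lemma trap_cont (a b : ℝ) : Continuous (trap a b) := by
  unfold trap
  fun_prop

lemma trap_nonneg (a b y : ℝ) : 0 ≤ trap a b y := le_max_left _ _

lemma trap_le (a b y : ℝ) : trap a b y ≤ 1 := max_le zero_le_one (min_le_left _ _)

lemma trap_even (a b y : ℝ) : trap a b (-y) = trap a b y := by
  unfold trap
  rw [abs_neg]

lemma trap_one {a b y : ℝ} (hab : a < b) (hy : |y| ≤ a) : trap a b y = 1 := by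
  unfold trap
  have : 1 ≤ (b - |y|) / (b - a) := by
    rw [le_div_iff₀ (by linarith)]
    linarith
  rw [min_eq_left this, max_eq_right zero_le_one]

lemma trap_zero {a b y : ℝ} (hab : a < b) (hy : b ≤ |y|) : trap a b y = 0 := by
  unfold trap
  have : (b - |y|) / (b - a) ≤ 0 := div_nonpos_of_nonpos_of_nonneg (by linarith) (by linarith)
  rw [min_eq_right (by linarith), max_eq_left this]

/-- the mass of `|ξ| dξ` -/
lemma abs_mass {r : ℝ} (hr : 0 ≤ r) :
    Integrable (fun ξ : ℝ => |ξ| * (Set.Icc (-r) r).indicator (fun _ => (1 : ℝ)) ξ) ∧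
    ∫ ξ : ℝ, |ξ| * (Set.Icc (-r) r).indicator (fun _ => (1 : ℝ)) ξ = r ^ 2 := by
  have e : (fun ξ : ℝ => |ξ| * (Set.Icc (-r) r).indicator (fun _ => (1 : ℝ)) ξ) =
      (Set.Icc (-r) r).indicator (fun ξ : ℝ => |ξ|) := by
    funext ξ
    by_cases h : ξ ∈ Set.Icc (-r) r
    · rw [Set.indicator_of_mem h, Set.indicator_of_mem h, mul_one]
    · rw [Set.indicator_of_notMem h, Set.indicator_of_notMem h, mul_zero]
  rw [e]
  constructor
  · rw [integrable_indicator_iff measurableSet_Icc]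
    exact continuous_abs.continuousOn.integrableOn_Icc
  · rw [integral_indicator measurableSet_Icc, integral_Icc_eq_integral_Ioc,
      ← intervalIntegral.integral_of_le (by linarith),
      ← intervalIntegral.integral_add_adjacent_intervals (b := 0)
        (continuous_abs.intervalIntegrable _ _) (continuous_abs.intervalIntegrable _ _)]
    have e1 : ∫ x in (-r)..0, |x| = ∫ x in (-r)..0, -x := by
      refine intervalIntegral.integral_congr fun x hx => ?_
      rw [Set.uIcc_of_le (by linarith)] at hx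
      exact abs_of_nonpos hx.2
    have e2 : ∫ x in (0 : ℝ)..r, |x| = ∫ x in (0 : ℝ)..r, x := by
      refine intervalIntegral.integral_congr fun x hx => ?_
      rw [Set.uIcc_of_le hr] at hx
      exact abs_of_nonneg hx.1
    rw [e1, e2, intervalIntegral.integral_neg, integral_id, integral_id]
    ring

lemma trap_int {a b : ℝ} (ha : 0 ≤ a) (hab : a < b) :
    a ^ 2 / (4 * Real.pi ^ 2) ≤ ∫ ξ : ℝ, |ξ| * trap a b (2 * Real.pi * ξ) ∧
      ∫ ξ : ℝ, |ξ| * trap a b (2 * Real.pi * ξ) ≤ b ^ 2 / (4 * Real.pi ^ 2) := by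
  have hpi := Real.pi_pos
  obtain ⟨i1, j1⟩ := abs_mass (r := a / (2 * Real.pi)) (by positivity)
  obtain ⟨i2, j2⟩ := abs_mass (r := b / (2 * Real.pi)) (by
    have : 0 < b := by linarith
    positivity)
  have habs : ∀ ξ : ℝ, |2 * Real.pi * ξ| = 2 * Real.pi * |ξ| := fun ξ => by
    rw [abs_mul, abs_of_pos (by positivity)]
  have hup : ∀ ξ : ℝ, |ξ| * trap a b (2 * Real.pi * ξ) ≤
      |ξ| * (Set.Icc (-(b / (2 * Real.pi))) (b / (2 * Real.pi))).indicator (fun _ => (1 : ℝ)) ξ := by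
    intro ξ
    refine mul_le_mul_of_nonneg_left ?_ (abs_nonneg _)
    by_cases h : ξ ∈ Set.Icc (-(b / (2 * Real.pi))) (b / (2 * Real.pi))
    · rw [Set.indicator_of_mem h]
      exact trap_le _ _ _
    · rw [Set.indicator_of_notMem h, trap_zero hab]
      rw [habs]
      rw [Set.mem_Icc, ← abs_le] at h
      push Not at h
      rw [div_lt_iff₀ (by positivity)] at h
      linarith
  have hlow : ∀ ξ : ℝ, |ξ| * (Set.Icc (-(a / (2 * Real.pi))) (a / (2 * Real.pi))).indicator (fun _ => (1 : ℝ)) ξ ≤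
      |ξ| * trap a b (2 * Real.pi * ξ) := by
    intro ξ
    refine mul_le_mul_of_nonneg_left ?_ (abs_nonneg _)
    by_cases h : ξ ∈ Set.Icc (-(a / (2 * Real.pi))) (a / (2 * Real.pi))
    · rw [Set.indicator_of_mem h, trap_one hab]
      rw [habs]
      rw [Set.mem_Icc, ← abs_le, le_div_iff₀ (by positivity)] at h
      linarith
    · rw [Set.indicator_of_notMem h]
      exact trap_nonneg _ _ _
  have i3 : Integrable (fun ξ : ℝ => |ξ| * trap a b (2 * Real.pi * ξ)) := by
    refine i2.mono' ?_ (Eventually.of_forall fun ξ => ?_)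
    · have : Continuous fun ξ : ℝ => |ξ| * trap a b (2 * Real.pi * ξ) := by
        have := trap_cont a b
        fun_prop
      exact this.aestronglyMeasurable
    · rw [Real.norm_of_nonneg (mul_nonneg (abs_nonneg _) (trap_nonneg _ _ _))]
      exact hup ξ
  have e : ∀ c : ℝ, (c / (2 * Real.pi)) ^ 2 = c ^ 2 / (4 * Real.pi ^ 2) := fun c => by
    rw [div_pow]
    ring
  constructor
  · rw [← e, ← j1]
    exact integral_mono i1 i3 hlow
  · rw [← e, ← j2]
    exact integral_mono i3 i2 hup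

variable {P : ℕ → ProbabilityMeasure (ℤ → ℝ)} {σ : ℕ → Measure ℝ} {L : ℕ → ℝ}

lemma seq_law (hP : ∀ n, IsLim (seen dl) (P n)) (hσ : ∀ n, Spec (P n : Measure (ℤ → ℝ)) (σ n))
    (hL1 : ∀ n, 1 ≤ L n) (hL : Tendsto L atTop atTop) :
    Tendsto (fun n => L n ^ 2 * (σ n).real (Set.Icc 0 (1 / L n))) atTop (𝓝 (1 / (4 * Real.pi ^ 2))) := by
  have hpi := Real.pi_pos
  have hpi3 := Real.pi_gt_three
  rw [Metric.tendsto_nhds]
  intro ε hε
  -- choice of the width
  set δ : ℝ := min (1 / 2) (ε / 4) with hδ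
  have hδ0 : 0 < δ := by positivity
  have hδ1 : δ ≤ 1 / 2 := min_le_left _ _
  have hδ2 : δ ≤ ε / 4 := min_le_right _ _
  have hup := vague hP hσ hL1 hL (trap_cont 1 (1 + δ)) (trap_nonneg _ _) (trap_even _ _)
    (B := 1 + δ) (by linarith) fun y hy => trap_zero (by linarith) hy
  have hlo := vague hP hσ hL1 hL (trap_cont (1 - δ) 1) (trap_nonneg _ _) (trap_even _ _)
    (B := 1) one_pos fun y hy => trap_zero (by linarith) hy
  obtain ⟨-, u1⟩ := trap_int (a := 1) (b := 1 + δ) zero_le_one (by linarith)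
  obtain ⟨l1, -⟩ := trap_int (a := 1 - δ) (b := 1) (by linarith) (by linarith)
  filter_upwards [(Metric.tendsto_nhds.1 hup) (ε / 4) (by positivity),
    (Metric.tendsto_nhds.1 hlo) (ε / 4) (by positivity)] with n h1 h2
  rw [Real.dist_eq] at h1 h2 ⊢
  have hn : 0 < L n := by linarith [hL1 n]
  have := (hσ n).1
  have hind : (σ n).real (Set.Icc 0 (1 / L n)) =
      ∫ x, (Set.Icc 0 (1 / L n)).indicator (fun _ => (1 : ℝ)) x ∂(σ n) := by
    rw [integral_indicator measurableSet_Icc, setIntegral_const, smul_eq_mul, mul_one]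
  have ii : Integrable (fun x => (Set.Icc 0 (1 / L n)).indicator (fun _ => (1 : ℝ)) x) (σ n) :=
    (integrable_const (1 : ℝ)).indicator measurableSet_Icc
  have it : ∀ a b : ℝ, Integrable (fun x => trap a b (L n * x)) (σ n) := fun a b =>
    Integrable.of_bound (((trap_cont a b).comp (by fun_prop : Continuous fun x : ℝ => L n * x)).aestronglyMeasurable)
      1 (Eventually.of_forall fun x => by
        rw [Real.norm_of_nonneg (trap_nonneg _ _ _)]
        exact trap_le _ _ _)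
  have hU : (σ n).real (Set.Icc 0 (1 / L n)) ≤ ∫ x, trap 1 (1 + δ) (L n * x) ∂(σ n) := by
    rw [hind]
    refine integral_mono ii (it _ _) fun x => ?_
    by_cases hx : x ∈ Set.Icc 0 (1 / L n)
    · show (Set.Icc 0 (1 / L n)).indicator (fun _ => (1 : ℝ)) x ≤ trap 1 (1 + δ) (L n * x)
      rw [Set.indicator_of_mem hx, trap_one (by linarith)]
      rw [Set.mem_Icc, le_div_iff₀ hn] at hx
      rw [abs_of_nonneg (mul_nonneg hn.le hx.1)]
      linarith
    · show (Set.Icc 0 (1 / L n)).indicator (fun _ => (1 : ℝ)) x ≤ trap 1 (1 + δ) (L n * x)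
      rw [Set.indicator_of_notMem hx]
      exact trap_nonneg _ _ _
  have hLo : ∫ x, trap (1 - δ) 1 (L n * x) ∂(σ n) ≤ (σ n).real (Set.Icc 0 (1 / L n)) := by
    rw [hind]
    refine integral_mono_ae (it _ _) ii ?_
    filter_upwards [ae_Icc (hσ n)] with x hx0
    by_cases hx : x ∈ Set.Icc 0 (1 / L n)
    · rw [Set.indicator_of_mem hx]
      exact trap_le _ _ _
    · rw [Set.indicator_of_notMem hx, trap_zero (by linarith)]
      rw [Set.mem_Icc, not_and, le_div_iff₀ hn] at hx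
      have h3 := hx hx0.1
      push Not at h3
      rw [abs_of_nonneg (mul_nonneg hn.le hx0.1)]
      linarith
  have hL2 : 0 < L n ^ 2 := by positivity
  have hU' := mul_le_mul_of_nonneg_left hU hL2.le
  have hLo' := mul_le_mul_of_nonneg_left hLo hL2.le
  -- numerical bounds
  have hq : 0 < 4 * Real.pi ^ 2 := by positivity
  have hq1 : 1 ≤ 4 * Real.pi ^ 2 := by nlinarith
  have n1 : (1 + δ) ^ 2 / (4 * Real.pi ^ 2) ≤ 1 / (4 * Real.pi ^ 2) + 3 * δ / (4 * Real.pi ^ 2) := by
    rw [← add_div]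
    gcongr
    nlinarith
  have n2 : 1 / (4 * Real.pi ^ 2) - 3 * δ / (4 * Real.pi ^ 2) ≤ (1 - δ) ^ 2 / (4 * Real.pi ^ 2) := by
    rw [← sub_div]
    gcongr
    nlinarith
  have n3 : 3 * δ / (4 * Real.pi ^ 2) ≤ δ := by
    rw [div_le_iff₀ hq]
    have h33 : (3 : ℝ) ≤ 4 * Real.pi ^ 2 := by nlinarith
    nlinarith
  rw [abs_lt] at h1 h2 ⊢
  constructor
  · linarith [h2.1]
  · linarith [h1.2]

/-- **the 1/f law: the mass of the power spectrum near zero, uniformly over the limit processes** -/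
theorem law_zero {ε : ℝ} (hε : 0 < ε) : ∃ x0 : ℝ, 0 < x0 ∧ ∀ P : ProbabilityMeasure (ℤ → ℝ),
    IsLim (seen dl) P → ∀ σ : Measure ℝ, Spec (P : Measure (ℤ → ℝ)) σ → ∀ x : ℝ, 0 < x → x ≤ x0 →
      |σ.real (Set.Icc 0 x) - x ^ 2 / (4 * Real.pi ^ 2)| ≤ ε * x ^ 2 := by
  by_contra hcon
  push Not at hcon
  have hch : ∀ n : ℕ, ∃ P : ProbabilityMeasure (ℤ → ℝ), IsLim (seen dl) P ∧ ∃ σ : Measure ℝ,
      Spec (P : Measure (ℤ → ℝ)) σ ∧ ∃ x : ℝ, 0 < x ∧ x ≤ 1 / ((n : ℝ) + 1) ∧
        ε * x ^ 2 < |σ.real (Set.Icc 0 x) - x ^ 2 / (4 * Real.pi ^ 2)| := fun n =>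
    hcon (1 / ((n : ℝ) + 1)) (by positivity)
  choose P hP σ hσ x hx hxn hbad using hch
  have hL : Tendsto (fun n => 1 / x n) atTop atTop := by
    refine tendsto_atTop_mono (fun n => ?_)
      (tendsto_atTop_add_const_right _ (1 : ℝ) tendsto_natCast_atTop_atTop)
    rw [le_div_iff₀ (hx n)]
    have h1 := hxn n
    rw [le_div_iff₀ (by positivity)] at h1
    linarith
  have h1 := seq_law hP hσ (L := fun n => 1 / x n) (fun n => by
    rw [le_div_iff₀ (hx n), one_mul]
    refine (hxn n).trans ?_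
    rw [div_le_one (by positivity)]
    linarith [(Nat.cast_nonneg n : (0 : ℝ) ≤ n)]) hL
  obtain ⟨n, hn⟩ := ((Metric.tendsto_nhds.1 h1) ε hε).exists
  rw [Real.dist_eq] at hn
  have hxn0 := hx n
  have e : (1 / x n) ^ 2 * (σ n).real (Set.Icc 0 (1 / (1 / x n))) - 1 / (4 * Real.pi ^ 2) =
      ((σ n).real (Set.Icc 0 (x n)) - x n ^ 2 / (4 * Real.pi ^ 2)) / x n ^ 2 := by
    rw [one_div_one_div]
    have hpi := Real.pi_pos
    field_simp
  rw [e, abs_div, abs_of_pos (by positivity : 0 < x n ^ 2), div_lt_iff₀ (by positivity)] at hn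
  exact absurd hn (not_lt.2 (hbad n).le)

/-- a uniform bound at all scales -/
theorem mass_le : ∃ C : ℝ, 0 < C ∧ ∀ P : ProbabilityMeasure (ℤ → ℝ), IsLim (seen dl) P →
    ∀ σ : Measure ℝ, Spec (P : Measure (ℤ → ℝ)) σ → ∀ x : ℝ, 0 ≤ x →
      σ.real (Set.Icc 0 x) ≤ C * x ^ 2 := by
  obtain ⟨x0, hx0, h1⟩ := law_zero (ε := 1) one_pos
  obtain ⟨C, A, hC, hM⟩ := SL_mom 2
  have hpi := Real.pi_pos
  have hpi3 := Real.pi_gt_three
  have hpos : ∀ P : ProbabilityMeasure (ℤ → ℝ), IsLim (seen dl) P →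
    ∀ σ : Measure ℝ, Spec (P : Measure (ℤ → ℝ)) σ → ∀ x : ℝ, 0 < x →
      σ.real (Set.Icc 0 x) ≤ (2 + C / x0 ^ 2) * x ^ 2 := by
    intro P hP σ hσ x hx
    have := hσ.1
    rcases le_or_gt x x0 with hc | hc
    · have h2 := (abs_le.1 (h1 P hP σ hσ x hx hc)).2
      have h3 : x ^ 2 / (4 * Real.pi ^ 2) ≤ x ^ 2 := div_le_self (by positivity) (by nlinarith)
      have h4 : 0 ≤ C / x0 ^ 2 * x ^ 2 := by positivity
      nlinarith
    · have h2 : σ.real (Set.Icc 0 x) ≤ σ.real Set.univ := measureReal_mono (Set.subset_univ _)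
      have h3 : σ.real Set.univ = cv2 (P : Measure (ℤ → ℝ)) 0 0 := by
        have := hσ.2.2 0
        simp only [Nat.cast_zero, zero_mul, Real.cos_zero, integral_const, smul_eq_mul, mul_one] at this
        exact this.symm
      have h4 := (hM P hP 1 le_rfl).2
      have e : ∀ q : ℤ → ℝ, |SL 1 q| ^ 2 = (q 0 - 1) * (q 0 - 1) := by
        intro q
        rw [sq_abs]
        unfold SL
        rw [Finset.sum_range_one, Nat.cast_zero]
        ring
      simp only [e, Nat.cast_one, Real.log_one, add_zero, one_pow, mul_one] at h4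
      have h5 : σ.real (Set.Icc 0 x) ≤ C := by
        rw [h3] at h2
        exact h2.trans h4
      have h6 : C ≤ C / x0 ^ 2 * x ^ 2 := by
        rw [div_mul_eq_mul_div, le_div_iff₀ (by positivity)]
        have : x0 ^ 2 ≤ x ^ 2 := pow_le_pow_left₀ hx0.le hc.le 2
        exact mul_le_mul_of_nonneg_left this hC.le
      nlinarith [sq_nonneg x]
  refine ⟨2 + C / x0 ^ 2, by positivity, fun P hP σ hσ x hx => ?_⟩
  rcases hx.eq_or_lt with h0 | h0
  · -- no atom at zero
    have := hσ.1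
    rw [← h0]
    have key : ∀ n : ℕ, σ.real (Set.Icc (0 : ℝ) 0) ≤ (2 + C / x0 ^ 2) * (1 / ((n : ℝ) + 1)) ^ 2 := by
      intro n
      have h2 := hpos P hP σ hσ (1 / ((n : ℝ) + 1)) (by positivity)
      refine (measureReal_mono (Set.Icc_subset_Icc_right (by positivity))).trans h2
    have hlim : Tendsto (fun n : ℕ => (2 + C / x0 ^ 2) * (1 / ((n : ℝ) + 1)) ^ 2) atTop
        (𝓝 ((2 + C / x0 ^ 2) * 0 ^ 2)) :=
      (tendsto_one_div_add_atTop_nhds_zero_nat.pow 2).const_mul _
    exact ge_of_tendsto' hlim key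
  · exact hpos P hP σ hσ x h0

end Pool.Agent.Q172.PS
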