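import Pool.Agent.Q172.PS.Y

/-!
# The constant of the inverse square law (helper172)
-/

set_option autoImplicit false

namespace Pool.Agent.Q172.PS

open Finset MeasureTheory Filter Topology Complex ProbabilityTheory
open Pool.Agent.Q278.GF Pool.Agent.Q278.MC Pool.Agent.Q278.KM
open scoped ContDiff RealInnerProductSpace ComplexConjugate FourierTransform

/-- the integral of `ξ e^{-rξ}` -/
lemma int_exp {r : ℂ} (hr : 0 < r.re) (hi : IntegrableOn (fun ξ : ℝ => (ξ : ℂ) * cexp (-(r * ξ))) (Set.Ioi 0)) :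
    ∫ ξ in Set.Ioi (0 : ℝ), (ξ : ℂ) * cexp (-(r * ξ)) = 1 / r ^ 2 := by
  have hne : r ≠ 0 := by
    intro h0
    rw [h0] at hr
    simp at hr
  have hd : ∀ x : ℝ, HasDerivAt (fun ξ : ℝ => -((ξ : ℂ) / r + 1 / r ^ 2) * cexp (-(r * ξ)))
      ((x : ℂ) * cexp (-(r * x))) x := by
    intro x
    have h1 : HasDerivAt (fun ξ : ℝ => (ξ : ℂ)) 1 x := Complex.ofRealCLM.hasDerivAt
    have h2 : HasDerivAt (fun ξ : ℝ => cexp (-(r * ξ))) (cexp (-(r * x)) * (-(r * 1))) x :=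
      ((h1.const_mul r).neg).cexp
    have h3 : HasDerivAt (fun ξ : ℝ => -((ξ : ℂ) / r + 1 / r ^ 2)) (-(1 / r)) x :=
      ((h1.div_const r).add_const _).neg
    refine (h3.mul h2).congr_deriv ?_
    field_simp
    ring
  have hlim : Tendsto (fun ξ : ℝ => -((ξ : ℂ) / r + 1 / r ^ 2) * cexp (-(r * ξ))) atTop (𝓝 0) := by
    rw [tendsto_zero_iff_norm_tendsto_zero]
    have h1 := tendsto_rpow_mul_exp_neg_mul_atTop_nhds_zero 1 r.re hr
    have h0 := tendsto_rpow_mul_exp_neg_mul_atTop_nhds_zero 0 r.re hr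
    have h2 := (h1.const_mul (1 / ‖r‖)).add (h0.const_mul (1 / ‖r‖ ^ 2))
    rw [mul_zero, mul_zero, add_zero] at h2
    refine squeeze_zero' (Eventually.of_forall fun _ => norm_nonneg _) ?_ h2
    filter_upwards [eventually_gt_atTop 0] with ξ hξ
    rw [norm_mul, norm_neg, Complex.norm_exp]
    have e1 : (-(r * (ξ : ℂ))).re = -r.re * ξ := by
      rw [Complex.neg_re, Complex.re_mul_ofReal]
      ring
    rw [e1, Real.rpow_one, Real.rpow_zero, one_mul]
    have h3 : ‖(ξ : ℂ) / r + 1 / r ^ 2‖ ≤ ξ / ‖r‖ + 1 / ‖r‖ ^ 2 := by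
      refine (norm_add_le _ _).trans ?_
      rw [norm_div, norm_div, norm_pow, norm_one, Complex.norm_real, Real.norm_of_nonneg hξ.le]
    have h4 := Real.exp_pos (-r.re * ξ)
    calc ‖(ξ : ℂ) / r + 1 / r ^ 2‖ * Real.exp (-r.re * ξ) ≤ (ξ / ‖r‖ + 1 / ‖r‖ ^ 2) * Real.exp (-r.re * ξ) :=
          mul_le_mul_of_nonneg_right h3 h4.le
      _ = _ := by ring
  have h5 := integral_Ioi_of_hasDerivAt_of_tendsto (a := (0 : ℝ)) (hd 0).continuousAt.continuousWithinAt
    (fun x _ => hd x) hi hlim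
  rw [h5]
  simp

/-- the kernel -/
lemma ker_half {ε b : ℝ} (hε : 0 < ε) :
    ∫ ξ in Set.Ioi (0 : ℝ), ξ * Real.exp (-(ε * ξ)) * Real.cos (b * ξ) =
      (ε ^ 2 - b ^ 2) / (ε ^ 2 + b ^ 2) ^ 2 := by
  have e0 : ∀ ξ : ℝ, (ξ : ℂ) * cexp (-(((ε : ℂ) - b * I) * ξ)) =
      ((ξ * Real.exp (-(ε * ξ)) : ℝ) : ℂ) * cexp ((b * ξ : ℝ) * I) := by
    intro ξ
    push_cast
    rw [mul_assoc, ← Complex.exp_add]
    congr 2
    ring
  have hi : IntegrableOn (fun ξ : ℝ => ((ξ * Real.exp (-(ε * ξ)) : ℝ) : ℂ) * cexp ((b * ξ : ℝ) * I))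
      (Set.Ioi 0) := by
    have h2 : IntegrableOn (fun ξ : ℝ => ξ * Real.exp (-(ε * ξ))) (Set.Ioi 0) := by
      have h3 := integrableOn_rpow_mul_exp_neg_mul_rpow (s := 1) (p := 1) (b := ε) (by norm_num)
        (by norm_num) hε
      refine h3.congr_fun (fun ξ hξ => ?_) measurableSet_Ioi
      show ξ ^ (1 : ℝ) * Real.exp (-ε * ξ ^ (1 : ℝ)) = _
      rw [Real.rpow_one, neg_mul]
    refine h2.norm.mono' ?_ (Eventually.of_forall fun ξ => ?_)
    · have : Continuous (fun ξ : ℝ => ((ξ * Real.exp (-(ε * ξ)) : ℝ) : ℂ) * cexp ((b * ξ : ℝ) * I)) := by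
        fun_prop
      exact this.aestronglyMeasurable
    · rw [norm_mul, Complex.norm_exp_ofReal_mul_I, mul_one, Complex.norm_real]
  have h1 := int_exp (r := (ε : ℂ) - b * I) (by simpa using hε) (by simpa only [e0] using hi)
  simp only [e0] at h1
  have e2 : ∫ ξ in Set.Ioi (0 : ℝ), ξ * Real.exp (-(ε * ξ)) * Real.cos (b * ξ) =
      (∫ ξ in Set.Ioi (0 : ℝ), ((ξ * Real.exp (-(ε * ξ)) : ℝ) : ℂ) * cexp ((b * ξ : ℝ) * I)).re := by
    have := Complex.reCLM.integral_comp_comm hi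
    rw [Complex.reCLM_apply] at this
    rw [← this]
    refine integral_congr_ae (Eventually.of_forall fun ξ => ?_)
    show _ = (((ξ * Real.exp (-(ε * ξ)) : ℝ) : ℂ) * cexp ((b * ξ : ℝ) * I)).re
    rw [Complex.re_ofReal_mul, Complex.exp_ofReal_mul_I_re]
  rw [e2, h1]
  have e5 : 1 / ((ε : ℂ) - b * I) ^ 2 =
      (((ε ^ 2 - b ^ 2) / (ε ^ 2 + b ^ 2) ^ 2 : ℝ) : ℂ) + ((2 * ε * b / (ε ^ 2 + b ^ 2) ^ 2 : ℝ) : ℂ) * I := by
    have h3 : ((ε : ℂ) - b * I) ≠ 0 := by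
      intro h0
      have := congrArg Complex.re h0
      simp at this
      linarith
    have h4 : ((ε : ℂ) ^ 2 + (b : ℂ) ^ 2) ≠ 0 := by
      have h0 : (0 : ℝ) < ε ^ 2 + b ^ 2 := by positivity
      have : ((ε ^ 2 + b ^ 2 : ℝ) : ℂ) ≠ 0 := by exact_mod_cast h0.ne'
      push_cast at this
      exact this
    have e6 : ((ε : ℂ) ^ 2 + (b : ℂ) ^ 2) = ((ε : ℂ) - b * I) * ((ε : ℂ) + b * I) := by
      ring_nf
      rw [Complex.I_sq]
      ring
    push_cast
    have e7 : ((ε : ℂ) ^ 2 - (b : ℂ) ^ 2) / ((ε : ℂ) ^ 2 + (b : ℂ) ^ 2) ^ 2 +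
        2 * (ε : ℂ) * b / ((ε : ℂ) ^ 2 + (b : ℂ) ^ 2) ^ 2 * I =
        ((ε : ℂ) + b * I) ^ 2 / ((ε : ℂ) ^ 2 + (b : ℂ) ^ 2) ^ 2 := by
      rw [div_mul_eq_mul_div, ← add_div]
      congr 1
      ring_nf
      rw [Complex.I_sq]
      ring
    rw [e7, e6]
    have h8 : ((ε : ℂ) + b * I) ≠ 0 := by
      intro h0
      have := congrArg Complex.re h0
      simp at this
      linarith
    field_simp
  rw [e5, Complex.add_re, Complex.ofReal_re, Complex.re_ofReal_mul, Complex.I_re, mul_zero, add_zero]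

/-- the kernel of `|ξ| e^{-ε|ξ|}` -/
lemma ker_full {ε b : ℝ} (hε : 0 < ε) :
    ∫ ξ : ℝ, |ξ| * Real.exp (-(ε * |ξ|)) * Real.cos (b * ξ) =
      2 * ((ε ^ 2 - b ^ 2) / (ε ^ 2 + b ^ 2) ^ 2) := by
  rw [← ker_half hε, ← integral_comp_abs (f := fun ξ : ℝ => ξ * Real.exp (-(ε * ξ)) * Real.cos (b * ξ))]
  refine integral_congr_ae (Eventually.of_forall fun ξ => ?_)
  show |ξ| * Real.exp (-(ε * |ξ|)) * Real.cos (b * ξ) = |ξ| * Real.exp (-(ε * |ξ|)) * Real.cos (b * |ξ|)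
  congr 1
  rcases le_total 0 ξ with h | h
  · rw [abs_of_nonneg h]
  · rw [abs_of_nonpos h, mul_neg, Real.cos_neg]

lemma abs_exp_int {ε : ℝ} (hε : 0 < ε) : Integrable fun ξ : ℝ => |ξ| * Real.exp (-(ε * |ξ|)) := by
  have h3 := integrableOn_rpow_mul_exp_neg_mul_rpow (s := 1) (p := 1) (b := ε) (by norm_num)
    (by norm_num) hε
  have h2 : IntegrableOn (fun ξ : ℝ => ξ * Real.exp (-(ε * ξ))) (Set.Ioi 0) := by
    refine h3.congr_fun (fun ξ hξ => ?_) measurableSet_Ioi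
    show ξ ^ (1 : ℝ) * Real.exp (-ε * ξ ^ (1 : ℝ)) = _
    rw [Real.rpow_one, neg_mul]
  have hf : IntegrableOn (fun ξ : ℝ => |ξ| * Real.exp (-(ε * |ξ|))) (Set.Ioi 0) := by
    refine h2.congr_fun (fun ξ hξ => ?_) measurableSet_Ioi
    show ξ * Real.exp (-(ε * ξ)) = |ξ| * Real.exp (-(ε * |ξ|))
    rw [abs_of_pos hξ]
  have int_Iic : IntegrableOn (fun ξ : ℝ => |ξ| * Real.exp (-(ε * |ξ|))) (Set.Iic 0) := by
    rw [← Measure.map_neg_eq_self (volume : Measure ℝ)]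
    let m : MeasurableEmbedding fun x : ℝ => -x := (Homeomorph.neg ℝ).measurableEmbedding
    rw [m.integrableOn_map_iff]
    simp_rw [Function.comp_def, abs_neg, Set.neg_preimage, Set.neg_Iic, neg_zero]
    exact Iff.mpr integrableOn_Ici_iff_integrableOn_Ioi hf
  rw [← integrableOn_univ, ← Set.Iic_union_Ioi (a := (0 : ℝ))]
  exact int_Iic.union hf

lemma test_int {φ : ℝ → ℝ} (h1 : Continuous φ) (h2 : HasCompactSupport φ) : Integrable φ :=
  h1.integrable_of_hasCompactSupport h2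

lemma HT_re {φ : ℝ → ℝ} (h1 : Continuous φ) (h2 : HasCompactSupport φ) (y : ℝ) :
    (HT φ y).re = ∫ t : ℝ, φ t * Real.cos (t * y) := by
  have hi : Integrable (fun t : ℝ => (φ t : ℂ) * cexp ((t * y : ℝ) * I)) := by
    refine (test_int h1 h2).norm.mono' ?_ (Eventually.of_forall fun t => ?_)
    · have : Continuous (fun t : ℝ => (φ t : ℂ) * cexp ((t * y : ℝ) * I)) := by fun_prop
      exact this.aestronglyMeasurable
    · rw [norm_mul, Complex.norm_exp_ofReal_mul_I, mul_one, Complex.norm_real]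
  unfold HT
  have := Complex.reCLM.integral_comp_comm hi
  rw [Complex.reCLM_apply] at this
  rw [← this]
  refine integral_congr_ae (Eventually.of_forall fun t => ?_)
  show ((φ t : ℂ) * cexp ((t * y : ℝ) * I)).re = φ t * Real.cos (t * y)
  rw [Complex.re_ofReal_mul, Complex.exp_ofReal_mul_I_re]

lemma abs_HT_int {φ : ℝ → ℝ} (hφ : CC (fc φ)) : Integrable fun ξ : ℝ => |ξ| * ‖HT φ (2 * Real.pi * ξ)‖ := by
  obtain ⟨K, hK, hb⟩ := four_bound hφ
  have hc := HT_cont hφ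
  have h3 : Continuous fun ξ : ℝ => |ξ| * ‖HT φ (2 * Real.pi * ξ)‖ := by fun_prop
  refine (integrable_inv_one_add_sq.const_mul K).mono' h3.aestronglyMeasurable
      (Eventually.of_forall fun ξ => ?_)
  have hone : (1 + ξ ^ 2)⁻¹ ≤ 1 := inv_le_one_of_one_le₀ (by nlinarith [sq_nonneg ξ])
  have hpos : 0 ≤ (1 + ξ ^ 2)⁻¹ := by positivity
  have hxi : |ξ| * (1 + ξ ^ 2)⁻¹ ≤ 1 := by
    rw [← div_eq_mul_inv, div_le_one (by positivity)]
    have := sq_abs ξ
    nlinarith [sq_nonneg (|ξ| - 1), abs_nonneg ξ]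
  rw [Real.norm_of_nonneg (by positivity), ← norm_four]
  calc |ξ| * ‖𝓕 (fc φ) ξ‖ ≤ |ξ| * (K * (1 + ξ ^ 2)⁻¹ ^ 3) := mul_le_mul_of_nonneg_left (hb ξ) (abs_nonneg _)
    _ = K * (|ξ| * (1 + ξ ^ 2)⁻¹) * (1 + ξ ^ 2)⁻¹ * (1 + ξ ^ 2)⁻¹ := by ring
    _ ≤ K * 1 * (1 + ξ ^ 2)⁻¹ * 1 := by gcongr
    _ = _ := by ring

/-- Fubini -/
lemma reg_eq {φ : ℝ → ℝ} (h1 : Continuous φ) (h2 : HasCompactSupport φ) {ε : ℝ} (hε : 0 < ε) :
    ∫ ξ : ℝ, |ξ| * Real.exp (-(ε * |ξ|)) * (HT φ (2 * Real.pi * ξ)).re =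
      ∫ t : ℝ, φ t * (2 * ((ε ^ 2 - (2 * Real.pi * t) ^ 2) / (ε ^ 2 + (2 * Real.pi * t) ^ 2) ^ 2)) := by
  have hI : Integrable (Function.uncurry fun ξ t : ℝ => |ξ| * Real.exp (-(ε * |ξ|)) *
      (φ t * Real.cos (t * (2 * Real.pi * ξ)))) (volume.prod volume) := by
    have hb := ((abs_exp_int hε).norm).mul_prod (test_int h1 h2).norm
    refine hb.mono' ?_ (Eventually.of_forall fun z => ?_)
    · have : Continuous (Function.uncurry fun ξ t : ℝ => |ξ| * Real.exp (-(ε * |ξ|)) *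
          (φ t * Real.cos (t * (2 * Real.pi * ξ)))) := by
        simp only [Function.uncurry_def]
        fun_prop
      exact this.aestronglyMeasurable
    · show ‖|z.1| * Real.exp (-(ε * |z.1|)) * (φ z.2 * Real.cos (z.2 * (2 * Real.pi * z.1)))‖ ≤
        ‖|z.1| * Real.exp (-(ε * |z.1|))‖ * ‖φ z.2‖
      rw [norm_mul, norm_mul (φ z.2)]
      refine mul_le_mul_of_nonneg_left ?_ (norm_nonneg _)
      have := Real.abs_cos_le_one (z.2 * (2 * Real.pi * z.1))
      rw [Real.norm_eq_abs (Real.cos _)]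
      nlinarith [norm_nonneg (φ z.2)]
  have e1 : ∀ ξ : ℝ, |ξ| * Real.exp (-(ε * |ξ|)) * (HT φ (2 * Real.pi * ξ)).re =
      ∫ t : ℝ, |ξ| * Real.exp (-(ε * |ξ|)) * (φ t * Real.cos (t * (2 * Real.pi * ξ))) := by
    intro ξ
    rw [HT_re h1 h2, ← integral_const_mul]
  simp only [e1]
  rw [integral_integral_swap hI]
  refine integral_congr_ae (Eventually.of_forall fun t => ?_)
  show ∫ ξ : ℝ, |ξ| * Real.exp (-(ε * |ξ|)) * (φ t * Real.cos (t * (2 * Real.pi * ξ))) =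
    φ t * (2 * ((ε ^ 2 - (2 * Real.pi * t) ^ 2) / (ε ^ 2 + (2 * Real.pi * t) ^ 2) ^ 2))
  rw [← ker_full (b := 2 * Real.pi * t) hε, ← integral_const_mul]
  refine integral_congr_ae (Eventually.of_forall fun ξ => ?_)
  show |ξ| * Real.exp (-(ε * |ξ|)) * (φ t * Real.cos (t * (2 * Real.pi * ξ))) =
    φ t * (|ξ| * Real.exp (-(ε * |ξ|)) * Real.cos (2 * Real.pi * t * ξ))
  rw [show t * (2 * Real.pi * ξ) = 2 * Real.pi * t * ξ by ring]
  ring

/-- **the constant of the inverse square law** -/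
theorem dyson_const {φ : ℝ → ℝ} (h1 : ContDiff ℝ ∞ φ) (h2 : HasCompactSupport φ) {a : ℝ} (ha : 0 < a)
    (h0 : ∀ t, |t| < a → φ t = 0) :
    ∫ ξ : ℝ, |ξ| * (HT φ (2 * Real.pi * ξ)).re = -(1 / (2 * Real.pi ^ 2)) * ∫ t : ℝ, φ t / t ^ 2 := by
  have hpi := Real.pi_pos
  have hCC := cc_of h1 h2
  have hTc := HT_cont hCC
  have hc := h1.continuous
  set u : ℕ → ℝ := fun n => 1 / ((n : ℝ) + 1) with hu
  have hu0 : ∀ n, 0 < u n := fun n => by rw [hu]; positivity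
  have hul : Tendsto u atTop (𝓝 0) := tendsto_one_div_add_atTop_nhds_zero_nat
  have l1 : Tendsto (fun n => ∫ ξ : ℝ, |ξ| * Real.exp (-(u n * |ξ|)) * (HT φ (2 * Real.pi * ξ)).re) atTop
      (𝓝 (∫ ξ : ℝ, |ξ| * (HT φ (2 * Real.pi * ξ)).re)) := by
    refine tendsto_integral_of_dominated_convergence (fun ξ => |ξ| * ‖HT φ (2 * Real.pi * ξ)‖)
      (fun n => ?_) (abs_HT_int hCC) (fun n => Eventually.of_forall fun ξ => ?_)
      (Eventually.of_forall fun ξ => ?_)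
    · have : Continuous fun ξ : ℝ => |ξ| * Real.exp (-(u n * |ξ|)) * (HT φ (2 * Real.pi * ξ)).re := by
        fun_prop
      exact this.aestronglyMeasurable
    · rw [norm_mul, norm_mul, Real.norm_eq_abs, abs_abs, Real.norm_of_nonneg (Real.exp_pos _).le]
      have e1 : Real.exp (-(u n * |ξ|)) ≤ 1 := by
        rw [Real.exp_le_one_iff]
        have := mul_nonneg (hu0 n).le (abs_nonneg ξ)
        linarith
      have e2 := Complex.abs_re_le_norm (HT φ (2 * Real.pi * ξ))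
      rw [Real.norm_eq_abs]
      have e3 : |ξ| * Real.exp (-(u n * |ξ|)) ≤ |ξ| := by
        have := mul_le_mul_of_nonneg_left e1 (abs_nonneg ξ)
        linarith
      exact mul_le_mul e3 e2 (abs_nonneg _) (abs_nonneg _)
    · have e1 : Tendsto (fun n => Real.exp (-(u n * |ξ|))) atTop (𝓝 (Real.exp (-(0 * |ξ|)))) :=
        (Real.continuous_exp.tendsto _).comp (hul.mul_const _).neg
      rw [zero_mul, neg_zero, Real.exp_zero] at e1
      have := (e1.const_mul |ξ|).mul_const ((HT φ (2 * Real.pi * ξ)).re)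
      rwa [mul_one] at this
  have l2 : Tendsto (fun n => ∫ t : ℝ, φ t * (2 * (((u n) ^ 2 - (2 * Real.pi * t) ^ 2) /
      ((u n) ^ 2 + (2 * Real.pi * t) ^ 2) ^ 2))) atTop
      (𝓝 (∫ t : ℝ, -(1 / (2 * Real.pi ^ 2)) * (φ t / t ^ 2))) := by
    refine tendsto_integral_of_dominated_convergence (fun t => (2 / (2 * Real.pi * a) ^ 2) * ‖φ t‖)
      (fun n => ?_) ((test_int hc h2).norm.const_mul _) (fun n => Eventually.of_forall fun t => ?_)
      (Eventually.of_forall fun t => ?_)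
    · have : Continuous fun t : ℝ => φ t * (2 * (((u n) ^ 2 - (2 * Real.pi * t) ^ 2) /
          ((u n) ^ 2 + (2 * Real.pi * t) ^ 2) ^ 2)) := by
        refine hc.mul (continuous_const.mul (Continuous.div (by fun_prop) (by fun_prop) fun t => ?_))
        have := hu0 n
        positivity
      exact this.aestronglyMeasurable
    · rcases lt_or_ge |t| a with ht | ht
      · rw [h0 t ht]
        simp
      · have ht0 : 0 < |t| := by linarith
        rw [norm_mul, mul_comm]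
        refine mul_le_mul_of_nonneg_right ?_ (norm_nonneg _)
        have hun := hu0 n
        rw [norm_mul, Real.norm_of_nonneg (by norm_num : (0 : ℝ) ≤ 2), norm_div, norm_pow,
          Real.norm_of_nonneg (by positivity : (0 : ℝ) ≤ (u n) ^ 2 + (2 * Real.pi * t) ^ 2), Real.norm_eq_abs]
        set b : ℝ := 2 * Real.pi * t with hb
        have hb0 : 0 < b ^ 2 := by
          have : t ≠ 0 := abs_pos.1 ht0
          positivity
        have e1 : |(u n) ^ 2 - b ^ 2| ≤ (u n) ^ 2 + b ^ 2 := by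
          rw [abs_le]
          constructor
          · nlinarith [sq_nonneg (u n), sq_nonneg b]
          · nlinarith [sq_nonneg (u n), sq_nonneg b]
        have e2 : |(u n) ^ 2 - b ^ 2| / ((u n) ^ 2 + b ^ 2) ^ 2 ≤ 1 / b ^ 2 := by
          rw [div_le_div_iff₀ (by positivity) (by positivity), one_mul]
          have h3 : b ^ 2 ≤ (u n) ^ 2 + b ^ 2 := by nlinarith [sq_nonneg (u n)]
          calc |(u n) ^ 2 - b ^ 2| * b ^ 2 ≤ ((u n) ^ 2 + b ^ 2) * ((u n) ^ 2 + b ^ 2) :=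
                mul_le_mul e1 h3 (by positivity) (by positivity)
            _ = _ := by ring
        have e3 : 1 / b ^ 2 ≤ 1 / (2 * Real.pi * a) ^ 2 := by
          refine one_div_le_one_div_of_le (by positivity) ?_
          rw [← sq_abs b]
          refine pow_le_pow_left₀ (by positivity) ?_ 2
          rw [hb, abs_mul, abs_of_pos (by positivity : (0 : ℝ) < 2 * Real.pi)]
          gcongr
        calc 2 * (|(u n) ^ 2 - b ^ 2| / ((u n) ^ 2 + b ^ 2) ^ 2) ≤ 2 * (1 / (2 * Real.pi * a) ^ 2) := by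
              linarith
          _ = _ := by ring
    · rcases lt_or_ge |t| a with ht | ht
      · rw [h0 t ht]
        simp
      · have ht0 : t ≠ 0 := abs_pos.1 (by linarith)
        have e1 : Tendsto (fun n => φ t * (2 * (((u n) ^ 2 - (2 * Real.pi * t) ^ 2) /
          ((u n) ^ 2 + (2 * Real.pi * t) ^ 2) ^ 2))) atTop
          (𝓝 (φ t * (2 * ((0 ^ 2 - (2 * Real.pi * t) ^ 2) / (0 ^ 2 + (2 * Real.pi * t) ^ 2) ^ 2)))) := by
          refine Tendsto.const_mul _ (Tendsto.const_mul _ (Tendsto.div ?_ ?_ ?_))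
          · exact (hul.pow 2).sub_const _
          · exact ((hul.pow 2).add_const _).pow 2
          · positivity
        have e2 : φ t * (2 * ((0 ^ 2 - (2 * Real.pi * t) ^ 2) / (0 ^ 2 + (2 * Real.pi * t) ^ 2) ^ 2)) =
            -(1 / (2 * Real.pi ^ 2)) * (φ t / t ^ 2) := by
          field_simp
          ring
        rw [e2] at e1
        exact e1
  have l3 := l1.congr fun n => reg_eq hc h2 (hu0 n)
  rw [tendsto_nhds_unique l3 l2, integral_const_mul]

end Pool.Agent.Q172.PS
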