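import Pool.Agent.Q172.PS.Y

/-!
# Decay of the trigonometric sums and the tail of the power spectrum (helper172)
-/

set_option autoImplicit false

namespace Pool.Agent.Q172.PS

open Finset MeasureTheory Filter Topology Complex ProbabilityTheory
open Pool.Agent.Q278.GF Pool.Agent.Q278.MC Pool.Agent.Q278.KM
open scoped ContDiff RealInnerProductSpace ComplexConjugate FourierTransform

/-- the difference operator -/
def dd (h : ℝ) (F : ℝ → ℝ) : ℝ → ℝ := fun t => F t - F (t - h)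

lemma dd_diff {h : ℝ} {F : ℝ → ℝ} (hF : ContDiff ℝ ∞ F) : ContDiff ℝ ∞ (dd h F) := by
  unfold dd
  exact hF.sub (hF.comp (contDiff_id.sub contDiff_const))

lemma dd_deriv {h : ℝ} {F : ℝ → ℝ} (hF : ContDiff ℝ ∞ F) : deriv (dd h F) = dd h (deriv F) := by
  funext t
  unfold dd
  have h1 : DifferentiableAt ℝ F t := (hF.differentiable (by simp)).differentiableAt
  have h2 : HasDerivAt (fun t => F (t - h)) (deriv F (t - h)) t := by
    have h3 : HasDerivAt F (deriv F (t - h)) (t - h) :=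
      ((hF.differentiable (by simp)).differentiableAt).hasDerivAt
    exact h3.comp_sub_const t h
  exact (h1.hasDerivAt.sub h2).deriv

lemma dd_bd {h B : ℝ} (hh : 0 ≤ h) {F : ℝ → ℝ} (hF : ContDiff ℝ ∞ F) (hB : ∀ t, |deriv F t| ≤ B) (t : ℝ) :
    |dd h F t| ≤ B * h := by
  have h1 := Convex.norm_image_sub_le_of_norm_deriv_le (f := F) (s := Set.univ) (C := B)
        (fun z _ => (hF.differentiable (by simp)).differentiableAt)
        (fun z _ => by rw [Real.norm_eq_abs]; exact hB z) convex_univ (Set.mem_univ (t - h)) (Set.mem_univ t)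
  rw [Real.norm_eq_abs, Real.norm_eq_abs] at h1
  unfold dd
  refine h1.trans (le_of_eq ?_)
  rw [show t - (t - h) = h by ring, abs_of_nonneg hh]

lemma deriv_smooth {F : ℝ → ℝ} (hF : ContDiff ℝ ∞ F) : ContDiff ℝ ∞ (deriv F) :=
  (contDiff_infty_iff_deriv.1 hF).2

lemma dd3_bd {h B : ℝ} (hh : 0 ≤ h) {F : ℝ → ℝ} (hF : ContDiff ℝ ∞ F)
    (hB : ∀ t, |deriv (deriv (deriv F)) t| ≤ B) (t : ℝ) : |dd h (dd h (dd h F)) t| ≤ B * h ^ 3 := by
  have hF1 := deriv_smooth hF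
  have hF2 := deriv_smooth hF1
  have a1 : ∀ t, |dd h (deriv (deriv F)) t| ≤ B * h := fun t => dd_bd hh hF2 hB t
  have a2 : ∀ t, |dd h (dd h (deriv F)) t| ≤ B * h * h := fun t =>
    dd_bd hh (dd_diff hF1) (by rw [dd_deriv hF1]; exact a1) t
  have a3 := dd_bd hh (dd_diff (dd_diff hF)) (B := B * h * h) (by
    rw [dd_deriv (dd_diff hF), dd_deriv hF]
    exact a2) t
  refine a3.trans (le_of_eq ?_)
  ring

lemma dd_supp {h S R : ℝ} (hh : |h| ≤ S) {F : ℝ → ℝ} (hs : ∀ x, R ≤ |x| → F x = 0) (hS : 0 ≤ S) :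
    ∀ x, R + S ≤ |x| → dd h F x = 0 := by
  intro x hx
  unfold dd
  have h1 := tra_supp hs hh x hx
  unfold tra at h1
  rw [h1, hs x (by linarith), sub_zero]

lemma TF_dd {F : ℝ → ℝ} {R L : ℝ} (hs : ∀ x, R ≤ |x| → F x = 0) (hL : 1 ≤ L) (x : ℝ) :
    TF (dd (1 / L) F) L x = (1 - cexp ((x : ℝ) * I)) * TF F L x := by
  have hLp : 0 < L := by linarith
  have h1 : |1 / L| ≤ 1 := by
    rw [abs_of_pos (by positivity), div_le_one hLp]
    exact hL
  have e : dd (1 / L) F = fun t => F t - tra F (1 / L) t := rfl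
  rw [e, TF_sub (R := R + 1) (fun x hx => hs x (by linarith)) (tra_supp hs h1) hLp]
  have e1 := TF_tra (g := F) (L := L) 1 x
  rw [Int.cast_one, one_mul] at e1
  rw [e1]
  ring

lemma TF_sup {F : ℝ → ℝ} {R L B : ℝ} (hs : ∀ x, R ≤ |x| → F x = 0) (hR : 0 ≤ R) (hL : 1 ≤ L)
    (hB : ∀ t, |F t| ≤ B) (x : ℝ) : ‖TF F L x‖ ≤ B * ((2 * R + 5) * L) := by
  have hLp : 0 < L := by linarith
  have h1 : R * L ≤ (⌈R * L⌉₊ : ℝ) := Nat.le_ceil _
  rw [TF_eq_sum hs hLp h1]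
  refine (norm_sum_le _ _).trans ?_
  have h2 : ∀ k ∈ Icc (-(⌈R * L⌉₊ : ℤ)) (⌈R * L⌉₊ : ℤ),
      ‖(F (k / L) : ℂ) * cexp (((k : ℝ) * x : ℝ) * I)‖ ≤ B := by
    intro k _
    rw [norm_mul, Complex.norm_exp_ofReal_mul_I, mul_one, Complex.norm_real, Real.norm_eq_abs]
    exact hB _
  refine (Finset.sum_le_sum h2).trans ?_
  have hB0 : 0 ≤ B := (abs_nonneg _).trans (hB 0)
  rw [Finset.sum_const, nsmul_eq_mul, mul_comm]
  refine mul_le_mul_of_nonneg_left ?_ hB0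
  rw [Int.card_Icc]
  have e : ((⌈R * L⌉₊ : ℤ) + 1 - -(⌈R * L⌉₊ : ℤ)).toNat = 2 * ⌈R * L⌉₊ + 1 := by omega
  rw [e]
  push_cast
  have := Nat.ceil_lt_add_one (a := R * L) (by positivity)
  nlinarith

/-- **cubic decay of the trigonometric sums** -/
theorem TF_decay {φ : ℝ → ℝ} (h1 : ContDiff ℝ ∞ φ) (h2 : HasCompactSupport φ) : ∃ C : ℝ, 0 < C ∧
    ∀ L x : ℝ, 1 ≤ L → 0 < x → x ≤ Real.pi → ‖TF φ L x‖ ≤ C * (1 / (L ^ 2 * x ^ 3)) := by
  obtain ⟨φ', B0, B2, R, hT⟩ := tst_of h1 h2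
  have hR := hT.R1
  have hd3 : ContDiff ℝ ∞ (deriv (deriv (deriv φ))) := deriv_smooth (deriv_smooth (deriv_smooth h1))
  obtain ⟨B, hB⟩ := (h2.deriv.deriv.deriv).exists_bound_of_continuous hd3.continuous
  have hB0 : 0 ≤ B := (norm_nonneg _).trans (hB 0)
  have hpi := Real.pi_pos
  refine ⟨(Real.pi / 2) ^ 3 * ((B + 1) * (2 * (R + 3) + 5)), by positivity, fun L x hL hx hxpi => ?_⟩
  have hLp : 0 < L := by linarith
  have hh0 : (0 : ℝ) ≤ 1 / L := by positivity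
  have hh1 : |1 / L| ≤ 1 := by
    rw [abs_of_pos (by positivity), div_le_one hLp]
    exact hL
  have s1 := dd_supp hh1 hT.supp zero_le_one
  have s2 := dd_supp hh1 s1 zero_le_one
  have s3 := dd_supp hh1 s2 zero_le_one
  have e : TF (dd (1 / L) (dd (1 / L) (dd (1 / L) φ))) L x = (1 - cexp ((x : ℝ) * I)) ^ 3 * TF φ L x := by
    rw [TF_dd s2 hL, TF_dd s1 hL, TF_dd hT.supp hL]
    ring
  have b1 := TF_sup (F := dd (1 / L) (dd (1 / L) (dd (1 / L) φ))) s3 (by linarith) hL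
    (B := (B + 1) * (1 / L) ^ 3) (fun t => by
      refine (dd3_bd hh0 h1 (fun t => by rw [← Real.norm_eq_abs]; exact hB t) t).trans ?_
      gcongr
      linarith) x
  rw [e, norm_mul, norm_pow] at b1
  have j := jordan (x := x) ⟨hx.le, hxpi⟩
  set z := ‖(1 : ℂ) - cexp ((x : ℝ) * I)‖ with hz
  have hz0 : 0 ≤ z := norm_nonneg _
  have b2 : x ^ 3 * ‖TF φ L x‖ ≤ (Real.pi / 2) ^ 3 * ((B + 1) * (1 / L) ^ 3 * ((2 * (R + 3) + 5) * L)) := by
    calc x ^ 3 * ‖TF φ L x‖ ≤ (Real.pi / 2 * z) ^ 3 * ‖TF φ L x‖ := by gcongr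
      _ = (Real.pi / 2) ^ 3 * (z ^ 3 * ‖TF φ L x‖) := by ring
      _ ≤ _ := by
          refine mul_le_mul_of_nonneg_left ?_ (by positivity)
          have : R + 1 + 1 + 1 = R + 3 := by ring
          rw [this] at b1
          exact b1
  have hx3 : 0 < x ^ 3 := by positivity
  rw [mul_comm, ← le_div_iff₀ hx3] at b2
  refine b2.trans (le_of_eq ?_)
  field_simp

/-- the tail of `∫ x⁻³ dσ` -/
lemma tail_int {σ : Measure ℝ} [IsFiniteMeasure σ] {C : ℝ} (hC : 0 < C)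
    (hσ : ∀ x, 0 ≤ x → σ.real (Set.Icc 0 x) ≤ C * x ^ 2) (hpi : ∀ᵐ x ∂σ, x ∈ Set.Icc 0 Real.pi)
    {a : ℝ} (ha : 0 < a) {f : ℝ → ℝ} (hf : ∀ x, 0 < x → x ≤ Real.pi → a < x → |f x| ≤ 1 / x ^ 3)
    (hf0 : ∀ x, x ≤ a → f x = 0) (hfi : Integrable f σ) : ∫ x, |f x| ∂σ ≤ 8 * C / a := by
  obtain ⟨J, hJ⟩ := pow_unbounded_of_one_lt (Real.pi / a) (one_lt_two)
  have hpt : ∀ᵐ x ∂σ, |f x| ≤ ∑ j ∈ range J, (1 / (2 ^ j * a) ^ 3) *
      (Set.Icc 0 (2 ^ (j + 1) * a)).indicator (fun _ => (1 : ℝ)) x := by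
    filter_upwards [hpi] with x hx
    have hnn : 0 ≤ ∑ j ∈ range J, (1 / (2 ^ j * a) ^ 3) *
        (Set.Icc 0 (2 ^ (j + 1) * a)).indicator (fun _ => (1 : ℝ)) x :=
      Finset.sum_nonneg fun j _ => mul_nonneg (by positivity) (Set.indicator_nonneg (fun _ _ => zero_le_one) _)
    rcases le_or_gt x a with h | h
    · rw [hf0 x h, abs_zero]
      exact hnn
    · have hx0 : 0 < x := by linarith
      obtain ⟨n, hn1, hn2⟩ := exists_nat_pow_near (x := x / a) (y := 2) (by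
        rw [le_div_iff₀ ha, one_mul]; exact h.le) one_lt_two
      rw [le_div_iff₀ ha] at hn1
      rw [div_lt_iff₀ ha] at hn2
      have hnJ : n < J := by
        by_contra hcon
        push Not at hcon
        have h1 : (2 : ℝ) ^ J ≤ 2 ^ n := pow_le_pow_right₀ (by norm_num) hcon
        rw [div_lt_iff₀ ha] at hJ
        have h2 : (2 : ℝ) ^ J * a ≤ 2 ^ n * a := mul_le_mul_of_nonneg_right h1 ha.le
        linarith [hx.2]
      have h1 := hf x hx0 hx.2 h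
      have h2 : 1 / x ^ 3 ≤ (1 / (2 ^ n * a) ^ 3) *
          (Set.Icc 0 (2 ^ (n + 1) * a)).indicator (fun _ => (1 : ℝ)) x := by
        rw [Set.indicator_of_mem (Set.mem_Icc.2 ⟨hx0.le, hn2.le⟩), mul_one]
        exact one_div_le_one_div_of_le (by positivity) (pow_le_pow_left₀ (by positivity) hn1 3)
      refine (h1.trans h2).trans ?_
      exact Finset.single_le_sum (f := fun j => (1 / (2 ^ j * a) ^ 3) *
        (Set.Icc 0 (2 ^ (j + 1) * a)).indicator (fun _ => (1 : ℝ)) x)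
        (fun j _ => mul_nonneg (by positivity) (Set.indicator_nonneg (fun _ _ => zero_le_one) _))
        (Finset.mem_range.2 hnJ)
  have hi : ∀ j : ℕ, Integrable (fun x => (1 / (2 ^ j * a) ^ 3) *
      (Set.Icc 0 (2 ^ (j + 1) * a)).indicator (fun _ => (1 : ℝ)) x) σ := fun j =>
    ((integrable_const (1 : ℝ)).indicator measurableSet_Icc).const_mul _
  refine (integral_mono_ae hfi.abs (integrable_finsetSum _ fun j _ => hi j) hpt).trans ?_
  rw [integral_finsetSum _ fun j _ => hi j]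
  have h1 : ∀ j ∈ range J, ∫ x, (1 / (2 ^ j * a) ^ 3) *
      (Set.Icc 0 (2 ^ (j + 1) * a)).indicator (fun _ => (1 : ℝ)) x ∂σ ≤ (4 * C / a) * (1 / 2) ^ j := by
    intro j _
    rw [integral_const_mul, integral_indicator measurableSet_Icc, setIntegral_const, smul_eq_mul, mul_one]
    calc (1 / (2 ^ j * a) ^ 3) * σ.real (Set.Icc 0 (2 ^ (j + 1) * a)) ≤
        (1 / (2 ^ j * a) ^ 3) * (C * (2 ^ (j + 1) * a) ^ 2) :=
          mul_le_mul_of_nonneg_left (hσ _ (by positivity)) (by positivity)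
      _ = (4 * C / a) * (1 / 2) ^ j := by
          rw [one_div_pow]
          field_simp
          ring
  refine (Finset.sum_le_sum h1).trans ?_
  rw [← Finset.mul_sum]
  have h2 : ∑ j ∈ range J, (1 / 2 : ℝ) ^ j ≤ 2 := by
    have := sum_geometric_two_le J
    exact this
  calc (4 * C / a) * ∑ j ∈ range J, (1 / 2 : ℝ) ^ j ≤ (4 * C / a) * 2 := by gcongr
    _ = _ := by ring

end Pool.Agent.Q172.PS
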