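import Pool.Agent.Q172.PS.Z1
import Pool.Agent.Q172.PS.Z2

/-!
# The inverse square law in the mean (helper172)
-/

set_option autoImplicit false

namespace Pool.Agent.Q172.PS

open Finset MeasureTheory Filter Topology Complex ProbabilityTheory
open Pool.Agent.Q278.GF Pool.Agent.Q278.MC Pool.Agent.Q278.KM
open _root_.Q172.ZetaLim (IsLim seen map_shift shift)
open _root_.Q172.Mem (ee UU UU_ee memLp_P lin_norm)
open scoped ContDiff RealInnerProductSpace ComplexConjugate FourierTransform

variable {P : ℕ → ProbabilityMeasure (ℤ → ℝ)} {σ : ℕ → Measure ℝ} {L : ℕ → ℝ}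

/-- vague convergence for functions of any sign -/
lemma vague_signed (hP : ∀ n, IsLim (seen dl) (P n)) (hσ : ∀ n, Spec (P n : Measure (ℤ → ℝ)) (σ n))
    (hL1 : ∀ n, 1 ≤ L n) (hL : Tendsto L atTop atTop) {H : ℝ → ℝ} (hH : Continuous H)
    (hev : ∀ y, H (-y) = H y) {B : ℝ} (hB : 0 < B) (hs : ∀ y, B ≤ |y| → H y = 0) :
    Tendsto (fun n => L n ^ 2 * ∫ x, H (L n * x) ∂(σ n)) atTop
      (𝓝 (∫ ξ : ℝ, |ξ| * H (2 * Real.pi * ξ))) := by
  have h1 := vague hP hσ hL1 hL (H := fun y => max (H y) 0) (hH.max continuous_const)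
    (fun y => le_max_right _ _) (fun y => by simp only [hev]) hB (fun y hy => by simp only [hs y hy, max_self])
  have h2 := vague hP hσ hL1 hL (H := fun y => max (-H y) 0) (hH.neg.max continuous_const)
    (fun y => le_max_right _ _) (fun y => by simp only [hev]) hB (fun y hy => by
      simp only [hs y hy, neg_zero, max_self])
  have hHs : HasCompactSupport H := HasCompactSupport.of_support_subset_isCompact
    (isCompact_Icc (a := -B) (b := B)) (fun y hy => by
      rw [Set.mem_Icc, ← abs_le]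
      by_contra hcon
      push Not at hcon
      exact hy (hs y hcon.le))
  obtain ⟨A, hA⟩ := hHs.exists_bound_of_continuous hH
  have hsplit : ∀ y, H y = max (H y) 0 - max (-H y) 0 := fun y => (max_zero_sub_eq_self (H y)).symm
  have h3 := h1.sub h2
  refine (h3.congr fun n => ?_).trans (le_of_eq ?_)
  · have := (hσ n).1
    have i1 : Integrable (fun x => max (H (L n * x)) 0) (σ n) :=
      Integrable.of_bound (by fun_prop) A (Eventually.of_forall fun x => by
        rw [Real.norm_of_nonneg (le_max_right _ _)]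
        exact max_le ((le_abs_self _).trans (hA _)) ((norm_nonneg _).trans (hA 0)))
    have i2 : Integrable (fun x => max (-H (L n * x)) 0) (σ n) :=
      Integrable.of_bound (by fun_prop) A (Eventually.of_forall fun x => by
        rw [Real.norm_of_nonneg (le_max_right _ _)]
        exact max_le ((neg_le_abs _).trans (hA _)) ((norm_nonneg _).trans (hA 0)))
    rw [← mul_sub, ← integral_sub i1 i2]
    congr 1
    refine integral_congr_ae (Eventually.of_forall fun x => ?_)
    exact (hsplit _).symm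
  · congr 1
    have hc : HasCompactSupport fun ξ : ℝ => H (2 * Real.pi * ξ) := by
      have hpi : (2 * Real.pi : ℝ) ≠ 0 := by positivity
      exact hHs.comp_homeomorph (Homeomorph.mulLeft₀ (2 * Real.pi) hpi)
    have i1 : Integrable (fun ξ : ℝ => |ξ| * max (H (2 * Real.pi * ξ)) 0) := by
      refine Continuous.integrable_of_hasCompactSupport (by fun_prop) ?_
      refine HasCompactSupport.mul_left ?_
      exact hc.comp_left (g := fun y : ℝ => max y 0) (max_self 0)
    have i2 : Integrable (fun ξ : ℝ => |ξ| * max (-H (2 * Real.pi * ξ)) 0) := by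
      refine Continuous.integrable_of_hasCompactSupport (by fun_prop) ?_
      refine HasCompactSupport.mul_left ?_
      exact hc.comp_left (g := fun y : ℝ => max (-y) 0) (by simp)
    rw [← integral_sub i1 i2]
    refine integral_congr_ae (Eventually.of_forall fun ξ => ?_)
    show |ξ| * max (H (2 * Real.pi * ξ)) 0 - |ξ| * max (-H (2 * Real.pi * ξ)) 0 = |ξ| * H (2 * Real.pi * ξ)
    rw [← mul_sub, ← hsplit]

/-- the limit of the mean of the real part of the trigonometric sums -/
theorem seq_dyson (hP : ∀ n, IsLim (seen dl) (P n)) (hσ : ∀ n, Spec (P n : Measure (ℤ → ℝ)) (σ n))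
    (hL1 : ∀ n, 1 ≤ L n) (hL : Tendsto L atTop atTop) {φ : ℝ → ℝ} (h1 : ContDiff ℝ ∞ φ)
    (h2 : HasCompactSupport φ) :
    Tendsto (fun n => L n * ∫ x, (TF φ (L n) x).re ∂(σ n)) atTop
      (𝓝 (∫ ξ : ℝ, |ξ| * (HT φ (2 * Real.pi * ξ)).re)) := by
  have hCC := cc_of h1 h2
  have hTc := HT_cont hCC
  obtain ⟨B0, M, R, hT⟩ := lp1_of h1 h2
  obtain ⟨C, hC, hmass⟩ := mass_le
  obtain ⟨C1, hC1, hdec⟩ := TF_decay h1 h2
  have hpi := Real.pi_pos
  have hR := hT.R1
  have hM : 0 ≤ M := by
    have := (abs_nonneg _).trans (hT.lip 1 0)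
    rw [sub_zero, abs_one, mul_one] at this
    exact this
  have hB0 : 0 ≤ B0 := (abs_nonneg _).trans (hT.b 0)
  set I0 : ℝ := ∫ ξ : ℝ, |ξ| * (HT φ (2 * Real.pi * ξ)).re with hI0
  -- the cut off integrals
  have hcut : Tendsto (fun k : ℕ => ∫ ξ : ℝ, |ξ| * (trap ((k : ℝ) + 1) (2 * ((k : ℝ) + 1)) (2 * Real.pi * ξ) *
      (HT φ (2 * Real.pi * ξ)).re)) atTop (𝓝 I0) := by
    refine tendsto_integral_of_dominated_convergence (fun ξ => |ξ| * ‖HT φ (2 * Real.pi * ξ)‖)
      (fun k => ?_) (abs_HT_int hCC) (fun k => Eventually.of_forall fun ξ => ?_)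
      (Eventually.of_forall fun ξ => ?_)
    · have ht := trap_cont ((k : ℝ) + 1) (2 * ((k : ℝ) + 1))
      have : Continuous fun ξ : ℝ => |ξ| * (trap ((k : ℝ) + 1) (2 * ((k : ℝ) + 1)) (2 * Real.pi * ξ) *
        (HT φ (2 * Real.pi * ξ)).re) := by fun_prop
      exact this.aestronglyMeasurable
    · rw [norm_mul, norm_mul, Real.norm_eq_abs, abs_abs, Real.norm_of_nonneg (trap_nonneg _ _ _)]
      refine mul_le_mul_of_nonneg_left ?_ (abs_nonneg _)
      have e1 := trap_le ((k : ℝ) + 1) (2 * ((k : ℝ) + 1)) (2 * Real.pi * ξ)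
      have e0 := trap_nonneg ((k : ℝ) + 1) (2 * ((k : ℝ) + 1)) (2 * Real.pi * ξ)
      have e2 := Complex.abs_re_le_norm (HT φ (2 * Real.pi * ξ))
      rw [Real.norm_eq_abs]
      calc _ ≤ 1 * |(HT φ (2 * Real.pi * ξ)).re| := mul_le_mul_of_nonneg_right e1 (abs_nonneg _)
        _ ≤ _ := by rw [one_mul]; exact e2
    · refine tendsto_const_nhds.congr' ?_
      filter_upwards [eventually_ge_atTop ⌈|2 * Real.pi * ξ|⌉₊] with k hk
      have h3 : |2 * Real.pi * ξ| ≤ k := (Nat.le_ceil _).trans (by exact_mod_cast hk)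
      rw [trap_one (by linarith [(Nat.cast_nonneg k : (0 : ℝ) ≤ k)]) (by linarith), one_mul]
  rw [Metric.tendsto_nhds]
  intro η hη
  -- choice of the cut
  have hk : Tendsto (fun k : ℕ => 8 * C * C1 / ((k : ℝ) + 1)) atTop (𝓝 0) :=
    tendsto_const_nhds.div_atTop (tendsto_atTop_add_const_right _ _ tendsto_natCast_atTop_atTop)
  obtain ⟨k, hk1, hk2⟩ := (((Metric.tendsto_nhds.1 hcut) (η / 4) (by positivity)).and
    (hk.eventually_lt_const (show (0 : ℝ) < η / 4 by positivity))).exists
  set B : ℝ := (k : ℝ) + 1 with hB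
  have hBp : 0 < B := by rw [hB]; positivity
  have hA := vague_signed hP hσ hL1 hL (H := fun y => trap B (2 * B) y * (HT φ y).re)
    ((trap_cont _ _).mul (Complex.continuous_re.comp hTc)) (fun y => by
      simp only [trap_even, HT_neg, Complex.conj_re]) (B := 2 * B) (by positivity)
    (fun y hy => by simp only [trap_zero (show B < 2 * B by linarith) hy, zero_mul])
  set W : ℝ := (2 * R + 5) * (M + B0 * (2 * B)) with hW
  have hW0 : 0 ≤ W := by positivity
  have hE : Tendsto (fun n => W * (C * (2 * B) ^ 2) / L n) atTop (𝓝 0) := tendsto_const_nhds.div_atTop hL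
  filter_upwards [(Metric.tendsto_nhds.1 hA) (η / 4) (by positivity),
    hE.eventually_lt_const (show (0 : ℝ) < η / 4 by positivity)] with n h3 h4
  rw [Real.dist_eq] at h3 hk1 ⊢
  have hn1 := hL1 n
  have hn : 0 < L n := by linarith
  have := (hσ n).1
  have hTF := TF_cont (f := φ) hT.supp hn
  obtain ⟨Bd, hBd0, hBd⟩ := TF_bdd (f := φ) hT.supp hn
  obtain ⟨G, hG0, hG⟩ := HT_bdd hCC
  set χ : ℝ → ℝ := fun x => trap B (2 * B) (L n * x) with hχ
  have hχc : Continuous χ := (trap_cont _ _).comp (by fun_prop)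
  have hχ0 : ∀ x, 0 ≤ χ x := fun x => trap_nonneg _ _ _
  have hχ1 : ∀ x, χ x ≤ 1 := fun x => trap_le _ _ _
  have i1 : Integrable (fun x => (TF φ (L n) x).re) (σ n) :=
    Integrable.of_bound (Complex.continuous_re.comp hTF).aestronglyMeasurable Bd
      (Eventually.of_forall fun x => (Complex.abs_re_le_norm _).trans (hBd x))
  have bmul : ∀ {w : ℝ → ℝ} {b : ℝ}, Continuous w → (∀ x, |w x| ≤ b) → ∀ {v : ℝ → ℝ} {c : ℝ}, Continuous v →
      (∀ x, |v x| ≤ c) → Integrable (fun x => w x * v x) (σ n) := by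
    intro w b hw hwb v c hv hvc
    refine Integrable.of_bound (hw.mul hv).aestronglyMeasurable (b * c) (Eventually.of_forall fun x => ?_)
    rw [norm_mul]
    exact mul_le_mul (hwb x) (hvc x) (abs_nonneg _) ((abs_nonneg _).trans (hwb 0))
  have hχb : ∀ x, |χ x| ≤ 1 := fun x => by rw [abs_of_nonneg (hχ0 x)]; exact hχ1 x
  have hχb' : ∀ x, |1 - χ x| ≤ 1 := fun x => by
    rw [abs_of_nonneg (by linarith [hχ1 x])]; linarith [hχ0 x]
  have hre : ∀ x, |(TF φ (L n) x).re| ≤ Bd := fun x => (Complex.abs_re_le_norm _).trans (hBd x)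
  have hreH : ∀ x, |(HT φ (L n * x)).re| ≤ G := fun x => (Complex.abs_re_le_norm _).trans (hG _)
  have cre : Continuous fun x => (TF φ (L n) x).re := Complex.continuous_re.comp hTF
  have creH : Continuous fun x => (HT φ (L n * x)).re :=
    Complex.continuous_re.comp (hTc.comp (by fun_prop))
  have i2 : Integrable (fun x => χ x * (TF φ (L n) x).re) (σ n) := bmul hχc hχb cre hre
  have i3 : Integrable (fun x => (1 - χ x) * (TF φ (L n) x).re) (σ n) :=
    bmul (continuous_const.sub hχc) hχb' cre hre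
  have i4 : Integrable (fun x => χ x * (HT φ (L n * x)).re) (σ n) := bmul hχc hχb creH hreH
  -- the splitting
  have hsplit : ∫ x, (TF φ (L n) x).re ∂(σ n) = ∫ x, χ x * (TF φ (L n) x).re ∂(σ n) +
      ∫ x, (1 - χ x) * (TF φ (L n) x).re ∂(σ n) := by
    rw [← integral_add i2 i3]
    refine integral_congr_ae (Eventually.of_forall fun x => ?_)
    show (TF φ (L n) x).re = χ x * (TF φ (L n) x).re + (1 - χ x) * (TF φ (L n) x).re
    ring
  -- the error term
  have hmid : |L n * ∫ x, χ x * (TF φ (L n) x).re ∂(σ n) -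
      L n ^ 2 * ∫ x, χ x * (HT φ (L n * x)).re ∂(σ n)| ≤ W * (C * (2 * B) ^ 2) / L n := by
    have e1 : L n * ∫ x, χ x * (TF φ (L n) x).re ∂(σ n) - L n ^ 2 * ∫ x, χ x * (HT φ (L n * x)).re ∂(σ n) =
        L n * ∫ x, (χ x * (TF φ (L n) x).re - L n * (χ x * (HT φ (L n * x)).re)) ∂(σ n) := by
      rw [integral_sub i2 (i4.const_mul _), integral_const_mul]
      ring
    rw [e1, abs_mul, abs_of_pos hn]
    have e2 : |∫ x, (χ x * (TF φ (L n) x).re - L n * (χ x * (HT φ (L n * x)).re)) ∂(σ n)| ≤
        ∫ x, W * (Set.Icc 0 (2 * B / L n)).indicator (fun _ => (1 : ℝ)) x ∂(σ n) := by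
      refine abs_integral_le_integral_abs.trans ?_
      refine integral_mono_ae (i2.sub (i4.const_mul _)).abs
        (((integrable_const (1 : ℝ)).indicator measurableSet_Icc).const_mul _) ?_
      filter_upwards [ae_Icc (hσ n)] with x hx
      by_cases hxB : x ∈ Set.Icc 0 (2 * B / L n)
      · rw [Set.indicator_of_mem hxB, mul_one]
        rw [Set.mem_Icc, le_div_iff₀ hn] at hxB
        have e3 := TF_riem hT hn1 (L n * x)
        have e4 : L n * x / L n = x := by field_simp
        have e5 : |L n * x| ≤ 2 * B := by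
          rw [abs_of_nonneg (mul_nonneg hn.le hxB.1)]
          linarith
        rw [e4] at e3
        have e6 : ‖TF φ (L n) x - (L n : ℂ) * HT φ (L n * x)‖ ≤ W := by
          have e7 : TF φ (L n) x - (L n : ℂ) * HT φ (L n * x) =
              (L n : ℂ) * ((1 / L n : ℝ) • TF φ (L n) x - HT φ (L n * x)) := by
            rw [Complex.real_smul, mul_sub, ← mul_assoc]
            have : (L n : ℂ) * ((1 / L n : ℝ) : ℂ) = 1 := by
              rw [← Complex.ofReal_mul]
              have : L n * (1 / L n) = 1 := by field_simp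
              rw [this, Complex.ofReal_one]
            rw [this, one_mul]
          rw [e7, norm_mul, Complex.norm_real, Real.norm_of_nonneg hn.le]
          calc L n * ‖(1 / L n : ℝ) • TF φ (L n) x - HT φ (L n * x)‖ ≤
              L n * ((2 * R + 5) * (M + B0 * |L n * x|) / L n) := mul_le_mul_of_nonneg_left e3 hn.le
            _ = (2 * R + 5) * (M + B0 * |L n * x|) := by field_simp
            _ ≤ W := by rw [hW]; gcongr
        have e8 : χ x * (TF φ (L n) x).re - L n * (χ x * (HT φ (L n * x)).re) =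
            χ x * (TF φ (L n) x - (L n : ℂ) * HT φ (L n * x)).re := by
          rw [Complex.sub_re, Complex.re_ofReal_mul]
          ring
        rw [e8, abs_mul, abs_of_nonneg (hχ0 x)]
        have e9 := (Complex.abs_re_le_norm (TF φ (L n) x - (L n : ℂ) * HT φ (L n * x))).trans e6
        calc χ x * |(TF φ (L n) x - (L n : ℂ) * HT φ (L n * x)).re| ≤ 1 * W :=
              mul_le_mul (hχ1 x) e9 (abs_nonneg _) zero_le_one
          _ = W := one_mul W
      · have hz : χ x = 0 := by
          rw [hχ]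
          simp only
          refine trap_zero (by linarith) ?_
          rw [Set.mem_Icc, not_and, le_div_iff₀ hn] at hxB
          have := hxB hx.1
          push Not at this
          rw [abs_of_nonneg (mul_nonneg hn.le hx.1)]
          linarith
        rw [hz, Set.indicator_of_notMem hxB]
        simp
    have e3 : ∫ x, W * (Set.Icc 0 (2 * B / L n)).indicator (fun _ => (1 : ℝ)) x ∂(σ n) ≤
        W * (C * (2 * B / L n) ^ 2) := by
      rw [integral_const_mul, integral_indicator measurableSet_Icc, setIntegral_const, smul_eq_mul, mul_one]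
      exact mul_le_mul_of_nonneg_left (hmass (P n) (hP n) (σ n) (hσ n) _ (by positivity)) hW0
    calc L n * |∫ x, (χ x * (TF φ (L n) x).re - L n * (χ x * (HT φ (L n * x)).re)) ∂(σ n)| ≤
        L n * (W * (C * (2 * B / L n) ^ 2)) := mul_le_mul_of_nonneg_left (e2.trans e3) hn.le
      _ = _ := by field_simp
  -- the tail
  have htail : |L n * ∫ x, (1 - χ x) * (TF φ (L n) x).re ∂(σ n)| ≤ 8 * C * C1 / B := by
    set a : ℝ := B / L n with ha
    have ha0 : 0 < a := by positivity
    set f : ℝ → ℝ := (Set.Ioi a).indicator fun x => (L n ^ 2 / C1) * ((1 - χ x) * (TF φ (L n) x).re) with hf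
    have hfi : Integrable f (σ n) := (i3.const_mul _).indicator measurableSet_Ioi
    have t1 := tail_int (σ := σ n) hC (fun x hx => hmass (P n) (hP n) (σ n) (hσ n) x hx) (ae_Icc (hσ n))
      ha0 (f := f) (fun x hx hx2 hx3 => by
        rw [hf, Set.indicator_of_mem (Set.mem_Ioi.2 hx3), abs_mul, abs_mul,
          abs_of_pos (by positivity : 0 < L n ^ 2 / C1)]
        have t2 := (Complex.abs_re_le_norm _).trans (hdec (L n) x hn1 hx hx2)
        calc L n ^ 2 / C1 * (|1 - χ x| * |(TF φ (L n) x).re|) ≤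
            L n ^ 2 / C1 * (1 * (C1 * (1 / (L n ^ 2 * x ^ 3)))) := by
              refine mul_le_mul_of_nonneg_left ?_ (by positivity)
              exact mul_le_mul (hχb' x) t2 (abs_nonneg _) zero_le_one
          _ = 1 / x ^ 3 := by field_simp)
      (fun x hx => by
        rw [hf, Set.indicator_of_notMem (by rw [Set.mem_Ioi]; linarith)]) hfi
    have t3 : ∫ x, (1 - χ x) * (TF φ (L n) x).re ∂(σ n) = (C1 / L n ^ 2) * ∫ x, f x ∂(σ n) := by
      rw [← integral_const_mul]
      refine integral_congr_ae ?_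
      filter_upwards [ae_Icc (hσ n)] with x hx
      rcases le_or_gt x a with hxa | hxa
      · rw [hf, Set.indicator_of_notMem (by rw [Set.mem_Ioi]; linarith), mul_zero]
        have : χ x = 1 := by
          rw [hχ]
          simp only
          refine trap_one (by linarith) ?_
          rw [abs_of_nonneg (mul_nonneg hn.le hx.1)]
          rw [ha, le_div_iff₀ hn] at hxa
          linarith
        rw [this, sub_self, zero_mul]
      · rw [hf, Set.indicator_of_mem (Set.mem_Ioi.2 hxa), ← mul_assoc]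
        have : C1 / L n ^ 2 * (L n ^ 2 / C1) = 1 := by field_simp
        rw [this, one_mul]
    rw [t3, abs_mul, abs_of_pos hn, abs_mul, abs_of_pos (by positivity : 0 < C1 / L n ^ 2)]
    have t4 : |∫ x, f x ∂(σ n)| ≤ 8 * C / a := abs_integral_le_integral_abs.trans t1
    calc L n * (C1 / L n ^ 2 * |∫ x, f x ∂(σ n)|) ≤ L n * (C1 / L n ^ 2 * (8 * C / a)) := by gcongr
      _ = 8 * C * C1 / B := by
          rw [ha]
          field_simp
  have e : L n * ∫ x, (TF φ (L n) x).re ∂(σ n) - I0 =
      (L n * ∫ x, χ x * (TF φ (L n) x).re ∂(σ n) - L n ^ 2 * ∫ x, χ x * (HT φ (L n * x)).re ∂(σ n)) +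
      (L n ^ 2 * ∫ x, χ x * (HT φ (L n * x)).re ∂(σ n) -
        ∫ ξ : ℝ, |ξ| * (trap B (2 * B) (2 * Real.pi * ξ) * (HT φ (2 * Real.pi * ξ)).re)) +
      ((∫ ξ : ℝ, |ξ| * (trap B (2 * B) (2 * Real.pi * ξ) * (HT φ (2 * Real.pi * ξ)).re)) - I0) +
      L n * ∫ x, (1 - χ x) * (TF φ (L n) x).re ∂(σ n) := by
    rw [hsplit]
    ring
  rw [e]
  have g1 := hmid.trans_lt h4
  have g2 := htail.trans_lt hk2
  rw [abs_lt] at g1 g2 h3 hk1 ⊢
  constructor
  · linarith [g1.1, g2.1, h3.1, hk1.1]
  · linarith [g1.2, g2.2, h3.2, hk1.2]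

end Pool.Agent.Q172.PS
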