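import Pool.Agent.Q172.PS.Z3

/-!
# The inverse square law in the mean, and the summary (helper172)
-/

set_option autoImplicit false

namespace Pool.Agent.Q172.PS

open Finset MeasureTheory Filter Topology Complex ProbabilityTheory
open Pool.Agent.Q278.GF Pool.Agent.Q278.MC Pool.Agent.Q278.KM
open _root_.Q172.ZetaLim (IsLim seen map_shift shift)
open _root_.Q172.Mem (ee UU UU_ee memLp_P lin_norm)
open scoped ContDiff RealInnerProductSpace ComplexConjugate FourierTransform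

/-- the correlation of one gap with a smooth sum -/
lemma corr_TF {P : Measure (ℤ → ℝ)} {σ : Measure ℝ} (hs : P.map shift = P)
    (h : ∀ k : ℤ, MemLp (fun q : ℤ → ℝ => q k - 1) 2 P) (hσ : Spec P σ) {f : ℝ → ℝ} {R L : ℝ}
    (hf : ∀ x, R ≤ |x| → f x = 0) (hL : 0 < L) :
    ∫ q, (q 0 - 1) * Fn f L q ∂P = ∫ x, (TF f L x).re ∂σ := by
  have h1 : R * L ≤ (⌈R * L⌉₊ : ℝ) := Nat.le_ceil _
  set K : ℕ := ⌈R * L⌉₊ with hK
  have h2 := spec_sum hs h hσ (Icc (-(K : ℤ)) K) (fun k => if k = 0 then 1 else 0) (fun k => f (k / L))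
  have h0 : (0 : ℤ) ∈ Icc (-(K : ℤ)) (K : ℤ) := Finset.mem_Icc.2 ⟨by omega, by omega⟩
  have e1 : ∀ q : ℤ → ℝ, (∑ k ∈ Icc (-(K : ℤ)) K, (if k = 0 then (1 : ℝ) else 0) * (q k - 1)) = q 0 - 1 := by
    intro q
    rw [Finset.sum_eq_single_of_mem 0 h0 (fun k _ hk => by rw [if_neg hk, zero_mul]), if_pos rfl, one_mul]
  have e2 : ∀ x : ℝ, (∑ k ∈ Icc (-(K : ℤ)) K, (((if k = 0 then (1 : ℝ) else 0) : ℝ) : ℂ) *
      cexp (((k : ℝ) * x : ℝ) * I)) = 1 := by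
    intro x
    rw [Finset.sum_eq_single_of_mem 0 h0 (fun k _ hk => by rw [if_neg hk, Complex.ofReal_zero, zero_mul]),
      if_pos rfl]
    simp
  simp only [e1, e2, one_mul, Complex.conj_re] at h2
  simp only [Fn_eq_sum hf hL h1, TF_eq_sum hf hL h1]
  exact h2

/-- **the covariances of the gaps in the mean, uniformly over the limit processes** -/
theorem dyson_P {φ : ℝ → ℝ} (h1 : ContDiff ℝ ∞ φ) (h2 : HasCompactSupport φ) {ε : ℝ} (hε : 0 < ε) :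
    ∃ L0 : ℝ, 1 ≤ L0 ∧ ∀ P : ProbabilityMeasure (ℤ → ℝ), IsLim (seen dl) P → ∀ L : ℝ, L0 ≤ L →
      |L * (∫ q, (q 0 - 1) * Fn φ L q ∂(P : Measure (ℤ → ℝ))) - ∫ ξ : ℝ, |ξ| * (𝓕 (fc φ) ξ).re| ≤ ε := by
  by_contra hcon
  push Not at hcon
  have hch : ∀ n : ℕ, ∃ P : ProbabilityMeasure (ℤ → ℝ), IsLim (seen dl) P ∧ ∃ L : ℝ, (n : ℝ) + 1 ≤ L ∧
      ε < |L * (∫ q, (q 0 - 1) * Fn φ L q ∂(P : Measure (ℤ → ℝ))) - ∫ ξ : ℝ, |ξ| * (𝓕 (fc φ) ξ).re| :=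
    fun n => hcon ((n : ℝ) + 1) (by linarith [(Nat.cast_nonneg n : (0 : ℝ) ≤ n)])
  choose P hP L hL hbad using hch
  have hL1 : ∀ n, 1 ≤ L n := fun n => by linarith [hL n, (Nat.cast_nonneg n : (0 : ℝ) ≤ n)]
  have hLt : Tendsto L atTop atTop := tendsto_atTop_mono (fun n => hL n)
    (tendsto_atTop_add_const_right _ (1 : ℝ) tendsto_natCast_atTop_atTop)
  have hsp : ∀ n, ∃ σ : Measure ℝ, Spec (P n : Measure (ℤ → ℝ)) σ := fun n =>
    exists_spec (map_shift (hP n)) (memLp_P (hP n))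
  choose σ hσ using hsp
  have h3 := seq_dyson hP hσ hL1 hLt h1 h2
  obtain ⟨φ', B0, B2, R, hT⟩ := tst_of h1 h2
  obtain ⟨n, hn⟩ := ((Metric.tendsto_nhds.1 h3) ε hε).exists
  rw [Real.dist_eq] at hn
  have hLp : 0 < L n := by linarith [hL1 n]
  rw [← corr_TF (map_shift (hP n)) (memLp_P (hP n)) (hσ n) hT.supp hLp] at hn
  have e : ∫ ξ : ℝ, |ξ| * (HT φ (2 * Real.pi * ξ)).re = ∫ ξ : ℝ, |ξ| * (𝓕 (fc φ) ξ).re := by
    refine integral_congr_ae (Eventually.of_forall fun ξ => ?_)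
    show |ξ| * (HT φ (2 * Real.pi * ξ)).re = |ξ| * (𝓕 (fc φ) ξ).re
    rw [four_HT, HT_neg, Complex.conj_re]
  rw [e] at hn
  exact absurd hn (not_lt.2 (hbad n).le)

/-- **the inverse square law** -/
theorem dyson_val {φ : ℝ → ℝ} (h1 : ContDiff ℝ ∞ φ) (h2 : HasCompactSupport φ) {a : ℝ} (ha : 0 < a)
    (h0 : ∀ t, |t| < a → φ t = 0) :
    ∫ ξ : ℝ, |ξ| * (𝓕 (fc φ) ξ).re = -(1 / (2 * Real.pi ^ 2)) * ∫ t : ℝ, φ t / t ^ 2 := by
  rw [← dyson_const h1 h2 ha h0]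
  refine integral_congr_ae (Eventually.of_forall fun ξ => ?_)
  show |ξ| * (𝓕 (fc φ) ξ).re = |ξ| * (HT φ (2 * Real.pi * ξ)).re
  rw [four_HT, HT_neg, Complex.conj_re]

end Pool.Agent.Q172.PS
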